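import Mathlib

/-! Blocks, defect groups and source idempotents of finite group algebras. -/

namespace Pool.Agent.Puig

open MonoidAlgebra

variable {F G : Type} [Field F] [Group G]

/-- The augmentation: the sum of the coefficients (the scalar by which `x` acts on the trivial
module). -/
noncomputable def aug (x : MonoidAlgebra F G) : F := x.coeff.sum fun _ a => a

/-- `x` is fixed under conjugation by the elements of `D`. -/
def Fix (D : Subgroup G) (x : MonoidAlgebra F G) : Prop :=
  ∀ u ∈ D, of F G u * x = x * of F G u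

open Classical in
/-- The Brauer map of `D`: keep the coefficients of the elements of the centraliser of `D`. -/
noncomputable def Br (D : Subgroup G) (x : MonoidAlgebra F G) : MonoidAlgebra F G :=
  .ofCoeff (x.coeff.filter fun g => g ∈ Subgroup.centralizer (D : Set G))

/-- `b` is a block idempotent: a primitive idempotent of the centre. -/
def IsBlock (b : MonoidAlgebra F G) : Prop :=
  IsIdempotentElem b ∧ b ≠ 0 ∧ (∀ x, x * b = b * x) ∧
    ∀ c, IsIdempotentElem c → (∀ x, x * c = c * x) → c * b = 0 ∨ c * b = b

/-- `D` is a defect group of `b`: a `p`-subgroup maximal with `Br D b ≠ 0`. -/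
def IsDefect (p : ℕ) (b : MonoidAlgebra F G) (D : Subgroup G) : Prop :=
  IsPGroup p D ∧ Br D b ≠ 0 ∧ ∀ E : Subgroup G, IsPGroup p E → D ≤ E → Br E b ≠ 0 → E = D

/-- `i` is a primitive idempotent of the algebra of `D`-fixed elements. -/
def Prim (D : Subgroup G) (i : MonoidAlgebra F G) : Prop :=
  IsIdempotentElem i ∧ i ≠ 0 ∧ Fix D i ∧
    ∀ e, IsIdempotentElem e → Fix D e → i * e = e → e * i = e → e = 0 ∨ e = i

/-- `i` is a source idempotent of the block `b` for the defect group `D`. -/
def IsSource (b : MonoidAlgebra F G) (D : Subgroup G) (i : MonoidAlgebra F G) : Prop :=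
  Prim D i ∧ b * i = i ∧ Br D i ≠ 0

/-- The interior algebra `(P, α, A)` is isomorphic to the source algebra `(D, u ↦ i u, i F G i)`. -/
def IsoSrc {P A : Type} [Group P] [Ring A] [Algebra F A] (α : P →* Aˣ) (D : Subgroup G)
    (i : MonoidAlgebra F G) : Prop :=
  ∃ (φ : P ≃* D) (Φ : A →ₙₐ[F] MonoidAlgebra F G), Function.Injective Φ ∧
    Set.range Φ = {x | i * x * i = x} ∧ ∀ u, Φ (α u : A) = i * of F G (φ u : G)

end Pool.Agent.Puig
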