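import Pool.Agent.Work.MP_cea1f0_al.D.Prim
import Pool.Agent.Work.MP_cea1f0_al.D.Osi

-- merged part: Pool.Agent.Work.MP_cea1f0_al.G1b
section
/-! Source idempotents: uniqueness, separability, defect zero, normal subgroups. -/

namespace Pool.Agent.Puig

open MonoidAlgebra

variable {F G : Type} [Field F] [Group G] [Finite G]

section
omit [Finite G]

theorem g1b_inv (g : G) : of F G g * of F G g⁻¹ = 1 := by rw [← map_mul, mul_inv_cancel, map_one]

theorem g1b_inv' (g : G) : of F G g⁻¹ * of F G g = 1 := by rw [← map_mul, inv_mul_cancel, map_one]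

/-- Conjugation by a group element. -/
noncomputable def g1b_c (g : G) (x : MonoidAlgebra F G) : MonoidAlgebra F G :=
  of F G g * x * of F G g⁻¹

theorem g1b_c_coeff (g : G) (x : MonoidAlgebra F G) (h : G) :
    (g1b_c g x).coeff h = x.coeff (g⁻¹ * h * g) := by
  simp [g1b_c, mul_assoc]

theorem g1b_c_mul (g : G) (x y : MonoidAlgebra F G) : g1b_c g (x * y) = g1b_c g x * g1b_c g y := by
  simp only [g1b_c, mul_assoc]
  rw [← mul_assoc (of F G g⁻¹), g1b_inv', one_mul]

theorem g1b_c_c (g h : G) (x : MonoidAlgebra F G) : g1b_c g (g1b_c h x) = g1b_c (g * h) x := by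
  simp only [g1b_c, mul_inv_rev, map_mul, mul_assoc]

theorem g1b_c_one (x : MonoidAlgebra F G) : g1b_c 1 x = x := by
  rw [g1b_c, inv_one, map_one, one_mul, mul_one]

theorem g1b_c_inv (g : G) (x : MonoidAlgebra F G) : g1b_c g⁻¹ (g1b_c g x) = x := by
  rw [g1b_c_c, inv_mul_cancel, g1b_c_one]

theorem g1b_c_inv' (g : G) (x : MonoidAlgebra F G) : g1b_c g (g1b_c g⁻¹ x) = x := by
  rw [g1b_c_c, mul_inv_cancel, g1b_c_one]

theorem g1b_c_zero (g : G) : g1b_c g (0 : MonoidAlgebra F G) = 0 := by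
  rw [g1b_c, mul_zero, zero_mul]

theorem g1b_c_ne {g : G} {x : MonoidAlgebra F G} (h : x ≠ 0) : g1b_c g x ≠ 0 := fun e =>
  h (by rw [← g1b_c_inv g x, e, g1b_c_zero])

variable {D D' : Subgroup G} {g : G}

theorem g1b_symm (hg : ∀ u, u ∈ D ↔ g⁻¹ * u * g ∈ D') (u : G) :
    u ∈ D' ↔ g⁻¹⁻¹ * u * g⁻¹ ∈ D := by
  rw [hg]
  simp [mul_assoc]

theorem g1b_fix (hg : ∀ u, u ∈ D ↔ g⁻¹ * u * g ∈ D') {x : MonoidAlgebra F G} (hx : Fix D' x) :
    Fix D (g1b_c g x) := fix_iff.2 fun u hu h => by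
  rw [g1b_c_coeff, g1b_c_coeff, ← fix_iff.1 hx _ ((hg u).1 hu) (g⁻¹ * h * g)]
  exact congrArg _ (by group)

theorem g1b_cen (hg : ∀ u, u ∈ D ↔ g⁻¹ * u * g ∈ D') {c : G}
    (hc : g⁻¹ * c * g ∈ Subgroup.centralizer (D' : Set G)) :
    c ∈ Subgroup.centralizer (D : Set G) := fun u hu => by
  have := hc _ ((hg u).1 hu)
  calc u * c = g * (g⁻¹ * u * g * (g⁻¹ * c * g)) * g⁻¹ := by group
    _ = _ := by rw [this]; group

theorem g1b_Br (hg : ∀ u, u ∈ D ↔ g⁻¹ * u * g ∈ D') (x : MonoidAlgebra F G) :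
    Br D (g1b_c g x) = g1b_c g (Br D' x) := by
  ext c
  rw [coeff_Br, g1b_c_coeff, g1b_c_coeff, coeff_Br]
  by_cases hc : g⁻¹ * c * g ∈ Subgroup.centralizer (D' : Set G)
  · rw [if_pos hc, if_pos (g1b_cen hg hc)]
  · rw [if_neg hc, if_neg fun k => hc (g1b_cen (g1b_symm hg) (by simpa [mul_assoc] using k))]

theorem g1b_prim (hg : ∀ u, u ∈ D ↔ g⁻¹ * u * g ∈ D') {j : MonoidAlgebra F G} (hj : Prim D' j) :
    Prim D (g1b_c g j) := by
  refine ⟨show _ * _ = _ by rw [← g1b_c_mul, hj.1.eq], g1b_c_ne hj.2.1, g1b_fix hg hj.2.2.1,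
    fun e he hf h1 h2 => ?_⟩
  refine (hj.2.2.2 (g1b_c g⁻¹ e) (show _ * _ = _ by rw [← g1b_c_mul, he.eq])
    (g1b_fix (g1b_symm hg) hf) ?_ ?_).imp (fun k => ?_) fun k => ?_
  · rw [← g1b_c_inv g j, ← g1b_c_mul, h1]
  · rw [← g1b_c_inv g j, ← g1b_c_mul, h2]
  · rw [← g1b_c_inv' g e, k, g1b_c_zero]
  · rw [← g1b_c_inv' g e, k]

theorem g1b_trc_sum {T ι : Type} [Fintype T] (t : T → G) (s : Finset ι)
    (y : ι → MonoidAlgebra F G) : trc t (∑ a ∈ s, y a) = ∑ a ∈ s, trc t (y a) := by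
  simp only [trc, Finset.mul_sum, Finset.sum_mul]
  exact Finset.sum_comm

theorem g1b_trc_c {T : Type} [Fintype T] {t : T → G} (ht : IsTr D ⊤ t) {n : G}
    (hn : n ∈ Subgroup.normalizer (D : Set G)) {x : MonoidAlgebra F G} (hx : Fix D x) :
    trc t (g1b_c n x) = trc t x := by
  have h' : IsTr D ⊤ fun c => t c * n := ⟨fun _ => trivial, fun d _ => by
    refine (existsUnique_congr fun c => ?_).1 (ht.2 (d * n⁻¹) trivial)
    rw [Subgroup.mem_normalizer_iff''.1 hn]
    simp [mul_assoc]⟩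
  rw [trc_indep ht h' hx]
  exact Finset.sum_congr rfl fun c _ => g1b_c_c (t c) n x

/-- The Casimir element of a relative trace. -/
theorem g1b_cas {T N : Type} [Fintype T] [AddCommGroup N] [Module F N] {t : T → G}
    (ht : IsTr D ⊤ t) {y y' : MonoidAlgebra F G} (hy : Fix D y) (hy' : Fix D y')
    (B : MonoidAlgebra F G →ₗ[F] MonoidAlgebra F G →ₗ[F] N)
    (hB : ∀ d ∈ D, ∀ x z, B (x * of F G d) z = B x (of F G d * z)) (w : MonoidAlgebra F G) :
    ∑ c, B (w * (of F G (t c) * y)) (y' * of F G (t c)⁻¹) =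
      ∑ c, B (of F G (t c) * y) (y' * of F G (t c)⁻¹ * w) := by
  induction w using MonoidAlgebra.induction_on with
  | of g =>
    obtain ⟨θ, hθ⟩ := ht.perm le_top
    refine Fintype.sum_equiv (θ ⟨g, trivial⟩) _ _ fun c => ?_
    have hd := hθ ⟨g, trivial⟩ c
    generalize θ ⟨g, trivial⟩ c = c' at hd ⊢
    have e1 : of F G g * (of F G (t c) * y) = of F G (t c') * y * of F G ((t c')⁻¹ * (g * t c)) := by
      rw [mul_assoc, ← hy _ hd, ← mul_assoc, ← mul_assoc, ← map_mul, ← map_mul, mul_inv_cancel_left]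
    rw [e1, hB _ hd, ← mul_assoc, hy' _ hd, mul_assoc, mul_assoc, ← map_mul, ← map_mul]
    simp only [mul_assoc, mul_inv_cancel, mul_one]
  | add a b ha hb =>
    simp only [add_mul, mul_add, map_add, LinearMap.add_apply, Finset.sum_add_distrib, ha, hb]
  | smul r a ha =>
    simp only [smul_mul_assoc, mul_smul_comm, map_smul, LinearMap.smul_apply, ← Finset.smul_sum, ha]

end

/- PLAN: with a transversal `t'` of `D` in its normaliser, `Br D i = Br D (i * b * i)` is the sum of
the `Br D (i * (of n * (y * j * y') * of n⁻¹) * i)`, `n = t' a` (`Br_trc'`, `Br_mul`; conjugation by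
`n` preserves `Fix D` and commutes with `Br D`).  If all these elements were nilpotent so would be
their sum (`PrimIn.nil_sum`) and `Br D i`.  `PrimIn.eqv` for `i` and the conjugate of `j`. -/
theorem source_conj (p : ℕ) [Fact p.Prime] [CharP F p] {T : Type} [Fintype T] {D : Subgroup G}
    (hD : IsPGroup p D) {t : T → G} (ht : IsTr D ⊤ t) {b i j y y' : MonoidAlgebra F G}
    (hi : IsSource b D i) (hj : Prim D j) (hy : Fix D y) (hy' : Fix D y')
    (h : trc t (y * j * y') = b) :
    ∃ n ∈ Subgroup.normalizer (D : Set G), ∃ a a', Fix D a ∧ Fix D a' ∧ a * a' = i ∧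
      a' * a = of F G n * j * of F G n⁻¹ := by
  obtain ⟨T', _, t', ht'⟩ := exists_isTr (R := D) (D := ⊤ ⊓ Subgroup.normalizer (D : Set G))
    (le_inf le_top Subgroup.le_normalizer)
  have hn : ∀ a u, u ∈ D ↔ (t' a)⁻¹ * u * t' a ∈ D := fun a =>
    Subgroup.mem_normalizer_iff''.1 (ht'.1 a).2
  have hw : Fix D (y * j * y') := b1b_mul (b1b_mul hy hj.2.2.1) hy'
  have fi := hi.1.2.2.1
  have fb : Fix D b := h ▸ (fix_trc ht le_top hw).mono le_top
  have fc : ∀ a, Fix D (g1b_c (t' a) (y * j * y')) := fun a => g1b_fix (hn a) hw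
  have fz : ∀ a, Fix D (i * g1b_c (t' a) (y * j * y') * i) := fun a => b1b_mul (b1b_mul fi (fc a)) fi
  have e : Br D (∑ a, i * g1b_c (t' a) (y * j * y') * i) = Br D i := by
    have e1 : Br D b = ∑ a, Br D (g1b_c (t' a) (y * j * y')) := by
      rw [← h, Br_trc' p hD le_top ht ht' hw]
      exact Finset.sum_congr rfl fun a _ => (g1b_Br (hn a) _).symm
    have e2 : i * b * i = i := by rw [mul_assoc, hi.2.1, hi.1.1.eq]
    rw [← BrL_apply, map_sum]
    conv_rhs => rw [← e2, Br_mul p hD (b1b_mul fi fb) fi, Br_mul p hD fi fb, e1, Finset.mul_sum,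
      Finset.sum_mul]
    refine Finset.sum_congr rfl fun a _ => ?_
    rw [BrL_apply, Br_mul p hD (b1b_mul fi (fc a)) fi, Br_mul p hD fi (fc a)]
  obtain ⟨a, ha⟩ : ∃ a, ¬ IsNilpotent (i * g1b_c (t' a) (y * j * y') * i) := by
    by_contra! k
    have k1 := b1b_nil p hD ((fixAlg F D).sum_mem fun a _ => fz a)
      ((prim_iff.1 hi.1).nil_sum Finset.univ fun a _ => ⟨fz a, b1b_idem hi.1.1 _, k a⟩)
    rw [e] at k1
    refine hi.2.2 (IsIdempotentElem.eq_zero_of_isNilpotent ?_ k1)
    exact (Br_mul p hD fi fi).symm.trans (congrArg _ hi.1.1.eq)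
  rw [g1b_c_mul, g1b_c_mul, ← mul_assoc, ← mul_assoc] at ha
  obtain ⟨c, hc, c', hc', h1, h2, -⟩ := (prim_iff.1 hi.1).eqv (prim_iff.1 (g1b_prim (hn a) hj))
    (g1b_fix (hn a) hy) (g1b_fix (hn a) hy') ha
  exact ⟨t' a, (ht'.1 a).2, c, c', hc, hc', h1, h2⟩

/- PLAN: `b = trc t y` (`IsDefect.inTr`), `1 = ∑ j a` (`exists_decIn`); as in `IsBlock.inTr_of_sum`
some `b * trc t (y * j a)` is invertible, so `b = trc t (y₁ * j * 1)`.  `source_conj` gives `n`, `a`,
`a'` with `of n * j * of n⁻¹ = a' * i * a`; `trc t (of n * x * of n⁻¹) = trc t x` for fixed `x`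
(`fun c => t c * n` is again a transversal, `trc_indep`). -/
theorem source_trace (p : ℕ) [Fact p.Prime] [CharP F p] {b i : MonoidAlgebra F G} (hb : IsBlock b)
    {D : Subgroup G} (hD : IsDefect p b D) (hi : IsSource b D i) :
    ∃ (T : Type) (_ : Fintype T) (t : T → G) (y y' : MonoidAlgebra F G),
      IsTr D ⊤ t ∧ Fix D y ∧ Fix D y' ∧ trc t (y * i * y') = b := by
  obtain ⟨T, _, t, y, ht, hy, e⟩ := hD.inTr p hb
  obtain ⟨n, j, hj, -, hs⟩ := exists_decIn (B := fixAlg F D) IsIdempotentElem.one (one_mem _)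
  have fb := hb.prim.2.2.1
  have fj : ∀ a, Fix D (y * j a) := fun a => b1b_mul hy (hj a).2.2.1
  have fz : ∀ a, Fix ⊤ (b * trc t (y * j a) * b) := fun a =>
    b1b_mul (b1b_mul fb (fix_trc ht le_top (fj a))) fb
  have e1 : ∑ a, b * trc t (y * j a) * b = b := by
    rw [← Finset.sum_mul, ← Finset.mul_sum, ← g1b_trc_sum, ← Finset.mul_sum, hs, mul_one, e, hb.1.eq,
      hb.1.eq]
  obtain ⟨a, ha⟩ : ∃ a, ¬ IsNilpotent (b * trc t (y * j a) * b) := by
    by_contra! k
    have k1 := (prim_iff.1 hb.prim).nil_sum Finset.univ fun a _ => ⟨fz a, b1b_idem hb.1 _, k a⟩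
    rw [e1] at k1
    exact hb.2.1 (hb.1.eq_zero_of_isNilpotent k1)
  obtain ⟨w, fw, -, -, hw⟩ := (hb.prim.fit (fz a) (b1b_idem hb.1 _)).resolve_left ha
  have f1 : Fix D (w * b * y) := b1b_mul ((b1b_mul fw fb).mono le_top) hy
  have f2 : Fix D b := fb.mono le_top
  have e2 : trc t (w * b * y * j a * b) = b := by
    rw [mul_assoc (w * b), trc_mul ht (b1b_mul fw fb) fb, mul_assoc w, mul_assoc w, hw]
  obtain ⟨m, hm, c, c', hc, hc', h1, h2⟩ := source_conj p hD.1 ht hi (prim_iff.2 (hj a)) f1 f2 e2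
  have hn := Subgroup.mem_normalizer_iff''.1 hm
  refine ⟨T, inferInstance, t, g1b_c m (w * b * y) * c', c * g1b_c m b, ht,
    b1b_mul (g1b_fix hn f1) hc', b1b_mul hc (g1b_fix hn f2), ?_⟩
  have e3 : g1b_c m (j a) = c' * i * c := by
    rw [← (hj a).1.eq, g1b_c_mul, show g1b_c m (j a) = c' * c from h2.symm, ← h1]
    simp only [mul_assoc]
  refine Eq.trans ?_ e2
  rw [← g1b_trc_c ht hm (b1b_mul (b1b_mul f1 (hj a).2.2.1) f2), g1b_c_mul _ _ b,
    g1b_c_mul _ _ (j a), e3]
  simp only [mul_assoc]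

/- PLAN: conjugate `i'` by `g` from `IsDefect.conj` to a source idempotent for `D`; `source_trace`,
`source_conj`. -/
theorem source_eqv (p : ℕ) [Fact p.Prime] [CharP F p] {b i i' : MonoidAlgebra F G} (hb : IsBlock b)
    {D D' : Subgroup G} (hD : IsDefect p b D) (hD' : IsDefect p b D') (hi : IsSource b D i)
    (hi' : IsSource b D' i') : Eqv i i' := by
  obtain ⟨g, hg⟩ := hD.conj p hb hD'
  have hj : IsSource b D (g1b_c g i') := by
    refine ⟨g1b_prim hg hi'.1, ?_, by rw [g1b_Br hg]; exact g1b_c_ne hi'.2.2⟩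
    rw [g1b_c, ← mul_assoc, ← mul_assoc, ← hb.2.2.1, mul_assoc _ b, hi'.2.1]
  obtain ⟨T, _, t, y, y', ht, hy, hy', e⟩ := source_trace p hb hD hj
  obtain ⟨n, -, a, a', -, -, h1, h2⟩ := source_conj p hD.1 ht hi hj.1 hy hy' e
  refine ⟨a * of F G (n * g), of F G (n * g)⁻¹ * a', ?_, ?_⟩
  · rw [mul_assoc, ← mul_assoc (of F G (n * g)), g1b_inv, one_mul, h1]
  · have := g1b_c_inv (n * g) i'
    rw [← g1b_c_c, g1b_c, inv_inv] at this
    rw [mul_assoc, ← mul_assoc a', h2, ← mul_assoc]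
    exact this

/-- Relative separability of an interior algebra. -/
def SepInt (F : Type) [Field F] {P A : Type} [Group P] [Ring A] [Algebra F A] (α : P →* Aˣ) : Prop :=
  ∃ (J : Type) (_ : Fintype J) (a b : J → A), ∑ j, a j * b j = 1 ∧
    ∀ (N : Type) [AddCommGroup N] [Module F N] (β : A →ₗ[F] A →ₗ[F] N),
      (∀ u x y, β (x * α u) y = β x (α u * y)) →
      ∀ y, ∑ j, β (y * a j) (b j) = ∑ j, β (a j) (b j * y)

/- PLAN: `source_trace`; let `π : F G → A` be linear with `Φ (π x) = i * x * i`;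
`a c = π (of (t c) * y)`, `b c = π (y' * of (t c)⁻¹)`.  For `w = of g` one has
`∑ β (π (w * of (t c) * y)) (π (y' * of (t c)⁻¹)) = ∑ β (π (of (t c) * y)) (π (y' * of (t c)⁻¹ * w))`
by `IsTr.perm` and the balance; extend linearly in `w` and take `w = Φ x`. -/
theorem sep_source (p : ℕ) [Fact p.Prime] [CharP F p] {b i : MonoidAlgebra F G} (hb : IsBlock b)
    {D : Subgroup G} (hD : IsDefect p b D) (hi : IsSource b D i) {P A : Type} [Group P] [Ring A]
    [Algebra F A] {α : P →* Aˣ} (h : IsoSrc α D i) : SepInt F α := by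
  obtain ⟨T, _, t, y, y', ht, hy, hy', e⟩ := source_trace p hb hD hi
  obtain ⟨φ, Φ, inj, rg, hα⟩ := h
  let L : A →ₗ[F] MonoidAlgebra F G := ⟨⟨Φ, map_add Φ⟩, map_smul Φ⟩
  obtain ⟨ψ, hψ⟩ := L.exists_leftInverse_of_injective (LinearMap.ker_eq_bot.2 inj)
  let π : MonoidAlgebra F G →ₗ[F] A := ψ ∘ₗ LinearMap.mulLeftRight F (i, i)
  have ii := hi.1.1.eq
  have ii' : ∀ x, i * (i * x) = i * x := fun x => by rw [← mul_assoc, ii]
  have hπ : ∀ x, Φ (π x) = i * x * i := fun x => by
    obtain ⟨a, ha⟩ : i * x * i ∈ Set.range Φ := by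
      rw [rg]
      exact b1b_idem hi.1.1 x
    rw [← ha]
    exact congrArg Φ ((congrArg ψ ha.symm).trans (LinearMap.congr_fun hψ a))
  have co : ∀ a, i * Φ a * i = Φ a := fun a => rg.subset ⟨a, rfl⟩
  have c1 : ∀ a, Φ a * i = Φ a := fun a => by rw [← co a, mul_assoc, ii]
  have c2 : ∀ a, i * Φ a = Φ a := fun a => by rw [← co a, ← mul_assoc, ii']
  have one : Φ 1 = i := by simpa [← MonoidAlgebra.one_def] using hα 1
  have m1 : ∀ a x, a * π x = π (Φ a * x) := fun a x => inj (by
    rw [map_mul, hπ, hπ, ← mul_assoc, ← mul_assoc, ← mul_assoc, c1, c2])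
  have m2 : ∀ a x, π x * a = π (x * Φ a) := fun a x => inj (by
    rw [map_mul, hπ, hπ, mul_assoc, mul_assoc, mul_assoc, mul_assoc, c1, c2])
  have m3 : ∀ x z, π x * π z = π (x * i * z) := fun x z => inj (by
    rw [map_mul, hπ, hπ, hπ]
    simp only [mul_assoc, ii'])
  refine ⟨T, inferInstance, fun c => π (of F G (t c) * y), fun c => π (y' * of F G (t c)⁻¹), ?_,
    fun N _ _ β hβ w => ?_⟩
  · simp only [m3]
    rw [← map_sum]
    refine inj ?_
    rw [hπ, one, show ∑ c, of F G (t c) * y * i * (y' * of F G (t c)⁻¹) = b from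
      Eq.trans (Finset.sum_congr rfl fun c _ => by simp only [mul_assoc]) e, mul_assoc, hi.2.1, ii]
  · simp only [m1, m2]
    refine g1b_cas ht hy hy' (β.compl₁₂ π π) (fun d hd x z => ?_) (Φ w)
    have k : Φ (α (φ.symm ⟨d, hd⟩) : A) = i * of F G d := by rw [hα, MulEquiv.apply_symm_apply]
    have k1 : π (x * of F G d) = π x * α (φ.symm ⟨d, hd⟩) := inj (by
      rw [map_mul Φ, hπ, hπ, k, mul_assoc, mul_assoc, hi.1.2.2.1 d hd]
      simp only [mul_assoc, ii'])
    have k2 : π (of F G d * z) = α (φ.symm ⟨d, hd⟩) * π z := inj (by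
      rw [map_mul Φ, hπ, hπ, k, ← mul_assoc, ← mul_assoc, ← mul_assoc, mul_assoc i _ i,
        hi.1.2.2.1 d hd, ii'])
    rw [LinearMap.compl₁₂_apply, LinearMap.compl₁₂_apply, k1, k2, hβ]

/- PLAN: `source_trace` with `D = ⊥`; let `l x` be the scalar with `i * x * i - l x • i` nilpotent
(`PrimIn.split`), a linear form, multiplicative on the corner.  As in `sep_source`,
`z = ∑ l (y' * of (t c)⁻¹) • (i * of (t c) * y * i)` has `x * z = l x • z` on the corner and
`l z = 1`; so `z` is invertible and `x = l x • i`.  (Or `exists_isoSrc`-like corner ring and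
`SepInt`.) -/
theorem bim_bot (p : ℕ) [Fact p.Prime] [CharP F p] [IsAlgClosed F] {b i : MonoidAlgebra F G}
    (hb : IsBlock b) (hD : IsDefect p b ⊥) (hi : IsSource b ⊥ i) : bim i i ≤ 1 := by
  obtain ⟨T, _, t, y, y', ht, hy, hy', e⟩ := source_trace p hb hD hi
  have hp := prim_iff.1 hi.1
  have ii := hi.1.1.eq
  have ii' : ∀ x, i * (i * x) = i * x := fun x => by rw [← mul_assoc, ii]
  have all : ∀ x : MonoidAlgebra F G, x ∈ fixAlg F (⊥ : Subgroup G) := fun x u hu => by
    rw [Subgroup.mem_bot.1 hu, map_one, one_mul, mul_one]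
  have co : ∀ (x : MonoidAlgebra F G) (c : F), i * (i * x * i - c • i) * i = i * x * i - c • i :=
    fun x c => by rw [mul_sub, sub_mul, b1b_idem hi.1.1, mul_smul_comm, smul_mul_assoc, ii, ii]
  have add : ∀ x z (c d : F), IsNilpotent (i * x * i - c • i) → IsNilpotent (i * z * i - d • i) →
      IsNilpotent (i * (x + z) * i - (c + d) • i) := fun x z c d h1 h2 => by
    rw [mul_add, add_mul, add_smul, add_sub_add_comm]
    exact hp.nil_add (all _) (co x c) (all _) (co z d) h1 h2
  have smul : ∀ x (c d : F), IsNilpotent (i * x * i - c • i) →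
      IsNilpotent (i * (d • x) * i - (d * c) • i) := fun x c d h1 => by
    rw [mul_smul_comm, smul_mul_assoc, mul_smul, ← smul_sub]
    exact h1.smul d
  choose l hl using fun x => hp.split (all _) (b1b_idem hi.1.1 x)
  have uniq : ∀ x (c : F), IsNilpotent (i * x * i - c • i) → l x = c := fun x c h1 => by
    by_contra hne
    have k := smul _ _ (c - l x)⁻¹ (add _ _ _ _ (hl x) (smul x c (-1) h1))
    rw [neg_one_smul, add_neg_cancel, smul_zero, mul_zero, zero_mul, neg_one_mul, ← sub_eq_add_neg,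
      ← neg_sub c, mul_neg, inv_mul_cancel₀ (sub_ne_zero.2 (Ne.symm hne)), neg_one_smul, zero_sub,
      neg_neg] at k
    exact hi.1.2.1 (hi.1.1.eq_zero_of_isNilpotent k)
  let L : MonoidAlgebra F G →ₗ[F] F :=
    ⟨⟨l, fun x z => uniq _ _ (add _ _ _ _ (hl x) (hl z))⟩, fun d x => uniq _ _ (smul _ _ d (hl x))⟩
  have mul : ∀ x z, l (x * i * z) = l x * l z := fun x z => by
    have k1 : IsNilpotent (i * ((i * x * i - l x • i) * z) * i - (0 : F) • i) := by
      rw [zero_smul, sub_zero]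
      refine (hp.fit (all _) (b1b_idem hi.1.1 _)).resolve_right ?_
      rintro ⟨s, -, -, k, -⟩
      obtain ⟨n, hn⟩ := hl x
      have c0 := co x (l x)
      generalize i * x * i - l x • i = u at k hn c0
      have c1 : u * i = u := by rw [← c0, mul_assoc, ii]
      have c2 : i * u = u := by rw [← c0, ← mul_assoc, ii']
      rw [← mul_assoc, c2, mul_assoc, mul_assoc] at k
      have k2 := b1a_pow (x := u) (y := z * (i * s)) (n := 1)
        (by rw [pow_succ, mul_assoc, k, pow_one, c1]) n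
      rw [add_comm, pow_succ, hn, zero_mul, zero_mul, pow_one] at k2
      exact hi.1.2.1 (by rw [← k, ← k2, zero_mul])
    refine uniq _ _ ?_
    have k2 := add _ _ _ _ k1 (smul _ _ (l x) (hl z))
    have e2 : i * ((i * x * i - l x • i) * z + l x • z) * i = i * (x * i * z) * i := by
      simp only [mul_add, mul_sub, sub_mul, mul_smul_comm, smul_mul_assoc, mul_assoc, ii',
        sub_add_cancel]
    rwa [zero_add, e2] at k2
  have li : ∀ x, l (i * x * i) = l x := fun x => uniq _ _ (by rw [b1b_idem hi.1.1]; exact hl x)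
  let z := ∑ c, l (y' * of F G (t c)⁻¹) • (i * (of F G (t c) * y) * i)
  have cz : i * z * i = z := by
    simp only [z, Finset.mul_sum, Finset.sum_mul, mul_smul_comm, smul_mul_assoc, b1b_idem hi.1.1]
  have lz : l z = 1 := by
    refine (map_sum L _ _).trans (Eq.trans ?_ (uniq b 1 (by
      rw [mul_assoc, hi.2.1, ii, one_smul, sub_self]; exact IsNilpotent.zero)))
    rw [← e]
    refine (Finset.sum_congr rfl fun c _ => (map_smul L _ _).trans ?_).trans (map_sum L _ _).symm
    refine Eq.trans ?_ (congrArg l (show of F G (t c) * y * i * (y' * of F G (t c)⁻¹) = _ by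
      simp only [mul_assoc]))
    rw [mul, smul_eq_mul, mul_comm]
    exact congrArg (· * _) (li _)
  have hz : ∀ x, i * x * i * z = l x • z := fun x => by
    have := g1b_cas ht hy hy' ((LinearMap.lsmul F _).flip.compl₁₂ (LinearMap.mulLeftRight F (i, i)) L)
      (fun d hd x z => by rw [Subgroup.mem_bot.1 hd, map_one, one_mul, mul_one]) (i * x * i)
    simp only [z, Finset.mul_sum, Finset.smul_sum, mul_smul_comm, smul_smul]
    refine Eq.trans (Finset.sum_congr rfl fun c _ => ?_) (this.trans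
      (Finset.sum_congr rfl fun c _ => ?_))
    · show _ = l _ • (i * _ * i)
      simp only [mul_assoc, ii']
    · show l _ • (i * _ * i) = _
      rw [show y' * of F G (t c)⁻¹ * (i * x * i) = y' * of F G (t c)⁻¹ * i * (i * x * i) by
        simp only [mul_assoc, ii'], mul, li, mul_comm]
  obtain ⟨s, -, -, hs, -⟩ := (hp.fit (all z) cz).resolve_left fun k => by
    have := uniq z 0 (by rwa [zero_smul, sub_zero, cz])
    exact one_ne_zero (lz.symm.trans this)
  refine (Submodule.finrank_mono (t := Submodule.span F {i}) ?_).trans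
    ((finrank_span_le_card ({i} : Set (MonoidAlgebra F G))).trans (by simp))
  rintro _ ⟨x, rfl⟩
  refine Submodule.mem_span_singleton.2 ⟨l x, ?_⟩
  rw [LinearMap.mulLeftRight_apply]
  show l x • i = i * x * i
  rw [← hs, ← smul_mul_assoc, ← hz, mul_assoc, hs, mul_assoc, ii]

omit [Finite G] in
theorem g1b_triv (p : ℕ) [Fact p.Prime] [CharP F p] {A : Subgroup G} [Finite A] [hn : A.Normal]
    (hA : IsPGroup p A) (Y : Type) [AddCommGroup Y] [Module F Y] [Module (MonoidAlgebra F G) Y]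
    [IsScalarTower F (MonoidAlgebra F G) Y] [IsSimpleModule (MonoidAlgebra F G) Y] :
    ∀ u ∈ A, ∀ v : Y, of F G u • v = v := by
  let W : Submodule (MonoidAlgebra F G) Y :=
    { carrier := {v | ∀ u ∈ A, of F G u • v = v}
      add_mem' := fun {a b} ha hb u hu => by rw [smul_add, ha u hu, hb u hu]
      zero_mem' := fun u _ => smul_zero _
      smul_mem' := fun x v hv u hu => by
        induction x using MonoidAlgebra.induction_on with
        | of g =>
          conv_rhs => rw [← hv _ (hn.conj_mem' u hu g)]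
          rw [smul_smul, smul_smul, ← map_mul, ← map_mul, mul_assoc, mul_inv_cancel_left]
        | add a b ha hb => rw [add_smul, smul_add, ha, hb]
        | smul r a ha => rw [smul_assoc, smul_comm, ha] }
  have := IsSimpleModule.nontrivial (MonoidAlgebra F G) Y
  obtain ⟨v, hv⟩ := exists_ne (0 : Y)
  obtain ⟨w, -, w0, hw⟩ := perm_fix p hA
    (((Algebra.lsmul F F Y : MonoidAlgebra F G →ₐ[F] Module.End F Y) :
      MonoidAlgebra F G →* Module.End F Y).comp ((of F G).comp A.subtype)) ⊤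
    (fun _ _ _ => trivial) trivial hv
  have top : W = ⊤ := (eq_bot_or_eq_top W).resolve_left fun k =>
    w0 ((Submodule.eq_bot_iff W).1 k w fun u hu => hw ⟨u, hu⟩)
  exact fun u hu v => (top.ge trivial : v ∈ W) u hu

/- PLAN: take a simple module `Y` with `y • Y ≠ 0` (`exists_simple` for the regular module).  The
fixed points of `A` in `Y` form a non-zero submodule (`fix_bound`), so `A` acts trivially.  If
`Br A y = 0` then `y` is a sum of traces `trc t z` from `R < A` (`exists_trc_of_Br`), which act as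
`card T • z = 0`. -/
theorem Br_normal (p : ℕ) [Fact p.Prime] [CharP F p] {A : Subgroup G} [A.Normal]
    (hA : IsPGroup p A) {y : MonoidAlgebra F G} (hy : IsIdempotentElem y) (h0 : y ≠ 0)
    (hf : Fix A y) : Br A y ≠ 0 := by
  intro hB
  obtain ⟨I, hI, h1, -, -⟩ := exists_simple (k := F) hy (MonoidAlgebra F G) fun k =>
    h0 (by simpa using dm_eq_zero.1 k 1)
  have : IsSimpleModule (MonoidAlgebra F G) (MonoidAlgebra F G ⧸ I) :=
    isSimpleModule_iff_quot_maximal.2 ⟨I, hI, ⟨LinearEquiv.refl _ _⟩⟩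
  have tr := g1b_triv p hA (F := F) (MonoidAlgebra F G ⧸ I)
  obtain ⟨ι, s, z, e, hz⟩ := exists_trc_of_Br hf hB
  refine h1 (dm_eq_zero.2 fun v => ?_)
  rw [e, Finset.sum_smul]
  refine Finset.sum_eq_zero fun a ha => ?_
  obtain ⟨R, T, _, t, x, hR, ht, -, e'⟩ := hz a ha
  have c : (Fintype.card T : F) = 0 := by
    obtain ⟨n, hn⟩ := hA.index (R.subgroupOf A)
    rw [ht.card hR.le, Subgroup.relIndex, hn, Nat.cast_pow, CharP.cast_eq_zero, zero_pow]
    rintro rfl
    exact hR.not_ge (Subgroup.subgroupOf_eq_top.1 (Subgroup.index_eq_one.1 hn))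
  rw [← e', trc, Finset.sum_smul, Finset.sum_congr rfl (g := fun _ => x • v) fun c _ => by
    rw [mul_smul, mul_smul, tr _ (A.inv_mem (ht.1 c)), tr _ (ht.1 c)], Finset.sum_const,
    Finset.card_univ, ← Nat.cast_smul_eq_nsmul F, c, zero_smul]

/- PLAN: `Br_normal` in the group `C = centralizer D` for `brq C.subtype b` and `A.subgroupOf C`
gives `c` centralising `D` and `A` with non-zero coefficient, so `Br (D ⊔ A) b ≠ 0`; `D ⊔ A` is a
`p`-group (`IsPGroup.to_sup_of_normal_left'`-type lemma; `A` centralises `D`). -/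
theorem IsDefect.le_of_normal (p : ℕ) [Fact p.Prime] [CharP F p] {b : MonoidAlgebra F G}
    (hb : IsBlock b) {D A : Subgroup G} (hD : IsDefect p b D) (hA : IsPGroup p A)
    (h1 : A ≤ Subgroup.centralizer (D : Set G))
    (h2 : Subgroup.centralizer (D : Set G) ≤ Subgroup.normalizer (A : Set G)) : A ≤ D := by
  have : (A.subgroupOf (Subgroup.centralizer (D : Set G))).Normal :=
    (Subgroup.normal_subgroupOf_iff_le_normalizer h1).2 h2
  have inj := (Subgroup.centralizer (D : Set G)).subtype_injective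
  have e := map_brq inj (Subgroup.range_subtype _) b
  have fb := hb.prim.2.2.1
  have k := Br_normal p (hA.of_equiv (Subgroup.subgroupOfEquivOfLe h1).symm)
    (y := brq (Subgroup.centralizer (D : Set G)).subtype b) (show _ * _ = _ by
      rw [← brq_map inj (_ * _), map_mul, e, ← Br_mul p hD.1 (fb.mono le_top) (fb.mono le_top),
        hb.1.eq, ← e, brq_map inj])
    (fun k => hD.2.1 (by rw [← e, k, map_zero]))
    (fix_iff.2 fun u _ g => fix_iff.1 fb (u : G) trivial g)
  obtain ⟨c, hc⟩ : ∃ c, (Br (A.subgroupOf (Subgroup.centralizer (D : Set G)))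
      (brq (Subgroup.centralizer (D : Set G)).subtype b)).coeff c ≠ 0 := by
    by_contra! m
    exact k (MonoidAlgebra.ext (Finsupp.ext m))
  rw [coeff_Br] at hc
  split_ifs at hc with m
  · have m' : (c : G) ∈ Subgroup.centralizer ((D ⊔ A : Subgroup G) : Set G) := fun u hu =>
      (Subgroup.mem_centralizer_singleton_iff.1 ((sup_le (a := D) (b := A)
        (fun d hd => Subgroup.mem_centralizer_singleton_iff.2 (c.2 d hd))
        fun a ha => Subgroup.mem_centralizer_singleton_iff.2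
          (congrArg Subtype.val (m ⟨a, h1 ha⟩ ha))) hu))
    refine le_sup_right.trans (hD.2.2 _ (hD.1.to_sup_of_normal_left' hA
      (h1.trans (Subgroup.centralizer_le_normalizer _))) le_sup_left fun k' => hc ?_).le
    have := coeff_Br (D ⊔ A) b c
    rw [k', if_pos m'] at this
    exact this.symm
  · exact absurd rfl hc

end Pool.Agent.Puig
end

-- merged part: Pool.Agent.Work.MP_cea1f0_al.C2
section
/-! Independence of the traces of the simple modules. -/

namespace Pool.Agent.Puig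

open Module

/-- The trace of `x` on `Y`. -/
noncomputable def trY (k : Type) {A : Type} [Field k] [Ring A] [Algebra k A] (Y : Type)
    [AddCommGroup Y] [Module k Y] [Module A Y] [IsScalarTower k A Y] : A →ₗ[k] k :=
  LinearMap.trace k Y ∘ₗ (Algebra.lsmul k k Y : A →ₐ[k] Module.End k Y).toLinearMap

/- PLAN: density theorem (`Module.Finite.toModuleEnd_moduleEnd_surjective` or
`jacobson_density`) for the semisimple module `X = ∀ b, Y b`.  Take a rank one idempotent `u` of
`Y a` over `k`, extended by zero to `X`; it commutes with `Module.End A X`, because the components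
`Y b → Y b'` of an endomorphism vanish for `b ≠ b'` (Schur, `LinearMap.bijective_or_eq_zero`) and
are scalars for `b = b'` (`IsSimpleModule.algebraMap_end_bijective_of_isAlgClosed`).
Other route: the annihilators are distinct maximal two-sided ideals. -/
theorem exists_sep {k A J : Type} [Field k] [IsAlgClosed k] [Ring A] [Algebra k A] [Finite J]
    (Y : J → Type) [∀ a, AddCommGroup (Y a)] [∀ a, Module k (Y a)] [∀ a, Module A (Y a)]
    [∀ a, IsScalarTower k A (Y a)] [∀ a, FiniteDimensional k (Y a)] [∀ a, IsSimpleModule A (Y a)]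
    (h : ∀ a b, Nonempty (Y a ≃ₗ[A] Y b) → a = b) (a : J) :
    ∃ x : A, trY k (Y a) x = 1 ∧ ∀ b, b ≠ a → ∀ y : Y b, x • y = 0 := by
  classical
  have := Fintype.ofFinite J
  have := IsSimpleModule.nontrivial A (Y a)
  obtain ⟨y, hy⟩ := exists_ne (0 : Y a)
  obtain ⟨φ, hφ⟩ := Projective.exists_dual_eq_one k hy
  let F : (∀ b, Y b) →ₗ[k] ∀ b, Y b :=
    LinearMap.single k Y a ∘ₗ φ.smulRight y ∘ₗ LinearMap.proj a
  have hF : ∀ v, F v = Pi.single a (φ (v a) • y) := fun v => rfl
  have hz : ∀ (g : End A (∀ b, Y b)) (b b' : J), b ≠ b' → ∀ w : Y b,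
      g (Pi.single b w) b' = 0 := by
    intro g b b' hb w
    rcases LinearMap.bijective_or_eq_zero
      (LinearMap.proj b' ∘ₗ g ∘ₗ LinearMap.single A Y b) with h1 | h1
    · exact absurd (h b b' ⟨LinearEquiv.ofBijective _ h1⟩) hb
    · exact LinearMap.congr_fun h1 w
  have hc : ∀ (g : End A (∀ b, Y b)) v, F (g v) = g (F v) := by
    intro g v
    obtain ⟨c, hc⟩ := (IsSimpleModule.algebraMap_end_bijective_of_isAlgClosed k).2
      (LinearMap.proj a ∘ₗ g ∘ₗ LinearMap.single A Y a : End A (Y a))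
    have h1 : ∀ w : Y a, g (Pi.single a w) a = c • w := fun w => (LinearMap.congr_fun hc w).symm
    have h2 : g v a = c • v a := by
      conv_lhs => rw [← Finset.univ_sum_single v, map_sum, Finset.sum_apply]
      rw [Finset.sum_eq_single a (fun b _ hb => hz g b a hb _) (by simp), h1]
    rw [hF, hF, h2]
    ext b
    rcases eq_or_ne a b with rfl | hb
    · rw [h1, Pi.single_eq_same, map_smul, smul_assoc]
    · rw [hz g a b hb, Pi.single_eq_of_ne' hb]
  let f : End (End A (∀ b, Y b)) (∀ b, Y b) :=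
    { toFun := F
      map_add' := F.map_add
      map_smul' := hc }
  obtain ⟨s, hs⟩ := Module.Finite.fg_top (R := k) (M := ∀ b, Y b)
  obtain ⟨x, hx⟩ := jacobson_density f s
  have e : F = Algebra.lsmul k k (∀ b, Y b) x := LinearMap.ext_on hs hx
  have e' : ∀ b (w : Y b), x • w = F (Pi.single b w) b := fun b w => by
    rw [e]
    simp
  refine ⟨x, ?_, fun b hb w => ?_⟩
  · have h1 : Algebra.lsmul k k (Y a) x = φ.smulRight y := by
      ext w
      refine (e' a w).trans ?_
      rw [hF]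
      simp
    show LinearMap.trace k (Y a) (Algebra.lsmul k k (Y a) x) = 1
    rw [h1, LinearMap.trace_smulRight, hφ]
  · rw [e', hF, Pi.single_eq_of_ne hb]

theorem trY_linInd {k A J : Type} [Field k] [IsAlgClosed k] [Ring A] [Algebra k A] [Finite J]
    (Y : J → Type) [∀ a, AddCommGroup (Y a)] [∀ a, Module k (Y a)] [∀ a, Module A (Y a)]
    [∀ a, IsScalarTower k A (Y a)] [∀ a, FiniteDimensional k (Y a)] [∀ a, IsSimpleModule A (Y a)]
    (h : ∀ a b, Nonempty (Y a ≃ₗ[A] Y b) → a = b) :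
    LinearIndependent k fun a => (trY k (Y a) : A →ₗ[k] k) := by
  have := Fintype.ofFinite J
  refine Fintype.linearIndependent_iff.2 fun g hg a => ?_
  obtain ⟨x, h1, h2⟩ := exists_sep (k := k) Y h a
  have h3 := LinearMap.congr_fun hg x
  rw [LinearMap.sum_apply, Finset.sum_eq_single a _ (by simp)] at h3
  · simpa [h1] using h3
  · intro b _ hb
    have h4 : Algebra.lsmul k k (Y b) x = 0 := LinearMap.ext (h2 b hb)
    have h5 : trY k (Y b) x = 0 := by
      show LinearMap.trace k (Y b) (Algebra.lsmul k k (Y b) x) = 0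
      rw [h4, map_zero]
    simp [h5]

/- PLAN: `u - 1` is nilpotent (`sub_pow_char_pow_of_commute`) and commutes with `x`, so
`x * (u - 1)` is nilpotent and has trace zero (`LinearMap.isNilpotent_trace_of_isNilpotent`). -/
theorem trY_unip (p : ℕ) [Fact p.Prime] {k A : Type} [Field k] [CharP k p] [Ring A] [Algebra k A]
    (Y : Type) [AddCommGroup Y] [Module k Y] [Module A Y] [IsScalarTower k A Y]
    [FiniteDimensional k Y] {x u : A} (h : Commute x u) {r : ℕ} (hu : u ^ p ^ r = 1) :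
    trY k Y (x * u) = trY k Y x := by
  rcases subsingleton_or_nontrivial A with hA | hA
  · rw [Subsingleton.elim (x * u) x]
  have := charP_of_injective_algebraMap (algebraMap k A).injective p
  have h1 : IsNilpotent (u - 1) :=
    ⟨p ^ r, by rw [sub_pow_char_pow_of_commute p r (Commute.one_right u), hu, one_pow, sub_self]⟩
  have h2 : IsNilpotent (x * (u - 1)) :=
    (h.sub_right (Commute.one_right x)).isNilpotent_mul_left h1
  have h3 : trY k Y (x * (u - 1)) = 0 :=
    (LinearMap.isNilpotent_trace_of_isNilpotent (h2.map (Algebra.lsmul k k Y))).eq_zero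
  rwa [mul_sub, mul_one, map_sub, sub_eq_zero] at h3

/- PLAN: `orderOf g = p ^ r * m` (`Nat.exists_eq_pow_mul_and_not_dvd`), Bezout. -/
theorem exists_pparts (p : ℕ) [Fact p.Prime] {G : Type} [Group G] [Finite G] (g : G) :
    ∃ (s u : G) (r : ℕ), g = s * u ∧ Commute s u ∧ (orderOf s).Coprime p ∧ u ^ p ^ r = 1 ∧
      s ∈ Subgroup.zpowers g ∧ u ∈ Subgroup.zpowers g := by
  have hp : p.Prime := Fact.out
  obtain ⟨r, m, hm, e⟩ := Nat.exists_eq_pow_mul_and_not_dvd (orderOf_pos g).ne' p hp.ne_one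
  have hc : p.Coprime m := (Nat.Prime.coprime_iff_not_dvd hp).2 hm
  obtain ⟨a, b, hab⟩ := Nat.isCoprime_iff_coprime.2 (hc.pow_left r)
  have h1 : ∀ c : ℤ, g ^ (c * (p ^ r * m : ℕ)) = 1 := fun c => by
    rw [← e, mul_comm, zpow_mul, zpow_natCast, pow_orderOf_eq_one, one_zpow]
  refine ⟨g ^ (a * (p ^ r : ℕ)), g ^ (b * m), r, ?_, (Commute.refl g).zpow_zpow _ _, ?_, ?_,
    ⟨_, rfl⟩, ⟨_, rfl⟩⟩
  · rw [← zpow_add, hab, zpow_one]
  · refine hc.symm.of_dvd_left (orderOf_dvd_of_pow_eq_one ?_)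
    rw [← zpow_natCast, ← zpow_mul, ← h1 a, Nat.cast_mul, mul_assoc]
  · rw [← zpow_natCast, ← zpow_mul, ← h1 b, Nat.cast_mul, mul_assoc, mul_comm (m : ℤ)]

end Pool.Agent.Puig
end

-- merged part: Pool.Agent.Work.MP_cea1f0_al.X0
section
/-! Isomorphic block algebras along a group homomorphism. -/

namespace Pool.Agent.Puig

open MonoidAlgebra Module

variable {k H G : Type} [Field k] [Group H] [Group G]

/-- The map `x ↦ ι x * b` is an isomorphism from `c k[H]` onto `b k[G]` that respects the Brauer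
maps. -/
structure Lnk (p : ℕ) (ι : H →* G) (c : MonoidAlgebra k H) (b : MonoidAlgebra k G) : Prop where
  c_idem : IsIdempotentElem c
  c_cen : ∀ x, x * c = c * x
  b_idem : IsIdempotentElem b
  b_cen : ∀ x, x * b = b * x
  one : mapDomainAlgHom k k ι c * b = b
  inj : ∀ x, c * x = x → mapDomainAlgHom k k ι x * b = 0 → x = 0
  surj : ∀ y, b * y = y → ∃ x, c * x = x ∧ mapDomainAlgHom k k ι x * b = y
  br : ∀ D : Subgroup H, IsPGroup p D → ∀ x, Fix D x → c * x = x →
    (Br D x = 0 ↔ Br (D.map ι) (mapDomainAlgHom k k ι x * b) = 0)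
  sub : ∀ E : Subgroup G, IsPGroup p E → ∃ D : Subgroup H, IsPGroup p D ∧ D.map ι = E
  mono : ∀ D D' : Subgroup H, IsPGroup p D → IsPGroup p D' → D.map ι ≤ D'.map ι → D ≤ D'

section
variable {p : ℕ} {ι : H →* G} {c : MonoidAlgebra k H} {b : MonoidAlgebra k G}

theorem Lnk.mul (L : Lnk p ι c b) (x y : MonoidAlgebra k H) :
    mapDomainAlgHom k k ι (x * y) * b =
      mapDomainAlgHom k k ι x * b * (mapDomainAlgHom k k ι y * b) := by
  rw [map_mul, mul_assoc, mul_assoc, ← mul_assoc b, ← L.b_cen, mul_assoc, L.b_idem.eq]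

theorem Lnk.ext (L : Lnk p ι c b) {x y : MonoidAlgebra k H} (hx : c * x = x) (hy : c * y = y)
    (h : mapDomainAlgHom k k ι x * b = mapDomainAlgHom k k ι y * b) : x = y :=
  sub_eq_zero.1 (L.inj _ (by rw [mul_sub, hx, hy]) (by rw [map_sub, sub_mul, h, sub_self]))

theorem x0_of (ι : H →* G) (u : H) : mapDomainAlgHom k k ι (of k H u) = of k G (ι u) :=
  mapDomain_single

theorem Lnk.left (L : Lnk p ι c b) {x : MonoidAlgebra k H} (hx : c * x = x) (y : MonoidAlgebra k H) :
    c * (y * x) = y * x := by rw [← mul_assoc, ← L.c_cen, mul_assoc, hx]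

theorem Lnk.below (L : Lnk p ι c b) (x : MonoidAlgebra k G) : b * (x * b) = x * b := by
  rw [← L.b_cen, mul_assoc, L.b_idem.eq]

/- PLAN: `θ x = ι x * b` is multiplicative (`b` is a central idempotent),
`θ (of u * x) = of (ι u) * θ x`, `θ (x * of u) = θ x * of (ι u)`; `inj` for `of u * x - x * of u`. -/
theorem Lnk.fix (L : Lnk p ι c b) {D : Subgroup H} {x : MonoidAlgebra k H} (hx : c * x = x) :
    Fix D x ↔ Fix (D.map ι) (mapDomainAlgHom k k ι x * b) := by
  have e : ∀ u, mapDomainAlgHom k k ι x * b * of k G (ι u) =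
      mapDomainAlgHom k k ι (x * of k H u) * b := fun u => by
    rw [map_mul, x0_of, mul_assoc, mul_assoc, L.b_cen]
  refine ⟨?_, fun h u hu => L.ext (L.left hx _) (by rw [← mul_assoc, hx]) ?_⟩
  · rintro h _ ⟨u, hu, rfl⟩
    rw [e, ← h u hu, map_mul, x0_of, mul_assoc]
  · rw [← e, ← h _ ⟨u, hu, rfl⟩, map_mul, x0_of, mul_assoc]

/- PLAN: idempotents below `i` correspond to idempotents below `θ i` (`surj`, `inj`, `Lnk.fix`). -/
theorem Lnk.prim (L : Lnk p ι c b) {D : Subgroup H} {i : MonoidAlgebra k H} (hi : c * i = i) :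
    Prim D i ↔ Prim (D.map ι) (mapDomainAlgHom k k ι i * b) := by
  refine ⟨fun h => ⟨(L.mul i i).symm.trans (by rw [h.1.eq]), fun e => h.2.1 (L.inj i hi e),
    (L.fix hi).1 h.2.2.1, fun e h1 h2 h3 h4 => ?_⟩, fun h => ⟨L.ext (L.left hi i) hi
      ((L.mul i i).trans h.1), fun e => h.2.1 (by rw [e, map_zero, zero_mul]), (L.fix hi).2 h.2.2.1,
      fun e h1 h2 h3 h4 => ?_⟩⟩
  · obtain ⟨x, hx, rfl⟩ := L.surj e (by rw [← h3, ← mul_assoc, L.below])
    exact (h.2.2.2 x (L.ext (L.left hx x) hx ((L.mul x x).trans h1)) ((L.fix hx).2 h2)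
      (L.ext (L.left hx i) hx ((L.mul i x).trans h3))
      (L.ext (L.left hi x) hx ((L.mul x i).trans h4))).imp
        (fun k => by rw [k, map_zero, zero_mul]) fun k => by rw [k]
  · have he : c * e = e := by rw [← h3, ← mul_assoc, hi]
    exact (h.2.2.2 _ ((L.mul e e).symm.trans (by rw [h1.eq])) ((L.fix he).1 h2)
      ((L.mul i e).symm.trans (by rw [h3])) ((L.mul e i).symm.trans (by rw [h4]))).imp
        (L.inj e he) (L.ext he hi)

/- PLAN: for a central idempotent `e` the element `θ (e * c)` is an idempotent that commutes with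
every `y = y * b + y * (1 - b)` (`surj` for `b * y`), so it is `0` or `b = θ c`; `inj`. -/
theorem Lnk.block (L : Lnk p ι c b) (hb : IsBlock b) : IsBlock c := by
  refine ⟨L.c_idem, fun e => hb.2.1 (by rw [← L.one, e, map_zero, zero_mul]), L.c_cen,
    fun e h1 h2 => ?_⟩
  have he : c * (e * c) = e * c := L.left L.c_idem.eq e
  have h3 : IsIdempotentElem (e * c) := h1.mul_of_commute (L.c_cen e) L.c_idem
  have h4 : mapDomainAlgHom k k ι (e * c) * b * b = mapDomainAlgHom k k ι (e * c) * b := by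
    rw [mul_assoc, L.b_idem.eq]
  refine (hb.2.2.2 (mapDomainAlgHom k k ι (e * c) * b) ((L.mul _ _).symm.trans (by rw [h3.eq]))
    fun z => ?_).imp (fun k => L.inj _ he (h4.symm.trans k))
      fun k => L.ext he L.c_idem.eq (h4.symm.trans (k.trans L.one.symm))
  obtain ⟨x, -, hx⟩ := L.surj (z * b) (L.below z)
  calc _ = z * b * (mapDomainAlgHom k k ι (e * c) * b) := by rw [mul_assoc z b, L.below]
    _ = mapDomainAlgHom k k ι (e * c) * b * (z * b) := by
      rw [← hx, ← L.mul, ← L.mul, ← mul_assoc, h2, mul_assoc, L.c_cen, mul_assoc]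
    _ = _ := by rw [L.b_cen z, ← mul_assoc, h4]

/- PLAN: `θ` is a linear bijection from the range of `x ↦ i * x * i` onto the range of
`y ↦ θ i * y * θ i` (`Submodule.map`, `LinearEquiv.finrank_eq`, or two inequalities of
`Module.rank`). -/
theorem Lnk.bim (L : Lnk p ι c b) {i : MonoidAlgebra k H} (hi : c * i = i) :
    bim (mapDomainAlgHom k k ι i * b) (mapDomainAlgHom k k ι i * b) = bim i i := by
  let θ := LinearMap.mulRight k b ∘ₗ (mapDomainAlgHom k k ι).toLinearMap
  have e : LinearMap.range (LinearMap.mulLeftRight k (mapDomainAlgHom k k ι i * b,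
      mapDomainAlgHom k k ι i * b)) =
      LinearMap.range (θ.domRestrict (LinearMap.range (LinearMap.mulLeftRight k (i, i)))) := by
    refine le_antisymm ?_ ?_
    · rintro _ ⟨y, rfl⟩
      obtain ⟨x, -, hx⟩ := L.surj (y * b) (L.below y)
      refine ⟨⟨_, x, rfl⟩, ?_⟩
      show mapDomainAlgHom k k ι (i * x * i) * b = _ * y * _
      rw [L.mul, L.mul, hx, mul_assoc, mul_assoc y, L.below, ← mul_assoc]
    · rintro _ ⟨⟨_, x, rfl⟩, rfl⟩
      refine ⟨mapDomainAlgHom k k ι x * b, ?_⟩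
      show _ * _ * _ = mapDomainAlgHom k k ι (i * x * i) * b
      rw [L.mul, L.mul]
  rw [Puig.bim, e, LinearMap.finrank_range_of_inj]
  · rfl
  · rintro ⟨_, x, rfl⟩ ⟨_, y, rfl⟩ h
    exact Subtype.ext (L.ext (L.left hi _) (L.left hi _) h)

/- PLAN: `br` for `x = c`, `one`, `sub`, `mono`. -/
theorem Lnk.defect (L : Lnk p ι c b) {D : Subgroup H} (hD : IsPGroup p D) :
    IsDefect p c D ↔ IsDefect p b (D.map ι) := by
  have e : ∀ E : Subgroup H, IsPGroup p E → (Br E c ≠ 0 ↔ Br (E.map ι) b ≠ 0) := fun E hE => by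
    rw [Ne, L.br E hE c ((fix_top_iff.2 L.c_cen).mono le_top) L.c_idem.eq, L.one]
  refine ⟨fun h => ⟨hD.map _, (e D hD).1 h.2.1, fun E hE h1 h2 => ?_⟩,
    fun h => ⟨hD, (e D hD).2 h.2.1, fun E hE h1 h2 => le_antisymm (L.mono _ _ hE hD
      (h.2.2 _ (hE.map _) (Subgroup.map_mono h1) ((e E hE).1 h2)).le) h1⟩⟩
  obtain ⟨E, hE', rfl⟩ := L.sub E hE
  rw [h.2.2 E hE' (L.mono _ _ hD hE' h1) ((e E hE').2 h2)]

theorem Lnk.source (L : Lnk p ι c b) {D : Subgroup H} (hD : IsPGroup p D) {i : MonoidAlgebra k H}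
    (hi : c * i = i) : IsSource c D i ↔ IsSource b (D.map ι) (mapDomainAlgHom k k ι i * b) :=
  ⟨fun h => ⟨(L.prim hi).1 h.1, L.below _, fun e => h.2.2 ((L.br D hD i h.1.2.2.1 hi).2 e)⟩,
    fun h => ⟨(L.prim hi).2 h.1, hi,
      fun e => h.2.2 ((L.br D hD i ((L.prim hi).2 h.1).2.2.1 hi).1 e)⟩⟩

/- PLAN: if `u ∈ D` and `ι u = 1`, `mono` for `zpowers u` and `⊥` gives `u = 1`; so `ι` is injective
on `D`. -/
theorem Lnk.card (L : Lnk p ι c b) {D : Subgroup H} (hD : IsPGroup p D) :
    Nat.card (D.map ι) = Nat.card D := by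
  have h : Function.Injective (ι.comp D.subtype) := (injective_iff_map_eq_one _).2 fun u hu =>
    Subtype.ext (Subgroup.mem_bot.1 (L.mono (Subgroup.zpowers u.1) ⊥
      (hD.to_le (Subgroup.zpowers_le.2 u.2)) IsPGroup.of_bot (by
        rw [MonoidHom.map_zpowers, Subgroup.zpowers_le]
        exact ⟨1, one_mem _, (map_one ι).trans hu.symm⟩) (Subgroup.mem_zpowers _)))
  rw [← D.range_subtype, ← MonoidHom.range_comp, D.range_subtype]
  exact (Nat.card_congr (MonoidHom.ofInjective h).toEquiv).symm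

end

theorem aug_push (ι : H →* G) (x : MonoidAlgebra k H) : aug (mapDomainAlgHom k k ι x) = aug x := by
  rw [aug_eq, aug_eq]
  induction x using MonoidAlgebra.induction_on with
  | of g => rw [x0_of, ← aug_eq, ← aug_eq, aug_of, aug_of]
  | add x y hx hy => rw [map_add, map_add, map_add, hx, hy]
  | smul c x hx => rw [map_smul, map_smul, map_smul, hx]

theorem fix_map (ι : H →* G) {D : Subgroup H} {x : MonoidAlgebra k H} (hx : Fix D x) :
    Fix (D.map ι) (mapDomainAlgHom k k ι x) := by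
  rintro _ ⟨u, hu, rfl⟩
  rw [← x0_of, ← map_mul, ← map_mul, hx u hu]

open Classical in
theorem x0_Br_of (D : Subgroup G) (u : G) :
    Br D (of k G u) = if u ∈ Subgroup.centralizer (D : Set G) then of k G u else 0 := by
  ext g
  rw [coeff_Br]
  by_cases e : u = g
  · subst e
    split_ifs <;> rfl
  · have : (of k G u).coeff g = 0 := by simp [e]
    rw [this, ite_self]
    split_ifs
    exacts [this.symm, rfl]

theorem x0_Br_push {ι : H →* G} {D : Subgroup H} (h : ∀ u, ι u ∈ Subgroup.centralizer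
    (D.map ι : Set G) ↔ u ∈ Subgroup.centralizer (D : Set H)) (x : MonoidAlgebra k H) :
    Br (D.map ι) (mapDomainAlgHom k k ι x) = mapDomainAlgHom k k ι (Br D x) := by
  classical
  induction x using MonoidAlgebra.induction_on with
  | of g =>
    rw [x0_of, x0_Br_of, x0_Br_of, apply_ite (mapDomainAlgHom k k ι), x0_of, map_zero]
    exact if_congr (h g) rfl rfl
  | add x y hx hy => simp only [← BrL_apply, map_add] at *; rw [hx, hy]
  | smul c x hx => simp only [← BrL_apply, map_smul] at *; rw [hx]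

/- PLAN: compare coefficients: at `ι h` by `mapDomain_apply`-type lemmas (`brq_map`), outside the
range both sides vanish; or induction on `x` as in `w3_pushR`. -/
theorem Br_push {ι : H →* G} (h : Function.Injective ι) (D : Subgroup H) (x : MonoidAlgebra k H) :
    Br (D.map ι) (mapDomainAlgHom k k ι x) = mapDomainAlgHom k k ι (Br D x) :=
  x0_Br_push (fun u => ⟨fun e v hv => h (by rw [map_mul, map_mul]; exact e _ ⟨v, hv, rfl⟩), by
    rintro e _ ⟨v, hv, rfl⟩
    rw [← map_mul, ← map_mul, e v hv]⟩) x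

theorem x0_surj {π : H →* G} (h : Function.Surjective π) :
    Function.Surjective (mapDomainAlgHom k k π) := fun y => by
  induction y using MonoidAlgebra.induction_on with
  | of g =>
    obtain ⟨u, rfl⟩ := h g
    exact ⟨_, x0_of π u⟩
  | add x y hx hy =>
    obtain ⟨x, rfl⟩ := hx
    obtain ⟨y, rfl⟩ := hy
    exact ⟨_, map_add _ x y⟩
  | smul c x hx =>
    obtain ⟨x, rfl⟩ := hx
    exact ⟨_, map_smul _ c x⟩

variable [Finite H] [Finite G]

theorem bim_map_surj {π : H →* G} (h : Function.Surjective π) (a a' : MonoidAlgebra k H) :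
    bim (mapDomainAlgHom k k π a) (mapDomainAlgHom k k π a') ≤ bim a a' := by
  refine (Submodule.finrank_mono ?_).trans
    (Submodule.finrank_map_le (mapDomainAlgHom k k π).toLinearMap _)
  rintro _ ⟨y, rfl⟩
  obtain ⟨x, rfl⟩ := x0_surj (k := k) h y
  exact ⟨_, ⟨x, rfl⟩, (map_mul (mapDomainAlgHom k k π) (a * x) a').trans (by rw [map_mul]; rfl)⟩

theorem bim_map_inj {ι : H →* G} (h : Function.Injective ι) (a a' : MonoidAlgebra k H) :
    bim a a' ≤ bim (mapDomainAlgHom k k ι a) (mapDomainAlgHom k k ι a') := by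
  refine ((Submodule.equivMapOfInjective (mapDomainAlgHom k k ι).toLinearMap
    (Function.LeftInverse.injective (brq_map h)) _).finrank_eq).trans_le (Submodule.finrank_mono ?_)
  rintro _ ⟨_, ⟨x, rfl⟩, rfl⟩
  exact ⟨mapDomainAlgHom k k ι x,
    ((map_mul (mapDomainAlgHom k k ι) (a * x) a').trans (by rw [map_mul]; rfl)).symm⟩

/- PLAN: decompose `j` (`exists_decIn` for `fixAlg k D`); a term `i'` has `aug i' ≠ 0`, so
`i * 1 * i' * 1 * i` is not nilpotent; `PrimIn.eqv`, `bim_eqv`, `bim_sum_ge` for one term (see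
`bim_le_hc` in `W4.lean`). -/
omit [Finite H] in
theorem bim_le_of_aug {D : Subgroup G} {i j : MonoidAlgebra k G} (hi : Prim D i) (h1 : aug i = 1)
    (hj : IsIdempotentElem j) (hf : Fix D j) (h2 : aug j = 1) : bim i i ≤ bim j j := by
  obtain ⟨n, i', k1, k2, k3⟩ := exists_decIn (B := fixAlg k D) hj hf
  obtain ⟨a, -, ha⟩ := Finset.exists_ne_zero_of_sum_ne_zero (s := Finset.univ)
    (f := fun a => augH k G (i' a)) (by rw [← map_sum, k3, ← aug_eq, h2]; exact one_ne_zero)
  have k4 := g0_below (fun a => (k1 a).1) k2 a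
  rw [k3] at k4
  obtain ⟨x, -, y, -, e1, e2, -⟩ := (prim_iff.1 hi).eqv (k1 a) (one_mem _) (one_mem _) fun e =>
    ha (by simpa [← aug_eq, aug_mul, h1] using (e.map (augH k G)).eq_zero)
  have k7 := bim_sum_ge {a} (x := i') (j := j) (fun c _ => (k1 c).1) (fun c _ d _ => k2 c d)
    fun c hc => by
      rw [Finset.mem_singleton.1 hc]
      exact k4.symm
  rw [Finset.sum_singleton, Finset.sum_singleton] at k7
  rwa [bim_eqv hi.1 (k1 a).1 hi.1 (k1 a).1 ⟨x, y, e1, e2⟩ ⟨x, y, e1, e2⟩]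

/- PLAN: take a Sylow subgroup `S` of `E.comap π`; the image of `S` in `E` is a Sylow subgroup of the
`p`-group `E` (`Sylow.mapSurjective`), or has index prime to `p`. -/
omit [Finite G] in
theorem exists_pgroup_map (p : ℕ) [Fact p.Prime] {π : H →* G} (h : Function.Surjective π)
    {E : Subgroup G} (hE : IsPGroup p E) : ∃ D : Subgroup H, IsPGroup p D ∧ D.map π = E := by
  let S : Sylow p (E.comap π) := default
  have h1 := π.subgroupComap_surjective_of_surjective E h
  have h2 : ((S.mapSurjective h1 : Sylow p E) : Subgroup E) = ⊤ :=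
    ((S.mapSurjective h1).is_maximal' (hE.to_subgroup ⊤) le_top).symm
  refine ⟨(S : Subgroup _).map (E.comap π).subtype, S.isPGroup'.map _, le_antisymm ?_ fun g hg => ?_⟩
  · rintro _ ⟨_, ⟨u, -, rfl⟩, rfl⟩
    exact u.2
  · obtain ⟨u, hu, e⟩ : (⟨g, hg⟩ : E) ∈ ((S.mapSurjective h1 : Sylow p E) : Subgroup E) :=
      h2 ▸ Subgroup.mem_top _
    exact ⟨u, ⟨u, hu, rfl⟩, congrArg Subtype.val e⟩

/- PLAN: `1 = ∑ b a` (`exists_decIn` for `fixAlg k ⊤`, `Prim.isBlock`). -/
omit [Finite H] in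
theorem exists_block_ne {M : Type} [AddCommGroup M] (f : MonoidAlgebra k G →+ M) (h : f 1 ≠ 0) :
    ∃ b, IsBlock b ∧ f b ≠ 0 := by
  obtain ⟨n, b, k1, -, k3⟩ := exists_decIn (B := fixAlg k (⊤ : Subgroup G)) IsIdempotentElem.one
    (one_mem _)
  obtain ⟨a, -, ha⟩ := Finset.exists_ne_zero_of_sum_ne_zero (s := Finset.univ)
    (f := fun a => f (b a)) (by rwa [← map_sum, k3])
  exact ⟨b a, (prim_iff.2 (k1 a)).isBlock, ha⟩

/- PLAN: `Br E x = x` for all `E`, so `D` contains every `p`-element (`D ⊔ zpowers u` is a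
`p`-group).  For `g` of order `N` prime to `p`: `i * of g - a • i` is nilpotent for some `a`
(`PrimIn.split`); raise to a power `p ^ M ≡ 1` modulo `N` (`Nat.ModEq.pow_totient`) that is larger
than the index of nilpotency (`sub_pow_char_pow_of_commute`): `i * of g = a' • i`.  Every element is
a product of a `p`-element and a `p`-regular one (`exists_pparts`), so the range of
`x ↦ i * x * i` is spanned by the `i * of u`, `u ∈ D`. -/
omit [Finite H] in
theorem comm_bound (p : ℕ) [Fact p.Prime] [CharP k p] [IsAlgClosed k]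
    (hG : ∀ a b : G, a * b = b * a) {b i : MonoidAlgebra k G} {D : Subgroup G}
    (hD : IsDefect p b D) (hi : Prim D i) : bim i i ≤ Nat.card D := by
  have hp : p.Prime := Fact.out
  have hc : ∀ (E : Subgroup G) x, Fix E (x : MonoidAlgebra k G) := fun E x =>
    fix_iff.2 fun u _ g => by rw [hG u, mul_inv_cancel_right]
  have hc' : ∀ x y : MonoidAlgebra k G, x * y = y * x := fun x y => fix_top_iff.1 (hc ⊤ y) x
  have hB : ∀ E : Subgroup G, Br E b = b := fun E => by
    ext g
    rw [coeff_Br]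
    exact if_pos fun u _ => hG u g
  have : Nontrivial (MonoidAlgebra k G) := ⟨⟨_, _, hi.2.1⟩⟩
  have : CharP (MonoidAlgebra k G) p := charP_of_injective_algebraMap' k p
  have h1 : ∀ u : G, ∀ r : ℕ, u ^ p ^ r = 1 → u ∈ D := fun u r hu => by
    have : D.Normal := ⟨fun n hn g => by rwa [hG g, mul_inv_cancel_right]⟩
    have h2 : IsPGroup p (Subgroup.zpowers u) := by
      rintro ⟨_, n, rfl⟩
      exact ⟨r, Subtype.ext (by
        show (u ^ n) ^ p ^ r = 1
        rw [← zpow_natCast, ← zpow_mul, mul_comm, zpow_mul, zpow_natCast, hu, one_zpow])⟩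
    rw [← hD.2.2 _ (hD.1.to_sup_of_normal_left h2) le_sup_left (by rw [hB, ← hB D]; exact hD.2.1)]
    exact Subgroup.mem_sup_right (Subgroup.mem_zpowers u)
  have h2 : ∀ s : G, (orderOf s).Coprime p → ∃ a : k, i * of k G s = a • i := fun s hs => by
    obtain ⟨a, N, hN⟩ := (prim_iff.1 hi).split (x := i * of k G s) (hc D _)
      (by rw [← mul_assoc, hi.1.eq, hc' _ i, ← mul_assoc, hi.1.eq])
    have k1 : (p ^ (orderOf s).totient) ^ (N + 1) ≡ 1 [MOD orderOf s] := by
      simpa using (Nat.ModEq.pow_totient hs.symm).pow (N + 1)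
    rw [← pow_mul] at k1
    have k2 : N ≤ p ^ ((orderOf s).totient * (N + 1)) := le_trans (by
      have := Nat.totient_pos.2 (orderOf_pos s)
      nlinarith) (Nat.lt_pow_self hp.one_lt).le
    have k3 := pow_eq_zero_of_le k2 hN
    have k4 := hi.1.pow_eq (pow_ne_zero ((orderOf s).totient * (N + 1)) hp.ne_zero)
    rw [sub_pow_char_pow_of_commute p _ (hc' _ _), sub_eq_zero, Commute.mul_pow (hc' _ _), smul_pow,
      k4, ← map_pow, pow_eq_pow_iff_modEq.2 k1, pow_one] at k3
    exact ⟨_, k3⟩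
  have := Fintype.ofFinite D
  rw [Nat.card_eq_fintype_card]
  refine (Submodule.finrank_mono ?_).trans
    (finrank_range_le_card (R := k) fun u : D => i * of k G u)
  rintro _ ⟨x, rfl⟩
  rw [LinearMap.mulLeftRight_apply, hc' _ i, ← mul_assoc, hi.1.eq]
  induction x using MonoidAlgebra.induction_on with
  | of g =>
    obtain ⟨s, u, r, rfl, -, k1, k2, -⟩ := exists_pparts p g
    obtain ⟨a, ha⟩ := h2 s k1
    rw [map_mul, ← mul_assoc, ha, smul_mul_assoc]
    exact Submodule.smul_mem _ _ (Submodule.subset_span ⟨⟨u, h1 u r k2⟩, rfl⟩)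
  | add x y hx hy => exact mul_add i x y ▸ add_mem hx hy
  | smul c x hx => exact mul_smul_comm c i x ▸ Submodule.smul_mem _ _ hx

end Pool.Agent.Puig
end

-- merged part: Pool.Agent.Work.MP_cea1f0_al.X2
section
/-! Normal subgroups with a commutative `p`-group as quotient. -/

namespace Pool.Agent.Puig

open MonoidAlgebra Module

/- PLAN: if `e ≠ 0`, choose recursively `a 0, a 1, …` with `w n * e ≠ 0`, `w n = x (a 0) * … * x (a n)`
(`w * e = w * e * e = ∑ a, w * x a * e`).  For `n < n'`, `w n' = w n * β` with `β ∈ T (d n' / d n)`,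
`d n = a 0 * … * a n`.  Some fibre of `d` is infinite (`Finite.exists_infinite_fiber`,
`Set.Infinite.exists_gt`), so for every `s` there are `n` in the fibre and a list `l` of length `s`
of elements of `T 1` with `w n = w n₀ * l.prod`; take `s = r`. -/
theorem graded_nil {R A : Type} [Ring R] [CommGroup A] [Fintype A] (T : A → Set R)
    (h1 : ∀ a b, ∀ x ∈ T a, ∀ y ∈ T b, x * y ∈ T (a * b)) {r : ℕ}
    (h2 : ∀ l : List R, l.length = r → (∀ x ∈ l, x ∈ T 1) → l.prod = 0) {e : R}
    (he : IsIdempotentElem e) {x : A → R} (hx : ∀ a, x a ∈ T a) (hs : ∑ a, x a = e) : e = 0 := by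
  by_contra hne
  have step : ∀ s : {s : A × R // s.2 * e ≠ 0}, ∃ s' : {s : A × R // s.2 * e ≠ 0},
      ∃ β ∈ T (s'.1.1 / s.1.1), s'.1.2 = s.1.2 * β := fun s => by
    have h3 : ∑ a, s.1.2 * x a * e ≠ 0 := by
      rw [← Finset.sum_mul, ← Finset.mul_sum, hs, mul_assoc, he.eq]
      exact s.2
    obtain ⟨a, -, ha⟩ := Finset.exists_ne_zero_of_sum_ne_zero h3
    exact ⟨⟨(s.1.1 * a, s.1.2 * x a), ha⟩, x a, by simpa using hx a, rfl⟩
  choose nx hnx using step
  let f : ℕ → {s : A × R // s.2 * e ≠ 0} := fun n => nx^[n] ⟨(1, 1), by rwa [one_mul]⟩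
  have hf : ∀ n, f (n + 1) = nx (f n) := fun n => Function.iterate_succ_apply' nx n _
  have tr : ∀ n m, n < m → ∃ β ∈ T ((f m).1.1 / (f n).1.1), (f m).1.2 = (f n).1.2 * β := by
    intro n m hnm
    induction m, hnm using Nat.le_induction with
    | base => rw [hf]; exact hnx (f n)
    | succ m _ ih =>
      obtain ⟨β, hβ, e1⟩ := ih
      obtain ⟨γ, hγ, e2⟩ := hnx (f m)
      rw [hf]
      refine ⟨β * γ, ?_, by rw [e2, e1, mul_assoc]⟩
      have h4 := h1 _ _ _ hβ _ hγ
      rwa [div_mul_div_cancel'] at h4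
  obtain ⟨d, hd⟩ := Finite.exists_infinite_fiber fun n => (f n).1.1
  have hd' := Set.infinite_coe_iff.1 hd
  have key : ∀ s : ℕ, ∃ n, (f n).1.1 = d ∧ ∃ (w : R) (l : List R), l.length = s ∧
      (∀ y ∈ l, y ∈ T 1) ∧ (f n).1.2 = w * l.prod := fun s => by
    induction s with
    | zero =>
      obtain ⟨n, hn⟩ := hd'.nonempty
      exact ⟨n, hn, (f n).1.2, [], rfl, by simp, by simp⟩
    | succ s ih =>
      obtain ⟨n, hn, w, l, l1, l2, l3⟩ := ih
      obtain ⟨m, hm, hnm⟩ := hd'.exists_gt n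
      obtain ⟨β, hβ, e1⟩ := tr n m hnm
      have hm' : (f m).1.1 = d := hm
      rw [hn, hm', div_self'] at hβ
      refine ⟨m, hm, w, l ++ [β], by simp [l1], fun y hy => ?_, by simp [e1, l3, mul_assoc]⟩
      rcases List.mem_append.1 hy with h | h
      · exact l2 y h
      · rwa [List.mem_singleton.1 h]
  obtain ⟨n, -, w, l, l1, l2, l3⟩ := key r
  exact (f n).2 (by rw [l3, h2 l l1 l2, mul_zero, zero_mul])

variable {k H G A : Type} [Field k] [Group H] [Group G] [CommGroup A]

/- PLAN: in the commutative ring `k[A]` of characteristic `p`, `y ^ p ^ N = ∑ a, single (a ^ p ^ N) _`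
(`sum_pow_char_pow`) with `p ^ N = card A` is a scalar `s`, and `aug` gives `s = 0`. -/
theorem idem_pgroup (p : ℕ) [Fact p.Prime] [CharP k p] [Finite A] (hA : IsPGroup p A)
    {y : MonoidAlgebra k A} (hy : IsIdempotentElem y) (h : aug y = 0) : y = 0 := by
  obtain ⟨N, hN⟩ := hA.exists_card_eq
  have hp : CharP (MonoidAlgebra k A) p := charP_of_injective_algebraMap' k p
  have hq : p ^ N ≠ 0 := pow_ne_zero N (Fact.out : p.Prime).ne_zero
  have key : ∀ z : MonoidAlgebra k A, z ^ p ^ N = algebraMap k _ (augH k A z ^ p ^ N) := by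
    intro z
    induction z using MonoidAlgebra.induction_on with
    | of a =>
      rw [← aug_eq, aug_of, one_pow, map_one, ← map_pow, ← hN, pow_card_eq_one', map_one]
    | add f g hf hg => rw [add_pow_char_pow, map_add, add_pow_char_pow, map_add, hf, hg]
    | smul c f hf =>
      rw [smul_pow, hf, map_smul, smul_eq_mul, mul_pow, map_mul, Algebra.smul_def]
  rw [← hy.pow_eq hq, key, ← aug_eq, h, zero_pow hq, map_zero]

open Classical in
/-- The component of degree `a`. -/
noncomputable def x2_cmp (δ : G →* A) (a : A) (x : MonoidAlgebra k G) : MonoidAlgebra k G :=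
  .ofCoeff (x.coeff.filter fun g => δ g = a)

open Classical in
theorem x2_coeff (δ : G →* A) (a : A) (x : MonoidAlgebra k G) (g : G) :
    (x2_cmp δ a x).coeff g = if δ g = a then x.coeff g else 0 := by
  simp only [x2_cmp, Finsupp.filter_apply]

theorem x2_sum [Fintype A] (δ : G →* A) (x : MonoidAlgebra k G) : ∑ a, x2_cmp δ a x = x := by
  classical
  ext g
  rw [coeff_sum, Finsupp.finsetSum_apply, Finset.sum_eq_single (δ g)
    (fun a _ ha => by rw [x2_coeff, if_neg ha.symm]) (by simp), x2_coeff, if_pos rfl]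

theorem x2_aug (δ : G →* A) (a : A) (x : MonoidAlgebra k G) :
    aug (x2_cmp δ a x) = (mapDomainAlgHom k k δ x).coeff a := by
  classical
  change (x.coeff.filter fun g => δ g = a).sum (fun _ c => c) = Finsupp.mapDomain δ x.coeff a
  rw [Finsupp.mapDomain, Finsupp.sum_apply, Finsupp.sum_filter_index, Finsupp.support_filter,
    Finset.sum_filter]
  exact Finset.sum_congr rfl fun g _ => Finsupp.single_apply.symm

theorem x2_left [Finite G] (δ : G →* A) (a : A) {y : MonoidAlgebra k G}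
    (hy : ∀ g, δ g ≠ 1 → y.coeff g = 0) (x : MonoidAlgebra k G) :
    y * x2_cmp δ a x = x2_cmp δ a (y * x) := by
  classical
  have := Fintype.ofFinite G
  ext c
  rw [x2_coeff, b1a_coeff_mul, b1a_coeff_mul, ← Finset.sum_const_zero (s := Finset.univ (α := G)),
    ← Finset.sum_ite_irrel]
  refine Finset.sum_congr rfl fun h _ => ?_
  by_cases h1 : δ h = 1
  · rw [x2_coeff, map_mul, map_inv, h1, inv_one, one_mul, mul_ite, mul_zero]
  · rw [hy h h1, zero_mul, zero_mul, ite_self]

theorem x2_right [Finite G] (δ : G →* A) (a : A) {y : MonoidAlgebra k G}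
    (hy : ∀ g, δ g ≠ 1 → y.coeff g = 0) (x : MonoidAlgebra k G) :
    x2_cmp δ a x * y = x2_cmp δ a (x * y) := by
  classical
  have := Fintype.ofFinite G
  ext c
  rw [x2_coeff, b1a_coeff_mul, b1a_coeff_mul, ← Finset.sum_const_zero (s := Finset.univ (α := G)),
    ← Finset.sum_ite_irrel]
  refine Finset.sum_congr rfl fun h _ => ?_
  by_cases h1 : δ (h⁻¹ * c) = 1
  · rw [map_mul, map_inv, inv_mul_eq_one] at h1
    rw [x2_coeff, h1, ite_mul, zero_mul]
  · rw [hy _ h1, mul_zero, mul_zero, ite_self]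

theorem x2_fix (δ : G →* A) (a : A) {E : Subgroup G} {x : MonoidAlgebra k G} (hx : Fix E x) :
    Fix E (x2_cmp δ a x) := by
  refine fix_iff.2 fun u hu g => ?_
  rw [x2_coeff, x2_coeff, fix_iff.1 hx u hu g, map_mul, map_mul, map_inv, mul_inv_cancel_comm]

theorem x2_mul [Finite G] (δ : G →* A) {a b : A} {x y : MonoidAlgebra k G}
    (hx : ∀ g, δ g ≠ a → x.coeff g = 0) (hy : ∀ g, δ g ≠ b → y.coeff g = 0) (g : G)
    (hg : δ g ≠ a * b) : (x * y).coeff g = 0 := by
  have := Fintype.ofFinite G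
  rw [b1a_coeff_mul]
  refine Finset.sum_eq_zero fun h _ => ?_
  by_cases h1 : δ h = a
  · rw [hy, mul_zero]
    rw [map_mul, map_inv, h1]
    exact fun h2 => hg (inv_mul_eq_iff_eq_mul.1 h2)
  · rw [hx h h1, zero_mul]

theorem x2_supp {ι : H →* G} {δ : G →* A} (hδ : ι.range = δ.ker) (z : MonoidAlgebra k H) (g : G)
    (hg : δ g ≠ 1) : (mapDomainAlgHom k k ι z).coeff g = 0 :=
  Finsupp.mapDomain_of_notMem_range _ _ fun h => hg (by
    have h1 : g ∈ ι.range := h
    rwa [hδ] at h1)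

theorem x2_brq [Finite H] {ι : H →* G} (hι : Function.Injective ι) {δ : G →* A}
    (hδ : ι.range = δ.ker) {x : MonoidAlgebra k G} (hx : ∀ g, δ g ≠ 1 → x.coeff g = 0) :
    mapDomainAlgHom k k ι (brq ι x) = x := by
  ext g
  by_cases hg : δ g = 1
  · have h1 : g ∈ ι.range := by rwa [hδ]
    obtain ⟨c, rfl⟩ := h1
    change Finsupp.mapDomain ι (brq ι x).coeff (ι c) = _
    rw [Finsupp.mapDomain_apply hι, coeff_brq]
  · rw [x2_supp hδ _ g hg, hx g hg]

theorem x2_of (ι : H →* G) (u : H) : mapDomainAlgHom k k ι (of k H u) = of k G (ι u) :=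
  mapDomain_single

/- PLAN: `J = ι j`.  Let `e` be an idempotent below `J`; replacing `e` by `J - e` one may assume
`aug e = 0` (`a2_idem`, `a2_diff`).  `T a` is the set of the `x` with coefficients supported in
`δ ⁻¹ {a}`, fixed by `D.map ι`, with `J * x * J = x` and `aug x = 0`.  An element of `T 1` is `ι z` with
`z = brq ι x` fixed, in the corner of `j`, of augmentation `0`, so nilpotent (`Prim.fit`);
`PrimIn.nil_prod`.  The components `x a` of `e` (filter the coefficients) lie in `T a`: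
`aug (x a)` is the coefficient of `a` in `mapDomainAlgHom k k δ e = 0` (`idem_pgroup`, `aug_push`),
and taking the component commutes with multiplication by elements of the range of `ι`. -/
theorem prim_pindex (p : ℕ) [Fact p.Prime] [CharP k p] [Finite H] [Finite G] [Finite A]
    (hA : IsPGroup p A) {ι : H →* G} (hι : Function.Injective ι) (δ : G →* A)
    (hδ : ι.range = δ.ker) {D : Subgroup H} {j : MonoidAlgebra k H} (hj : Prim D j)
    (h1 : aug j = 1) : Prim (D.map ι) (mapDomainAlgHom k k ι j) := by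
  have := Fintype.ofFinite A
  have hJ : IsIdempotentElem (mapDomainAlgHom k k ι j) := hj.1.map _
  have hJ1 : aug (mapDomainAlgHom k k ι j) = 1 := by rw [aug_push, h1]
  have hJf := fix_map ι hj.2.2.1
  have hinj : Function.Injective (mapDomainAlgHom k k ι) := mapDomain_injective hι
  obtain ⟨r, hr⟩ := hj.nil_prod h1
  have key : ∀ e, IsIdempotentElem e → Fix (D.map ι) e → mapDomainAlgHom k k ι j * e = e →
      e * mapDomainAlgHom k k ι j = e → aug e = 0 → e = 0 := fun e he hf hl hr' h0 => by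
    refine graded_nil (r := r) (fun a => {x | (∀ g, δ g ≠ a → x.coeff g = 0) ∧ Fix (D.map ι) x ∧
      mapDomainAlgHom k k ι j * x * mapDomainAlgHom k k ι j = x ∧ aug x = 0})
      (fun a b x hx y hy => ⟨x2_mul δ hx.1 hy.1, (fixAlg k _).mul_mem hx.2.1 hy.2.1, ?_, ?_⟩)
      (fun l hl hT => ?_) he (x := fun a => x2_cmp δ a e) (fun a => ⟨fun g hg => ?_,
        x2_fix δ a hf, ?_, ?_⟩) (x2_sum δ e)
    · rw [← mul_assoc, g0_l hJ hx.2.2.1, mul_assoc, g0_r hJ hy.2.2.1]
    · rw [aug_mul, hx.2.2.2, zero_mul]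
    · have e1 : (l.map (brq ι)).map (mapDomainAlgHom k k ι) = l := by
        rw [List.map_map]
        exact (List.map_congr_left fun x hx => x2_brq hι hδ (hT x hx).1).trans (List.map_id l)
      rw [← e1, ← map_list_prod, hr _ (by rw [List.length_map, hl]), map_zero]
      intro z hz
      obtain ⟨x, hx, rfl⟩ := List.mem_map.1 hz
      obtain ⟨t1, t2, t3, t4⟩ := hT x hx
      have e2 := x2_brq hι hδ t1
      refine ⟨fun u hu => hinj ?_, hinj ?_, ?_⟩
      · rw [map_mul, map_mul, e2, x2_of]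
        exact t2 _ (Subgroup.mem_map_of_mem ι hu)
      · rw [map_mul, map_mul, e2, t3]
      · rw [← aug_push ι, e2, t4]
    · rw [x2_coeff, if_neg hg]
    · rw [x2_left δ a (x2_supp hδ j), x2_right δ a (x2_supp hδ j), hl, hr']
    · rw [x2_aug, idem_pgroup p hA (he.map _) (by rw [aug_push, h0])]
      rfl
  refine ⟨hJ, a2_ne hJ1, hJf, fun e he hf hl hr' => ?_⟩
  rcases a2_idem he with h0 | h0
  · exact Or.inl (key e he hf hl hr' h0)
  · obtain ⟨d1, d2, d3⟩ := a2_diff hJ he hl hr'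
    exact Or.inr (sub_eq_zero.1 (key _ d1
      (fun u hu => by rw [mul_sub, sub_mul, hJf u hu, hf u hu]) d2 d3
      (by rw [a2_sub, hJ1, h0, sub_self]))).symm

end Pool.Agent.Puig
end

-- merged part: Pool.Agent.Work.MP_cea1f0_al.V1
section
/-! The Brauer map followed by the augmentation of the second factor of a Levi subgroup. -/

namespace Pool.Agent.Puig

open MonoidAlgebra Module

variable {K A B V : Type} [Field K] [AddCommGroup A] [Module K A] [AddCommGroup B] [Module K B]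
  [AddCommGroup V] [Module K V]

/-- The first factor of the Levi subgroup. -/
def embL (ψ : (A × B) ≃ₗ[K] V) : (A ≃ₗ[K] A) →* (V ≃ₗ[K] V) := (emb ψ).comp (MonoidHom.inl _ _)

/-- The second factor of the Levi subgroup. -/
def embR (ψ : (A × B) ≃ₗ[K] V) : (B ≃ₗ[K] B) →* (V ≃ₗ[K] V) := (emb ψ).comp (MonoidHom.inr _ _)

/-- A `p`-element without non-zero fixed vector. -/
def Fpf (p : ℕ) (u : B ≃ₗ[K] B) : Prop := (∃ r, u ^ p ^ r = 1) ∧ ∀ x, u x = x → x = 0

theorem emb_inj (ψ : (A × B) ≃ₗ[K] V) : Function.Injective (emb ψ) := by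
  rintro ⟨h, x⟩ ⟨h', x'⟩ e
  have key : ∀ a b, (h a, x b) = (h' a, x' b) := fun a b =>
    ψ.injective (by rw [← emb_apply, ← emb_apply, e])
  refine Prod.ext ?_ ?_
  · ext a
    exact congrArg Prod.fst (key a 0)
  · ext b
    exact congrArg Prod.snd (key 0 b)

variable [Finite A] [Finite B] [Finite V]

omit [Finite A] [Finite B] [Finite V] in
theorem v1_embR (ψ : (A × B) ≃ₗ[K] V) (u : B ≃ₗ[K] B) : embR ψ u = emb ψ (1, u) := rfl

omit [Finite A] [Finite B] [Finite V] in
theorem v1_embL (ψ : (A × B) ≃ₗ[K] V) (h : A ≃ₗ[K] A) : embL ψ h = emb ψ (h, 1) := rfl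

omit [Finite A] [Finite B] [Finite V] in
theorem v1_embR_apply (ψ : (A × B) ≃ₗ[K] V) (u : B ≃ₗ[K] B) (a : A) (b : B) :
    embR ψ u (ψ (a, b)) = ψ (a, u b) := by
  rw [v1_embR, emb_apply]
  rfl

/- PLAN: `g` preserves the kernel `ψ (A × 0)` and the range `ψ (0 × B)` of `embR ψ u - 1`
(`u - 1` is injective, so bijective on the finite `B`). -/
theorem commute_embR (ψ : (A × B) ≃ₗ[K] V) {u : B ≃ₗ[K] B} (hu : ∀ x, u x = x → x = 0)
    (g : V ≃ₗ[K] V) : Commute g (embR ψ u) ↔ ∃ h x, Commute x u ∧ g = emb ψ (h, x) := by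
  constructor
  · intro hc
    have hc' : ∀ v, g (embR ψ u v) = embR ψ u (g v) := fun v => LinearEquiv.congr_fun hc.eq v
    have h1 : ∀ a, (ψ.symm (g (ψ (a, 0)))).2 = 0 := by
      intro a
      refine hu _ ?_
      have h2 := hc' (ψ (a, 0))
      rw [v1_embR_apply, map_zero] at h2
      obtain ⟨⟨a', b'⟩, hw⟩ := ψ.surjective (g (ψ (a, 0)))
      rw [← hw, v1_embR_apply] at h2
      rw [← hw, LinearEquiv.symm_apply_apply]
      exact (congrArg Prod.snd (ψ.injective h2)).symm
    have hs : Function.Surjective fun c : B => u c - c := by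
      refine Finite.injective_iff_surjective.1 fun c c' hcc => ?_
      have h3 : u c - c = u c' - c' := hcc
      refine sub_eq_zero.1 (hu _ ?_)
      rw [map_sub]
      exact sub_eq_sub_iff_sub_eq_sub.1 h3
    have h2 : ∀ b, (ψ.symm (g (ψ (0, b)))).1 = 0 := by
      intro b
      obtain ⟨c, rfl⟩ := hs b
      have h3 : ψ ((0 : A), u c - c) = embR ψ u (ψ (0, c)) - ψ (0, c) := by
        rw [v1_embR_apply, ← map_sub]
        simp
      obtain ⟨⟨a', b'⟩, hw⟩ := ψ.surjective (g (ψ (0, c)))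
      beta_reduce
      rw [h3, map_sub, hc', ← hw, v1_embR_apply, ← map_sub, LinearEquiv.symm_apply_apply]
      simp
    let h0 : A →ₗ[K] A := LinearMap.fst K A B ∘ₗ ψ.symm.toLinearMap ∘ₗ g.toLinearMap ∘ₗ
      ψ.toLinearMap ∘ₗ LinearMap.inl K A B
    let x0 : B →ₗ[K] B := LinearMap.snd K A B ∘ₗ ψ.symm.toLinearMap ∘ₗ g.toLinearMap ∘ₗ
      ψ.toLinearMap ∘ₗ LinearMap.inr K A B
    have e1 : ∀ a, g (ψ (a, 0)) = ψ (h0 a, 0) := fun a =>
      ψ.symm_apply_eq.1 (Prod.ext rfl (h1 a))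
    have e2 : ∀ b, g (ψ (0, b)) = ψ (0, x0 b) := fun b =>
      ψ.symm_apply_eq.1 (Prod.ext (h2 b) rfl)
    have i1 : Function.Injective h0 := fun a a' e => by
      have h3 : g (ψ (a, 0)) = g (ψ (a', 0)) := by rw [e1, e1, e]
      exact congrArg Prod.fst (ψ.injective (g.injective h3))
    have i2 : Function.Injective x0 := fun b b' e => by
      have h3 : g (ψ (0, b)) = g (ψ (0, b')) := by rw [e2, e2, e]
      exact congrArg Prod.snd (ψ.injective (g.injective h3))
    refine ⟨LinearEquiv.ofBijective h0 (Finite.injective_iff_bijective.1 i1),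
      LinearEquiv.ofBijective x0 (Finite.injective_iff_bijective.1 i2), ?_, ?_⟩
    · refine LinearEquiv.ext fun b => ?_
      have h3 := hc' (ψ (0, b))
      rw [v1_embR_apply, e2, e2, v1_embR_apply] at h3
      exact congrArg Prod.snd (ψ.injective h3)
    · refine LinearEquiv.ext fun v => ?_
      obtain ⟨⟨a, b⟩, rfl⟩ := ψ.surjective v
      rw [emb_apply]
      have h3 : ψ (a, b) = ψ (a, 0) + ψ (0, b) := by
        rw [← map_add]
        simp
      rw [h3, map_add, e1, e2, ← map_add]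
      simp
  · rintro ⟨h, x, hx, rfl⟩
    exact (Commute.prod (x := (h, x)) (y := (1, u)) (Commute.one_right h) hx).map (emb ψ)

variable {k : Type} [Field k]

/-- Restrict to the Levi subgroup and sum over the second factor. -/
noncomputable def bet (ψ : (A × B) ≃ₗ[K] V) :
    MonoidAlgebra k (V ≃ₗ[K] V) →ₗ[k] MonoidAlgebra k (A ≃ₗ[K] A) where
  toFun z := .ofCoeff (Finsupp.equivFunOnFinite.symm fun h => ∑ x, z.coeff (emb ψ (h, x)))
  map_add' := by
    intro x y
    ext h
    simp [Finset.sum_add_distrib]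
  map_smul' := by
    intro c x
    ext h
    simp [Finset.mul_sum]

theorem coeff_bet (ψ : (A × B) ≃ₗ[K] V) (z : MonoidAlgebra k (V ≃ₗ[K] V)) (h : A ≃ₗ[K] A) :
    (bet ψ z).coeff h = ∑ x, z.coeff (emb ψ (h, x)) := rfl

theorem v1_single (ψ : (A × B) ≃ₗ[K] V) (h : A ≃ₗ[K] A) (x : B ≃ₗ[K] B) (c : k) :
    bet ψ (single (emb ψ (h, x)) c) = single h c := by
  classical
  ext g
  rw [coeff_bet]
  simp only [coeff_single, Finsupp.single_apply, (emb_inj ψ).eq_iff, Prod.mk.injEq]
  by_cases hg : h = g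
  · simp [hg]
  · simp [hg]

theorem v1_map (ψ : (A × B) ≃ₗ[K] V) (w : MonoidAlgebra k ((A ≃ₗ[K] A) × (B ≃ₗ[K] B))) :
    bet ψ (mapDomainAlgHom k k (emb ψ) w) = mapDomainAlgHom k k (MonoidHom.fst _ _) w := by
  induction w using MonoidAlgebra.induction_linear with
  | zero => simp
  | add a b ha hb => rw [map_add, map_add, map_add, ha, hb]
  | single a c =>
    rw [mapDomainAlgHom_apply, mapDomainAlgHom_apply, mapDomain_single, mapDomain_single]
    exact v1_single ψ a.1 a.2 c

theorem bet_one (ψ : (A × B) ≃ₗ[K] V) : bet ψ (1 : MonoidAlgebra k (V ≃ₗ[K] V)) = 1 := by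
  have h := v1_map (k := k) ψ 1
  rwa [map_one (mapDomainAlgHom k k (emb ψ)), map_one (mapDomainAlgHom k k _)] at h

theorem bet_push (ψ : (A × B) ≃ₗ[K] V) (y : MonoidAlgebra k (A ≃ₗ[K] A)) :
    bet ψ (mapDomainAlgHom k k (embL ψ) y) = y := by
  induction y using MonoidAlgebra.induction_linear with
  | zero => simp
  | add a b ha hb => rw [map_add, map_add, ha, hb]
  | single a c =>
    rw [mapDomainAlgHom_apply, mapDomain_single]
    exact v1_single ψ a 1 c

theorem fix_push (ψ : (A × B) ≃ₗ[K] V) (S : Subgroup (B ≃ₗ[K] B))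
    (y : MonoidAlgebra k (A ≃ₗ[K] A)) : Fix (S.map (embR ψ)) (mapDomainAlgHom k k (embL ψ) y) := by
  rintro _ ⟨s, -, rfl⟩
  induction y using MonoidAlgebra.induction_linear with
  | zero => simp
  | add a b ha hb => rw [map_add, mul_add, add_mul, ha, hb]
  | single a c =>
    rw [mapDomainAlgHom_apply, mapDomain_single, of_apply, single_mul_single, single_mul_single,
      v1_embR, v1_embL, ← map_mul, ← map_mul]
    simp

theorem bet_central (ψ : (A × B) ≃ₗ[K] V) {z : MonoidAlgebra k (V ≃ₗ[K] V)} (hz : Fix ⊤ z) :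
    Fix ⊤ (bet ψ z) := by
  rw [fix_iff] at hz ⊢
  intro u _ h
  rw [coeff_bet, coeff_bet]
  refine Finset.sum_congr rfl fun x _ => ?_
  rw [← hz (emb ψ (u, 1)) trivial (emb ψ (h, x)), ← map_inv, ← map_mul, ← map_mul]
  simp

omit [Finite A] [Finite B] [Finite V] in
theorem v1_cent (ψ : (A × B) ≃ₗ[K] V) (S : Subgroup (B ≃ₗ[K] B)) (h : A ≃ₗ[K] A)
    (x : B ≃ₗ[K] B) : emb ψ (h, x) ∈ Subgroup.centralizer (S.map (embR ψ) : Set (V ≃ₗ[K] V)) ↔
      x ∈ Subgroup.centralizer (S : Set (B ≃ₗ[K] B)) := by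
  rw [Subgroup.mem_centralizer_iff, Subgroup.mem_centralizer_iff]
  constructor
  · intro H s hs
    have h1 := H (embR ψ s) ⟨s, hs, rfl⟩
    rw [v1_embR, ← map_mul, ← map_mul] at h1
    exact congrArg Prod.snd (emb_inj ψ h1)
  · rintro H _ ⟨s, hs, rfl⟩
    rw [v1_embR, ← map_mul, ← map_mul, Prod.mk_mul_mk, Prod.mk_mul_mk, H s hs, one_mul, mul_one]

/- PLAN: `orb_sum` for `S` acting on `GL(B)` by conjugation; `emb ψ (h, x)` centralises the image of
`S` iff `x` centralises `S`. -/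
theorem bet_Br (p : ℕ) [Fact p.Prime] [CharP k p] (ψ : (A × B) ≃ₗ[K] V)
    {S : Subgroup (B ≃ₗ[K] B)} (hS : IsPGroup p S) {z : MonoidAlgebra k (V ≃ₗ[K] V)}
    (hz : Fix (S.map (embR ψ)) z) : bet ψ (Br (S.map (embR ψ)) z) = bet ψ z := by
  classical
  ext h
  rw [coeff_bet, coeff_bet, b1a_orb p hS (fun x => z.coeff (emb ψ (h, x)))]
  · refine Finset.sum_congr rfl fun x _ => ?_
    rw [coeff_Br]
    by_cases hx : x ∈ Subgroup.centralizer (S : Set (B ≃ₗ[K] B))
    · rw [if_pos hx, if_pos ((v1_cent ψ S h x).2 hx)]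
    · rw [if_neg hx, if_neg fun h' => hx ((v1_cent ψ S h x).1 h')]
  · intro s hs x
    rw [← fix_iff.1 hz (embR ψ s) ⟨s, hs, rfl⟩ (emb ψ (h, x)), v1_embR, ← map_inv, ← map_mul,
      ← map_mul]
    simp

theorem v1_supp (ψ : (A × B) ≃ₗ[K] V) {u : B ≃ₗ[K] B} (hu : ∀ x, u x = x → x = 0)
    (x : MonoidAlgebra k (V ≃ₗ[K] V)) :
    ∃ w, Br ((Subgroup.zpowers u).map (embR ψ)) x = mapDomainAlgHom k k (emb ψ) w := by
  refine ⟨brq (emb ψ) (Br ((Subgroup.zpowers u).map (embR ψ)) x), ?_⟩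
  ext g
  show _ = Finsupp.mapDomain (emb ψ) (brq (emb ψ) _).coeff g
  by_cases hg : g ∈ Set.range (emb ψ)
  · obtain ⟨c, rfl⟩ := hg
    rw [Finsupp.mapDomain_apply (emb_inj ψ), coeff_brq]
  · rw [Finsupp.mapDomain_of_notMem_range _ _ hg, coeff_Br, if_neg]
    intro hc
    have h1 := Subgroup.mem_centralizer_iff.1 hc (embR ψ u) ⟨u, Subgroup.mem_zpowers u, rfl⟩
    obtain ⟨h, y, -, e⟩ := (commute_embR ψ hu g).1 h1.symm
    exact hg ⟨_, e.symm⟩

/- PLAN: with `R = zpowers u`: `bet_Br`, `Br_mul`; `Br x` and `Br y` are supported in the range of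
`emb ψ` (`commute_embR`), so of the form `mapDomainAlgHom k k (emb ψ) x'`, and
`bet (mapDomain (emb ψ) x') = mapDomainAlgHom k k (MonoidHom.fst _ _) x'`. -/
theorem bet_mul (p : ℕ) [Fact p.Prime] [CharP k p] (ψ : (A × B) ≃ₗ[K] V)
    {S : Subgroup (B ≃ₗ[K] B)} {u : B ≃ₗ[K] B} (h : u ∈ S) (hu : Fpf p u)
    {x y : MonoidAlgebra k (V ≃ₗ[K] V)} (hx : Fix (S.map (embR ψ)) x)
    (hy : Fix (S.map (embR ψ)) y) : bet ψ (x * y) = bet ψ x * bet ψ y := by
  obtain ⟨⟨r, hr⟩, hu⟩ := hu
  have hR : IsPGroup p (Subgroup.zpowers u) := by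
    rintro ⟨_, n, rfl⟩
    refine ⟨r, Subtype.ext ?_⟩
    show (u ^ n) ^ p ^ r = 1
    rw [← zpow_natCast, ← zpow_mul, mul_comm, zpow_mul, zpow_natCast, hr, one_zpow]
  have hle : (Subgroup.zpowers u).map (embR ψ) ≤ S.map (embR ψ) :=
    Subgroup.map_mono ((Subgroup.zpowers_le).2 h)
  have hx' := hx.mono hle
  have hy' := hy.mono hle
  have hxy : Fix ((Subgroup.zpowers u).map (embR ψ)) (x * y) :=
    (fixAlg k _).mul_mem hx' hy'
  rw [← bet_Br p ψ hR hxy, ← bet_Br p ψ hR hx', ← bet_Br p ψ hR hy',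
    Br_mul p (hR.map _) hx' hy']
  obtain ⟨w, hw⟩ := v1_supp ψ hu x
  obtain ⟨w', hw'⟩ := v1_supp ψ hu y
  rw [hw, hw', ← map_mul, v1_map, v1_map, v1_map, map_mul]

/- PLAN: the coefficient of `Br Q (bet z)` at `h` centralising `Q` is the sum of the
`z (emb ψ (h, x))`, by `bet_Br` over the `x` centralising `S`, and then `emb ψ (h, x)` centralises
`Q.map (embL ψ) ⊔ S.map (embR ψ)`. -/
theorem Br_bet (p : ℕ) [Fact p.Prime] [CharP k p] (ψ : (A × B) ≃ₗ[K] V)
    {S : Subgroup (B ≃ₗ[K] B)} (hS : IsPGroup p S) (Q : Subgroup (A ≃ₗ[K] A))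
    {z : MonoidAlgebra k (V ≃ₗ[K] V)} (hz : Fix ⊤ z)
    (h : Br (Q.map (embL ψ) ⊔ S.map (embR ψ)) z = 0) : Br Q (bet ψ z) = 0 := by
  classical
  ext g
  rw [coeff_Br]
  split_ifs with hg
  · rw [← bet_Br p ψ hS (hz.mono le_top), coeff_bet]
    refine Finset.sum_eq_zero fun x _ => ?_
    rw [coeff_Br]
    split_ifs with hx
    · have h1 := congrArg (fun w : MonoidAlgebra k (V ≃ₗ[K] V) => w.coeff (emb ψ (g, x))) h
      simp only [coeff_Br] at h1
      rw [if_pos] at h1
      · exact h1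
      · have h2 : Q.map (embL ψ) ⊔ S.map (embR ψ) ≤ Subgroup.centralizer {emb ψ (g, x)} := by
          refine sup_le ?_ fun v hv => ?_
          · rintro _ ⟨q, hq, rfl⟩
            rw [Subgroup.mem_centralizer_singleton_iff, v1_embL, ← map_mul, ← map_mul,
              Prod.mk_mul_mk, Prod.mk_mul_mk, Subgroup.mem_centralizer_iff.1 hg q hq, one_mul,
              mul_one]
          · rw [Subgroup.mem_centralizer_singleton_iff]
            exact Subgroup.mem_centralizer_iff.1 hx v hv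
        rw [Subgroup.mem_centralizer_iff]
        intro v hv
        exact Subgroup.mem_centralizer_singleton_iff.1 (h2 hv)
    · rfl
  · rfl

omit [Finite A] [Finite B] [Finite V] in
theorem pgroup_sup (p : ℕ) [Fact p.Prime] (ψ : (A × B) ≃ₗ[K] V) {Q : Subgroup (A ≃ₗ[K] A)}
    {S : Subgroup (B ≃ₗ[K] B)} (hQ : IsPGroup p Q) (hS : IsPGroup p S) :
    IsPGroup p (Q.map (embL ψ) ⊔ S.map (embR ψ) : Subgroup (V ≃ₗ[K] V)) := by
  have h1 : IsPGroup p (Q.prod S) := by
    rintro ⟨⟨a, b⟩, ha, hb⟩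
    obtain ⟨r, hr⟩ := hQ ⟨a, ha⟩
    obtain ⟨s, hs⟩ := hS ⟨b, hb⟩
    have hr' : a ^ p ^ r = 1 := congrArg Subtype.val hr
    have hs' : b ^ p ^ s = 1 := congrArg Subtype.val hs
    refine ⟨r + s, Subtype.ext (Prod.ext ?_ ?_)⟩
    · show a ^ p ^ (r + s) = 1
      rw [pow_add, pow_mul, hr', one_pow]
    · show b ^ p ^ (r + s) = 1
      rw [pow_add, mul_comm, pow_mul, hs', one_pow]
  refine (h1.map (emb ψ)).to_le (sup_le ?_ ?_)
  · rintro _ ⟨q, hq, rfl⟩
    exact ⟨(q, 1), ⟨hq, S.one_mem⟩, rfl⟩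
  · rintro _ ⟨s, hs, rfl⟩
    exact ⟨(1, s), ⟨Q.one_mem, hs⟩, rfl⟩

end Pool.Agent.Puig
end

-- merged part: Pool.Agent.Work.MP_cea1f0_al.A1
section
/-! The source idempotents of the principal block have augmentation one. -/

namespace Pool.Agent.Puig

open MonoidAlgebra

variable {F G : Type} [Field F] [Group G] [Finite G]

/- PLAN: `IsPGroup.exists_le_sylow`; for a Sylow `E ≥ D`, `aug (Br E b) = 1` (`aug_Br`,
`fix_top_iff`), so `Br E b ≠ 0` and `E = D`. -/
theorem IsDefect.sylow (p : ℕ) [Fact p.Prime] [CharP F p] {b : MonoidAlgebra F G} (hb : IsBlock b)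
    (h1 : aug b = 1) {D : Subgroup G} (hD : IsDefect p b D) : ∃ S : Sylow p G, (S : Subgroup G) = D := by
  obtain ⟨E, hE⟩ := hD.1.exists_le_sylow
  refine ⟨E, hD.2.2 E E.isPGroup' hE fun h => ?_⟩
  have := aug_Br p E.isPGroup' (hb.prim.2.2.1.mono le_top)
  rw [h, h1, aug_eq, map_zero] at this
  exact zero_ne_one this

theorem sylow_card (p : ℕ) [Fact p.Prime] (S : Sylow p G) {a : ℕ} (h : p ^ a ∣ Nat.card G) :
    p ^ a ≤ Nat.card S :=
  Nat.le_of_dvd Nat.card_pos (S.pow_dvd_card_of_pow_dvd_card h)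

/- PLAN: a Sylow subgroup `Z` of the group `C` is central, so `MonoidHom.ker_transferSylow_isComplement'`
gives a complement `H`, of order prime to `p`; by `exists_pparts` or directly: if `c = h * z` has
order prime to `p` then so has `z` (`h`, `z` commute), so `z = 1`. -/
theorem reg_subgroup (p : ℕ) [Fact p.Prime] {C : Type} [Group C] [Finite C]
    (h : ∀ (z : C) (r : ℕ), z ^ p ^ r = 1 → z ∈ Subgroup.center C) :
    ∃ H : Subgroup C, (∀ c, c ∈ H ↔ (orderOf c).Coprime p) ∧ ¬ p ∣ Nat.card H := by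
  obtain ⟨S⟩ : Nonempty (Sylow p C) := inferInstance
  have hS : Subgroup.normalizer (S : Set C) ≤ Subgroup.centralizer (S : Set C) :=
    fun g _ z hz => by
      obtain ⟨r, hr⟩ := S.isPGroup' ⟨z, hz⟩
      exact (Subgroup.mem_center_iff.1 (h z r (congrArg Subtype.val hr)) g).symm
  have hn := MonoidHom.not_dvd_card_ker_transferSylow S hS
  refine ⟨_, fun c => ⟨fun hc => ?_, fun hc => ?_⟩, hn⟩
  · exact ((Nat.Prime.coprime_iff_not_dvd Fact.out).2 hn).symm.coprime_dvd_left
      (Subgroup.orderOf_dvd_natCard _ hc)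
  · obtain ⟨r, hr⟩ := S.isPGroup' (MonoidHom.transferSylow S hS c)
    exact orderOf_eq_one_iff.1 (Nat.eq_one_of_dvd_coprimes (hc.pow_right r)
      (orderOf_map_dvd _ c) (orderOf_dvd_of_pow_eq_one hr))

theorem a1_mem (p : ℕ) [Fact p.Prime] (S : Sylow p G) {z : G}
    (hz : z ∈ Subgroup.centralizer (S : Set G)) {r : ℕ} (hr : z ^ p ^ r = 1) :
    z ∈ (S : Subgroup G) := by
  have h1 : IsPGroup p (Subgroup.zpowers z) := by
    rintro ⟨_, k, rfl⟩
    refine ⟨r, Subtype.ext ?_⟩
    change (z ^ k) ^ p ^ r = 1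
    rw [← zpow_natCast, ← zpow_mul, mul_comm, zpow_mul, zpow_natCast, hr, one_zpow]
  have h2 := S.is_maximal' (S.isPGroup'.to_sup_of_normal_left' h1
    ((Subgroup.zpowers_le_of_mem hz).trans (Subgroup.centralizer_le_normalizer _))) le_sup_left
  exact h2 ▸ Subgroup.mem_sup_right (Subgroup.mem_zpowers z)

/- PLAN: a `p`-element `z` centralising `S` generates with `S` a `p`-group
(`IsPGroup.to_sup_of_normal_left'`-type lemmas or `Sylow.is_maximal'`), so `z ∈ S`; apply
`reg_subgroup` to the centraliser and map `H` to `G`. -/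
theorem reg_cent (p : ℕ) [Fact p.Prime] (S : Sylow p G) :
    ∃ H : Subgroup G, ¬ p ∣ Nat.card H ∧
      (∀ c, c ∈ H ↔ c ∈ Subgroup.centralizer (S : Set G) ∧ (orderOf c).Coprime p) ∧
      ∀ c ∈ Subgroup.centralizer (S : Set G), ∃ h ∈ H, ∃ z ∈ (S : Subgroup G),
        z ∈ Subgroup.centralizer (S : Set G) ∧ c = h * z := by
  obtain ⟨H, h1, h2⟩ := reg_subgroup p (C := Subgroup.centralizer (S : Set G)) fun z r hz =>
    Subgroup.mem_center_iff.2 fun g =>
      Subtype.ext (g.2 z (a1_mem p S z.2 (congrArg Subtype.val hz))).symm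
  have h3 : ∀ c, c ∈ H.map (Subgroup.subtype _) ↔
      c ∈ Subgroup.centralizer (S : Set G) ∧ (orderOf c).Coprime p := fun c => by
    constructor
    · rintro ⟨c, hc, rfl⟩
      exact ⟨c.2, by simpa using (h1 c).1 hc⟩
    · rintro ⟨k1, k2⟩
      exact ⟨⟨c, k1⟩, (h1 _).2 (by simpa using k2), rfl⟩
  refine ⟨_, by rwa [Subgroup.card_subtype], h3, fun c hc => ?_⟩
  obtain ⟨s, u, r, e, -, k1, k2, k3, k4⟩ := exists_pparts p c
  have k5 := Subgroup.zpowers_le_of_mem hc
  exact ⟨s, (h3 s).2 ⟨k5 k3, k1⟩, u, a1_mem p S (k5 k4) k2, k5 k4, e⟩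

omit [Finite G] in
theorem a1_sum [Fintype G] (x : MonoidAlgebra F G) : ∑ g, x.coeff g • of F G g = x := by
  conv_rhs => rw [← x.sum_coeff_single, Finsupp.sum_fintype _ _ fun _ => single_zero _]
  simp only [smul_of]

/- PLAN: `e * of h = e` for `h ∈ H`, `e` commutes with `S`.  `x = e * x = ∑ c, x c • e * of (z c)
= e * ∑ c, x c • (of (z c) - 1)` as the sum of the coefficients is zero; the `of (z c) - 1` are
commuting nilpotent elements (`sub_pow_char_pow_of_commute`, `Commute.isNilpotent_add`,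
`isNilpotent_sum`/`Commute.isNilpotent_sum`) commuting with `e`. -/
theorem loc_nil (p : ℕ) [Fact p.Prime] [CharP F p] {S H : Subgroup G} (hS : IsPGroup p S)
    (h : ∀ c ∈ Subgroup.centralizer (S : Set G), ∃ h ∈ H, ∃ z ∈ S,
      z ∈ Subgroup.centralizer (S : Set G) ∧ c = h * z)
    {e x : MonoidAlgebra F G} (he : ∀ h ∈ H, e * of F G h = e) (heS : Fix S e) (hx : Br S x = x)
    (hex : e * x = x) (h0 : aug x = 0) : IsNilpotent x := by
  classical
  have := Fintype.ofFinite G
  have := charP_of_injective_algebraMap (algebraMap F (MonoidAlgebra F G)).injective p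
  have h1 : ∀ c, ∃ z ∈ S, z ∈ Subgroup.centralizer (S : Set G) ∧
      x.coeff c • (e * of F G c) = x.coeff c • (e * of F G z) := fun c => by
    by_cases hc : c ∈ Subgroup.centralizer (S : Set G)
    · obtain ⟨a, ha, z, k1, k2, rfl⟩ := h c hc
      exact ⟨z, k1, k2, by rw [(of F G).map_mul, ← mul_assoc, he a ha]⟩
    · exact ⟨1, one_mem _, one_mem _, by rw [← hx, coeff_Br, if_neg hc, zero_smul, zero_smul]⟩
  choose w k1 k2 k3 using h1
  have h2 : x = e * ∑ c, x.coeff c • (of F G (w c) - 1) := by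
    simp only [Finset.mul_sum, mul_smul_comm, mul_sub, smul_sub, Finset.sum_sub_distrib, ← k3,
      mul_one]
    rw [← Finset.sum_smul, ← aug_eq_sum, h0, zero_smul, sub_zero]
    simp only [← mul_smul_comm, ← Finset.mul_sum]
    rw [a1_sum, hex]
  rw [h2]
  refine Commute.isNilpotent_mul_left (Commute.sum_right _ _ _ fun c _ =>
    (((show Commute _ _ from heS _ (k1 c)).symm.sub_right (Commute.one_right _)).smul_right _))
    (Commute.isNilpotent_sum (fun c _ => IsNilpotent.smul ?_ _) fun c d _ _ => ?_)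
  · obtain ⟨r, hr⟩ := hS ⟨w c, k1 c⟩
    refine ⟨p ^ r, ?_⟩
    rw [sub_pow_char_pow_of_commute _ _ (Commute.one_right _), ← map_pow,
      show w c ^ p ^ r = 1 from congrArg Subtype.val hr, map_one, one_pow, sub_self]
  · have : Commute (of F G (w c)) (of F G (w d)) :=
      (show Commute (w c) (w d) from k2 d _ (k1 c)).map _
    exact (((this.sub_right (Commute.one_right _)).sub_left (Commute.one_left _)).smul_left
      _).smul_right _

/- PLAN: `D = S` Sylow, `H` from `reg_cent`.  Let `z` have coefficient `(Nat.card H)⁻¹` on the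
elements of order prime to `p` and `0` elsewhere: it is central, `e = Br S z` is the average over
`H`, idempotent, `aug e = 1 = aug z`.  `b * z` is central of augmentation `1`, so not nilpotent, so
`b * z * y = b` (`IsBlock.prim`, `Prim.fit`); applying `Br S`, `e * Br S b = Br S b`
(`b * z = z * b`).  Then `x = Br S i = Br S b * x = e * x` is a non-zero idempotent, not nilpotent,
so `aug x ≠ 0` (`loc_nil`), so `aug i = aug x = 1`. -/
theorem IsSource.aug_eq_one (p : ℕ) [Fact p.Prime] [CharP F p] {b i : MonoidAlgebra F G}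
    (hb : IsBlock b) (h1 : aug b = 1) {D : Subgroup G} (hD : IsDefect p b D)
    (hi : IsSource b D i) : aug i = 1 := by
  classical
  have := Fintype.ofFinite G
  obtain ⟨S, rfl⟩ := hD.sylow p hb h1
  obtain ⟨H, k1, k2, k3⟩ := reg_cent p S
  have hn : (Nat.card H : F) ≠ 0 := fun h => k1 ((CharP.cast_eq_zero_iff F p _).1 h)
  let z : MonoidAlgebra F G := .ofCoeff (Finsupp.equivFunOnFinite.symm fun g =>
    if (orderOf g).Coprime p then (Nat.card H : F)⁻¹ else 0)
  have hz : Fix ⊤ z := fix_iff.2 fun u _ g => by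
    change (if (orderOf (u * g * u⁻¹)).Coprime p then _ else _) = if _ then _ else _
    rw [show orderOf (u * g * u⁻¹) = orderOf g from (MulAut.conj u).orderOf_eq g]
  have hc : ∀ g, (Br S z).coeff g = if g ∈ H then (Nat.card H : F)⁻¹ else 0 := fun g => by
    rw [coeff_Br, if_congr (k2 g) rfl rfl, ite_and]
    rfl
  have he : ∀ h ∈ H, Br S z * of F G h = Br S z := fun h hh => by
    ext g
    rw [of_apply, coeff_mul_single_apply, mul_one, hc, hc,
      if_congr (H.mul_mem_cancel_right (inv_mem hh)) rfl rfl]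
  have ha : aug (Br S z) = 1 := by
    simp only [aug_eq_sum, hc]
    rw [← Finset.sum_filter, Finset.sum_const, nsmul_eq_mul, ← Fintype.card_subtype,
      ← Nat.card_eq_fintype_card, mul_inv_cancel₀ hn]
  have hee : Br S z * Br S z = Br S z := by
    have h2 : ∀ g, (Br S z).coeff g • (Br S z * of F G g) = (Br S z).coeff g • Br S z :=
      fun g => by
        by_cases hg : g ∈ H
        · rw [he g hg]
        · rw [hc, if_neg hg, zero_smul, zero_smul]
    conv_lhs => rhs; rw [← a1_sum (Br S z)]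
    simp only [Finset.mul_sum, mul_smul_comm, h2]
    rw [← Finset.sum_smul, ← aug_eq_sum, ha, one_smul]
  have hb' := hb.prim.2.2.1
  have hS := S.isPGroup'
  rcases hb.prim.fit ((fixAlg F ⊤).mul_mem hb' hz) (by
    rw [← mul_assoc, hb.1.eq, hb.2.2.1, ← mul_assoc, hb.1.eq]) with h | ⟨y, hy, -, h, -⟩
  · have := (h.map (augH F G)).eq_zero
    rw [← aug_eq, aug_mul, h1, ← aug_Br p hS (hz.mono le_top), ha, one_mul] at this
    exact absurd this one_ne_zero
  have h2 : Br S z * Br S b = Br S b := by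
    rw [← h, ← hb.2.2.1 z, mul_assoc,
      Br_mul p hS (hz.mono le_top) (Fix.mono ((fixAlg F ⊤).mul_mem hb' hy) le_top),
      ← mul_assoc, hee]
  have hi' := hi.1.2.2.1
  have h3 : Br S z * Br S i = Br S i := by
    rw [← hi.2.1, Br_mul p hS (hb'.mono le_top) hi', ← mul_assoc, h2]
  have h4 : IsIdempotentElem (Br S i) := by
    rw [IsIdempotentElem, ← Br_mul p hS hi' hi', hi.1.1.eq]
  have h5 : aug i ≠ 0 := fun h0 => by
    obtain ⟨n, hn⟩ := loc_nil p hS k3 he (fix_Br _ z) (Br_Br le_rfl i) h3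
      ((aug_Br p hS hi').trans h0)
    exact hi.2.2 (by rw [← h4.pow_succ_eq n, pow_succ, hn, zero_mul])
  exact mul_left_cancel₀ h5 (by rw [← aug_mul, hi.1.1.eq, mul_one])

end Pool.Agent.Puig
end

-- merged part: Pool.Agent.Work.MP_cea1f0_al.A3
section
/-! Finiteness from a bound for the dimension. -/

namespace Pool.Agent.Puig

open MonoidAlgebra Module

section
variable {F F₀ P G : Type} [Field F] [Field F₀] [Group P] [Group G]

/-- The interior algebra `i F G i` has structure constants `(δ, η)` defined over `F₀`. -/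
def SC (f : F₀ →+* F) {d : ℕ} (δ : Fin d → Fin d → Fin d → F₀) (η : P → Fin d → F₀)
    (D : Subgroup G) (i : MonoidAlgebra F G) : Prop :=
  ∃ (φ : P ≃* D) (v : Fin d → MonoidAlgebra F G), LinearIndependent F v ∧
    (Submodule.span F (Set.range v) : Set (MonoidAlgebra F G)) = {x | i * x * i = x} ∧
    (∀ a b, v a * v b = ∑ c, f (δ a b c) • v c) ∧
    ∀ u, i * of F G (φ u : G) = ∑ c, f (η u c) • v c

theorem a3_mem {R : Type} [Ring R] [Algebra F R] {i x : R} (hi : IsIdempotentElem i) :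
    x ∈ LinearMap.range (LinearMap.mulLeftRight F (i, i)) ↔ i * x * i = x := by
  refine ⟨?_, fun h => ⟨x, h⟩⟩
  rintro ⟨y, rfl⟩
  show i * (i * y * i) * i = i * y * i
  rw [← mul_assoc, ← mul_assoc, hi.eq, mul_assoc, hi.eq]

theorem a3_lr {R : Type} [Ring R] {i x : R} (hi : IsIdempotentElem i) (h : i * x * i = x) :
    i * x = x ∧ x * i = x :=
  (Subsemigroup.mem_corner_iff hi).1 ⟨x, h⟩

theorem a3_mul {R : Type} [Ring R] {i x y : R} (hi : IsIdempotentElem i) (hx : i * x * i = x)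
    (hy : i * y * i = y) : i * (x * y) * i = x * y := by
  rw [← mul_assoc, (a3_lr hi hx).1, mul_assoc, (a3_lr hi hy).2]

theorem a3_of {D : Subgroup G} {i : MonoidAlgebra F G} (hi : IsIdempotentElem i) (hf : Fix D i)
    (u : D) : i * (i * of F G (u : G)) * i = i * of F G (u : G) := by
  rw [← mul_assoc, hi.eq, mul_assoc, hf u u.2, ← mul_assoc, hi.eq]

theorem a3_smul (f : F₀ →+* F) (r : F₀) (x : MonoidAlgebra F₀ G) :
    mapRingHom G f (r • x) = f r • mapRingHom G f x := by
  ext g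
  simp

theorem a3_map_of (f : F₀ →+* F) (g : G) : mapRingHom G f (of F₀ G g) = of F G g := by
  simp

/- PLAN: a basis `v₀` of the range of `mulLeftRight F₀ (i, i)` (`Module.finBasisOfFinrankEq`), `δ`, `η`
its coordinates; `v = map v₀`, `linInd_map`; spanning: `x = i' * x * i'` is a combination of the
`i' * of g * i' = map (i * of g * i)`. -/
theorem exists_sc [Finite G] (f : F₀ →+* F) {D : Subgroup G} (φ : P ≃* D) {i : MonoidAlgebra F₀ G}
    (hi : IsIdempotentElem i) (hf : Fix D i) :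
    ∃ (δ : Fin (bim i i) → Fin (bim i i) → Fin (bim i i) → F₀) (η : P → Fin (bim i i) → F₀),
      SC f δ η D (mapRingHom G f i) := by
  let v : Basis (Fin (bim i i)) F₀ (LinearMap.range (LinearMap.mulLeftRight F₀ (i, i))) :=
    finBasisOfFinrankEq F₀ _ rfl
  have hv (a) : i * (v a : MonoidAlgebra F₀ G) * i = v a := (a3_mem hi).1 (v a).2
  have key (y : LinearMap.range (LinearMap.mulLeftRight F₀ (i, i))) :
      mapRingHom G f y = ∑ c, f (v.repr y c) • mapRingHom G f (v c) := by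
    conv_lhs => rw [← v.sum_repr y]
    simp only [Submodule.coe_sum, Submodule.coe_smul, map_sum, a3_smul]
  have hi' : IsIdempotentElem (mapRingHom G f i) := hi.map _
  refine ⟨fun a b => v.repr ⟨v a * v b, (a3_mem hi).2 (a3_mul hi (hv a) (hv b))⟩,
    fun u => v.repr ⟨i * of F₀ G (φ u : G), (a3_mem hi).2 (a3_of hi hf _)⟩, φ,
    fun a => mapRingHom G f (v a),
    linInd_map f (v.linearIndependent.map' (Submodule.subtype _) (Submodule.ker_subtype _)),
    Set.Subset.antisymm (fun x hx => (a3_mem (F := F) hi').1 (Submodule.span_le.2 ?_ hx))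
      fun x hx => ?_, fun a b => ?_, fun u => ?_⟩
  · rintro _ ⟨a, rfl⟩
    refine (a3_mem hi').2 ?_
    rw [← map_mul, ← map_mul, hv]
  · rw [← show _ = x from hx]
    clear hx
    induction x using MonoidAlgebra.induction_on with
    | of g =>
      rw [← a3_map_of f, ← map_mul, ← map_mul]
      refine key ⟨i * of F₀ G g * i, _, rfl⟩ ▸ Submodule.sum_mem _ fun c _ => ?_
      exact Submodule.smul_mem _ _ (Submodule.subset_span ⟨c, rfl⟩)
    | add x y hx hy =>
      rw [mul_add, add_mul]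
      exact add_mem hx hy
    | smul r x hx =>
      rw [mul_smul_comm, smul_mul_assoc]
      exact Submodule.smul_mem _ _ hx
  · rw [← key, map_mul]
  · rw [← key, map_mul, a3_map_of]

/-- The corner of an idempotent. -/
def a3_cor (F : Type) [Field F] {R : Type} [Ring R] [Algebra F R] {i : R}
    (hi : IsIdempotentElem i) : NonUnitalSubalgebra F R where
  carrier := {x | i * x * i = x}
  add_mem' := fun {x y} hx hy => by
    show i * (x + y) * i = x + y
    rw [mul_add, add_mul, hx, hy]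
  zero_mem' := by simp
  mul_mem' := a3_mul hi
  smul_mem' c x hx := by
    show i * (c • x) * i = c • x
    rw [mul_smul_comm, smul_mul_assoc, hx]

/- PLAN: `A = IsIdempotentElem.Corner hi` with the algebra structure `Algebra.ofModule`, or a
subtype with a ring structure written by hand; `α u = i * of (φ u)` with inverse `i * of (φ u)⁻¹`. -/
theorem exists_isoSrc [Finite G] {D : Subgroup G} (φ : P ≃* D) {i : MonoidAlgebra F G}
    (hi : IsIdempotentElem i) (hf : Fix D i) :
    ∃ (A : Type) (_ : Ring A) (_ : Algebra F A) (α : P →* Aˣ) (Φ : A →ₙₐ[F] MonoidAlgebra F G),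
      FiniteDimensional F A ∧ Function.Injective Φ ∧ Set.range Φ = {x | i * x * i = x} ∧
      ∀ u, Φ (α u : A) = i * of F G (φ u : G) := by
  let _ : Ring (a3_cor F hi) :=
    { (inferInstance : NonUnitalRing (a3_cor F hi)) with
      one := ⟨i, show i * i * i = i by rw [hi.eq, hi.eq]⟩
      one_mul := fun x => Subtype.ext (a3_lr hi x.2).1
      mul_one := fun x => Subtype.ext (a3_lr hi x.2).2 }
  let _ : Algebra F (a3_cor F hi) := Algebra.ofModule smul_mul_assoc mul_smul_comm
  let β : P →* a3_cor F hi :=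
    { toFun := fun u => ⟨i * of F G (φ u : G), a3_of hi hf _⟩
      map_one' := Subtype.ext (by
        show i * of F G (φ 1 : G) = i
        rw [map_one, OneMemClass.coe_one, map_one, mul_one])
      map_mul' := fun u w => Subtype.ext (by
        show i * of F G (φ (u * w) : G) = i * of F G (φ u : G) * (i * of F G (φ w : G))
        rw [map_mul, Subgroup.coe_mul, map_mul, ← mul_assoc _ i, (a3_lr hi (a3_of hi hf _)).2,
          mul_assoc]) }
  exact ⟨a3_cor F hi, inferInstance, inferInstance, β.toHomUnits,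
    NonUnitalSubalgebraClass.subtype (a3_cor F hi),
    inferInstanceAs (FiniteDimensional F (a3_cor F hi).toSubmodule), Subtype.val_injective,
    Subtype.range_coe, fun _ => rfl⟩

/- PLAN: if some `(G, D, i)` has these constants, with `φ`, `v`, take `A`, `α`, `Φ` from
`exists_isoSrc`; the preimages of the `v a` form a basis of `A`; for another `(G', D', i')` send them
to the `v' a` (`Basis.constr`).  If there is none take `A = F`, `α = 1`. -/
theorem exists_model (f : F₀ →+* F) {d : ℕ} (δ : Fin d → Fin d → Fin d → F₀) (η : P → Fin d → F₀) :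
    ∃ (A : Type) (_ : Ring A) (_ : Algebra F A) (α : P →* Aˣ), FiniteDimensional F A ∧
      ∀ (G : Type) [Group G] [Finite G] (D : Subgroup G) (i : MonoidAlgebra F G),
        IsIdempotentElem i → Fix D i → SC f δ η D i → IsoSrc α D i := by
  by_cases h : ∃ (G : Type) (_ : Group G) (_ : Finite G) (D : Subgroup G) (i : MonoidAlgebra F G),
    IsIdempotentElem i ∧ Fix D i ∧ SC f δ η D i
  swap
  · exact ⟨F, inferInstance, inferInstance, 1, inferInstance,
      fun G _ _ D i h1 h2 h3 => (h ⟨G, _, inferInstance, D, i, h1, h2, h3⟩).elim⟩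
  obtain ⟨G₀, _, _, D₀, i₀, hi, hf, φ, v, hv, hs, hm, hη⟩ := h
  obtain ⟨A, _, _, α, Φ, hA, hΦ, hr, hα⟩ := exists_isoSrc φ hi hf
  rw [← hs] at hr
  have h1 (a) : v a ∈ Set.range Φ := hr ▸ Submodule.subset_span ⟨a, rfl⟩
  choose w hw using h1
  have h2 (c : Fin d → F) : Φ (∑ a, c a • w a) = ∑ a, c a • v a := by
    simp only [map_sum, map_smul, hw]
  let b : Basis (Fin d) F A := Basis.mk (v := w)
    (LinearIndependent.of_comp (Φ : A →ₗ[F] MonoidAlgebra F G₀) (by
      convert hv using 1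
      exact funext hw))
    fun x _ => by
      have : Φ x ∈ Submodule.span F (Set.range v) := hr.subset ⟨x, rfl⟩
      obtain ⟨c, hc⟩ := (Submodule.mem_span_range_iff_exists_fun F).1 this
      exact (Submodule.mem_span_range_iff_exists_fun F).2 ⟨c, hΦ ((h2 c).trans hc)⟩
  have hb (a) : b a = w a := Basis.mk_apply _ _ a
  refine ⟨A, inferInstance, inferInstance, α, hA, fun G _ _ D i _ _ ⟨φ', v', hv', hs', hm', hη'⟩ => ?_⟩
  have h3 (c : Fin d → F) : b.constr F v' (∑ a, c a • w a) = ∑ a, c a • v' a := by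
    simp only [map_sum, map_smul, ← hb, Basis.constr_basis]
  have h4 : ∀ x y, b.constr F v' (x * y) = b.constr F v' x * b.constr F v' y := by
    refine (LinearMap.map_mul_iff _).2 (LinearMap.ext_basis b b fun a a' => ?_)
    show b.constr F v' (b a * b a') = b.constr F v' (b a) * b.constr F v' (b a')
    rw [Basis.constr_basis, Basis.constr_basis, hm', ← h3, hb, hb]
    exact congrArg _ (hΦ (by rw [map_mul, hw, hw, hm, h2]))
  refine ⟨φ', ⟨(b.constr F v').toDistribMulActionHom, h4⟩,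
    b.injective_constr_of_linearIndependent (R₂ := F) hv', ?_, fun u => ?_⟩
  · rw [← hs', ← b.constr_range F]
    rfl
  · rw [hη', ← h3]
    exact congrArg (b.constr F v') (hΦ (by rw [hα, hη, h2]))

end

/-- The bound for the dimension over the prime field. -/
def PBd (p : ℕ) [Fact p.Prime] {G : Type} [Group G] (D : Subgroup G) (c : ℕ) : Prop :=
  ∀ i : MonoidAlgebra (ZMod p) G, Prim D i → aug i = 1 → bim i i ≤ c

/- PLAN: index by the finite type `Σ d : Fin (c + 1), (Fin d → Fin d → Fin d → ZMod p) × (P → Fin d → ZMod p)`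
(`Finite.equivFin`), choose with `exists_model` for `f = ZMod.castHom (dvd_refl p) F`;
`IsSource.aug_eq_one`, `exists_prim`, `Prim.map`, `aug_map`, `exists_sc`, `IsoSrc.of_prim`. -/
theorem fin_of_bound (p : ℕ) [Fact p.Prime] (F : Type) [Field F] [CharP F p] (P : Type) [Group P]
    [Finite P] (c : ℕ) :
    ∃ (N : ℕ) (A : Fin N → Type) (_ : ∀ j, Ring (A j)) (_ : ∀ j, Algebra F (A j))
      (α : ∀ j, P →* (A j)ˣ), (∀ j, FiniteDimensional F (A j)) ∧
      ∀ (G : Type) [Group G] [Finite G] (b : MonoidAlgebra F G) (D : Subgroup G)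
        (i : MonoidAlgebra F G), IsBlock b → aug b = 1 → IsDefect p b D → Nonempty (D ≃* P) →
        IsSource b D i → PBd p D c → ∃ j, IsoSrc (α j) D i := by
  obtain ⟨N, ⟨e⟩⟩ := Finite.exists_equiv_fin
    (Σ d : Fin (c + 1), (Fin d → Fin d → Fin d → ZMod p) × (P → Fin d → ZMod p))
  choose A rA aA α hA h using fun j : Fin N =>
    exists_model (ZMod.castHom (dvd_refl p) F) (e.symm j).2.1 (e.symm j).2.2
  refine ⟨N, A, rA, aA, α, hA, fun G _ _ b D i hb h1 hD ⟨φ⟩ hi hc => ?_⟩
  obtain ⟨i₀, h2, h3⟩ := exists_prim (ZMod p) D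
  have h4 := h2.map h3 (ZMod.castHom (dvd_refl p) F)
  obtain ⟨δ, η, h5⟩ := exists_sc (ZMod.castHom (dvd_refl p) F) φ.symm h2.1 h2.2.2.1
  refine ⟨e ⟨⟨bim i₀ i₀, Nat.lt_succ_of_le (hc i₀ h2 h3)⟩, δ, η⟩,
    IsoSrc.of_prim hi.1 h4 (hi.aug_eq_one p hb h1 hD) (by rw [aug_map, h3, map_one])
      (h _ G D _ h4.1 h4.2.2.1 ?_)⟩
  rw [e.symm_apply_apply]
  exact h5

end Pool.Agent.Puig
end

-- merged part: Pool.Agent.Work.MP_cea1f0_al.W1
section
/-! A `p`-subgroup of `GL(V)`: the decomposition of `V` and a central primary element. -/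

namespace Pool.Agent.Puig

open Module Polynomial

variable {K V : Type} [Field K] [Finite K] [AddCommGroup V] [Module K V] [Finite V]

omit [Finite K] in
theorem w1_avg (p : ℕ) [Fact p.Prime] (hp : (p : K) ≠ 0) {S : Subgroup (V ≃ₗ[K] V)}
    (hS : IsPGroup p S) : ∃ π : V →ₗ[K] V, (∀ v, ∀ s ∈ S, s (π v) = π v) ∧
      (∀ v, (∀ s ∈ S, s v = v) → π v = v) ∧ (∀ s ∈ S, ∀ v, π (s v) = π v) ∧
      ∀ (W : Type) [AddCommGroup W] [Module K W] (f : V →ₗ[K] W),
        (∀ s ∈ S, ∀ v, f (s v) = f v) → ∀ v, f (π v) = f v := by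
  have : Finite (V ≃ₗ[K] V) := DFunLike.finite _
  have := Fintype.ofFinite S
  obtain ⟨n, hn⟩ := hS.exists_card_eq
  have h0 : (Fintype.card S : K) ≠ 0 := by
    rw [← Nat.card_eq_fintype_card, hn, Nat.cast_pow]
    exact pow_ne_zero n hp
  refine ⟨(Fintype.card S : K)⁻¹ • ∑ s : S, (s.1 : V →ₗ[K] V), fun v t ht => ?_, fun v h => ?_,
    fun t ht v => ?_, fun W _ _ f h v => ?_⟩ <;>
    simp only [LinearMap.smul_apply, LinearMap.sum_apply, LinearEquiv.coe_coe, map_smul, map_sum]
  · exact congrArg _ (Fintype.sum_equiv (Equiv.mulLeft ⟨t, ht⟩) _ _ fun _ => rfl)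
  · rw [Finset.sum_congr rfl fun s _ => h s.1 s.2, Finset.sum_const, Finset.card_univ,
      ← Nat.cast_smul_eq_nsmul K, inv_smul_smul₀ h0]
  · exact congrArg _ (Fintype.sum_equiv (Equiv.mulRight ⟨t, ht⟩) _ _ fun _ => rfl)
  · rw [Finset.sum_congr rfl fun s _ => h s.1 s.2 v, Finset.sum_const, Finset.card_univ,
      ← Nat.cast_smul_eq_nsmul K, inv_smul_smul₀ h0]

omit [Finite K] [Finite V] in
theorem w1_dec {A B : Type} [AddCommGroup A] [Module K A] [Finite A] [AddCommGroup B] [Module K B]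
    [Finite B] (ψ : (A × B) ≃ₗ[K] V) (g : V ≃ₗ[K] V) (hA : ∀ a, (ψ.symm (g (ψ (a, 0)))).2 = 0)
    (hB : ∀ b, (ψ.symm (g (ψ (0, b)))).1 = 0) : ∃ h y, g = emb ψ (h, y) := by
  let G := ψ ≪≫ₗ g ≪≫ₗ ψ.symm
  let h := LinearMap.fst K A B ∘ₗ G.toLinearMap ∘ₗ LinearMap.inl K A B
  let y := LinearMap.snd K A B ∘ₗ G.toLinearMap ∘ₗ LinearMap.inr K A B
  have ih : Function.Injective h := (injective_iff_map_eq_zero h).2 fun a e =>
    congrArg Prod.fst (G.map_eq_zero_iff.1 (Prod.ext e (hA a)))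
  have iy : Function.Injective y := (injective_iff_map_eq_zero y).2 fun b e =>
    congrArg Prod.snd (G.map_eq_zero_iff.1 (Prod.ext (hB b) e))
  refine ⟨.ofBijective h ⟨ih, Finite.surjective_of_injective ih⟩,
    .ofBijective y ⟨iy, Finite.surjective_of_injective iy⟩, LinearEquiv.ext fun v => ?_⟩
  obtain ⟨⟨a, b⟩, rfl⟩ := ψ.surjective v
  rw [emb_apply, ← LinearEquiv.symm_apply_eq, ← Prod.fst_add_snd (a, b), map_add, map_add, map_add]
  exact Prod.ext ((congrArg _ (hB b)).trans (add_zero _))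
    ((congrArg (· + _) (hA a)).trans (zero_add _))

theorem w1_pz (p : ℕ) {G : Type} [Group G] {z : G} (h : z ^ p = 1) :
    IsPGroup p (Subgroup.zpowers z) := by
  rintro ⟨_, k, rfl⟩
  refine ⟨1, Subtype.ext (show (z ^ k) ^ p ^ 1 = 1 from ?_)⟩
  rw [pow_one, ← zpow_natCast, ← zpow_mul, mul_comm, zpow_mul, zpow_natCast, h, one_zpow]

/- PLAN: `π = (card D)⁻¹ • ∑ d ∈ D, d` is a projection commuting with `D`; `A = range π` (the fixed
points), `B = ker π`, `ψ = Submodule.prodEquivOfIsCompl`; `S = D.comap (embR ψ)`. -/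
theorem exists_split (p : ℕ) [Fact p.Prime] (hp : (p : K) ≠ 0) {D : Subgroup (V ≃ₗ[K] V)}
    (hD : IsPGroup p D) : ∃ (A B : Submodule K V) (ψ : (A × B) ≃ₗ[K] V) (S : Subgroup (B ≃ₗ[K] B)),
      S.map (embR ψ) = D ∧ ∀ b : B, (∀ s ∈ S, s b = b) → b = 0 := by
  obtain ⟨π, h1, h2, h3, -⟩ := w1_avg p hp hD
  have pr : LinearMap.IsProj (LinearMap.range π) π :=
    ⟨fun v => ⟨v, rfl⟩, fun _ ⟨v, e⟩ => e ▸ h2 _ (h1 v)⟩
  let ψ := Submodule.prodEquivOfIsCompl _ _ pr.isCompl
  have e : ∀ a b, ψ (a, b) = a + b := fun _ _ => rfl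
  have fx : ∀ d ∈ D, ∀ a, d (ψ (a, 0)) = ψ (a, 0) := fun d hd ⟨_, v, k⟩ => by
    simpa [e, ← k] using h1 v d hd
  have le : D ≤ (embR ψ).range := fun d hd => by
    obtain ⟨h, y, rfl⟩ := w1_dec ψ d (fun a => by simp [fx d hd]) fun b =>
      (Submodule.prodEquivOfIsCompl_symm_apply_fst_eq_zero _ _ _).2
        (by simp [e, h3 d hd])
    obtain rfl : h = 1 := LinearEquiv.ext fun a => by simpa [emb_apply] using fx _ hd a
    exact ⟨y, rfl⟩
  refine ⟨_, _, ψ, D.comap (embR ψ), Subgroup.map_comap_eq_self le, fun b hb => Subtype.ext ?_⟩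
  refine (h2 _ fun d hd => ?_).symm.trans b.2
  obtain ⟨s, rfl⟩ := le hd
  simpa [embR, e, hb s hd] using emb_apply ψ 1 s 0 b

theorem w1_ind (p : ℕ) [hq : Fact p.Prime] (hp : (p : K) ≠ 0) (n : ℕ) : ∀ (V : Type)
    [AddCommGroup V] [Module K V] [Finite V] (S : Subgroup (V ≃ₗ[K] V)), Nat.card V = n →
    IsPGroup p S → (∀ b : V, (∀ s ∈ S, s b = b) → b = 0) →
    ∃ x : V ≃ₗ[K] V, x ^ p = 1 ∧ (∀ b, x b = b → b = 0) ∧ (∀ s ∈ S, Commute s x) ∧
      ∀ g, (∀ s ∈ S, Commute g s) → Commute g x := by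
  induction n using Nat.strong_induction_on with | _ n ih =>
  intro V _ _ _ S hn hS h0
  have : Finite (V ≃ₗ[K] V) := DFunLike.finite _
  rcases S.bot_or_nontrivial with rfl | hne
  · exact ⟨1, one_pow p, fun b _ => h0 b fun s hs => by rw [Subgroup.mem_bot.1 hs]; rfl,
      fun s _ => .one_right s, fun g _ => .one_right g⟩
  have := hS.center_nontrivial
  obtain ⟨⟨⟨z, zS⟩, zc⟩, hz⟩ := exists_prime_orderOf_dvd_card' p
    ((hS.to_subgroup (Subgroup.center S)).card_eq_or_dvd.resolve_left Finite.one_lt_card.ne')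
  replace hz : orderOf z = p := by
    rwa [← Subgroup.orderOf_coe, ← Subgroup.orderOf_coe] at hz
  have zp : z ^ p = 1 := hz ▸ pow_orderOf_eq_one z
  obtain ⟨A, B, ψ, T, e, hT⟩ := exists_split p hp (w1_pz p zp)
  obtain ⟨u, -, rfl⟩ := e.ge (Subgroup.mem_zpowers z)
  have inj : Function.Injective (embR ψ) := fun _ _ k => (Prod.ext_iff.1 (emb_inj ψ k)).2
  have hu : ∀ b, u b = b → b = 0 := fun b k => hT b fun s hs => by
    obtain ⟨j, hj⟩ := e.le ⟨s, hs, rfl⟩
    obtain rfl := inj ((map_zpow (embR ψ) u j).trans hj)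
    exact (MulAction.stabilizer (B ≃ₗ[K] B) b).zpow_mem k j
  have dec : ∀ s ∈ S, ∃ h y, Commute y u ∧ s = emb ψ (h, y) := fun s hs =>
    (commute_embR ψ hu s).1 (congrArg Subtype.val (Subgroup.mem_center_iff.1 zc ⟨s, hs⟩))
  have nt : Nontrivial B := by
    by_contra k
    rw [not_nontrivial_iff_subsingleton] at k
    rw [Subsingleton.elim u 1, map_one, orderOf_one] at hz
    exact hq.out.ne_one hz.symm
  obtain ⟨x, x1, x2, x3, x4⟩ := ih (Nat.card A) (by
    rw [← hn, ← Nat.card_congr ψ.toEquiv, Nat.card_prod]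
    exact lt_mul_of_one_lt_right Nat.card_pos Finite.one_lt_card) A
    ((S.comap (emb ψ)).map (.fst _ _)) rfl ((hS.comap_of_injective _ (emb_inj ψ)).map _)
    fun a ha => by
      simpa using h0 (ψ (a, 0)) fun s hs => by
        obtain ⟨h, y, -, rfl⟩ := dec s hs
        rw [emb_apply, ha h ⟨(h, y), hs, rfl⟩, map_zero]
  refine ⟨emb ψ (x, u), ?_, fun v hv => ?_, fun s hs => ?_, fun g hg => ?_⟩
  · rw [← map_pow, Prod.pow_mk, x1, inj ((map_pow _ _ _).trans (zp.trans (map_one _).symm))]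
    exact map_one _
  · obtain ⟨⟨a, b⟩, rfl⟩ := ψ.surjective v
    rw [emb_apply, ψ.injective.eq_iff, Prod.ext_iff] at hv
    rw [x2 a hv.1, hu b hv.2]
    exact map_zero ψ
  · obtain ⟨h, y, k, rfl⟩ := dec s hs
    exact ((x3 h ⟨(h, y), hs, rfl⟩).prod k).map _
  · obtain ⟨h, y, k, rfl⟩ := (commute_embR ψ hu g).1 (hg _ zS)
    refine ((x4 h ?_).prod k).map _
    rintro _ ⟨s, hs, rfl⟩
    exact congrArg Prod.fst ((Commute.of_map (emb_inj ψ) (hg _ hs)).eq)

/- PLAN: among the endomorphisms `y` in the span of `S` (a subalgebra) that commute with `S` and have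
`y ^ p = 1` take one with `ker (y - 1)` of minimal dimension.  If `B' = ker (y - 1) ≠ ⊥`, let
`π = p⁻¹ • ∑ y ^ j` be the projection onto `B'`; the image of `S` in the automorphisms of `B'` (or the
quotient of `S` by the kernel of the action on `B'`) is a non-trivial `p`-group, so has a central
element `d` of order `p` (`IsPGroup.center_nontrivial`); `y' = π * d + (1 - π) * y` is better. -/
theorem exists_center0 (p : ℕ) [Fact p.Prime] (hp : (p : K) ≠ 0) {S : Subgroup (V ≃ₗ[K] V)}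
    (hS : IsPGroup p S) (h0 : ∀ b : V, (∀ s ∈ S, s b = b) → b = 0) :
    ∃ x : V ≃ₗ[K] V, x ^ p = 1 ∧ (∀ b, x b = b → b = 0) ∧ (∀ s ∈ S, Commute s x) ∧
      ∀ g, (∀ s ∈ S, Commute g s) → Commute g x :=
  w1_ind p hp _ V S rfl hS h0

omit [Finite K] in
theorem w1_poly (p : ℕ) [hq : Fact p.Prime] (hp : (p : K) ≠ 0) {m : K[X]}
    (hm : m ∣ cyclotomic p K) (hd : m.degree ≠ 0) :
    ∃ P : K[X], cyclotomic p K ∣ m.comp P ∧ cyclotomic p K ∣ P ^ p - 1 := by
  have : NeZero (p : K) := ⟨hp⟩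
  let R := AdjoinRoot (cyclotomic p K)
  have : Module.Finite K R := (AdjoinRoot.powerBasis (cyclotomic_ne_zero p K)).finite
  have : IsArtinianRing R := .of_finite K R
  have : IsReduced R := (Ideal.isRadical_iff_quotient_reduced _).1
    (isRadical_iff_span_singleton.1 (squarefree_cyclotomic p K).isRadical)
  have key : ∀ I : MaximalSpectrum R, ∃ η : R ⧸ I.asIdeal, aeval η m = 0 ∧ η ^ p = 1 := fun I => by
    have := I.isMaximal
    let _ := Ideal.Quotient.field I.asIdeal
    have : NeZero (p : R ⧸ I.asIdeal) := NeZero.nat_of_injective (algebraMap K _).injective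
    have h1 : aeval (Ideal.Quotient.mkₐ K I.asIdeal (AdjoinRoot.root _)) (cyclotomic p K) = 0 := by
      rw [aeval_algHom_apply, AdjoinRoot.aeval_eq, AdjoinRoot.mk_self, map_zero]
    rw [← eval_map_algebraMap, map_cyclotomic] at h1
    have h2 := (map_dvd (algebraMap K (R ⧸ I.asIdeal)) hm).trans
      ((map_cyclotomic p _).dvd.trans (cyclotomic.dvd_X_pow_sub_one p _))
    obtain ⟨η, e⟩ := ((X_pow_sub_one_splits (isRoot_cyclotomic_iff.1 h1)).of_dvd
      (X_pow_sub_C_ne_zero hq.out.pos 1) h2).exists_eval_eq_zero (by rwa [degree_map])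
    exact ⟨η, (eval_map_algebraMap _ _).symm.trans e,
      sub_eq_zero.1 (by simpa using eval_eq_zero_of_dvd_of_eval_eq_zero h2 e)⟩
  choose η h1 h2 using key
  obtain ⟨r, hr⟩ := (IsArtinianRing.equivPi R).surjective η
  obtain ⟨P, rfl⟩ := AdjoinRoot.mk_surjective r
  refine ⟨P, ?_, ?_⟩ <;> rw [← AdjoinRoot.mk_eq_zero] <;>
    refine (IsArtinianRing.equivPi R).injective ((funext fun I => ?_).trans (map_zero _).symm)
  · rw [← AdjoinRoot.aeval_eq, aeval_comp, AdjoinRoot.aeval_eq]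
    exact (aeval_algHom_apply (Ideal.Quotient.mkₐ K I.asIdeal) _ m).symm.trans
      ((congrArg (aeval · m) (congrFun hr I)).trans (h1 I))
  · rw [map_sub, map_sub, map_pow, map_pow, hr, map_one, map_one]
    exact sub_eq_zero.2 (h2 I)

/- PLAN: `Φ = cyclotomic p K = ∑ X ^ j` kills `x` and is squarefree (`X ^ p - 1` is separable).  Fix an
irreducible factor `m`.  For every irreducible factor `f` the field `AdjoinRoot f` contains the
primitive root `ζ = root f`, `Φ` splits there with roots `ζ ^ a`, so `m (ζ ^ a) = 0` for some `a`.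
Chinese remainder theorem: `P ≡ X ^ a f` modulo `f`; then `Φ ∣ m.comp P` and `Φ ∣ P ^ p - 1`.
(Other route: in the reduced finite ring `K[X] ⧸ Φ`, a product of fields.)  `m.eval 1 ≠ 0`. -/
theorem primary_power (p : ℕ) [Fact p.Prime] (hp : (p : K) ≠ 0) {x : V ≃ₗ[K] V} (h1 : x ^ p = 1)
    (h2 : ∀ b, x b = b → b = 0) :
    ∃ (y : V ≃ₗ[K] V) (m : K[X]), y ^ p = 1 ∧ (∀ b, y b = b → b = 0) ∧ Irreducible m ∧
      aeval (y : V →ₗ[K] V) m = 0 ∧ ∀ g, Commute g x → Commute g y := by
  have hq : p.Prime := Fact.out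
  let τ : (V ≃ₗ[K] V) →* V →ₗ[K] V := LinearEquiv.automorphismGroup.toLinearMapMonoidHom
  have inj : Function.Injective τ := LinearEquiv.toLinearMap_injective
  obtain ⟨m, hm, hd⟩ := exists_irreducible_of_degree_pos (degree_cyclotomic_pos p K hq.pos)
  obtain ⟨P, k1, k2⟩ := w1_poly p hp hd (degree_pos_of_irreducible hm).ne'
  have h0 : aeval (τ x) (cyclotomic p K) = 0 := LinearMap.ext fun v => h2 _ (by
    have e := congrArg (aeval (τ x)) ((mul_comm _ _).trans (cyclotomic_prime_mul_X_sub_one K p))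
    rw [map_mul, map_sub, map_sub, map_pow, aeval_X, map_one, ← map_pow, h1, map_one, sub_self] at e
    exact sub_eq_zero.1 (LinearMap.congr_fun e v))
  have h3 : ∀ {q : K[X]}, cyclotomic p K ∣ q → aeval (τ x) q = 0 := fun ⟨c, e⟩ => by
    rw [e, map_mul, h0, zero_mul]
  have h4 : aeval (τ x) P ^ p = 1 := sub_eq_zero.1 (by simpa using h3 k2)
  have h5 := (aeval_comp (τ x)).symm.trans (h3 k1)
  refine ⟨.ofBijective _ ((End.isUnit_iff _).1 (.of_pow_eq_one h4 hq.ne_zero)), m,
    inj ((map_pow τ _ _).trans h4), fun b hb => by_contra fun n => ?_, hm, h5, fun g hg =>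
    .of_map inj (Algebra.commute_of_mem_adjoin_singleton_of_commute
      (aeval_mem_adjoin_singleton K _) (hg.map τ))⟩
  have e := End.aeval_apply_of_hasEigenvector (p := m) (f := aeval (τ x) P) (μ := 1)
    ⟨End.mem_eigenspace_iff.2 (hb.trans (one_smul K b).symm), n⟩
  rw [h5, LinearMap.zero_apply, eq_comm, smul_eq_zero_iff_left n] at e
  exact hp (eval_one_cyclotomic_prime.symm.trans (eval_eq_zero_of_dvd_of_eval_eq_zero hd e))

theorem exists_center (p : ℕ) [Fact p.Prime] (hp : (p : K) ≠ 0) {S : Subgroup (V ≃ₗ[K] V)}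
    (hS : IsPGroup p S) (h0 : ∀ b : V, (∀ s ∈ S, s b = b) → b = 0) :
    ∃ (x : V ≃ₗ[K] V) (m : K[X]), x ^ p = 1 ∧ (∀ b, x b = b → b = 0) ∧ Irreducible m ∧
      aeval (x : V →ₗ[K] V) m = 0 ∧ (∀ s ∈ S, Commute s x) ∧
      ∀ g, (∀ s ∈ S, Commute g s) → Commute g x := by
  obtain ⟨x, h1, h2, h3, h4⟩ := exists_center0 p hp hS h0
  obtain ⟨y, m, a1, a2, a3, a4, a5⟩ := primary_power p hp h1 h2
  exact ⟨y, m, a1, a2, a3, a4, fun s hs => a5 s (h3 s hs), fun g hg => a5 g (h4 g hg)⟩

/- PLAN: `z = embR ψ x`; `IsDefect.le_of_normal` for `zpowers z`: an element `g` centralising the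
image of `S` preserves the fixed points `ψ (A × 0)` and the span `ψ (0 × B)` of the `s v - v`
(coprime action: the average over `S` is the projection to `A`), so `g = emb ψ (h, y)` with `y`
centralising `S`, so `g` commutes with `z`.  `emb_inj`. -/
omit [Finite K] in
theorem center_mem (p : ℕ) [Fact p.Prime] (hp : (p : K) ≠ 0) {k A B : Type} [Field k] [CharP k p]
    [AddCommGroup A] [Module K A] [Finite A] [AddCommGroup B] [Module K B] [Finite B]
    (ψ : (A × B) ≃ₗ[K] V) {S : Subgroup (B ≃ₗ[K] B)} (h0 : ∀ b : B, (∀ s ∈ S, s b = b) → b = 0)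
    {b : MonoidAlgebra k (V ≃ₗ[K] V)} (hb : IsBlock b) (hD : IsDefect p b (S.map (embR ψ)))
    {x : B ≃ₗ[K] B} (h1 : x ^ p = 1) (h2 : ∀ s ∈ S, Commute s x)
    (h3 : ∀ g, (∀ s ∈ S, Commute g s) → Commute g x) : x ∈ S := by
  have : Finite (V ≃ₗ[K] V) := DFunLike.finite _
  have inj : Function.Injective (embR ψ) := fun _ _ k => (Prod.ext_iff.1 (emb_inj ψ k)).2
  obtain ⟨π, p1, -, -, p4⟩ := w1_avg p hp ((hD.1.comap_of_injective _ inj).to_le
    (Subgroup.le_comap_map _ S))
  have ap : ∀ s a c, embR ψ s (ψ (a, c)) = ψ (a, s c) := emb_apply ψ 1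
  obtain ⟨y, hy, e⟩ := hD.le_of_normal p hb (w1_pz p (z := embR ψ x) (by rw [← map_pow, h1, map_one]))
    (Subgroup.zpowers_le.2 (Subgroup.mem_centralizer_iff.2 (by
      rintro _ ⟨s, hs, rfl⟩
      exact (h2 s hs).map _)))
    (fun g hg => Subgroup.centralizer_le_normalizer _ (Subgroup.mem_centralizer_iff.2 (by
      have c : ∀ s ∈ S, ∀ v, embR ψ s (g v) = g (embR ψ s v) := fun s hs =>
        LinearEquiv.congr_fun (Subgroup.mem_centralizer_iff.1 hg _ ⟨s, hs, rfl⟩)
      obtain ⟨h, y, rfl⟩ := w1_dec ψ g (fun a => h0 _ fun s hs => by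
          have k := c s hs (ψ (a, 0))
          obtain ⟨⟨a', b'⟩, e⟩ := ψ.surjective (g (ψ (a, 0)))
          rw [ap, map_zero, ← e, ap] at k
          simpa [← e] using k)
        fun b => by
          have k := p4 A (LinearMap.fst K A B ∘ₗ (ψ ≪≫ₗ g ≪≫ₗ ψ.symm).toLinearMap ∘ₗ
            LinearMap.inr K A B) (fun s hs v => by
              have k := c s hs (ψ (0, v))
              obtain ⟨⟨a', b'⟩, e⟩ := ψ.surjective (g (ψ (0, v)))
              rw [ap, ← e, ap] at k
              simp [← k, ← e]) b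
          rw [h0 _ (p1 b), map_zero] at k
          exact k.symm
      have k : Commute y x := h3 y fun s hs => (Prod.ext_iff.1 (Commute.of_map (x := (h, y))
        (y := (1, s)) (emb_inj ψ) (Subgroup.mem_centralizer_iff.1 hg _ ⟨s, hs, rfl⟩).symm).eq).2
      rintro _ ⟨j, rfl⟩
      exact (((Commute.one_left h).prod k.symm).map (emb ψ)).zpow_left j)))
    (Subgroup.mem_zpowers _)
  exact inj e ▸ hy

end Pool.Agent.Puig
end

-- merged part: Pool.Agent.Work.MP_cea1f0_al.G2
section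
/-! Direct summands of permutation modules of `p`-groups are permutation modules. -/

namespace Pool.Agent.Puig

open Module

section
variable {F Q Ω : Type} [Field F] [Group Q] [Finite Q] [Finite Ω]

/-- The endomorphisms commuting with the group. -/
def endQ (F : Type) [Field F] (θ : Q →* Equiv.Perm Ω) : Subalgebra F (Module.End F (Ω → F)) :=
  Subalgebra.centralizer F (Set.range (pr F θ))

open Classical in
/-- The projection to the functions supported on the orbit of `ω`. -/
noncomputable def orbP (F : Type) [Field F] (θ : Q →* Equiv.Perm Ω) (ω : Ω) :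
    Module.End F (Ω → F) where
  toFun v x := if ∃ g, θ g ω = x then v x else 0
  map_add' u v := by funext x; by_cases h : ∃ g, θ g ω = x <;> simp [h]
  map_smul' c v := by funext x; by_cases h : ∃ g, θ g ω = x <;> simp [h]

omit [Finite Q] [Finite Ω] in
theorem g2_mem {θ : Q →* Equiv.Perm Ω} {f : Module.End F (Ω → F)} :
    f ∈ endQ F θ ↔ ∀ g v, f (pr F θ g v) = pr F θ g (f v) :=
  (Subalgebra.mem_centralizer_iff F).trans (Set.forall_mem_range.trans
    (forall_congr' fun _ => eq_comm.trans LinearMap.ext_iff))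

omit [Finite Q] [Finite Ω] in
theorem g2_orb (θ : Q →* Equiv.Perm Ω) (ω : Ω) (g : Q) (x : Ω) :
    (∃ h, θ h ω = θ g x) ↔ ∃ h, θ h ω = x :=
  ⟨fun ⟨h, e⟩ => ⟨g⁻¹ * h, by simp [e]⟩, fun ⟨h, e⟩ => ⟨g * h, by simp [e]⟩⟩

omit [Finite Q] [Finite Ω] in
theorem g2_pos {θ : Q →* Equiv.Perm Ω} {ω x : Ω} (h : ∃ g, θ g ω = x) (v : Ω → F) :
    orbP F θ ω v x = v x := if_pos h

omit [Finite Q] [Finite Ω] in
theorem g2_neg {θ : Q →* Equiv.Perm Ω} {ω x : Ω} (h : ¬ ∃ g, θ g ω = x) (v : Ω → F) :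
    orbP F θ ω v x = 0 := if_neg h

omit [Finite Q] [Finite Ω] in
theorem g2_idem (θ : Q →* Equiv.Perm Ω) (ω : Ω) : IsIdempotentElem (orbP F θ ω) :=
  LinearMap.ext fun v => funext fun x => by
    by_cases h : ∃ g, θ g ω = x
    exacts [g2_pos h _, (g2_neg h _).trans (g2_neg h _).symm]

omit [Finite Q] [Finite Ω] in
theorem g2_orbP (θ : Q →* Equiv.Perm Ω) (ω : Ω) : orbP F θ ω ∈ endQ F θ :=
  g2_mem.2 fun g v => funext fun x => by
    by_cases h : ∃ g, θ g ω = x
    · exact (g2_pos h _).trans (g2_pos ((g2_orb θ ω _ x).2 h) v).symm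
    · exact (g2_neg h _).trans (g2_neg (mt (g2_orb θ ω _ x).1 h) v).symm

theorem orbP_prim (p : ℕ) [Fact p.Prime] [CharP F p] (hQ : IsPGroup p Q) (θ : Q →* Equiv.Perm Ω)
    (ω : Ω) : PrimIn (endQ F θ) (orbP F θ ω) := by
  have h1 := g2_idem (F := F) θ ω
  have h2 : orbP F θ ω 1 ≠ 0 := fun e => one_ne_zero ((g2_pos ⟨1, by simp⟩ 1).symm.trans (congrFun e ω))
  have h3 (f) (hf : f ∈ endQ F θ) (e : orbP F θ ω * f = f) (h0 : f ≠ 0) :
      ∃ v, f v = orbP F θ ω 1 := by
    obtain ⟨v, hv⟩ := DFunLike.ne_iff.1 h0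
    obtain ⟨_, ⟨u, rfl⟩, w2, w3⟩ := perm_fix p hQ (pr F θ) (LinearMap.range f)
      (fun g _ ⟨u, hu⟩ => ⟨_, (g2_mem.1 hf g u).trans (congrArg _ hu)⟩) ⟨v, rfl⟩ hv
    have w4 : f u = f u ω • orbP F θ ω 1 := funext fun x => by
      by_cases h : ∃ g, θ g ω = x
      · rw [Pi.smul_apply, g2_pos h, Pi.one_apply, smul_eq_mul, mul_one]
        obtain ⟨g, rfl⟩ := h
        simpa [pr_apply] using (congrFun (w3 g) (θ g ω)).symm
      · rw [Pi.smul_apply, g2_neg h, smul_zero, ← e, Module.End.mul_apply, g2_neg h]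
    refine ⟨(f u ω)⁻¹ • u, ?_⟩
    rw [map_smul, inv_smul_eq_iff₀ fun h => w2 (by rw [w4, h, zero_smul])]
    exact w4
  refine ⟨h1, fun e => h2 (by rw [e]; rfl), g2_orbP θ ω, fun e he hB e1 e2 => ?_⟩
  by_contra! H
  obtain ⟨v, hv⟩ := h3 e hB e1 H.1
  obtain ⟨w, hw⟩ := h3 _ (sub_mem (g2_orbP θ ω) hB) (by rw [mul_sub, h1, e1]) (sub_ne_zero.2 H.2.symm)
  refine h2 (hv.symm.trans ?_)
  rw [← he, Module.End.mul_apply, hv, ← hw, ← Module.End.mul_apply, mul_sub, e2, he, sub_self]
  rfl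

theorem perm_basis_prim (p : ℕ) [Fact p.Prime] [CharP F p] (hQ : IsPGroup p Q)
    (θ : Q →* Equiv.Perm Ω) {e : Module.End F (Ω → F)} (he : PrimIn (endQ F θ) e) :
    ∃ (X : Type) (_ : Fintype X) (τ : Q →* Equiv.Perm X) (v : X → Ω → F), LinearIndependent F v ∧
      Submodule.span F (Set.range v) = LinearMap.range e ∧ ∀ g x, pr F θ g (v x) = v (τ g x) := by
  classical
  have := Fintype.ofFinite Ω
  let s : Setoid Ω := ⟨fun a b => ∃ g, θ g a = b, fun a => ⟨1, by simp⟩,
    fun ⟨g, e⟩ => ⟨g⁻¹, by simp [← e]⟩, fun ⟨g, e⟩ ⟨h, e'⟩ => ⟨h * g, by simp [e, e']⟩⟩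
  have h1 : ∑ q : Quotient s, orbP F θ q.out = 1 := LinearMap.ext fun v => funext fun x => by
    rw [LinearMap.sum_apply, Finset.sum_apply, Finset.sum_eq_single ⟦x⟧
      (fun q _ h => g2_neg (mt (Quotient.eq_mk_iff_out (s := s)).2 h) v) (by simp)]
    exact g2_pos ((Quotient.eq_mk_iff_out (s := s)).1 rfl) v
  obtain ⟨ω, hω⟩ : ∃ ω, ¬ IsNilpotent (e * 1 * orbP F θ ω * 1 * e) := by
    by_contra! H
    have h2 := he.nil_sum (Finset.univ : Finset (Quotient s))
      (x := fun q => e * orbP F θ q.out * e) fun q _ =>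
      ⟨mul_mem (mul_mem he.2.2.1 (g2_orbP θ _)) he.2.2.1, by
        rw [← mul_assoc, ← mul_assoc, he.1, mul_assoc, he.1], by simpa using H q.out⟩
    rw [← Finset.sum_mul, ← Finset.mul_sum, h1, mul_one, he.1] at h2
    exact he.2.1 (he.1.eq_zero_of_isNilpotent h2)
  obtain ⟨a, ha, a', -, e1, e2, e3, e4⟩ := he.eqv (orbP_prim p hQ θ ω) (one_mem _) (one_mem _) hω
  refine ⟨{x // ∃ g, θ g ω = x}, inferInstance,
    .mk' (fun g => (θ g).subtypePerm (g2_orb θ ω g)) fun g h => by ext; simp,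
    fun x => a (Pi.single x 1), .of_comp a' ?_, le_antisymm (Submodule.span_le.2 ?_) ?_,
    fun g x => (g2_mem.1 ha g _).symm.trans (congrArg a (funext fun y => ?_))⟩
  · refine (congrArg (fun v : _ → Ω → F => LinearIndependent F v) (funext fun x => funext fun y => ?_)).mpr
      ((Pi.linearIndependent_single_one Ω F).comp _ Subtype.val_injective)
    refine (congrFun (LinearMap.congr_fun e2 _) y).trans ?_
    by_cases h : ∃ g, θ g ω = y
    exacts [g2_pos h _, (g2_neg h _).trans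
      (Pi.single_eq_of_ne (M := fun _ => F) (fun e : y = x => h (e ▸ x.2)) 1).symm]
  · rintro _ ⟨x, rfl⟩
    exact ⟨a _, by rw [← Module.End.mul_apply, ← e1, mul_assoc, e2, e3]⟩
  · rintro _ ⟨w, rfl⟩
    rw [← e1, Module.End.mul_apply, pi_eq_sum_univ' (a' w), map_sum]
    refine sum_mem fun y _ => ?_
    by_cases h : ∃ g, θ g ω = y
    · exact map_smul a _ _ ▸ Submodule.smul_mem _ _ (Submodule.subset_span ⟨⟨y, h⟩, rfl⟩)
    · rw [← e4, Module.End.mul_apply, g2_neg h, zero_smul, map_zero]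
      exact zero_mem _
  · simp [pr_apply, Pi.single_apply, Equiv.symm_apply_eq]

theorem perm_basis (p : ℕ) [Fact p.Prime] [CharP F p] (hQ : IsPGroup p Q) (θ : Q →* Equiv.Perm Ω)
    {e : Module.End F (Ω → F)} (he : IsIdempotentElem e) (h : e ∈ endQ F θ) :
    ∃ (X : Type) (_ : Fintype X) (τ : Q →* Equiv.Perm X) (v : X → Ω → F), LinearIndependent F v ∧
      Submodule.span F (Set.range v) = LinearMap.range e ∧ ∀ g x, pr F θ g (v x) = v (τ g x) := by
  obtain ⟨n, i, h1, h2, rfl⟩ := exists_decIn he h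
  choose X _ τ v h3 h4 h5 using fun a => perm_basis_prim p hQ θ (h1 a)
  have h6 a b x : i a (v b x) = if b = a then v b x else 0 := by
    obtain ⟨w, hw⟩ := (h4 b).le (Submodule.subset_span ⟨x, rfl⟩)
    rw [← hw, ← Module.End.mul_apply]
    split_ifs with e
    · rw [e, (h1 a).1]
    · rw [h2 a b (Ne.symm e), LinearMap.zero_apply]
  refine ⟨Σ a, X a, inferInstance, (Equiv.Perm.sigmaCongrRightHom X).comp (MonoidHom.pi τ),
    fun x => v x.1 x.2, Fintype.linearIndependent_iff.2 fun c hc x => ?_,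
    le_antisymm (Submodule.span_le.2 ?_) ?_, fun g x => h5 _ g _⟩
  · refine Fintype.linearIndependent_iff.1 (h3 x.1) (fun y => c ⟨_, y⟩) ?_ x.2
    simpa [Fintype.sum_sigma, h6] using congrArg (i x.1) hc
  · rintro _ ⟨x, rfl⟩
    exact ⟨v x.1 x.2, by simp [h6]⟩
  · rintro _ ⟨w, rfl⟩
    rw [LinearMap.sum_apply]
    exact sum_mem fun a _ => Submodule.span_mono
      (by rintro _ ⟨x, rfl⟩; exact ⟨⟨a, x⟩, rfl⟩) ((h4 a).ge ⟨w, rfl⟩)

end

theorem corner_basis (p : ℕ) [Fact p.Prime] {F G P : Type} [Field F] [CharP F p] [Group G]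
    [Finite G] [Group P] {D : Subgroup G} (hD : IsPGroup p D) (φ : P ≃* D)
    {i : MonoidAlgebra F G} (hi : IsIdempotentElem i) (hf : Fix D i) :
    ∃ (τ : P × P →* Equiv.Perm (Fin (bim i i))) (v : Fin (bim i i) → MonoidAlgebra F G),
      LinearIndependent F v ∧
      (Submodule.span F (Set.range v) : Set (MonoidAlgebra F G)) = {x | i * x * i = x} ∧
      ∀ u w x, MonoidAlgebra.of F G (φ u : G) * v x * MonoidAlgebra.of F G (φ w : G)⁻¹ =
        v (τ (u, w) x) := by
  have := Finite.of_equiv _ φ.symm.toEquiv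
  have hP : IsPGroup p (P × P) := fun q => by
    obtain ⟨m, hm⟩ := hD.of_equiv φ.symm q.1
    obtain ⟨n, hn⟩ := hD.of_equiv φ.symm q.2
    exact ⟨m + n, Prod.ext (by rw [Prod.pow_fst, pow_add, pow_mul, hm, one_pow]; rfl)
      (by rw [Prod.pow_snd, pow_add, pow_mul', hn, one_pow]; rfl)⟩
  let θ : P × P →* Equiv.Perm G := .mk'
    (fun q => (Equiv.mulLeft (φ q.1 : G)).trans (Equiv.mulRight (φ q.2 : G)⁻¹)) fun q r => by
      ext
      simp [mul_assoc]
  let E : MonoidAlgebra F G ≃ₗ[F] G → F :=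
    (MonoidAlgebra.coeffLinearEquiv F).trans (Finsupp.linearEquivFunOnFinite F F G)
  have h1 u w x : pr F θ (u, w) (E x) =
      E (MonoidAlgebra.of F G (φ u : G) * x * MonoidAlgebra.of F G (φ w : G)⁻¹) := funext fun g => by
    simp [E, θ, pr_apply, mul_assoc]
  obtain ⟨X, _, τ, v, h2, h3, h4⟩ := perm_basis p hP θ
    (e := E.conj (LinearMap.mulLeftRight F (i, i))) (LinearMap.ext fun x => by
      simp [LinearEquiv.conj_apply_apply, ← mul_assoc, hi.eq, mul_assoc _ i i]) (g2_mem.2 fun q x => by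
      obtain ⟨x, rfl⟩ := E.surjective x
      simp only [LinearEquiv.conj_apply_apply, h1 q.1 q.2, E.symm_apply_apply,
        LinearMap.mulLeftRight_apply]
      rw [← mul_assoc, ← mul_assoc, ← hf _ (φ q.1).2, mul_assoc _ _ i, hf _ (inv_mem (φ q.2).2)]
      simp only [mul_assoc])
  have h5 := h2.map' E.symm.toLinearMap E.symm.ker
  have h6 : Submodule.span F (Set.range (E.symm.toLinearMap ∘ v)) =
      LinearMap.range (LinearMap.mulLeftRight F (i, i)) := by
    rw [Set.range_comp, ← Submodule.map_span, h3, ← LinearMap.range_comp]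
    ext x
    simp [LinearEquiv.conj_apply_apply, E.symm.surjective.exists]
  let ε : X ≃ Fin (bim i i) := Fintype.equivFinOfCardEq (by rw [← finrank_span_eq_card h5, h6, bim])
  refine ⟨ε.permCongrHom.toMonoidHom.comp τ, (E.symm.toLinearMap ∘ v) ∘ ε.symm,
    h5.comp _ ε.symm.injective, ?_, fun u w x => E.injective ?_⟩
  · rw [ε.symm.surjective.range_comp, h6]
    exact Set.ext fun x => ⟨fun ⟨y, e⟩ => e ▸ show i * (i * y * i) * i = i * y * i by
      rw [← mul_assoc, ← mul_assoc, hi, mul_assoc, hi], fun e => ⟨x, e⟩⟩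
  · rw [← h1]
    simp [h4]

end Pool.Agent.Puig
end

-- merged part: Pool.Agent.Work.MP_cea1f0_al.G3a
section
/-! Interior algebras given by structure constants on a permutation basis; the Newton step. -/

namespace Pool.Agent.Puig

open Classical

section
variable {P X S : Type} [Group P] [Fintype X] [CommRing S]

/-- Structure constants of an interior algebra with the basis `X`. -/
structure IStr (τ : P × P →* Equiv.Perm X) (m : X → X → X → S) (ε : X → S) : Prop where
  assoc : ∀ x y z w, ∑ a, m x y a * m a z w = ∑ a, m y z a * m x a w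
  one_l : ∀ y z, ∑ a, ε a * m a y z = if y = z then 1 else 0
  one_r : ∀ x z, ∑ a, ε a * m x a z = if x = z then 1 else 0
  eq_l : ∀ u x y z, m (τ (u, 1) x) y (τ (u, 1) z) = m x y z
  eq_r : ∀ u x y z, m x (τ (1, u) y) (τ (1, u) z) = m x y z
  bal : ∀ u x y z, m (τ (1, u) x) (τ (u, 1) y) z = m x y z

/-- Isomorphic structure constants. -/
def IsoC (τ : P × P →* Equiv.Perm X) (m m' : X → X → X → S) : Prop :=
  ∃ Φ : Matrix X X S, IsUnit Φ.det ∧ (∀ g x y, Φ (τ g x) (τ g y) = Φ x y) ∧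
    ∀ x y z, ∑ w, m x y w * Φ w z = ∑ a, ∑ b, Φ x a * Φ y b * m' a b z

variable {τ : P × P →* Equiv.Perm X} {m m' m'' : X → X → X → S} {ε : X → S}

theorem IStr.map {S' : Type} [CommRing S'] (h : IStr τ m ε) (f : S →+* S') :
    IStr τ (fun x y z => f (m x y z)) fun x => f (ε x) := by
  refine ⟨fun x y z w => ?_, fun y z => ?_, fun x z => ?_, fun u x y z => congrArg f (h.eq_l u x y z),
    fun u x y z => congrArg f (h.eq_r u x y z), fun u x y z => congrArg f (h.bal u x y z)⟩
  · simpa only [map_sum, map_mul] using congrArg f (h.assoc x y z w)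
  · simpa only [map_sum, map_mul, apply_ite f, map_one, map_zero] using congrArg f (h.one_l y z)
  · simpa only [map_sum, map_mul, apply_ite f, map_one, map_zero] using congrArg f (h.one_r x z)

theorem IsoC.map {S' : Type} [CommRing S'] (h : IsoC τ m m') (f : S →+* S') :
    IsoC τ (fun x y z => f (m x y z)) fun x y z => f (m' x y z) := by
  obtain ⟨Φ, h1, h2, h3⟩ := h
  refine ⟨Φ.map f, ?_, fun g x y => congrArg f (h2 g x y), fun x y z => ?_⟩
  · have := h1.map f
    rwa [RingHom.map_det] at this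
  · simpa only [map_sum, map_mul, Matrix.map_apply] using congrArg f (h3 x y z)

/-- The product given by structure constants. -/
noncomputable def g3a_mu (m : X → X → X → S) (f g : X → S) : X → S :=
  fun z => ∑ x, ∑ y, f x * g y * m x y z

theorem g3a_iff {Φ : Matrix X X S} :
    (∀ x y z, ∑ w, m x y w * Φ w z = ∑ a, ∑ b, Φ x a * Φ y b * m' a b z) ↔
      ∀ f g, Matrix.vecMul (g3a_mu m f g) Φ = g3a_mu m' (Matrix.vecMul f Φ) (Matrix.vecMul g Φ) := by
  constructor
  · intro h f g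
    funext z
    have e1 : Matrix.vecMul (g3a_mu m f g) Φ z = ∑ x, ∑ y, f x * g y * ∑ w, m x y w * Φ w z := by
      simp only [g3a_mu, Matrix.vecMul, dotProduct, Finset.sum_mul, Finset.mul_sum, mul_assoc]
      rw [Finset.sum_comm]
      exact Finset.sum_congr rfl fun x _ => Finset.sum_comm
    have e2 : g3a_mu m' (Matrix.vecMul f Φ) (Matrix.vecMul g Φ) z =
        ∑ a, ∑ b, ∑ x, ∑ y, f x * g y * (Φ x a * Φ y b * m' a b z) := by
      simp only [g3a_mu, Matrix.vecMul, dotProduct, Finset.sum_mul_sum]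
      simp only [Finset.sum_mul]
      refine Finset.sum_congr rfl fun a _ => Finset.sum_congr rfl fun b _ =>
        Finset.sum_congr rfl fun x _ => Finset.sum_congr rfl fun y _ => by ring
    rw [e1, e2, Finset.sum_comm_cycle]
    simp only [h, Finset.mul_sum]
    refine Finset.sum_congr rfl fun x _ => ?_
    exact Finset.sum_comm_cycle.symm
  · intro h x y z
    simpa [g3a_mu, Matrix.vecMul, dotProduct, Pi.single_apply, ite_and, Finset.sum_ite_irrel] using
      congrFun (h (Pi.single x 1) (Pi.single y 1)) z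

theorem IsoC.symm (h : IsoC τ m m') : IsoC τ m' m := by
  obtain ⟨Φ, h1, h2, h3⟩ := h
  refine ⟨Φ⁻¹, Matrix.isUnit_nonsing_inv_det Φ h1, fun g x y => ?_, g3a_iff.2 fun f g => ?_⟩
  · have e : Φ.submatrix (τ g) (τ g) = Φ := Matrix.ext (h2 g)
    have := Matrix.inv_submatrix_equiv Φ (τ g) (τ g)
    rw [e] at this
    exact (congrFun (congrFun this x) y).symm
  · have := congrArg (Matrix.vecMul · Φ⁻¹) (g3a_iff.1 h3 (Matrix.vecMul f Φ⁻¹) (Matrix.vecMul g Φ⁻¹))
    simpa only [Matrix.vecMul_vecMul, Matrix.nonsing_inv_mul Φ h1, Matrix.mul_nonsing_inv Φ h1,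
      Matrix.vecMul_one] using this.symm

theorem IsoC.trans (h : IsoC τ m m') (h' : IsoC τ m' m'') : IsoC τ m m'' := by
  obtain ⟨Φ, h1, h2, h3⟩ := h
  obtain ⟨Ψ, k1, k2, k3⟩ := h'
  refine ⟨Φ * Ψ, by rw [Matrix.det_mul]; exact h1.mul k1, fun g x y => ?_, g3a_iff.2 fun f g => ?_⟩
  · simp only [Matrix.mul_apply]
    rw [← Equiv.sum_comp (τ g)]
    simp only [h2, k2]
  · simp only [← Matrix.vecMul_vecMul, g3a_iff.1 h3, g3a_iff.1 k3]

theorem g3a_assoc (h : IStr τ m ε) (f g k : X → S) :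
    g3a_mu m (g3a_mu m f g) k = g3a_mu m f (g3a_mu m g k) := by
  funext w
  have e1 : g3a_mu m (g3a_mu m f g) k w =
      ∑ x, ∑ y, ∑ z, f x * g y * k z * ∑ a, m x y a * m a z w := by
    simp only [g3a_mu, Finset.sum_mul, Finset.mul_sum]
    rw [Finset.sum_comm_cycle]
    refine Finset.sum_congr rfl fun x _ => ?_
    rw [Finset.sum_comm_cycle]
    refine Finset.sum_congr rfl fun y _ => ?_
    rw [Finset.sum_comm]
    exact Finset.sum_congr rfl fun z _ => Finset.sum_congr rfl fun a _ => by ring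
  have e2 : g3a_mu m f (g3a_mu m g k) w =
      ∑ x, ∑ y, ∑ z, f x * g y * k z * ∑ a, m y z a * m x a w := by
    simp only [g3a_mu, Finset.sum_mul, Finset.mul_sum]
    refine Finset.sum_congr rfl fun x _ => ?_
    rw [Finset.sum_comm]
    refine Finset.sum_congr rfl fun y _ => ?_
    rw [Finset.sum_comm]
    exact Finset.sum_congr rfl fun z _ => Finset.sum_congr rfl fun a _ => by ring
  simp only [e1, e2, h.assoc]

theorem g3a_left (h : IStr τ m ε) (u : P) (f : X → S) (z : X) :
    g3a_mu m (fun x => ε (τ (u⁻¹, 1) x)) f z = f (τ (u⁻¹, 1) z) := by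
  have e : ∀ y, ∑ x, ε (τ (u⁻¹, 1) x) * f y * m x y z = if y = τ (u⁻¹, 1) z then f y else 0 :=
    fun y => by
      rw [← mul_boole, ← h.one_l, ← Equiv.sum_comp (τ (u⁻¹, 1)) fun a => ε a * _, Finset.mul_sum]
      exact Finset.sum_congr rfl fun x _ => by rw [h.eq_l]; ring
  rw [g3a_mu, Finset.sum_comm]
  simp only [e, Finset.sum_ite_eq', Finset.mem_univ, if_true]

theorem g3a_right (h : IStr τ m ε) (u : P) (f : X → S) (z : X) :
    g3a_mu m f (fun x => ε (τ (u⁻¹, 1) x)) z = f (τ (1, u) z) := by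
  have e : ∀ x, ∑ y, f x * ε (τ (u⁻¹, 1) y) * m x y z = if x = τ (1, u) z then f x else 0 :=
    fun x => by
      have k : x = τ (1, u) z ↔ τ (1, u⁻¹) x = z := by
        rw [show ((1, u⁻¹) : P × P) = (1, u)⁻¹ by simp, map_inv, Equiv.Perm.inv_eq_iff_eq]
      rw [if_congr k rfl rfl, ← mul_boole, ← h.one_r,
        ← Equiv.sum_comp (τ (u⁻¹, 1)) fun a => ε a * _, Finset.mul_sum]
      exact Finset.sum_congr rfl fun y _ => by rw [h.bal]; ring
  rw [g3a_mu]
  simp only [e, Finset.sum_ite_eq', Finset.mem_univ, if_true]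

omit [Fintype X] in
theorem g3a_one (x : X) : τ (1⁻¹, 1) x = x := by
  rw [inv_one, Prod.mk_one_one, map_one, Equiv.Perm.one_apply]

/-- The algebra with these structure constants. -/
def SAlg (_h : IStr τ m ε) : Type := X → S

variable (h : IStr τ m ε)

instance : AddCommGroup (SAlg h) := inferInstanceAs (AddCommGroup (X → S))
instance : Module S (SAlg h) := inferInstanceAs (Module S (X → S))

noncomputable instance : Ring (SAlg h) :=
  { (inferInstance : AddCommGroup (SAlg h)) with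
    mul := fun f g z => ∑ x, ∑ y, f x * g y * m x y z
    one := ε
    left_distrib := fun f g k => funext fun z => by
      show ∑ x, ∑ y, f x * (g y + k y) * m x y z =
        ∑ x, ∑ y, f x * g y * m x y z + ∑ x, ∑ y, f x * k y * m x y z
      simp only [mul_add, add_mul, Finset.sum_add_distrib]
    right_distrib := fun f g k => funext fun z => by
      show ∑ x, ∑ y, (f x + g x) * k y * m x y z =
        ∑ x, ∑ y, f x * k y * m x y z + ∑ x, ∑ y, g x * k y * m x y z
      simp only [add_mul, Finset.sum_add_distrib]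
    zero_mul := fun f => funext fun z => by
      show ∑ x, ∑ y, 0 * f y * m x y z = 0
      simp
    mul_zero := fun f => funext fun z => by
      show ∑ x, ∑ y, f x * 0 * m x y z = 0
      simp
    mul_assoc := g3a_assoc h
    one_mul := fun f => funext fun z => by
      show g3a_mu m ε f z = f z
      simpa only [g3a_one] using g3a_left h 1 f z
    mul_one := fun f => funext fun z => by
      show g3a_mu m f ε z = f z
      simpa only [g3a_one, Prod.mk_one_one, map_one, Equiv.Perm.one_apply] using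
        g3a_right h 1 f z }

theorem SAlg.mul_apply (f g : SAlg h) (z : X) : (f * g) z = ∑ x, ∑ y, f x * g y * m x y z := rfl

theorem SAlg.one_apply (z : X) : (1 : SAlg h) z = ε z := rfl

noncomputable instance : Algebra S (SAlg h) := Algebra.ofModule
  (fun c f g => funext fun z => by
    show ∑ x, ∑ y, c * f x * g y * m x y z = c * ∑ x, ∑ y, f x * g y * m x y z
    simp only [Finset.mul_sum, mul_assoc])
  (fun c f g => funext fun z => by
    show ∑ x, ∑ y, f x * (c * g y) * m x y z = c * ∑ x, ∑ y, f x * g y * m x y z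
    simp only [Finset.mul_sum, mul_assoc, mul_left_comm])

/-- The structure map; `alS h u = u • 1`. -/
noncomputable def alS : P →* (SAlg h)ˣ :=
  MonoidHom.toHomUnits
    { toFun := fun u => (fun z => ε (τ (u⁻¹, 1) z) : X → S)
      map_one' := funext fun z => congrArg ε (g3a_one z)
      map_mul' := fun u v => funext fun z => by
        refine Eq.trans ?_ (g3a_left h u (fun x => ε (τ (v⁻¹, 1) x)) z).symm
        show ε (τ ((u * v)⁻¹, 1) z) = ε (τ (v⁻¹, 1) (τ (u⁻¹, 1) z))
        rw [← Equiv.Perm.mul_apply, ← map_mul, Prod.mk_mul_mk, mul_one, mul_inv_rev] }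

theorem alS_apply (u : P) (z : X) : (alS h u : SAlg h) z = ε (τ (u⁻¹, 1) z) := rfl

theorem alS_mul (u : P) (f : SAlg h) (z : X) : ((alS h u : SAlg h) * f) z = f (τ (u⁻¹, 1) z) := by
  exact g3a_left h u f z

theorem mul_alS (u : P) (f : SAlg h) (z : X) : (f * (alS h u : SAlg h)) z = f (τ (1, u) z) := by
  exact g3a_right h u f z

end

section
variable {R A : Type} [CommRing R] [Ring A] [Algebra R A] {I J : Ideal R} {x y : A}

theorem g3a_ml (y : A) (hx : x ∈ I • (⊤ : Submodule R A)) : y * x ∈ I • (⊤ : Submodule R A) := by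
  refine Submodule.smul_induction_on hx (fun r hr n _ => ?_) fun a b ha hb => ?_
  · rw [mul_smul_comm]
    exact Submodule.smul_mem_smul hr trivial
  · rw [mul_add]
    exact add_mem ha hb

theorem g3a_mr (y : A) (hx : x ∈ I • (⊤ : Submodule R A)) : x * y ∈ I • (⊤ : Submodule R A) := by
  refine Submodule.smul_induction_on hx (fun r hr n _ => ?_) fun a b ha hb => ?_
  · rw [smul_mul_assoc]
    exact Submodule.smul_mem_smul hr trivial
  · rw [add_mul]
    exact add_mem ha hb

theorem g3a_m2 (hx : x ∈ I • (⊤ : Submodule R A)) (hy : y ∈ I • (⊤ : Submodule R A)) :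
    x * y ∈ I ^ 2 • (⊤ : Submodule R A) := by
  refine Submodule.smul_induction_on hx (fun r hr n _ => ?_) fun a b ha hb => ?_
  · rw [smul_mul_assoc, sq, ← Ideal.smul_eq_mul, Submodule.smul_assoc]
    exact Submodule.smul_mem_smul hr (g3a_ml n hy)
  · rw [add_mul]
    exact add_mem ha hb

end

/- PLAN: `c x y = φ x * φ y - φ (x * y)` satisfies exactly
`φ x * c y z - c (x * y) z + c x (y * z) - c x y * φ z = 0`.  Put `η x = ∑ j, c x (a j) * φ (b j)`
and `φ' = φ - η`.  The bilinear map `(s, t) ↦ c x s * φ t` is balanced, so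
`∑ c x (y * a j) * φ (b j) = ∑ c x (a j) * φ (b j * y)`, congruent to `η x * φ y` modulo `I ^ 2`;
`∑ φ (a j) * φ (b j)` is congruent to `1` modulo `I`.  `η` is equivariant (use `y = α u`).
`φ' 1 = 1 + s`, `s ∈ I`, is idempotent modulo `I ^ 2`.  Products of two elements of `I • ⊤` lie in
`I ^ 2 • ⊤` (`Submodule.smul_induction_on`). -/
theorem newton_step {F R P A A' : Type} [Field F] [CommRing R] [Algebra F R] [Group P] [Ring A]
    [Algebra F A] [Ring A'] [Algebra R A'] [Algebra F A'] [IsScalarTower F R A'] {α : P →* Aˣ}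
    {α' : P →* A'ˣ} (hs : SepInt F α) (I : Ideal R) (φ : A →ₗ[F] A')
    (hl : ∀ u x, φ (α u * x) = α' u * φ x) (hr : ∀ u x, φ (x * α u) = φ x * α' u)
    (hc : ∀ x y, φ x * φ y - φ (x * y) ∈ I • (⊤ : Submodule R A'))
    (h1 : φ 1 - 1 ∈ I • (⊤ : Submodule R A')) :
    ∃ φ' : A →ₗ[F] A', (∀ u x, φ' (α u * x) = α' u * φ' x) ∧ (∀ u x, φ' (x * α u) = φ' x * α' u) ∧
      (∀ x y, φ' x * φ' y - φ' (x * y) ∈ I ^ 2 • (⊤ : Submodule R A')) ∧
      φ' 1 - 1 ∈ I ^ 2 • (⊤ : Submodule R A') ∧ ∀ x, φ' x - φ x ∈ I • (⊤ : Submodule R A') := by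
  obtain ⟨J, _, a, b, hab, hβ⟩ := hs
  have key : ∀ x y, ∑ j, (φ x * φ (y * a j) - φ (x * (y * a j))) * φ (b j) =
      ∑ j, (φ x * φ (a j) - φ (x * a j)) * φ (b j * y) := fun x y =>
    hβ A' (LinearMap.mk₂ F (fun s t => (φ x * φ s - φ (x * s)) * φ t)
      (fun s s' t => by simp only [mul_add, map_add]; noncomm_ring)
      (fun c s t => by simp only [mul_smul_comm, map_smul, ← smul_sub, smul_mul_assoc])
      (fun s t t' => by simp only [mul_add, map_add])
      (fun c s t => by simp only [mul_smul_comm, map_smul])) (fun u s t => by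
        simp only [LinearMap.mk₂_apply, ← mul_assoc x, hr, hl]
        noncomm_ring) y
  let η : A →ₗ[F] A' :=
    { toFun := fun x => ∑ j, (φ x * φ (a j) - φ (x * a j)) * φ (b j)
      map_add' := fun x y => by
        rw [← Finset.sum_add_distrib]
        refine Finset.sum_congr rfl fun j _ => ?_
        simp only [add_mul, map_add]
        noncomm_ring
      map_smul' := fun c x => by
        simp only [smul_mul_assoc, map_smul, ← smul_sub, RingHom.id_apply, Finset.smul_sum] }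
  have hη : ∀ x, η x = ∑ j, (φ x * φ (a j) - φ (x * a j)) * φ (b j) := fun _ => rfl
  have h2 : ∀ x, η x ∈ I • (⊤ : Submodule R A') := fun x =>
    Submodule.sum_mem _ fun j _ => g3a_mr _ (hc _ _)
  have h3 : ∑ j, φ (a j) * φ (b j) - 1 ∈ I • (⊤ : Submodule R A') := by
    have : ∑ j, φ (a j) * φ (b j) - 1 = ∑ j, (φ (a j) * φ (b j) - φ (a j * b j)) + (φ 1 - 1) := by
      rw [Finset.sum_sub_distrib, ← map_sum, hab, sub_add_sub_cancel]
    rw [this]
    exact add_mem (Submodule.sum_mem _ fun j _ => hc _ _) h1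
  have h4 : ∀ x y, (φ - η) x * (φ - η) y - (φ - η) (x * y) ∈ I ^ 2 • (⊤ : Submodule R A') := by
    intro x y
    have e1 : φ x * η y - η (x * y) + ∑ j, (φ x * φ (y * a j) - φ (x * (y * a j))) * φ (b j) =
        (φ x * φ y - φ (x * y)) * ∑ j, φ (a j) * φ (b j) := by
      rw [hη, hη, Finset.mul_sum, Finset.mul_sum, ← Finset.sum_sub_distrib,
        ← Finset.sum_add_distrib]
      refine Finset.sum_congr rfl fun j _ => ?_
      rw [mul_assoc x]
      noncomm_ring
    have e2 : ∑ j, (φ x * φ (a j) - φ (x * a j)) * φ (b j * y) = η x * φ y -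
        ∑ j, (φ x * φ (a j) - φ (x * a j)) * (φ (b j) * φ y - φ (b j * y)) := by
      rw [hη, Finset.sum_mul, ← Finset.sum_sub_distrib]
      refine Finset.sum_congr rfl fun j _ => ?_
      noncomm_ring
    rw [key, e2] at e1
    have e3 : (φ - η) x * (φ - η) y - (φ - η) (x * y) = η x * η y -
        ∑ j, (φ x * φ (a j) - φ (x * a j)) * (φ (b j) * φ y - φ (b j * y)) -
        (φ x * φ y - φ (x * y)) * (∑ j, φ (a j) * φ (b j) - 1) := by
      rw [mul_sub _ _ (1 : A'), ← e1]
      simp only [LinearMap.sub_apply]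
      noncomm_ring
    rw [e3]
    exact sub_mem (sub_mem (g3a_m2 (h2 x) (h2 y))
      (Submodule.sum_mem _ fun j _ => g3a_m2 (hc _ _) (hc _ _))) (g3a_m2 (hc _ _) h3)
  refine ⟨φ - η, fun u x => ?_, fun u x => ?_, h4, ?_, fun x => ?_⟩
  · simp only [LinearMap.sub_apply, hη, mul_assoc, hl, mul_sub, Finset.mul_sum, sub_mul]
  · have := key x (α u)
    simp only [hl, hr, ← mul_assoc, ← Finset.sum_mul] at this
    simp only [LinearMap.sub_apply, hη, hr, sub_mul (φ x), this]
  · have k1 : (φ - η) 1 - 1 ∈ I • (⊤ : Submodule R A') := by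
      rw [LinearMap.sub_apply, sub_right_comm]
      exact sub_mem h1 (h2 1)
    have k2 := sub_mem (h4 1 1) (g3a_m2 k1 k1)
    rw [mul_one] at k2
    have e : (φ - η) 1 * (φ - η) 1 - (φ - η) 1 - ((φ - η) 1 - 1) * ((φ - η) 1 - 1) =
        (φ - η) 1 - 1 := by noncomm_ring
    exact e ▸ k2
  · rw [LinearMap.sub_apply, sub_sub_cancel_left]
    exact neg_mem (h2 x)

end Pool.Agent.Puig
end

-- merged part: Pool.Agent.Work.MP_cea1f0_al.G3
section
/-! Rigidity of separable interior algebras. -/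

namespace Pool.Agent.Puig

open Classical

variable {P X : Type} [Group P] [Fintype X] {τ : P × P →* Equiv.Perm X}

theorem g3_sum {S : Type} [CommRing S] {m : X → X → X → S} {ε : X → S} (h : IStr τ m ε)
    (c : X → S) (f : X → SAlg h) (z : X) : (∑ w, c w • f w) z = ∑ w, c w * f w z :=
  Finset.sum_apply z Finset.univ _

theorem g3_mem {S : Type} [CommRing S] {m : X → X → X → S} {ε : X → S} (h : IStr τ m ε)
    (I : Ideal S) (f : SAlg h) : f ∈ I • (⊤ : Submodule S (SAlg h)) ↔ ∀ z, f z ∈ I := by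
  refine ⟨fun hf => Submodule.smul_induction_on (p := fun f : SAlg h => ∀ z, f z ∈ I) hf
    (fun r hr g _ z => ?_) fun f g hf hg z => ?_, fun hf => ?_⟩
  · exact I.mul_mem_right (g z) hr
  · exact I.add_mem (hf z) (hg z)
  · let b : X → SAlg h := fun x => (fun z => if x = z then 1 else 0 : X → S)
    have e : f = ∑ w, f w • b w := funext fun z => by
      rw [g3_sum]
      simp [b]
    rw [e]
    exact Submodule.sum_mem _ fun w _ => Submodule.smul_mem_smul (hf w) Submodule.mem_top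

/- PLAN: `A = SAlg h₀`, `A' = SAlg h` (an `F`-algebra through `Algebra.compHom` or
`RestrictScalars`-like instance; or use `letI`), `φ₀ f = algebraMap ∘ f`; iterate `newton_step` with
`I = ker ev ^ 2 ^ k`; membership in `I • ⊤` is coordinatewise (`Ideal.smul_top`-type lemma for `Pi`).
`Φ x a = mk (φ (Pi.single x 1) a)` is congruent to the identity modulo the nilpotent ideal, so its
determinant is a unit. -/
theorem isoC_quot {F R : Type} [Field F] [CommRing R] [Algebra F R] (ev : R →ₐ[F] F)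
    {m : X → X → X → R} {ε : X → R} (h : IStr τ m ε)
    (h₀ : IStr τ (fun x y z => ev (m x y z)) fun x => ev (ε x)) (hs : SepInt F (alS h₀)) (n : ℕ) :
    IsoC τ (fun x y z => algebraMap F (R ⧸ RingHom.ker ev ^ n) (ev (m x y z)))
      fun x y z => Ideal.Quotient.mk (RingHom.ker ev ^ n) (m x y z) := by
  let _ : Algebra F (SAlg h) := Algebra.compHom (SAlg h) (algebraMap F R)
  have : IsScalarTower F R (SAlg h) := IsScalarTower.of_algebraMap_smul fun _ _ => rfl
  let φ₀ : SAlg h₀ →ₗ[F] SAlg h :=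
    { toFun := fun f => (fun x => algebraMap F R (f x) : X → R)
      map_add' := fun f g => funext fun x => map_add (algebraMap F R) (f x) (g x)
      map_smul' := fun c f => funext fun x => map_mul (algebraMap F R) c (f x) }
  have e₀ : ∀ f x, φ₀ f x = algebraMap F R (f x) := fun _ _ => rfl
  have it : ∀ k : ℕ, ∃ φ : SAlg h₀ →ₗ[F] SAlg h,
      (∀ u x, φ (alS h₀ u * x) = alS h u * φ x) ∧ (∀ u x, φ (x * alS h₀ u) = φ x * alS h u) ∧
      (∀ x y, φ x * φ y - φ (x * y) ∈ RingHom.ker ev ^ 2 ^ k • (⊤ : Submodule R (SAlg h))) ∧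
      φ 1 - 1 ∈ RingHom.ker ev ^ 2 ^ k • (⊤ : Submodule R (SAlg h)) ∧
      ∀ x, φ x - φ₀ x ∈ RingHom.ker ev • (⊤ : Submodule R (SAlg h)) := by
    intro k
    induction k with
    | zero =>
      rw [pow_zero, pow_one]
      refine ⟨φ₀, fun u x => funext fun z => ?_, fun u x => funext fun z => ?_, fun x y => ?_, ?_,
        fun x => by rw [sub_self]; exact zero_mem _⟩
      · rw [alS_mul, e₀, e₀, alS_mul]
      · rw [mul_alS, e₀, e₀, mul_alS]
      · refine (g3_mem h _ _).2 fun z => ?_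
        change (φ₀ x * φ₀ y) z - φ₀ (x * y) z ∈ _
        rw [RingHom.mem_ker, e₀, SAlg.mul_apply, SAlg.mul_apply]
        simp [e₀]
      · refine (g3_mem h _ _).2 fun z => ?_
        change φ₀ 1 z - (1 : SAlg h) z ∈ _
        rw [RingHom.mem_ker, e₀, SAlg.one_apply, SAlg.one_apply]
        simp
    | succ k ih =>
      obtain ⟨φ, a1, a2, a3, a4, a5⟩ := ih
      obtain ⟨φ', b1, b2, b3, b4, b5⟩ := newton_step hs _ φ a1 a2 a3 a4
      rw [← pow_mul, ← pow_succ] at b3 b4
      refine ⟨φ', b1, b2, b3, b4, fun x => ?_⟩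
      rw [← sub_add_sub_cancel _ (φ x)]
      exact add_mem (Submodule.smul_mono_left (Ideal.pow_le_self (by positivity)) (b5 x)) (a5 x)
  obtain ⟨φ, a1, a2, a3, -, a5⟩ := it n
  let b : X → SAlg h₀ := fun x => (fun z => if x = z then 1 else 0 : X → F)
  have eb : ∀ x z, b x z = if x = z then 1 else 0 := fun _ _ => rfl
  let Ψ : Matrix X X R := Matrix.of fun x a => φ (b x) a
  have eΨ : ∀ x a, Ψ x a = φ (b x) a := fun _ _ => rfl
  have inv : ∀ (g : P × P) (x z : X), x = τ g⁻¹ z ↔ τ g x = z := fun g x z => by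
    rw [map_inv, Equiv.Perm.eq_inv_iff_eq]
  have eqv : ∀ g x y, Ψ (τ g x) (τ g y) = Ψ x y := by
    have l : ∀ u x y, Ψ (τ (u, 1) x) (τ (u, 1) y) = Ψ x y := by
      intro u x y
      have e : b (τ (u, 1) x) = alS h₀ u * b x := funext fun z => by
        rw [alS_mul, eb, eb]
        exact if_congr (by rw [← inv, Prod.inv_mk, inv_one]) rfl rfl
      rw [eΨ, eΨ, e, a1, alS_mul, ← Equiv.Perm.mul_apply, ← map_mul]
      simp [← Prod.one_eq_mk]
    have r : ∀ u x y, Ψ (τ (1, u) x) (τ (1, u) y) = Ψ x y := by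
      intro u x y
      have e : b (τ (1, u) x) = b x * alS h₀ u⁻¹ := funext fun z => by
        rw [mul_alS, eb, eb]
        exact if_congr (by rw [← inv, Prod.inv_mk, inv_one]) rfl rfl
      rw [eΨ, eΨ, e, a2, mul_alS, ← Equiv.Perm.mul_apply, ← map_mul]
      simp [← Prod.one_eq_mk]
    rintro ⟨u, v⟩ x y
    have e : τ (u, v) = τ (u, 1) * τ (1, v) := by rw [← map_mul]; simp
    rw [e, Equiv.Perm.mul_apply, Equiv.Perm.mul_apply, l, r]
  refine ⟨(Ideal.Quotient.mk (RingHom.ker ev ^ n)).mapMatrix Ψ, ?_, fun g x y => ?_,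
    fun x y z => ?_⟩
  · have e1 : ev.mapMatrix Ψ = 1 := by
      ext x a
      have := (g3_mem h _ _).1 (a5 (b x)) a
      change φ (b x) a - φ₀ (b x) a ∈ _ at this
      rw [RingHom.mem_ker, map_sub, sub_eq_zero, e₀, AlgHom.commutes] at this
      rw [Matrix.one_apply, ← eb]
      exact this
    have e2 : Ψ.det - 1 ∈ RingHom.ker ev := by
      rw [RingHom.mem_ker, map_sub, AlgHom.map_det, e1, Matrix.det_one, map_one, sub_self]
    have e3 : IsNilpotent (Ideal.Quotient.mk (RingHom.ker ev ^ n) (Ψ.det - 1)) :=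
      ⟨n, by rw [← map_pow, Ideal.Quotient.eq_zero_iff_mem]; exact Ideal.pow_mem_pow e2 n⟩
    have e4 := e3.isUnit_add_one
    rwa [map_sub, map_one, sub_add_cancel, RingHom.map_det] at e4
  · exact congrArg (Ideal.Quotient.mk (RingHom.ker ev ^ n)) (eqv g x y)
  · have e1 : b x * b y = ∑ w, ev (m x y w) • b w := funext fun z => by
      rw [SAlg.mul_apply, g3_sum]
      simp [eb]
    have e2 := Ideal.pow_le_pow_right (I := RingHom.ker ev) (Nat.lt_two_pow_self (n := n)).le
      ((g3_mem h _ _).1 (a3 (b x) (b y)) z)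
    change (φ (b x) * φ (b y)) z - φ (b x * b y) z ∈ _ at e2
    have e3 : φ (b x * b y) z = ∑ w, algebraMap F R (ev (m x y w)) * Ψ w z := by
      rw [e1, map_sum]
      simp only [map_smul]
      exact Finset.sum_apply z Finset.univ _
    rw [← Ideal.Quotient.eq, e3, SAlg.mul_apply] at e2
    simp only [map_sum, map_mul] at e2
    exact e2.symm

theorem g3_pt {K L S T : Type} [Field K] [Field L] [IsAlgClosed L] [Algebra K L] [CommRing S]
    [Nontrivial S] [Algebra K S] [CommRing T] [Algebra K T] [Algebra.FiniteType K T]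
    (a : T →ₐ[K] S) : ∃ ψ : T →ₐ[K] L, ∀ p q, a p = a q → ψ p = ψ q := by
  obtain ⟨M, hM, hle⟩ := Ideal.exists_le_maximal _ (RingHom.ker_ne_top a)
  let _ := Ideal.Quotient.field M
  have : Module.Finite K (T ⧸ M) := finite_of_finite_type_of_isJacobsonRing K (T ⧸ M)
  refine ⟨(IsAlgClosed.lift : (T ⧸ M) →ₐ[K] L).comp (Ideal.Quotient.mkₐ K M), fun p q h => ?_⟩
  have : Ideal.Quotient.mkₐ K M p = Ideal.Quotient.mkₐ K M q :=
    Ideal.Quotient.eq.2 (hle (by rw [RingHom.mem_ker, map_sub, h, sub_self]))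
  rw [AlgHom.comp_apply, AlgHom.comp_apply, this]

theorem g3_pi {ι : Type} {S : ι → Type} [∀ i, CommRing (S i)] {m m' : X → X → X → ∀ i, S i}
    (h : ∀ i, IsoC τ (fun x y z => m x y z i) fun x y z => m' x y z i) : IsoC τ m m' := by
  choose Φ h1 h2 h3 using h
  refine ⟨Matrix.of fun x y i => Φ i x y, Pi.isUnit_iff.2 fun i => ?_,
    fun g x y => funext fun i => h2 i g x y, fun x y z => funext fun i => ?_⟩
  · have e := (Pi.evalRingHom S i).map_det (Matrix.of fun x y i => Φ i x y)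
    rw [Pi.evalRingHom_apply] at e
    rw [e]
    exact h1 i
  · simp only [Finset.sum_apply, Pi.mul_apply, Matrix.of_apply]
    exact h3 i x y z

/- PLAN: the entries of `Φ` and the inverse of the determinant define `a : MvPolynomial σ K →ₐ S`,
`σ = Option (X × X)`; its kernel is proper, lies in a maximal ideal `M`; the field `_ ⧸ M` is finite
over `K` (`finite_of_finite_type_of_isJacobsonRing`) so embeds in `L` (`IsAlgClosed.lift`); the
equations lie in the kernel.  Shorter: replace `S` by the subalgebra generated by these elements,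
take a maximal ideal of it and use `IsoC.map`. -/
theorem isoC_ns {K L S : Type} [Field K] [Field L] [IsAlgClosed L] [Algebra K L] [CommRing S]
    [Nontrivial S] [Algebra K S] {m m' : X → X → X → K}
    (h : IsoC τ (fun x y z => algebraMap K S (m x y z)) fun x y z => algebraMap K S (m' x y z)) :
    IsoC τ (fun x y z => algebraMap K L (m x y z)) fun x y z => algebraMap K L (m' x y z) := by
  obtain ⟨Φ, h1, h2, h3⟩ := h
  obtain ⟨d, hd⟩ := h1.exists_right_inv
  let a : MvPolynomial (Option (X × X)) K →ₐ[K] S :=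
    MvPolynomial.aeval fun o => o.elim d fun t => Φ t.1 t.2
  obtain ⟨ψ, hψ⟩ := g3_pt (L := L) a
  let Y : Matrix X X (MvPolynomial (Option (X × X)) K) :=
    Matrix.of fun x y => MvPolynomial.X (some (x, y))
  have e : ∀ x y, a (Y x y) = Φ x y := fun x y => MvPolynomial.aeval_X _ _
  have e' : a.mapMatrix Y = Φ := Matrix.ext e
  refine ⟨ψ.mapMatrix Y, ?_, fun g x y => hψ _ _ (by rw [e, e, h2]), fun x y z => ?_⟩
  · have := hψ (Y.det * MvPolynomial.X none) 1 (by
      rw [map_mul, AlgHom.map_det, e', map_one, ← hd]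
      exact congrArg _ (MvPolynomial.aeval_X _ _))
    rw [map_mul, map_one, AlgHom.map_det] at this
    exact IsUnit.of_mul_eq_one _ this
  · have := hψ (∑ w, algebraMap K _ (m x y w) * Y w z)
      (∑ a, ∑ b, Y x a * Y y b * algebraMap K _ (m' a b z)) (by
        simp only [map_sum, map_mul, AlgHom.commutes, e]
        exact h3 x y z)
    simp only [map_sum, map_mul, AlgHom.commutes] at this
    exact this

theorem g3_ns {K L S : Type} [Field K] [Field L] [IsAlgClosed L] [CommRing S] [Nontrivial S]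
    (f : K →+* L) (g : K →+* S) {m m' : X → X → X → K}
    (h : IsoC τ (fun x y z => g (m x y z)) fun x y z => g (m' x y z)) :
    IsoC τ (fun x y z => f (m x y z)) fun x y z => f (m' x y z) :=
  letI := f.toAlgebra
  letI := g.toAlgebra
  isoC_ns h

/- PLAN: `isoC_quot` for all `n` gives `IsoC` over `S₀ = ∀ n, R ⧸ ker ev ^ n`; `R → S₀` is injective
(`Ideal.iInf_pow_eq_bot_of_isDomain`); localise `S₀` at the image of `nonZeroDivisors R`
(`Localization`, non-trivial, an algebra over `FractionRing R` by `IsLocalization.lift`), or take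
a prime of `S₀` disjoint from this image (`Ideal.exists_le_prime_disjoint`) and the fraction field
of the quotient; `isoC_ns` with `K = FractionRing R`. -/
theorem isoC_generic {F R L : Type} [Field F] [CommRing R] [IsDomain R] [IsNoetherianRing R]
    [Algebra F R] [Field L] [IsAlgClosed L] (ι : R →+* L) (hι : Function.Injective ι)
    (ev : R →ₐ[F] F) {m : X → X → X → R} {ε : X → R} (h : IStr τ m ε)
    (h₀ : IStr τ (fun x y z => ev (m x y z)) fun x => ev (ε x)) (hs : SepInt F (alS h₀)) :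
    IsoC τ (fun x y z => ι (algebraMap F R (ev (m x y z)))) fun x y z => ι (m x y z) := by
  let j : R →+* ∀ n : ℕ, R ⧸ RingHom.ker ev ^ n :=
    RingHom.pi fun n => Ideal.Quotient.mk (RingHom.ker ev ^ n)
  have hj : ∀ r, j r = 0 → r = 0 := fun r hr => by
    have e := Ideal.iInf_pow_eq_bot_of_isDomain _ (RingHom.ker_ne_top ev)
    rw [← Ideal.mem_bot, ← e, Ideal.mem_iInf]
    exact fun n => Ideal.Quotient.eq_zero_iff_mem.1 (congrFun hr n)
  have h1 : IsoC τ (fun x y z => j (algebraMap F R (ev (m x y z)))) fun x y z => j (m x y z) :=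
    g3_pi fun n => isoC_quot ev h h₀ hs n
  let N := (nonZeroDivisors R).map j
  have : Nontrivial (Localization N) := by
    rw [← not_subsingleton_iff_nontrivial, IsLocalization.subsingleton_iff (M := N)]
    rintro ⟨r, hr, hr'⟩
    exact nonZeroDivisors.ne_zero hr (hj r hr')
  have hu : ∀ y : nonZeroDivisors R, IsUnit (((algebraMap _ (Localization N)).comp j) y) :=
    fun y => IsLocalization.map_units (M := N) (Localization N) ⟨j y, y, y.2, rfl⟩
  have h2 := g3_ns (τ := τ) (IsFractionRing.lift (K := FractionRing R) hι)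
    (IsLocalization.lift (S := FractionRing R) hu)
    (m := fun x y z => algebraMap R _ (algebraMap F R (ev (m x y z))))
    (m' := fun x y z => algebraMap R _ (m x y z)) (by
      simp only [IsLocalization.lift_eq]
      exact h1.map (algebraMap _ (Localization N)))
  simpa only [IsFractionRing.lift_algebraMap] using h2

theorem g3_emb (R : Type) [CommRing R] [IsDomain R] :
    ∃ (L : Type) (_ : Field L) (_ : IsAlgClosed L) (ι : R →+* L), Function.Injective ι :=
  ⟨AlgebraicClosure (FractionRing R), inferInstance, inferInstance,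
    (algebraMap (FractionRing R) _).comp (algebraMap R _),
    (algebraMap (FractionRing R) (AlgebraicClosure (FractionRing R))).injective.comp
      (IsFractionRing.injective R (FractionRing R))⟩

/-- Evaluation at a point. -/
noncomputable def g3_ev {F : Type} [Field F] (z : (X → X → X → F) × (X → F)) :
    MvPolynomial ((X × X × X) ⊕ X) F →ₐ[F] F :=
  MvPolynomial.aeval (Sum.elim (fun t => z.1 t.1 t.2.1 t.2.2) z.2)

omit [Fintype X] in
theorem g3_ev_l {F : Type} [Field F] (z : (X → X → X → F) × (X → F)) (a b c : X) :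
    g3_ev z (MvPolynomial.X (Sum.inl (a, b, c))) = z.1 a b c := MvPolynomial.aeval_X _ _

omit [Fintype X] in
theorem g3_ev_r {F : Type} [Field F] (z : (X → X → X → F) × (X → F)) (a : X) :
    g3_ev z (MvPolynomial.X (Sum.inr a)) = z.2 a := MvPolynomial.aeval_X _ _

theorem g3_istr {F R : Type} [Field F] [CommRing R] (f : MvPolynomial ((X × X × X) ⊕ X) F →+* R)
    (hf : ∀ a b, (∀ z, IStr τ z.1 z.2 → g3_ev z a = g3_ev z b) → f a = f b) :
    IStr τ (fun x y z => f (MvPolynomial.X (Sum.inl (x, y, z))))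
      fun x => f (MvPolynomial.X (Sum.inr x)) := by
  have ite : ∀ x y : X, (if x = y then (1 : R) else 0) = f (if x = y then 1 else 0) :=
    fun x y => by split_ifs <;> simp
  have ite' : ∀ (z : (X → X → X → F) × (X → F)) (x y : X),
      g3_ev z (if x = y then 1 else 0) = if x = y then 1 else 0 :=
    fun z x y => by split_ifs <;> simp
  refine ⟨fun x y z w => ?_, fun y z => ?_, fun x z => ?_, fun u x y z => hf _ _ fun t ht => ?_,
    fun u x y z => hf _ _ fun t ht => ?_, fun u x y z => hf _ _ fun t ht => ?_⟩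
  · simp only [← map_mul, ← map_sum]
    refine hf _ _ fun t ht => ?_
    simp only [map_mul, map_sum, g3_ev_l]
    exact ht.assoc x y z w
  · simp only [← map_mul, ← map_sum, ite]
    refine hf _ _ fun t ht => ?_
    simp only [map_mul, map_sum, g3_ev_l, g3_ev_r, ite']
    exact ht.one_l y z
  · simp only [← map_mul, ← map_sum, ite]
    refine hf _ _ fun t ht => ?_
    simp only [map_mul, map_sum, g3_ev_l, g3_ev_r, ite']
    exact ht.one_r x z
  · rw [g3_ev_l, g3_ev_l, ht.eq_l]
  · rw [g3_ev_l, g3_ev_l, ht.eq_r]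
  · rw [g3_ev_l, g3_ev_l, ht.bal]

theorem g3_sep {F : Type} [Field F] {m m' : X → X → X → F} {ε ε' : X → F} (e : m = m')
    (e' : ε = ε') (h : IStr τ m ε) (hs : SepInt F (alS h)) :
    ∃ h' : IStr τ m' ε', SepInt F (alS h') := by
  subst e e'
  exact ⟨h, hs⟩

theorem g3_gen {F L : Type} [Field F] [Field L] [IsAlgClosed L]
    {p : Ideal (MvPolynomial ((X × X × X) ⊕ X) F)} [p.IsPrime]
    (ι : (MvPolynomial ((X × X × X) ⊕ X) F ⧸ p) →+* L) (hι : Function.Injective ι)
    (hI : IStr τ (fun x y z => Ideal.Quotient.mk p (MvPolynomial.X (Sum.inl (x, y, z))))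
      fun x => Ideal.Quotient.mk p (MvPolynomial.X (Sum.inr x)))
    {z : (X → X → X → F) × (X → F)} (h : IStr τ z.1 z.2) (hs : SepInt F (alS h))
    (hle : p ≤ RingHom.ker (g3_ev z)) :
    IsoC τ (fun a b c => ι.comp (algebraMap F _) (z.1 a b c))
      fun a b c => ι (Ideal.Quotient.mk p (MvPolynomial.X (Sum.inl (a, b, c)))) := by
  let ev := Ideal.Quotient.liftₐ p (g3_ev z) fun a ha => hle ha
  have e : ∀ a, ev (Ideal.Quotient.mk p a) = g3_ev z a := fun _ => rfl
  obtain ⟨h₀, hs₀⟩ := g3_sep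
    (m' := fun a b c => ev (Ideal.Quotient.mk p (MvPolynomial.X (Sum.inl (a, b, c)))))
    (ε' := fun a => ev (Ideal.Quotient.mk p (MvPolynomial.X (Sum.inr a))))
    (by funext a b c; rw [e, g3_ev_l]) (by funext a; rw [e, g3_ev_r]) h hs
  have := isoC_generic ι hι ev hI h₀ hs₀
  simpa only [e, g3_ev_l, RingHom.comp_apply] using this

/- PLAN: `T = MvPolynomial ((X × X × X) ⊕ X) F`, `J` the ideal of the polynomials vanishing at all
points with `IStr`; finitely many minimal primes over `J`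
(`Ideal.finite_minimalPrimes_of_isNoetherianRing`); every point lies on one
(`Ideal.exists_minimalPrimes_le`); `IStr` holds over `R = T ⧸ 𝔭`.  Two separable points on the same
`𝔭` are isomorphic: `isoC_generic` with `L = AlgebraicClosure (FractionRing R)`, `IsoC.symm`,
`IsoC.trans`, `isoC_ns` with `K = L = F`.  Choose one separable point on every `𝔭` that has one. -/
theorem rigid_fin (F : Type) [Field F] [IsAlgClosed F] (τ : P × P →* Equiv.Perm X) :
    ∃ s : Set ((X → X → X → F) × (X → F)), s.Finite ∧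
      ∀ (m : X → X → X → F) (ε : X → F) (h : IStr τ m ε), SepInt F (alS h) →
        ∃ z ∈ s, IStr τ z.1 z.2 ∧ IsoC τ m z.1 := by
  let J : Ideal (MvPolynomial ((X × X × X) ⊕ X) F) :=
    ⨅ z : {z : (X → X → X → F) × (X → F) // IStr τ z.1 z.2}, RingHom.ker (g3_ev z.1)
  let Q : Ideal (MvPolynomial ((X × X × X) ⊕ X) F) → (X → X → X → F) × (X → F) → Prop :=
    fun p z => ∃ h : IStr τ z.1 z.2, SepInt F (alS h) ∧ p ≤ RingHom.ker (g3_ev z)
  refine ⟨(fun p => Classical.epsilon (Q p)) '' J.minimalPrimes,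
    (Ideal.finite_minimalPrimes_of_isNoetherianRing _ J).image _, fun m ε h hs => ?_⟩
  have := RingHom.ker_isPrime (g3_ev (m, ε))
  obtain ⟨p, hp, hle⟩ := Ideal.exists_minimalPrimes_le (J := RingHom.ker (g3_ev (m, ε)))
    (show J ≤ _ from iInf_le _ (⟨(m, ε), h⟩ : {z : (X → X → X → F) × (X → F) // IStr τ z.1 z.2}))
  have hz : Q p (Classical.epsilon (Q p)) := Classical.epsilon_spec ⟨(m, ε), h, hs, hle⟩
  refine ⟨_, ⟨p, hp, rfl⟩, ?_⟩
  beta_reduce
  generalize Classical.epsilon (Q p) = z at hz ⊢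
  obtain ⟨h', hs', hle'⟩ := hz
  refine ⟨h', ?_⟩
  have : p.IsPrime := hp.1.1
  have hI := g3_istr (τ := τ) (Ideal.Quotient.mk p) fun a b hab =>
    Ideal.Quotient.eq.2 (hp.1.2 (Ideal.mem_iInf.2 fun z => by
      rw [RingHom.mem_ker, map_sub, hab z.1 z.2, sub_self]))
  obtain ⟨L, _, _, ι, hι⟩ := g3_emb (MvPolynomial ((X × X × X) ⊕ X) F ⧸ p)
  exact g3_ns (m := m) (m' := z.1) (RingHom.id F) (ι.comp (algebraMap F _))
    ((g3_gen (z := (m, ε)) ι hι hI h hs hle).trans (g3_gen ι hι hI h' hs' hle').symm)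

end Pool.Agent.Puig
end

-- merged part: Pool.Agent.Work.MP_cea1f0_al.G5
section
/-! Finitely many source algebras of bounded dimension. -/

namespace Pool.Agent.Puig

open MonoidAlgebra Classical

section
variable {F G P : Type} [Field F] [Group G] [Finite G] [Group P] {d : ℕ}
  {τ : P × P →* Equiv.Perm (Fin d)} {D : Subgroup G} {φ : P ≃* D} {i : MonoidAlgebra F G}
  {v : Fin d → MonoidAlgebra F G}

omit [Finite G] in
theorem g5_l (h3 : ∀ u w x, of F G (φ u : G) * v x * of F G (φ w : G)⁻¹ = v (τ (u, w) x)) (u : P)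
    (x : Fin d) : of F G (φ u : G) * v x = v (τ (u, 1) x) := by
  rw [← h3, map_one, OneMemClass.coe_one, inv_one, map_one, mul_one]

omit [Finite G] in
theorem g5_r (h3 : ∀ u w x, of F G (φ u : G) * v x * of F G (φ w : G)⁻¹ = v (τ (u, w) x)) (u : P)
    (x : Fin d) : v x * of F G (φ u : G)⁻¹ = v (τ (1, u) x) := by
  rw [← h3, map_one, OneMemClass.coe_one, map_one, one_mul]

omit [Finite G] in
theorem g5_inj (h1 : LinearIndependent F v) {f g : Fin d → F}
    (h : ∑ z, f z • v z = ∑ z, g z • v z) (z : Fin d) : f z = g z :=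
  (Fintype.linearIndependent_iffₛ.1 h1) f g h z

omit [Finite G] in
theorem g5_perm (h1 : LinearIndependent F v) (σ : Equiv.Perm (Fin d)) {f g : Fin d → F}
    (h : ∑ z, f z • v z = ∑ z, g z • v (σ z)) (z : Fin d) : f (σ z) = g z := by
  rw [← Equiv.sum_comp σ.symm fun z => g z • v (σ z)] at h
  simp only [Equiv.apply_symm_apply] at h
  rw [g5_inj h1 h, Equiv.symm_apply_apply]

omit [Finite G] in
theorem g5_mul {m : Fin d → Fin d → Fin d → F} (hm : ∀ x y, v x * v y = ∑ z, m x y z • v z)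
    (f g : Fin d → F) : (∑ x, f x • v x) * ∑ y, g y • v y =
      ∑ z, (∑ x, ∑ y, f x * g y * m x y z) • v z := by
  simp only [Finset.sum_mul_sum, smul_mul_smul_comm, hm, Finset.smul_sum, Finset.sum_smul,
    smul_smul]
  rw [Finset.sum_congr rfl fun x _ => Finset.sum_comm, Finset.sum_comm]

omit [Finite G] in
theorem g5_unit (hf : Fix D i) (hl : ∀ u x, of F G (φ u : G) * v x = v (τ (u, 1) x))
    {ε : Fin d → F} (he : ∑ a, ε a • v a = i) (u : P) :
    i * of F G (φ u : G) = ∑ c, ε (τ (u⁻¹, 1) c) • v c := by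
  rw [← hf _ (φ u).2, ← he, Finset.mul_sum, ← Equiv.sum_comp (τ (u, 1))
    fun c => ε (τ (u⁻¹, 1) c) • v c]
  refine Finset.sum_congr rfl fun a _ => ?_
  rw [mul_smul_comm, hl, ← Equiv.Perm.mul_apply, ← map_mul, Prod.mk_mul_mk, inv_mul_cancel,
    mul_one, Prod.mk_one_one, map_one, Equiv.Perm.one_apply]

/- PLAN: `m`, `ε` are the coordinates of `v x * v y` and of `i`; compare coordinates.  The map
`f ↦ ∑ x, f x • v x` is the non-unital algebra homomorphism of `IsoSrc`. -/
theorem exists_istr (hi : IsIdempotentElem i) (hf : Fix D i) (h1 : LinearIndependent F v)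
    (h2 : (Submodule.span F (Set.range v) : Set (MonoidAlgebra F G)) = {x | i * x * i = x})
    (h3 : ∀ u w x, of F G (φ u : G) * v x * of F G (φ w : G)⁻¹ = v (τ (u, w) x)) :
    ∃ (m : Fin d → Fin d → Fin d → F) (ε : Fin d → F) (h : IStr τ m ε),
      (∀ x y, v x * v y = ∑ z, m x y z • v z) ∧ IsoSrc (alS h) D i := by
  have hv : ∀ x, i * v x * i = v x := fun x => h2.subset (Submodule.subset_span ⟨x, rfl⟩)
  have co : ∀ x, i * x * i = x → ∃ c : Fin d → F, ∑ z, c z • v z = x := fun x hx =>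
    (Submodule.mem_span_range_iff_exists_fun F).1 (h2.symm.subset hx)
  choose m hm using fun x y => co _ (a3_mul hi (hv x) (hv y))
  obtain ⟨ε, he⟩ := co i (by rw [hi.eq, hi.eq])
  have sw : ∀ (c : Fin d → F) (k : Fin d → Fin d → F),
      ∑ w, (∑ a, c a * k a w) • v w = ∑ a, c a • ∑ w, k a w • v w := fun c k => by
    simp only [Finset.sum_smul, Finset.smul_sum, smul_smul]
    exact Finset.sum_comm
  have dl : ∀ y, ∑ z, (if y = z then (1 : F) else 0) • v z = v y := fun y => by simp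
  have h : IStr τ m ε := by
    refine ⟨fun x y z => g5_inj h1 ?_, fun y => ?_, fun x => ?_, fun u x y => g5_perm h1 _ ?_,
      fun u x y => g5_perm h1 _ ?_, fun u x y => g5_inj h1 ?_⟩
    · simp only [sw, hm, ← smul_mul_assoc, ← Finset.sum_mul]
      rw [mul_assoc, ← hm y z, Finset.mul_sum]
      simp only [mul_smul_comm, smul_mul_assoc]
    · have := g5_inj h1 (f := fun z => ∑ a, ε a * m a y z) (g := fun z => if y = z then 1 else 0)
        (by simp only [sw, hm, ← smul_mul_assoc, ← Finset.sum_mul, he, dl, (a3_lr hi (hv y)).1])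
      intro z
      rw [this z]
      split_ifs <;> rfl
    · have := g5_inj h1 (f := fun z => ∑ a, ε a * m x a z) (g := fun z => if x = z then 1 else 0)
        (by simp only [sw, hm, ← mul_smul_comm, ← Finset.mul_sum, he, dl, (a3_lr hi (hv x)).2])
      intro z
      rw [this z]
      split_ifs <;> rfl
    · simp only [hm, ← g5_l h3, ← mul_smul_comm, ← Finset.mul_sum, mul_assoc]
    · simp only [hm, ← g5_r h3, ← smul_mul_assoc, ← Finset.sum_mul, mul_assoc]
    · rw [hm, hm, ← g5_l h3, ← g5_r h3, mul_assoc, ← mul_assoc (of F G _), ← map_mul,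
        inv_mul_cancel, map_one, one_mul]
  refine ⟨m, ε, h, fun x y => (hm x y).symm, φ,
    { toFun := fun f => ∑ x, f x • v x
      map_smul' := fun c f => ?_
      map_zero' := Finset.sum_eq_zero fun x _ => zero_smul F _
      map_add' := fun f g => ?_
      map_mul' := fun f g => (g5_mul (fun x y => (hm x y).symm) f g).symm },
    fun f g e => funext (g5_inj h1 e), ?_, fun u => (g5_unit hf (g5_l h3) he u).symm⟩
  · rw [MonoidHom.id_apply, Finset.smul_sum]
    exact Finset.sum_congr rfl fun x _ => mul_smul c (f x) (v x)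
  · rw [← Finset.sum_add_distrib]
    exact Finset.sum_congr rfl fun x _ => add_smul (f x) (g x) (v x)
  · rw [← h2]
    exact Set.ext fun x => (Submodule.mem_span_range_iff_exists_fun F).symm

/- PLAN: the new basis is `v' a = ∑ x, Φ⁻¹ a x • v x`; it is permuted in the same way, has the
constants `m'`, and `∑ ε' a • v' a` is a unit element of the corner, so equal to `i`. -/
theorem sc_of_isoC (hi : IsIdempotentElem i) (hf : Fix D i) (h1 : LinearIndependent F v)
    (h2 : (Submodule.span F (Set.range v) : Set (MonoidAlgebra F G)) = {x | i * x * i = x})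
    (h3 : ∀ u w x, of F G (φ u : G) * v x * of F G (φ w : G)⁻¹ = v (τ (u, w) x))
    {m m' : Fin d → Fin d → Fin d → F} {ε' : Fin d → F}
    (hm : ∀ x y, v x * v y = ∑ z, m x y z • v z) (h' : IStr τ m' ε') (h : IsoC τ m m') :
    SC (RingHom.id F) m' (fun u c => ε' (τ (u⁻¹, 1) c)) D i := by
  obtain ⟨Ψ, k0, k2, k3⟩ := h.symm
  have k1 : IsUnit Ψ.det := by
    rwa [Subsingleton.elim (instDecidableEqFin d) fun a b => propDecidable (a = b)]
  obtain ⟨v', hv'⟩ : ∃ v' : Fin d → MonoidAlgebra F G, ∀ a, v' a = ∑ x, Ψ a x • v x :=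
    ⟨_, fun _ => rfl⟩
  have sw : ∀ c : Fin d → F, ∑ a, c a • v' a = ∑ w, (∑ a, c a * Ψ a w) • v w := fun c => by
    simp only [hv', Finset.sum_smul, Finset.smul_sum, smul_smul]
    exact Finset.sum_comm
  have hm' : ∀ a b, v' a * v' b = ∑ c, m' a b c • v' c := fun a b => by
    rw [sw, hv', hv', g5_mul hm]
    simp only [k3]
  have sp : Submodule.span F (Set.range v') = Submodule.span F (Set.range v) := by
    refine le_antisymm (Submodule.span_le.2 ?_) (Submodule.span_le.2 ?_)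
    · rintro _ ⟨a, rfl⟩
      exact (Submodule.mem_span_range_iff_exists_fun F).2 ⟨_, (hv' a).symm⟩
    · rintro _ ⟨x, rfl⟩
      refine (Submodule.mem_span_range_iff_exists_fun F).2 ⟨Ψ⁻¹ x, ?_⟩
      simp only [sw, ← Matrix.mul_apply, Matrix.nonsing_inv_mul Ψ k1]
      simp [Matrix.one_apply]
  have he : ∑ a, ε' a • v' a = i := by
    have e1 : ∀ y, (∑ a, ε' a • v' a) * v' y = v' y := fun y => by
      simp only [Finset.sum_mul, smul_mul_assoc, hm', Finset.smul_sum, smul_smul]
      rw [Finset.sum_comm]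
      simp [← Finset.sum_smul, h'.one_l]
    obtain ⟨c, hc⟩ := (Submodule.mem_span_range_iff_exists_fun F).1
      (sp.ge (h2.symm.subset (show i * i * i = i by rw [hi.eq, hi.eq])))
    rw [← (a3_lr hi (h2.subset (sp.le
      ((Submodule.mem_span_range_iff_exists_fun F).2 ⟨ε', rfl⟩)))).2, ← hc, Finset.mul_sum]
    simp only [mul_smul_comm, e1]
  refine ⟨φ, v', Fintype.linearIndependent_iff.2 fun c hc => ?_, sp ▸ h2, hm',
    g5_unit hf (fun u a => ?_) he⟩
  · rw [sw] at hc
    exact congrFun (Matrix.eq_zero_of_vecMul_eq_zero k1.ne_zero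
      (funext (Fintype.linearIndependent_iff.1 h1 _ hc)))
  · rw [hv', hv', Finset.mul_sum, ← Equiv.sum_comp (τ (u, 1))
      fun x => Ψ (τ (u, 1) a) x • v x]
    simp only [mul_smul_comm, g5_l h3, k2]

end

/- PLAN: index by the finite type of the triples `(d ≤ c, τ, z ∈ s τ)` (`rigid_fin`; `τ` ranges over
a finite type, by `DFunLike.coe_injective`); `exists_model`; `corner_basis`, `exists_istr`,
`sep_source`, `sc_of_isoC`. -/
theorem fin_of_dim (p : ℕ) [Fact p.Prime] (F : Type) [Field F] [IsAlgClosed F] [CharP F p]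
    (P : Type) [Group P] [Finite P] (c : ℕ) :
    ∃ (N : ℕ) (A : Fin N → Type) (_ : ∀ j, Ring (A j)) (_ : ∀ j, Algebra F (A j))
      (α : ∀ j, P →* (A j)ˣ), (∀ j, FiniteDimensional F (A j)) ∧
      ∀ (G : Type) [Group G] [Finite G] (b : MonoidAlgebra F G) (D : Subgroup G)
        (i : MonoidAlgebra F G), IsBlock b → IsDefect p b D → Nonempty (D ≃* P) →
        IsSource b D i → bim i i ≤ c → ∃ j, IsoSrc (α j) D i := by
  choose s hs hs' using fun (d : Fin (c + 1)) (τ : P × P →* Equiv.Perm (Fin d)) => rigid_fin F τ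
  have : ∀ d : ℕ, Finite (P × P →* Equiv.Perm (Fin d)) := fun d =>
    Finite.of_injective _ DFunLike.coe_injective
  have : ∀ d τ, Finite (s d τ) := hs
  obtain ⟨N, ⟨e⟩⟩ := Finite.exists_equiv_fin
    (Σ d : Fin (c + 1), Σ τ : P × P →* Equiv.Perm (Fin d), s d τ)
  choose A rA aA α hA h using fun j : Fin N => exists_model (RingHom.id F) (e.symm j).2.2.1.1
    fun (u : P) a => (e.symm j).2.2.1.2 ((e.symm j).2.1 (u⁻¹, 1) a)
  refine ⟨N, A, rA, aA, α, hA, fun G _ _ b D i hb hD ⟨φ⟩ hi hc => ?_⟩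
  obtain ⟨τ, v, h1, h2, h3⟩ := corner_basis p hD.1 φ.symm hi.1.1 hi.1.2.2.1
  obtain ⟨m, ε, h4, hm, h5⟩ := exists_istr hi.1.1 hi.1.2.2.1 h1 h2 h3
  obtain ⟨z, hz, h6, h7⟩ := hs' ⟨bim i i, Nat.lt_succ_of_le hc⟩ τ m ε h4
    (sep_source p hb hD hi h5)
  refine ⟨e ⟨⟨bim i i, Nat.lt_succ_of_le hc⟩, τ, z, hz⟩, h _ G D i hi.1.1 hi.1.2.2.1 ?_⟩
  rw [e.symm_apply_apply]
  exact sc_of_isoC hi.1.1 hi.1.2.2.1 h1 h2 h3 hm h6 h7

end Pool.Agent.Puig
end
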