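import Pool.Agent.Work.MP_cea1f0_al.D.Osi
import Pool.Agent.Work.MP_cea1f0_al.G1b
import Pool.Agent.Work.MP_cea1f0_al.D.Prim
import Mathlib

-- merged part: Pool.Agent.Work.MP_cea1f0_al.N1
section
/-! Lifting idempotents; the matrix form of Nagao's lemma. -/

namespace Pool.Agent.Puig

open Module Polynomial

variable {O : ValuationSubring ℂ}

theorem n1_split (n : ℕ) : ∀ f : O[X], f.Monic → f.natDegree = n →
    ∃ s : Multiset O, f = (s.map fun r => X - C r).prod := by
  induction n with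
  | zero => exact fun f hf h => ⟨0, by simpa using hf.natDegree_eq_zero.1 h⟩
  | succ n ih =>
    intro f hf h
    obtain ⟨z, hz⟩ := IsAlgClosed.exists_aeval_eq_zero ℂ f
      (natDegree_pos_iff_degree_pos.1 (by omega)).ne'
    obtain ⟨y, rfl⟩ := IsIntegrallyClosed.isIntegral_iff.mp (⟨f, hf, hz⟩ : IsIntegral O z)
    rw [aeval_algebraMap_apply, map_eq_zero_iff _ (IsFractionRing.injective O ℂ),
      coe_aeval_eq_eval] at hz
    obtain ⟨g, rfl⟩ := dvd_iff_isRoot.2 hz
    have hg : g.Monic := (monic_X_sub_C y).of_mul_monic_left hf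
    rw [(monic_X_sub_C y).natDegree_mul hg, natDegree_X_sub_C] at h
    obtain ⟨s, hs⟩ := ih g hg (by omega)
    exact ⟨y ::ₘ s, by rw [Multiset.map_cons, Multiset.prod_cons, ← hs]⟩

theorem n1_eval (s : Multiset O) (c : O) (h : ∀ r ∈ s, r ≠ c) :
    ((s.map fun r => X - C r).prod).eval c ≠ 0 := by
  rw [eval_multiset_prod, Multiset.map_map]
  refine Multiset.prod_ne_zero fun h0 => ?_
  obtain ⟨r, hr, e⟩ := Multiset.mem_map.1 h0
  simp only [Function.comp, eval_sub, eval_X, eval_C] at e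
  exact h r hr (sub_eq_zero.1 e).symm

/- PLAN: `x` is a root of a monic `f` over `O` (`Algebra.IsIntegral.of_finite`); replace `f` by
`f * X * (X - 1)`.  It splits over `ℂ` with roots in `O` (integral over a valuation ring), so
`f = f₁ * g`, `f₁` the product over the roots with residue `1`.  `X - C r` and `X - C r'` are coprime
when `r - r'` is a unit (`IsCoprime.prod_left`, ..), so `a * f₁ + b * g = 1`; `h = b * g`. -/
theorem exists_lift_poly {A : Type} [Ring A] [Algebra O A] [Module.Finite O A] (x : A) :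
    ∃ h : O[X], IsIdempotentElem (aeval x h) ∧ IsLocalRing.residue O (h.eval 0) = 0 ∧
      IsLocalRing.residue O (h.eval 1) = 1 := by
  classical
  obtain ⟨f0, hf0, hx⟩ := Algebra.IsIntegral.isIntegral (R := O) x
  have hm : (f0 * (X * (X - C 1))).Monic := hf0.mul (monic_X.mul (monic_X_sub_C 1))
  obtain ⟨s, hs⟩ := n1_split _ _ hm rfl
  rw [← Multiset.filter_add_not (fun r => IsLocalRing.residue O r = 1) s, Multiset.map_add,
    Multiset.prod_add] at hs
  set f := ((s.filter fun r => IsLocalRing.residue O r = 1).map fun r => X - C r).prod with hf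
  set g := ((s.filter fun r => ¬ IsLocalRing.residue O r = 1).map fun r => X - C r).prod with hg
  have hc : IsCoprime f g := by
    refine Multiset.prod_induction (fun a => IsCoprime a g) _ (fun _ _ => IsCoprime.mul_left)
      isCoprime_one_left fun a ha => ?_
    refine Multiset.prod_induction (fun b => IsCoprime a b) _ (fun _ _ => IsCoprime.mul_right)
      isCoprime_one_right fun b hb => ?_
    obtain ⟨r, hr, rfl⟩ := Multiset.mem_map.1 ha
    obtain ⟨r', hr', rfl⟩ := Multiset.mem_map.1 hb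
    refine isCoprime_X_sub_C_of_isUnit_sub ?_
    rw [← IsLocalRing.residue_ne_zero_iff_isUnit, map_sub, (Multiset.mem_filter.1 hr).2]
    exact fun e => (Multiset.mem_filter.1 hr').2 (sub_eq_zero.1 e).symm
  have f0' : f.eval 0 ≠ 0 := n1_eval _ 0 fun r hr e => by
    have := (Multiset.mem_filter.1 hr).2
    rw [e, map_zero] at this
    exact zero_ne_one this
  have g1 : g.eval 1 ≠ 0 := n1_eval _ 1 fun r hr e =>
    (Multiset.mem_filter.1 hr).2 (by rw [e, map_one])
  have g0 : g.eval 0 = 0 := by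
    have := congrArg (eval 0) hs
    simp only [eval_mul, eval_X, zero_mul, mul_zero] at this
    exact (mul_eq_zero.1 this.symm).resolve_left f0'
  have f1 : f.eval 1 = 0 := by
    have := congrArg (eval 1) hs
    simp only [eval_mul, eval_X, eval_sub, eval_C, sub_self, mul_zero] at this
    exact (mul_eq_zero.1 this.symm).resolve_right g1
  obtain ⟨a, b, hab⟩ := hc
  refine ⟨b * g, ?_, by rw [eval_mul, g0, mul_zero, map_zero], ?_⟩
  · have e : b * g * (b * g) = b * g - a * b * (X * (X - C 1)) * f0 := by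
      linear_combination (b * g) * hab + (a * b) * hs
    rw [IsIdempotentElem, ← map_mul, e, map_sub, map_mul _ _ f0, aeval_def x f0, hx, mul_zero,
      sub_zero]
  · have := congrArg (eval 1) hab
    rw [eval_add, eval_mul, f1, mul_zero, zero_add, eval_one] at this
    rw [this, map_one]

section
variable {C : Type} [Group C] [Fintype C]

theorem n1_aeval {F A : Type} [CommRing F] [Ring A] [Algebra F A] {z : A}
    (hz : IsIdempotentElem z) (q : F[X]) : aeval z q = q.eval 0 • (1 - z) + q.eval 1 • z := by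
  induction q using Polynomial.induction_on' with
  | add p q hp hq => rw [map_add, hp, hq, eval_add, eval_add, add_smul, add_smul]; abel
  | monomial k c =>
    rw [aeval_monomial, eval_monomial, eval_monomial, ← Algebra.smul_def, one_pow, mul_one]
    rcases k with _ | k
    · rw [pow_zero, pow_zero, mul_one, ← smul_add, sub_add_cancel]
    · rw [hz.pow_succ_eq, zero_pow (Nat.succ_ne_zero _), mul_zero, zero_smul, zero_add]

theorem n1_comm {F A : Type} [CommRing F] [Ring A] [Algebra F A] {a x : A} (h : Commute a x)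
    (r : F[X]) : Commute a (aeval x r) := by
  induction r using Polynomial.induction_on' with
  | add p q hp hq => rw [map_add]; exact hp.add_right hq
  | monomial k c =>
    rw [aeval_monomial]
    exact (Algebra.commute_algebraMap_right c a).mul_right (h.pow_right k)

omit [Fintype C] in
theorem n1_fix {F : Type} [CommRing F] {u : C} {x : MonoidAlgebra F C} :
    Commute (MonoidAlgebra.of F C u) x ↔ ∀ g, x.coeff (u * g * u⁻¹) = x.coeff g := by
  constructor
  · intro h g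
    have h1 := congrArg (fun z : MonoidAlgebra F C => z.coeff (u * g)) h.eq
    simpa using h1.symm
  · intro h
    show _ * _ = _ * _
    ext g
    have h1 := h (u⁻¹ * g)
    simpa using h1.symm

/- PLAN: `x = l ∘ coeff` (`exists_lift`) as an element of `MonoidAlgebra O C`; `exists_lift_poly`;
for an idempotent `z`, `aeval z h = h.eval 0 • (1 - z) + h.eval 1 • z`; use the ring homomorphisms
`mapRingHom C (residue O)` and `mapRingHom C O.subtype`.  A polynomial in `x` commutes with what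
commutes with `x` (`fix_iff`). -/
theorem lift_idem {z : MonoidAlgebra (kO O) C} (hz : IsIdempotentElem z) :
    ∃ y : C → ℂ, (∀ g, y g ∈ O) ∧ cv y y = y ∧ red O y = z ∧
      ∀ u, (∀ g, z.coeff (u * g * u⁻¹) = z.coeff g) → ∀ g, y (u * g * u⁻¹) = y g := by
  obtain ⟨l, hl⟩ := exists_lift O
  let x : MonoidAlgebra O C :=
    .ofCoeff (Finsupp.equivFunOnFinite.symm fun g => ⟨l (z.coeff g), (hl _).1⟩)
  have hx : ∀ g, x.coeff g = ⟨l (z.coeff g), (hl _).1⟩ := fun _ => rfl
  obtain ⟨h, hi, h0, h1⟩ := exists_lift_poly (O := O) x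
  have ex : MonoidAlgebra.mapRingHom C (IsLocalRing.residue O) x = z := by
    ext g
    rw [MonoidAlgebra.coeff_mapRingHom, hx, ← piO_coe]
    exact (hl _).2
  refine ⟨fun g => ((aeval x h).coeff g : ℂ), fun g => ((aeval x h).coeff g).2, ?_, ?_,
    fun u hu g => ?_⟩
  · funext g
    have := congrArg (fun w : MonoidAlgebra O C => (w.coeff g : ℂ)) hi.eq
    simp only [MonoidAlgebra.coeff_mul_apply_left] at this
    rw [Finsupp.sum_fintype _ _ (by simp)] at this
    rw [← this, cv]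
    push_cast
    rfl
  · have e : red O (fun g => ((aeval x h).coeff g : ℂ)) =
        MonoidAlgebra.mapRingHom C (IsLocalRing.residue O) (aeval x h) := by
      ext g
      rw [coeff_red, piO_coe, MonoidAlgebra.coeff_mapRingHom]
    rw [e, map_aeval_eq_aeval_map
      (MonoidAlgebra.mapRingHom_comp_algebraMap (IsLocalRing.residue O)).symm, ex, n1_aeval hz,
      eval_zero_map, eval_one_map, h0, h1, zero_smul, one_smul, zero_add]
  · have : Commute (MonoidAlgebra.of O C u) x := n1_fix.2 fun g => by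
      refine Subtype.ext ?_
      rw [hx, hx]
      exact congrArg l (hu g)
    exact congrArg _ (n1_fix.1 (n1_comm this h) g)

theorem n1_mat {y : C → ℂ} (h : cv y y = y) :
    (Matrix.of fun a b : C => y (a * b⁻¹)) * (Matrix.of fun a b : C => y (a * b⁻¹)) =
      Matrix.of fun a b : C => y (a * b⁻¹) := by
  ext a b
  rw [Matrix.mul_apply, Matrix.of_apply, ← congrFun h (a * b⁻¹), cv]
  refine Fintype.sum_equiv ((Equiv.inv C).trans (Equiv.mulLeft a)) _ _ fun k => ?_
  simp [mul_assoc]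

/- PLAN: the trace of left multiplication by `y` is `card C * y 1` and is its rank. -/
theorem idem_eq_zero {y : C → ℂ} (h : cv y y = y) (h1 : y 1 = 0) : y = 0 := by
  classical
  have hi : IsIdempotentElem (Matrix.toLin' (Matrix.of fun a b : C => y (a * b⁻¹))) := by
    rw [IsIdempotentElem, Module.End.mul_eq_comp, ← Matrix.toLin'_mul, n1_mat h]
  have h2 := LinearMap.IsIdempotentElem.eq_zero_of_trace_eq_zero hi (by
    rw [Matrix.trace_toLin'_eq]
    simp [Matrix.trace, h1])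
  rw [map_eq_zero_iff _ Matrix.toLin'.injective] at h2
  funext g
  simpa using congrFun (congrFun h2 g) 1

/- PLAN: `bim_red` with `a = b = y`, or `rank_red`: the trace `card C * y 1` vanishes. -/
theorem red_eq_zero {y : C → ℂ} (hy : ∀ g, y g ∈ O) (h : cv y y = y) (h0 : red O y = 0) :
    y = 0 := by
  classical
  have h1 := rank_red (O := O) (M := Matrix.of fun a b : C => y (a * b⁻¹)) (fun a b => hy _)
    (n1_mat h)
  have h2 : (Matrix.of fun a b : C => y (a * b⁻¹)).map (piO O) = 0 := by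
    ext a b
    rw [Matrix.map_apply, Matrix.of_apply, ← coeff_red, h0]
    rfl
  rw [h2, Matrix.rank_zero] at h1
  refine idem_eq_zero h ?_
  simpa [Matrix.trace] using h1

theorem red_add {x y : C → ℂ} (hx : ∀ g, x g ∈ O) (hy : ∀ g, y g ∈ O) :
    red O (x + y) = red O x + red O y := by
  ext g
  exact piO_add (hx g) (hy g)

theorem red_sub {x y : C → ℂ} (hx : ∀ g, x g ∈ O) (hy : ∀ g, y g ∈ O) :
    red O (x - y) = red O x - red O y := by
  rw [eq_sub_iff_add_eq, ← red_add (x := x - y) (fun g => sub_mem (hx g) (hy g)) hy,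
    sub_add_cancel]

theorem red_sum {ι : Type} (s : Finset ι) {x : ι → C → ℂ} (hx : ∀ a ∈ s, ∀ g, x a g ∈ O) :
    red O (∑ a ∈ s, x a) = ∑ a ∈ s, red O (x a) := by
  classical
  induction s using Finset.induction_on with
  | empty =>
    ext g
    exact piO_zero
  | insert a s ha ih =>
    have h2 := fun b hb => hx b (Finset.mem_insert_of_mem hb)
    rw [Finset.sum_insert ha, Finset.sum_insert ha, ← ih h2]
    refine red_add (hx a (Finset.mem_insert_self _ _)) fun g => ?_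
    rw [Finset.sum_apply]
    exact sum_mem fun b hb => h2 b hb g

theorem cv_class {x y : C → ℂ} (hx : ClassFn x) (hy : ClassFn y) : ClassFn (cv x y) := by
  intro g h
  refine (Fintype.sum_equiv (MulAut.conj h).toEquiv _ _ fun k => ?_).symm
  rw [← hx k h, ← hy (k⁻¹ * g) h]
  simp [mul_assoc]

theorem ap_cv (x y f : C → ℂ) : ap (cv x y) f = ap y (ap x f) := by
  funext g
  simp only [ap, cv, Finset.sum_mul, Finset.mul_sum]
  rw [Finset.sum_comm, Finset.sum_comm (f := fun h k => y h * (x k * f (k * (h * g))))]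
  refine Finset.sum_congr rfl fun a _ => ?_
  refine (Fintype.sum_equiv (Equiv.mulLeft a) _ _ fun b => ?_).symm
  simp only [Equiv.coe_mulLeft, inv_mul_cancel_left, mul_assoc]
  ring

theorem ap_class {x f : C → ℂ} (hx : ClassFn x) (hf : ClassFn f) : ClassFn (ap x f) := by
  intro g h
  refine (Fintype.sum_equiv (MulAut.conj h).toEquiv _ _ fun k => ?_).symm
  rw [← hx k h, ← hf (k * g) h]
  simp [mul_assoc]

end

/- PLAN: in every orbit choose a point `z₀`; for `z = (σ ^ j) z₀` in an orbit with more than one point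
the minimal period is a positive power of `p`, so `j` is well defined modulo `p`
(`Function.minimalPeriod`, `Equiv.Perm.SameCycle`, `MulAction.zpowers`-orbit equivalence
`MulAction.orbitZPowersEquiv`). -/
theorem exists_iota (p : ℕ) [Fact p.Prime] {β : Type} [Finite β] {σ : Equiv.Perm β} {r : ℕ}
    (h : σ ^ p ^ r = 1) : ∃ ι : β → ZMod p, ∀ z, σ z ≠ z → ι (σ z) = ι z + 1 := by
  have key : ∀ z : β, ∃ j : ℤ,
      (σ ^ j) (Quotient.out (Quotient.mk (Equiv.Perm.SameCycle.setoid σ) z)) = z := fun z =>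
    Quotient.mk_out (s := Equiv.Perm.SameCycle.setoid σ) z
  choose j hj using key
  refine ⟨fun z => (j z : ZMod p), fun z hz => ?_⟩
  have e : Quotient.mk (Equiv.Perm.SameCycle.setoid σ) (σ z) =
      Quotient.mk (Equiv.Perm.SameCycle.setoid σ) z :=
    Quotient.sound (Equiv.Perm.sameCycle_apply_left.2 (Equiv.Perm.SameCycle.refl σ z))
  have h1 := hj (σ z)
  have h2 := hj z
  rw [e] at h1
  generalize Quotient.out (Quotient.mk (Equiv.Perm.SameCycle.setoid σ) z) = w at h1 h2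
  have h3 : σ ^ (j (σ z) - (j z + 1)) • w = w := by
    rw [sub_eq_neg_add, zpow_add, mul_smul, zpow_neg, inv_smul_eq_iff, add_comm (j z), zpow_add,
      zpow_one, mul_smul]
    show (σ ^ j (σ z)) w = σ ((σ ^ j z) w)
    rw [h1, h2]
  have h4 : MulAction.period σ w ∣ p ^ r :=
    MulAction.pow_smul_eq_iff_period_dvd.1 (by rw [h, one_smul])
  obtain ⟨k, -, hk⟩ := (Nat.dvd_prime_pow Fact.out).1 h4
  rw [MulAction.zpow_smul_eq_iff_period_dvd, hk] at h3
  rcases k with _ | k
  · exfalso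
    have h5 : ∀ i : ℤ, (σ ^ i) w = w := fun i =>
      (MulAction.zpow_smul_eq_iff_period_dvd (j := i)).2 (by rw [hk]; simp)
    rw [h5] at h1 h2
    exact hz (h1.symm.trans h2)
  · have h5 : (p : ℤ) ∣ j (σ z) - (j z + 1) :=
      (Int.natCast_dvd_natCast.2 (dvd_pow_self p (Nat.succ_ne_zero k))).trans h3
    have h6 := (ZMod.intCast_zmod_eq_zero_iff_dvd _ p).2 h5
    push_cast at h6
    exact sub_eq_zero.1 h6

theorem n1_trace {R α : Type} [CommRing R] [IsDomain R] [Fintype α] [DecidableEq α]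
    {π : Equiv.Perm α} {M N : Matrix α α R} {ζ c : R} (hζ : ζ ≠ 1) (h : M * M = M)
    (h1 : ∀ a b, M (π a) (π b) = M a b) (h2 : ∀ a b, N (π a) (π b) = ζ * N a b)
    (hd : (M * N * M + c • (1 - M)).det ≠ 0) : ∑ a, M a (π a) = 0 := by
  obtain ⟨P, hP⟩ : ∃ P : Matrix α α R, P = (1 : Matrix α α R).submatrix (Equiv.refl α) π :=
    ⟨_, rfl⟩
  have r1 : ∀ (A : Matrix α α R) a b, (A * P) a b = A a (π b) := fun A a b => by
    rw [hP, Matrix.mul_submatrix_one]; rfl
  have r2 : ∀ (A : Matrix α α R) a b, (P * A) a b = A (π.symm a) b := fun A a b => by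
    rw [hP, Matrix.one_submatrix_mul]; rfl
  have e1 : M * P = P * M := by
    ext a b
    rw [r1, r2, ← h1 (π.symm a), Equiv.apply_symm_apply]
  have e2 : N * P = ζ • (P * N) := by
    ext a b
    rw [r1, Matrix.smul_apply, r2, smul_eq_mul, ← h2 (π.symm a), Equiv.apply_symm_apply]
  set ψ := M * N * M + c • (1 - M) with hψ
  have e3 : ψ * M = M * N * M := by
    rw [hψ, add_mul, smul_mul_assoc, sub_mul, one_mul, h, sub_self, smul_zero, add_zero,
      mul_assoc _ M, h]
  have e4 : M * ψ = M * N * M := by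
    rw [hψ, mul_add, mul_smul_comm, mul_sub, mul_one, h, sub_self, smul_zero, add_zero,
      ← mul_assoc, ← mul_assoc, h]
  have e5 : ψ * (M * P) = ζ • (M * P * ψ) := by
    calc ψ * (M * P) = M * (N * P) * M := by
          rw [← mul_assoc, e3, mul_assoc _ M P, e1]
          simp only [mul_assoc]
      _ = ζ • (M * P * N * M) := by
          rw [e2, mul_smul_comm, smul_mul_assoc, ← mul_assoc]
      _ = _ := by rw [e1, mul_assoc P M ψ, e4]; simp only [mul_assoc]
  have e6 : (ψ.adjugate * (ψ * (M * P))).trace = (ψ.adjugate * (ζ • (M * P * ψ))).trace := by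
    rw [e5]
  rw [← mul_assoc, Matrix.adjugate_mul, mul_smul_comm, Matrix.trace_smul ζ, ← mul_assoc ψ.adjugate,
    Matrix.trace_mul_comm _ ψ, ← mul_assoc ψ, Matrix.mul_adjugate, smul_mul_assoc, one_mul,
    Matrix.trace_smul, smul_eq_mul, smul_eq_mul] at e6
  have e7 : (1 - ζ) * (ψ.det * (M * P).trace) = 0 := by linear_combination e6
  have e8 := (mul_eq_zero.1 ((mul_eq_zero.1 e7).resolve_left
    (sub_ne_zero.2 hζ.symm))).resolve_left hd
  rw [← e8]
  exact Finset.sum_congr rfl fun a _ => (r1 M a a).symm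

theorem n1_core (p : ℕ) [Fact p.Prime] {R k α : Type} [CommRing R] [IsDomain R] [Field k]
    [Fintype α] [DecidableEq α] (φ : R →+* k) {ζ : R} (z1 : ζ ≠ 1) (zp : ζ ^ p = 1)
    (zr : φ ζ = 1) {σ τ : Equiv.Perm α} {r m : ℕ} (hσ : σ ^ p ^ r = 1) (hτ : τ ^ m = 1)
    (hm : (m : k) ≠ 0) (hc : Commute σ τ) {M : Matrix α α R}
    (h : M * M = M) (h1 : ∀ a b, M (σ a) (σ b) = M a b) (h2 : ∀ a b, M (τ a) (τ b) = M a b)
    (h0 : ∀ a b, σ a = a → σ b = b → φ (M a b) = 0) : ∑ a, M a (σ (τ a)) = 0 := by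
  obtain ⟨ι, hι⟩ := exists_iota p (β := α × α)
    (σ := MulAction.toPermHom (Equiv.Perm α) (α × α) σ) (r := r) (by rw [← map_pow, hσ, map_one])
  have hι' : ∀ a b, ¬ (σ a = a ∧ σ b = b) → ι (σ a, σ b) = ι (a, b) + 1 := fun a b hn =>
    hι (a, b) fun e => hn ⟨congrArg Prod.fst e, congrArg Prod.snd e⟩
  obtain ⟨N₀, a1, a2⟩ : ∃ N₀ : α → α → R, (∀ a b, N₀ (σ a) (σ b) = ζ * N₀ a b) ∧
      ∀ a b, φ (N₀ a b) = φ (M a b) := by
    refine ⟨fun a b => if σ a = a ∧ σ b = b then 0 else ζ ^ (ι (a, b)).val * M a b,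
      fun a b => ?_, fun a b => ?_⟩
    · simp only [σ.apply_eq_iff_eq]
      split_ifs with hn
      · rw [mul_zero]
      · rw [hι' a b hn, h1, ZMod.val_add, ZMod.val_one, ← pow_eq_pow_mod _ zp, pow_succ]
        ring
    · beta_reduce
      split_ifs with hn
      · rw [map_zero, h0 a b hn.1 hn.2]
      · rw [map_mul, map_pow, zr, one_pow, one_mul]
  have h3 : ∀ j a b, M ((τ ^ j) a) ((τ ^ j) b) = M a b := by
    intro j a b
    induction j with
    | zero => rfl
    | succ j ih => rw [pow_succ', Equiv.Perm.mul_apply, Equiv.Perm.mul_apply, h2, ih]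
  let N : Matrix α α R := fun a b => ∑ j ∈ Finset.range m, N₀ ((τ ^ j) a) ((τ ^ j) b)
  have b1 : ∀ a b, N (σ a) (σ b) = ζ * N a b := fun a b => by
    simp only [N, Finset.mul_sum]
    refine Finset.sum_congr rfl fun j _ => ?_
    rw [← a1, ← Equiv.Perm.mul_apply, ← Equiv.Perm.mul_apply (τ ^ j), ← (hc.pow_right j).eq]
    rfl
  have b2 : ∀ a b, N (τ a) (τ b) = N a b := fun a b => by
    have e1 := Finset.sum_range_succ (fun j => N₀ ((τ ^ j) a) ((τ ^ j) b)) m
    rw [Finset.sum_range_succ', hτ, pow_zero] at e1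
    exact add_right_cancel e1
  have b3 : φ.mapMatrix N = (m : k) • φ.mapMatrix M := by
    ext a b
    show φ (∑ j ∈ Finset.range m, N₀ ((τ ^ j) a) ((τ ^ j) b)) = (m : k) * φ (M a b)
    simp only [map_sum, a2, h3, Finset.sum_const, Finset.card_range, nsmul_eq_mul]
  refine n1_trace (π := σ * τ) (N := N) (c := (m : R)) z1 h (fun a b => (h1 _ _).trans (h2 a b))
    (fun a b => (b1 _ _).trans (by rw [b2])) fun e => ?_
  have e2 : φ.mapMatrix (M * N * M + (m : R) • (1 - M)) = (m : k) • 1 := by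
    have e3 : φ.mapMatrix M * φ.mapMatrix M = φ.mapMatrix M := by rw [← map_mul, h]
    rw [Nat.cast_smul_eq_nsmul, map_add, map_mul, map_mul, map_nsmul, map_sub, map_one, b3,
      mul_smul_comm, e3, smul_mul_assoc, e3, ← Nat.cast_smul_eq_nsmul k, ← smul_add,
      add_sub_cancel]
  have e4 := φ.map_det (M * N * M + (m : R) • (1 - M))
  rw [e, map_zero, e2, Matrix.det_smul, Matrix.det_one, mul_one] at e4
  exact pow_ne_zero _ hm e4.symm

/- PLAN: `ζ` a primitive `p`-th root of unity, in `O` with residue `1`.  `exists_iota` for the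
diagonal action on `α × α`; `N₀ a b = ζ ^ (ι (a, b)).val * M a b` for a non fixed pair, `0` for a
fixed pair; `N` its average over the powers of `τ` (`m` is a unit of `O`).  Then `N` has entries in
`O`, reduces to the reduction of `M`, `N (σ a) (σ b) = ζ * N a b`, `N (τ a) (τ b) = N a b`.
`ψ = M * N * M + (1 - M)` reduces to `1`, so its determinant is non-zero.  With the permutation
matrices `U`, `T`: `ψ` commutes with `M` and `T`, and `U * M * ψ = ζ ^ (±1) • ψ * M * U`; take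
traces of `M * U * T`. -/
theorem nagao_mat (p : ℕ) [Fact p.Prime] (hO : (p : ℂ) ∈ O.nonunits) {α : Type} [Fintype α]
    [DecidableEq α] {σ τ : Equiv.Perm α} {r m : ℕ} (hσ : σ ^ p ^ r = 1) (hτ : τ ^ m = 1)
    (hm : m.Coprime p) (hc : Commute σ τ) {M : Matrix α α ℂ} (hM : ∀ a b, M a b ∈ O)
    (h : M * M = M) (h1 : ∀ a b, M (σ a) (σ b) = M a b) (h2 : ∀ a b, M (τ a) (τ b) = M a b)
    (h0 : ∀ a b, σ a = a → σ b = b → piO O (M a b) = 0) : ∑ a, M a (σ (τ a)) = 0 := by
  have hp : p.Prime := Fact.out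
  have := kO_charP p hO
  have hζ := Complex.isPrimitiveRoot_exp p hp.ne_zero
  obtain ⟨ζ, e⟩ := IsIntegrallyClosed.isIntegral_iff.mp
    (IsIntegral.tower_top (A := O) (hζ.isIntegral hp.pos))
  have zp : ζ ^ p = 1 := IsFractionRing.injective O ℂ (by rw [map_pow, e, hζ.pow_eq_one, map_one])
  have z1 : ζ ≠ 1 := fun h => hζ.ne_one hp.one_lt (by rw [← e, h, map_one])
  have zr : IsLocalRing.residue O ζ = 1 := by
    have h3 : (IsLocalRing.residue O ζ - 1) ^ p = 0 := by
      rw [sub_pow_char, ← map_pow, zp, map_one, one_pow, sub_self]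
    exact sub_eq_zero.1 (pow_eq_zero_iff hp.ne_zero |>.1 h3)
  have hm' : (m : kO O) ≠ 0 := fun h3 =>
    (hp.coprime_iff_not_dvd.1 hm.symm) ((CharP.cast_eq_zero_iff _ p m).1 h3)
  have key := n1_core p (IsLocalRing.residue O) z1 zp zr hσ hτ hm' hc
    (M := Matrix.of fun a b => (⟨M a b, hM a b⟩ : O)) ?_ (fun a b => Subtype.ext (h1 a b))
    (fun a b => Subtype.ext (h2 a b)) fun a b ha hb => (piO_coe _).symm.trans (h0 a b ha hb)
  · have := congrArg (fun x : O => (x : ℂ)) key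
    push_cast at this
    exact this
  · ext a b
    rw [Matrix.mul_apply]
    push_cast
    exact congrFun (congrFun h a) b

end Pool.Agent.Puig
end

-- merged part: Pool.Agent.Work.MP_cea1f0_al.N2
section
/-! Nagao's lemma for group algebras and the Brauer map of central idempotents. -/

namespace Pool.Agent.Puig

open Classical

variable {O : ValuationSubring ℂ} {G : Type} [Group G] [Fintype G]

/-- Left and right multiplication. -/
def n2_bi (G : Type) [Group G] : G × G →* Equiv.Perm G where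
  toFun x := (Equiv.mulLeft x.1).trans (Equiv.mulRight x.2⁻¹)
  map_one' := by ext; simp
  map_mul' x y := by ext; simp [mul_assoc]

omit [Fintype G] in
theorem n2_bi_apply (a b z : G) : n2_bi G (a, b) z = a * z * b⁻¹ := rfl

/- PLAN: `nagao_mat` on `α = G` with `M a b = y (a * b⁻¹)`, `σ z = u * z * v⁻¹`,
`τ z = s * z * s'⁻¹` (`g = v * s'` from `exists_pparts`); if `a`, `b` are fixed by `σ` then `u` is
conjugate to `v` and `a * b⁻¹` commutes with `u`. -/
theorem nagao_sum (p : ℕ) [Fact p.Prime] (hO : (p : ℂ) ∈ O.nonunits) {y : G → ℂ}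
    (hy : ∀ g, y g ∈ O) (h : cv y y = y) {u s v s' : G} {r r' : ℕ} (hu : u ^ p ^ r = 1)
    (hs : (orderOf s).Coprime p) (hus : Commute u s) (hv : v ^ p ^ r' = 1)
    (hs' : (orderOf s').Coprime p) (hvs : Commute v s') (h1 : ∀ g, y (u * g * u⁻¹) = y g)
    (h2 : ∀ g, y (s * g * s⁻¹) = y g) (h0 : IsConj u v → ∀ g, Commute g u → piO O (y g) = 0) :
    ∑ z, y (z * (v * s') * z⁻¹ * (u * s)⁻¹) = 0 := by
  have k := nagao_mat p hO (σ := n2_bi G (u, v)) (τ := n2_bi G (s, s')) (r := r + r')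
    (m := orderOf s * orderOf s') ?_ ?_ (Nat.Coprime.mul_left hs hs')
    ((Commute.prod hus hvs).map _) (M := .of fun a b => y (a * b⁻¹)) (fun a b => hy _) ?_ ?_ ?_ ?_
  · refine Eq.trans (Finset.sum_congr rfl fun a _ => ?_) k
    simp only [Matrix.of_apply, n2_bi_apply, mul_inv_rev, inv_inv, mul_assoc]
  · rw [← map_pow, Prod.pow_mk, pow_add, pow_mul, hu, mul_comm, pow_mul v, hv, one_pow, one_pow]
    exact map_one _
  · rw [← map_pow, Prod.pow_mk, pow_mul, pow_orderOf_eq_one, mul_comm, pow_mul s',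
      pow_orderOf_eq_one, one_pow, one_pow]
    exact map_one _
  · ext a b
    rw [Matrix.mul_apply, Matrix.of_apply, ← congrFun h (a * b⁻¹)]
    refine Fintype.sum_equiv ((Equiv.inv G).trans (Equiv.mulLeft a)) _ _ fun c => ?_
    simp [mul_assoc]
  · intro a b
    rw [Matrix.of_apply, Matrix.of_apply, ← h1 (a * b⁻¹)]
    simp [n2_bi_apply, mul_assoc]
  · intro a b
    rw [Matrix.of_apply, Matrix.of_apply, ← h2 (a * b⁻¹)]
    simp [n2_bi_apply, mul_assoc]
  · intro a b ha hb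
    rw [n2_bi_apply, mul_inv_eq_iff_eq_mul] at ha hb
    refine h0 (isConj_iff.2 ⟨a⁻¹, by rw [inv_inv, mul_assoc, ha, inv_mul_cancel_left]⟩) _ ?_
    show a * b⁻¹ * u = u * (a * b⁻¹)
    calc a * b⁻¹ * u = a * b⁻¹ * (u * b) * b⁻¹ := by group
      _ = a * v * b⁻¹ := by rw [hb]; group
      _ = u * (a * b⁻¹) := by rw [← ha, mul_assoc]

theorem n2_zero {y f : G → ℂ} (hf : ClassFn f) {x : G}
    (h : ∀ g, f g ≠ 0 → ∑ z, y (z * g * z⁻¹ * x⁻¹) = 0) : ap y f x = 0 := by
  have h1 : ∀ z : G, ap y f x = ∑ g, f g * y (z * g * z⁻¹ * x⁻¹) := fun z => by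
    refine (Fintype.sum_equiv (((Equiv.mulLeft z).trans (Equiv.mulRight z⁻¹)).trans
      (Equiv.mulRight x⁻¹)) _ _ fun g => ?_).symm
    simp only [Equiv.trans_apply, Equiv.coe_mulLeft, Equiv.coe_mulRight, inv_mul_cancel_right]
    rw [hf, mul_comm]
  have h2 : ∑ _z : G, ap y f x = 0 := by
    rw [Finset.sum_congr rfl fun z _ => h1 z, Finset.sum_comm]
    refine Finset.sum_eq_zero fun g _ => ?_
    rw [← Finset.mul_sum]
    by_cases hg : f g = 0
    · rw [hg, zero_mul]
    · rw [h g hg, mul_zero]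
  rw [Finset.sum_const, nsmul_eq_mul] at h2
  exact (mul_eq_zero.1 h2).resolve_left (Nat.cast_ne_zero.2 Fintype.card_ne_zero)

/- PLAN: `card G * ∑ h, y h * f (h * x) = ∑ g, f g * ∑ z, y (z * g * z⁻¹ * x⁻¹)` for a class
function `f`; `nagao_sum`, `exists_pparts`. -/
theorem nagao (p : ℕ) [Fact p.Prime] (hO : (p : ℂ) ∈ O.nonunits) {y : G → ℂ}
    (hy : ∀ g, y g ∈ O) (h : cv y y = y) {u s : G} {r : ℕ} (hu : u ^ p ^ r = 1)
    (hs : (orderOf s).Coprime p) (hus : Commute u s) (h1 : ∀ g, y (u * g * u⁻¹) = y g)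
    (h2 : ∀ g, y (s * g * s⁻¹) = y g) (h0 : ∀ g, Commute g u → piO O (y g) = 0) {f : G → ℂ}
    (hf : ClassFn f) : ap y f (u * s) = 0 := by
  refine n2_zero hf fun g _ => ?_
  obtain ⟨s', v, r', e, k1, k2, k3, -⟩ := exists_pparts p g
  rw [e, k1.eq]
  exact nagao_sum p hO hy h hu hs hus k3 k2 k1.symm h1 h2 fun _ => h0

/-- Central idempotents preserve the functions supported on the `p`-regular elements. -/
theorem sec_reg (p : ℕ) [Fact p.Prime] (hO : (p : ℂ) ∈ O.nonunits) {y : G → ℂ}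
    (hy : ∀ g, y g ∈ O) (h : cv y y = y) (hc : ClassFn y) {f : G → ℂ} (hf : ClassFn f)
    (h0 : ∀ g, ¬ (orderOf g).Coprime p → f g = 0) {x : G} (hx : ¬ (orderOf x).Coprime p) :
    ap y f x = 0 := by
  refine n2_zero hf fun g hg => ?_
  obtain ⟨s, u, r, e, k1, k2, k3, -⟩ := exists_pparts p x
  have k := nagao_sum p hO hy h k3 k2 k1.symm (v := 1) (s' := g) (r' := 0) (one_pow _)
    (not_not.1 fun n => hg (h0 g n)) (Commute.one_left g) (fun g => hc g u) (fun g => hc g s)
    fun k4 => absurd (by rwa [e, isConj_one_right.1 k4.symm, mul_one]) hx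
  rwa [one_mul, ← k1.eq, ← e] at k

theorem sec_sing (p : ℕ) [Fact p.Prime] (hO : (p : ℂ) ∈ O.nonunits) {y : G → ℂ}
    (hy : ∀ g, y g ∈ O) (h : cv y y = y) (hc : ClassFn y) {f : G → ℂ} (hf : ClassFn f)
    (h0 : ∀ g, (orderOf g).Coprime p → f g = 0) {x : G} (hx : (orderOf x).Coprime p) :
    ap y f x = 0 := by
  refine n2_zero hf fun g hg => ?_
  obtain ⟨s, v, r, e, k1, k2, k3, -⟩ := exists_pparts p g
  have k := nagao_sum p hO hy h (u := 1) (s := x) (r := 0) (one_pow _) hx (Commute.one_left x)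
    k3 k2 k1.symm (fun g => hc g 1) (fun g => hc g x)
    fun k4 => absurd (h0 g (by rwa [e, isConj_one_right.1 k4, mul_one])) hg
  rwa [one_mul, ← k1.eq, ← e] at k

/- PLAN: `sec_reg` with the indicator function of `1`. -/
theorem idem_sing (p : ℕ) [Fact p.Prime] (hO : (p : ℂ) ∈ O.nonunits) {y : G → ℂ}
    (hy : ∀ g, y g ∈ O) (h : cv y y = y) (hc : ClassFn y) {x : G}
    (hx : ¬ (orderOf x).Coprime p) : y x = 0 := by
  have k := sec_reg p hO hy h hc (f := fun g => if g = 1 then 1 else 0)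
    (fun g a => if_congr conj_eq_one_iff rfl rfl)
    (fun g hg => if_neg fun e => hg (by simp [e])) (x := x⁻¹) (by rwa [orderOf_inv])
  simpa [ap, mul_inv_eq_one] using k

theorem n2_sub_left (x x' y : G → ℂ) : cv (x - x') y = cv x y - cv x' y := by
  funext g
  simp [cv, sub_mul]

theorem n2_sub_right (x y y' : G → ℂ) : cv x (y - y') = cv x y - cv x y' := by
  funext g
  simp [cv, mul_sub]

theorem n2_idem {x y : G → ℂ} (hx : cv x x = x) (hy : cv y y = y) (h1 : cv x y = y)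
    (h2 : cv y x = y) : cv (x - y) (x - y) = x - y := by
  rw [n2_sub_left, n2_sub_right, n2_sub_right, hx, hy, h1, h2, sub_self, sub_zero]

theorem n2_cv_inv {x y : G → ℂ} {w : G} (hx : ∀ g, x (w * g * w⁻¹) = x g)
    (hy : ∀ g, y (w * g * w⁻¹) = y g) (g : G) : cv x y (w * g * w⁻¹) = cv x y g := by
  refine (Fintype.sum_equiv ((Equiv.mulLeft w).trans (Equiv.mulRight w⁻¹)) _ _ fun a => ?_).symm
  rw [← hx a, ← hy (a⁻¹ * g)]
  simp [mul_assoc]

theorem n2_piO {a b : ℂ} (ha : a ∈ O) (hb : b ∈ O) (h : piO O a = piO O b) :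
    piO O (a - b) = 0 := by
  have h1 := piO_add (sub_mem ha hb) hb
  rw [sub_add_cancel, h] at h1
  exact left_eq_add.1 (h1.trans (add_comm _ _))

theorem n2_ext {C : Type} [Group C] [Fintype C] {φ : C →* G} (hφ : Function.Injective φ)
    (e : C → ℂ) : ∃ E : G → ℂ, (∀ c, E (φ c) = e c) ∧ (∀ g, g ∉ φ.range → E g = 0) ∧
      ∀ F : G → ℂ, ∑ g, E g * F g = ∑ c, e c * F (φ c) := by
  have h1 : ∀ c, Function.extend φ e 0 (φ c) = e c := fun c => hφ.extend_apply e 0 c
  have h2 : ∀ g, g ∉ φ.range → Function.extend φ e 0 g = 0 := fun g hg =>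
    Function.extend_apply' e (0 : G → ℂ) g hg
  refine ⟨Function.extend φ e 0, h1, h2, fun F => (Fintype.sum_of_injective φ hφ _ _
    (fun g hg => ?_) fun c => ?_).symm⟩
  · rw [h2 g hg, zero_mul]
  · rw [h1]

/-- The second main theorem. -/
theorem n2_main (p : ℕ) [Fact p.Prime] (hO : (p : ℂ) ∈ O.nonunits) {C : Type} [Group C]
    [Fintype C] {φ : C →* G} (hφ : Function.Injective φ) {u : G} {r : ℕ} (hu : u ^ p ^ r = 1)
    (hc : ∀ g, Commute g u ↔ g ∈ φ.range) {y : G → ℂ} (hy : ∀ g, y g ∈ O) (h : cv y y = y)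
    (hcl : ClassFn y) : ∃ e : C → ℂ, (∀ c, e c ∈ O) ∧ cv e e = e ∧ ClassFn e ∧
      (∀ c, piO O (e c) = piO O (y (φ c))) ∧ ∀ f, ClassFn f → ∀ c, (orderOf c).Coprime p →
        ap y f (u * φ c) = ap e (fun d => f (u * φ d)) c := by
  have := kO_charP p hO
  have hR : IsPGroup p (Subgroup.zpowers u) := by
    rintro ⟨_, k, rfl⟩
    refine ⟨r, Subtype.ext ?_⟩
    change (u ^ k) ^ p ^ r = 1
    rw [← zpow_natCast, ← zpow_mul, mul_comm, zpow_mul, zpow_natCast, hu, one_zpow]
  have hr : φ.range = Subgroup.centralizer (Subgroup.zpowers u : Set G) := by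
    ext g
    rw [← hc, Subgroup.mem_centralizer_iff]
    refine ⟨?_, fun k => (k u (Subgroup.mem_zpowers u)).symm⟩
    rintro k _ ⟨j, rfl⟩
    exact (k.zpow_right j).symm
  have hf : Fix (Subgroup.zpowers u) (red O y) := fix_iff.2 fun w _ g => by
    rw [coeff_red, coeff_red, hcl]
  have hz : IsIdempotentElem (brq φ (red O y)) := by
    refine Function.LeftInverse.injective (g := brq φ) (brq_map hφ) ?_
    rw [map_mul, map_brq hφ hr, ← Br_mul p hR hf hf, ← red_cv hy hy, h]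
  obtain ⟨e, e1, e2, e3, e4⟩ := lift_idem hz
  have e5 : ClassFn e := fun g w => e4 w (fun c => by
    rw [coeff_brq, coeff_brq, coeff_red, coeff_red, map_mul, map_mul, map_inv, hcl]) g
  have e6 : ∀ c, piO O (e c) = piO O (y (φ c)) := fun c => by
    rw [← coeff_red, e3, coeff_brq, coeff_red]
  refine ⟨e, e1, e2, e5, e6, fun f hf c hreg => ?_⟩
  obtain ⟨E, E1, E2, E3⟩ := n2_ext hφ e
  have EO : ∀ g, E g ∈ O := fun g => by
    by_cases hg : g ∈ φ.range
    · obtain ⟨d, rfl⟩ := hg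
      rw [E1]
      exact e1 d
    · rw [E2 g hg]
      exact zero_mem _
  have EE : cv E E = E := by
    funext g
    rw [cv, E3]
    by_cases hg : g ∈ φ.range
    · obtain ⟨d, rfl⟩ := hg
      rw [E1, ← congrFun e2 d]
      exact Finset.sum_congr rfl fun a _ => by rw [← map_inv, ← map_mul, E1]
    · rw [E2 g hg]
      refine Finset.sum_eq_zero fun a _ => ?_
      rw [E2 _ fun k => hg ((φ.range.mul_mem_cancel_left (inv_mem ⟨a, rfl⟩)).1 k), mul_zero]
  have Ei : ∀ w ∈ φ.range, ∀ g, E (w * g * w⁻¹) = E g := by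
    rintro _ ⟨w, rfl⟩ g
    by_cases hg : g ∈ φ.range
    · obtain ⟨d, rfl⟩ := hg
      rw [← map_inv, ← map_mul, ← map_mul, E1, E1, e5]
    · rw [E2 g hg, E2]
      rwa [φ.range.mul_mem_cancel_right (inv_mem ⟨w, rfl⟩), φ.range.mul_mem_cancel_left ⟨w, rfl⟩]
  have P1 : cv y (cv y E) = cv y E := by rw [← cv_assoc, h]
  have P2 : cv (cv y E) y = cv y E := by rw [← cv_comm hcl, P1]
  have P3 : cv (cv y E) E = cv y E := by rw [cv_assoc, EE]
  have P4 : cv E (cv y E) = cv y E := by rw [← cv_assoc, ← cv_comm hcl, P3]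
  have P5 : cv (cv y E) (cv y E) = cv y E := by rw [← cv_assoc, P2, P3]
  have PO := cv_mem hy EO
  have P6 : ∀ d, piO O (cv y E (φ d)) = piO O (y (φ d)) := fun d => by
    have k1 : cv y E (φ d) = cv e (fun a => y (φ a)) d := by
      rw [cv_comm hcl, cv, E3]
      exact Finset.sum_congr rfl fun a _ => by rw [← map_inv, ← map_mul]
    have k2 : red O (fun a => y (φ a)) = brq φ (red O y) := rfl
    rw [k1, ← coeff_red, red_cv e1 fun a => hy _, e3, k2, hz.eq, coeff_brq, coeff_red]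
  have hs : (orderOf (φ c)).Coprime p := by rwa [orderOf_injective φ hφ]
  have hus : Commute u (φ c) := ((hc _).2 ⟨c, rfl⟩).symm
  have hu' : u ∈ φ.range := (hc u).1 (Commute.refl u)
  have key : ∀ x : G → ℂ, (∀ g, x g ∈ O) → cv x x = x → cv x (cv y E) = cv y E →
      cv (cv y E) x = cv y E → (∀ w ∈ φ.range, ∀ g, x (w * g * w⁻¹) = x g) →
      (∀ d, piO O (x (φ d)) = piO O (y (φ d))) →
      ap x f (u * φ c) = ap (cv y E) f (u * φ c) := fun x x1 x2 x3 x4 x5 x6 => by
    have x7 : ∀ w ∈ φ.range, ∀ g, (x - cv y E) (w * g * w⁻¹) = (x - cv y E) g := fun w hw g => by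
      rw [Pi.sub_apply, Pi.sub_apply, x5 w hw, n2_cv_inv (fun g => hcl g w) (Ei w hw)]
    have k := nagao p hO (y := x - cv y E) (fun g => sub_mem (x1 g) (PO g))
      (n2_idem x2 P5 x3 x4) hu hs hus (x7 u hu') (x7 _ ⟨c, rfl⟩) (fun g hg => by
        obtain ⟨d, rfl⟩ := (hc g).1 hg
        exact n2_piO (x1 _) (PO _) ((x6 d).trans (P6 d).symm)) hf
    simpa [ap, sub_mul, sub_eq_zero] using k
  rw [key y hy h P1 P2 (fun w _ g => hcl g w) fun _ => rfl,
    ← key E EO EE P4 P3 Ei fun d => by rw [E1, e6], ap, E3]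
  refine Finset.sum_congr rfl fun d _ => ?_
  rw [← mul_assoc, ((hc _).2 ⟨d, rfl⟩).eq, mul_assoc, ← map_mul]

section
variable {H T : Type} [Group H] [Fintype H] [Group T] [Fintype T]

/-- The sum of `f (u * φ (h, x))` over the `p`-regular `x`, for `p`-regular `h`. -/
noncomputable def phiG (p : ℕ) (φ : H × T →* G) (u : G) (f : G → ℂ) : H → ℂ := fun h =>
  if (orderOf h).Coprime p then ∑ x, if (orderOf x).Coprime p then f (u * φ (h, x)) else 0 else 0

omit [Fintype H] [Fintype T] in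
theorem n2_reg (p : ℕ) (h : H) (x : T) :
    (orderOf (h, x)).Coprime p ↔ (orderOf h).Coprime p ∧ (orderOf x).Coprime p := by
  rw [Prod.orderOf_mk]
  exact ⟨fun k => ⟨k.coprime_dvd_left (Nat.dvd_lcm_left _ _),
    k.coprime_dvd_left (Nat.dvd_lcm_right _ _)⟩,
    fun k => (Nat.Coprime.mul_left k.1 k.2).coprime_dvd_left (Nat.lcm_dvd_mul _ _)⟩

/- PLAN: uniqueness of the `p`-part: if `u * s` (`s` regular, commuting with `u`) is conjugate to
the `p`-element `u` then `u * s` has `p`-power order, so `s = 1`. -/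
theorem phiG_ind (p : ℕ) [Fact p.Prime] {φ : H × T →* G} (hφ : Function.Injective φ) {u : G}
    {r : ℕ} (hu : u ^ p ^ r = 1) (hc : ∀ c, Commute (φ c) u) (h : H) :
    phiG p φ u (fun g => if IsConj u g then 1 else 0) h = if h = 1 then 1 else 0 := by
  have key : ∀ x : T, (orderOf h).Coprime p → (orderOf x).Coprime p →
      IsConj u (u * φ (h, x)) → h = 1 ∧ x = 1 := fun x k1 k2 k3 => by
    have k4 : (u * φ (h, x)) ^ p ^ r = 1 := by
      have k5 := k3.pow (p ^ r)
      rwa [hu, isConj_one_right] at k5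
    rw [(hc _).symm.mul_pow, hu, one_mul, ← map_pow, ← map_one φ] at k4
    have k5 : ((h, x) : H × T) = 1 := orderOf_eq_one_iff.1 (Nat.eq_one_of_dvd_coprimes
      (((n2_reg p h x).2 ⟨k1, k2⟩).pow_right r) dvd_rfl (orderOf_dvd_of_pow_eq_one (hφ k4)))
    exact Prod.mk_eq_one.1 k5
  unfold phiG
  beta_reduce
  by_cases e : h = 1
  · have k1 : (orderOf h).Coprime p := by simp [e]
    rw [if_pos k1, if_pos e, Finset.sum_eq_single 1 (fun x _ hx => ?_) (by simp)]
    · rw [if_pos (by simp), if_pos]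
      rw [e, show ((1, 1) : H × T) = 1 from rfl, map_one, mul_one]
    · split_ifs with k2 k3
      · exact absurd (key x k1 k2 k3).2 hx
      · rfl
      · rfl
  · rw [if_neg e]
    split_ifs with k1
    · refine Finset.sum_eq_zero fun x _ => ?_
      split_ifs with k2 k3
      · exact absurd (key x k1 k2 k3).1 e
      · rfl
      · rfl
    · rfl

/- PLAN: `z = brq φ (red y)` is a central idempotent of `k[H × T]` (`Br_mul` for `zpowers u`,
`map_brq`, `brq_map`); lift it to a class function `e'` (`lift_idem`); let `E` be its extension by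
zero to `G`.  `y - cv y E` and `E - cv y E` are idempotents, invariant under the centraliser, whose
reductions vanish on it; `nagao` gives `ap y f (u * φ c) = ap E f (u * φ c) = ap e' F c` for regular
`c`, `F c = f (u * φ c)`.  Split `F` into its regular and singular parts (`sec_sing`, `sec_reg`) and
sum over `x`; `y'' h = ∑ x, e' (h, x)`. -/
theorem phiG_ap (p : ℕ) [Fact p.Prime] (hO : (p : ℂ) ∈ O.nonunits) {φ : H × T →* G}
    (hφ : Function.Injective φ) {u : G} {r : ℕ} (hu : u ^ p ^ r = 1)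
    (hc : ∀ g, Commute g u ↔ g ∈ φ.range) {y : G → ℂ} (hy : ∀ g, y g ∈ O) (h : cv y y = y)
    (hcl : ClassFn y) :
    ∃ y'' : H → ℂ, (∀ g, y'' g ∈ O) ∧ cv y'' y'' = y'' ∧ ClassFn y'' ∧
      (∀ g, piO O (y'' g) = ∑ x, piO O (y (φ (g, x)))) ∧
      ∀ f, ClassFn f → ∀ g, (orderOf g).Coprime p →
        phiG p φ u (ap y f) g = ap y'' (phiG p φ u f) g := by
  obtain ⟨e, e1, e2, e3, e4, e5⟩ := n2_main p hO hφ hu hc hy h hcl
  refine ⟨fun g => ∑ x, e (g, x), fun g => sum_mem fun x _ => e1 _, ?_, fun g a => ?_,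
    fun g => ?_, fun f hf g hg => ?_⟩
  · funext g
    show ∑ a, (∑ x, e (a, x)) * ∑ t, e (a⁻¹ * g, t) = ∑ t, e (g, t)
    conv_rhs => rw [← e2]
    simp only [cv, Fintype.sum_prod_type]
    rw [Finset.sum_comm]
    refine Finset.sum_congr rfl fun a _ => ?_
    rw [Finset.sum_comm, Finset.sum_mul]
    refine Finset.sum_congr rfl fun x _ => ?_
    rw [Finset.mul_sum]
    exact (Fintype.sum_equiv (Equiv.mulLeft x⁻¹) _ _ fun t => rfl).symm
  · refine Finset.sum_congr rfl fun x _ => ?_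
    rw [← e3 (g, x) (a, 1)]
    simp
  · rw [piO_sum _ fun x _ => e1 _]
    exact Finset.sum_congr rfl fun x _ => e4 _
  have hF : ClassFn fun d : H × T => f (u * φ d) := fun d a => by
    show f (u * φ (a * d * a⁻¹)) = f (u * φ d)
    rw [map_mul, map_mul, map_inv, ← mul_assoc, ← mul_assoc, ← ((hc _).2 ⟨a, rfl⟩).eq,
      mul_assoc (φ a), hf]
  have ho : ∀ d a : H × T, orderOf (a * d * a⁻¹) = orderOf d := fun d a =>
    (MulAut.conj a).orderOf_eq d
  obtain ⟨F, hF1⟩ : ∃ F : H × T → ℂ, ∀ d, F d = if (orderOf d).Coprime p then f (u * φ d) else 0 :=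
    ⟨_, fun _ => rfl⟩
  have hF2 : ClassFn F := fun d a => by
    rw [hF1, hF1, ho]
    exact if_congr Iff.rfl (hF d a) rfl
  have k1 : ∀ x : T, (if (orderOf x).Coprime p then ap y f (u * φ (g, x)) else 0) =
      ap e F (g, x) := fun x => by
    split_ifs with hx
    · have k2 := (n2_reg p g x).2 ⟨hg, hx⟩
      have k3 := sec_sing p hO e1 e2 e3 (f := fun d => f (u * φ d) - F d)
        (fun d a => congrArg₂ (· - ·) (hF d a) (hF2 d a))
        (fun d hd => by rw [hF1, if_pos hd, sub_self]) k2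
      rw [e5 f hf _ k2]
      simpa [ap, mul_sub, sub_eq_zero] using k3
    · exact (sec_reg p hO e1 e2 e3 hF2 (fun d hd => by rw [hF1, if_neg hd])
        fun k => hx ((n2_reg p g x).1 k).2).symm
  have k2 : ∀ a : H, phiG p φ u f a = ∑ x, F (a, x) := fun a => by
    unfold phiG
    split_ifs with ha
    · exact Finset.sum_congr rfl fun x _ => by
        rw [hF1]
        exact if_congr (by rw [n2_reg, and_iff_right ha]) rfl rfl
    · exact (Finset.sum_eq_zero fun x _ => by
        rw [hF1, if_neg fun k => ha ((n2_reg p a x).1 k).1]).symm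
  show (if (orderOf g).Coprime p then
    ∑ x, if (orderOf x).Coprime p then ap y f (u * φ (g, x)) else 0 else 0) =
      ∑ a, (∑ t, e (a, t)) * phiG p φ u f (a * g)
  rw [if_pos hg, Finset.sum_congr rfl fun x _ => k1 x]
  simp only [ap, Fintype.sum_prod_type, k2]
  rw [Finset.sum_comm]
  refine Finset.sum_congr rfl fun a _ => ?_
  rw [Finset.sum_comm, Finset.sum_mul]
  refine Finset.sum_congr rfl fun t _ => ?_
  rw [Finset.mul_sum]
  exact Fintype.sum_equiv (Equiv.mulLeft t) _ _ fun x => rfl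

end

end Pool.Agent.Puig
end

-- merged part: Pool.Agent.Work.MP_cea1f0_al.V3
section
/-! The idempotent of the Harish-Chandra step. -/

namespace Pool.Agent.Puig

open MonoidAlgebra Module Classical

/-- The average over a subgroup. -/
noncomputable def avg (k : Type) [Field k] {G : Type} [Group G] [Finite G] (Y : Subgroup G) :
    MonoidAlgebra k G :=
  .ofCoeff (Finsupp.equivFunOnFinite.symm fun g => if g ∈ Y then (Nat.card Y : k)⁻¹ else 0)

section
variable {k G : Type} [Field k] [Group G] [Finite G]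

theorem coeff_avg (Y : Subgroup G) (g : G) :
    (avg k Y).coeff g = if g ∈ Y then (Nat.card Y : k)⁻¹ else 0 := rfl

omit [Finite G] in
theorem v3_sum_ind [Fintype G] (Y : Subgroup G) (a : k) :
    ∑ g, (if g ∈ Y then a else 0) = (Nat.card Y : k) * a := by
  rw [← Finset.sum_filter, Finset.sum_const, nsmul_eq_mul, Nat.card_eq_fintype_card,
    Fintype.card_subtype]

omit [Finite G] in
theorem v3_map_of {H : Type} [Group H] (φ : H →* G) (h : H) :
    mapDomainAlgHom k k φ (of k H h) = of k G (φ h) := by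
  simp

omit [Finite G] in
theorem v3_comm {H : Type} [Group H] (φ : H →* G) {e : MonoidAlgebra k G}
    (h : ∀ a, Commute (of k G (φ a)) e) (y : MonoidAlgebra k H) :
    Commute (mapDomainAlgHom k k φ y) e := by
  induction y using MonoidAlgebra.induction_on with
  | of m => rw [v3_map_of]; exact h m
  | add a b ha hb => rw [map_add]; exact ha.add_left hb
  | smul r a ha => rw [map_smul]; exact ha.smul_left r

theorem v3_avg_bot : avg k (⊥ : Subgroup G) = 1 := by
  ext g
  rw [coeff_avg, MonoidAlgebra.one_def, coeff_single, Finsupp.single_apply]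
  by_cases hg : g = 1
  · subst hg; simp
  · rw [if_neg (by simpa using hg), if_neg (fun h => hg h.symm)]

theorem avg_idem {Y : Subgroup G} (h : (Nat.card Y : k) ≠ 0) : IsIdempotentElem (avg k Y) := by
  have : Fintype G := Fintype.ofFinite G
  show avg k Y * avg k Y = avg k Y
  ext c
  rw [b1a_coeff_mul, coeff_avg]
  by_cases hc : c ∈ Y
  · rw [if_pos hc]
    have h1 : ∀ g, (avg k Y).coeff g * (avg k Y).coeff (g⁻¹ * c) =
        if g ∈ Y then (Nat.card Y : k)⁻¹ * (Nat.card Y : k)⁻¹ else 0 := by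
      intro g
      rw [coeff_avg, coeff_avg]
      by_cases hg : g ∈ Y
      · rw [if_pos hg, if_pos hg, if_pos (Y.mul_mem (Y.inv_mem hg) hc)]
      · rw [if_neg hg, if_neg hg, zero_mul]
    rw [Finset.sum_congr rfl fun g _ => h1 g, v3_sum_ind, ← mul_assoc, mul_inv_cancel₀ h, one_mul]
  · rw [if_neg hc]
    refine Finset.sum_eq_zero fun g _ => ?_
    rw [coeff_avg, coeff_avg]
    by_cases hg : g ∈ Y
    · rw [if_neg (fun h1 : g⁻¹ * c ∈ Y => hc (by simpa using Y.mul_mem hg h1)), mul_zero]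
    · rw [if_neg hg, zero_mul]

theorem fix_avg (Y : Subgroup G) : Fix (Subgroup.normalizer (Y : Set G)) (avg k Y) := by
  rw [fix_iff]
  intro u hu g
  rw [coeff_avg, coeff_avg]
  have h1 := Subgroup.mem_normalizer_iff.1 hu g
  by_cases hg : g ∈ Y
  · rw [if_pos hg, if_pos (h1.1 hg)]
  · rw [if_neg hg, if_neg fun h => hg (h1.2 h)]

/- PLAN: `Nat.card Y` is congruent to the number of fixed points (`orb_sum` or
`IsPGroup.card_modEq_card_fixedPoints`). -/
theorem Br_avg (p : ℕ) [Fact p.Prime] [CharP k p] {S Y : Subgroup G} (hS : IsPGroup p S)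
    (h : S ≤ Subgroup.normalizer (Y : Set G)) :
    Br S (avg k Y) = avg k (Y ⊓ Subgroup.centralizer (S : Set G)) := by
  have : Fintype G := Fintype.ofFinite G
  have h1 := b1a_orb (F := k) p hS (fun g => if g ∈ Y then (1 : k) else 0) (fun u hu g => by
    have h1 := Subgroup.mem_normalizer_iff.1 (h hu) g
    by_cases hg : g ∈ Y
    · simp only [if_pos hg, if_pos (h1.1 hg)]
    · simp only [if_neg hg, if_neg fun h => hg (h1.2 h)])
  have h2 : ∀ (a : k) g,
      (if g ∈ Subgroup.centralizer (S : Set G) then (if g ∈ Y then a else 0) else 0) =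
      if g ∈ Y ⊓ Subgroup.centralizer (S : Set G) then a else 0 := by
    intro a g
    by_cases hg : g ∈ Y <;> by_cases hc : g ∈ Subgroup.centralizer (S : Set G) <;>
      simp [hg, hc]
  rw [Finset.sum_congr rfl fun g _ => h2 1 g, v3_sum_ind, v3_sum_ind, mul_one, mul_one] at h1
  ext g
  rw [coeff_Br, coeff_avg, coeff_avg, h2, h1]

theorem map_avg {H : Type} [Group H] [Finite H] {φ : H →* G} (hφ : Function.Injective φ)
    (Y : Subgroup H) : mapDomainAlgHom k k φ (avg k Y) = avg k (Y.map φ) := by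
  ext g
  show Finsupp.mapDomain φ (avg k Y).coeff g = _
  rw [coeff_avg, Subgroup.card_map_of_injective hφ]
  by_cases hg : g ∈ Set.range φ
  · obtain ⟨c, rfl⟩ := hg
    rw [Finsupp.mapDomain_apply hφ, coeff_avg]
    by_cases hc : c ∈ Y
    · rw [if_pos hc, if_pos (Subgroup.mem_map_of_mem φ hc)]
    · rw [if_neg hc, if_neg fun h => hc ((Subgroup.mem_map_iff_mem hφ).1 h)]
  · rw [Finsupp.mapDomain_of_notMem_range _ _ hg, if_neg]
    rintro ⟨c, -, rfl⟩
    exact hg ⟨c, rfl⟩

end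

variable {K A B V : Type} [Field K] [Finite K] [AddCommGroup A] [Module K A] [AddCommGroup B]
  [Module K B] [AddCommGroup V] [Module K V] [Finite A] [Finite B] [Finite V]

omit [Finite K] [Finite A] [Finite B] [Finite V] in
theorem v3_mem (ψ : (A × B) ≃ₗ[K] V) (g : V ≃ₗ[K] V) : g ∈ Ysub ψ ⊥ ↔
    (∀ a, g (ψ (a, 0)) = ψ (a, 0)) ∧ ∀ a b, (ψ.symm (g (ψ (a, b)))).2 = b := by
  constructor
  · rintro ⟨h1, x, hx, h2⟩
    rw [Subgroup.mem_bot] at hx
    subst hx
    exact ⟨h1, h2⟩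
  · rintro ⟨h1, h2⟩
    exact ⟨h1, 1, Subgroup.one_mem _, h2⟩

omit [Finite K] [Finite A] [Finite B] [Finite V] in
theorem v3_pow (ψ : (A × B) ≃ₗ[K] V) {g : V ≃ₗ[K] V} {x : B ≃ₗ[K] B}
    (h : ∀ a b, (ψ.symm (g (ψ (a, b)))).2 = x b) (m : ℕ) :
    ∀ a b, (ψ.symm ((g ^ m) (ψ (a, b)))).2 = (x ^ m) b := by
  induction m with
  | zero => intro a b; simp
  | succ m ih =>
    intro a b
    have h1 := h (ψ.symm ((g ^ m) (ψ (a, b)))).1 (ψ.symm ((g ^ m) (ψ (a, b)))).2
    simp only [Prod.mk.eta, LinearEquiv.apply_symm_apply] at h1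
    rw [pow_succ', pow_succ', LinearEquiv.mul_apply, LinearEquiv.mul_apply, h1, ih]

omit [Finite K] [Finite A] [Finite B] [Finite V] in
theorem v3_unip (ψ : (A × B) ≃ₗ[K] V) {g : V ≃ₗ[K] V} (hg : g ∈ Ysub ψ ⊥) {m : ℕ}
    (hm : (m : K) ≠ 0) (h : g ^ m = 1) : g = 1 := by
  obtain ⟨h1, h2⟩ := (v3_mem ψ g).1 hg
  have h3 : ∀ b, g (ψ (0, b)) = ψ (0, b) := by
    intro b
    obtain ⟨a, ha⟩ : ∃ a, g (ψ (0, b)) = ψ (a, 0) + ψ (0, b) := by
      refine ⟨(ψ.symm (g (ψ (0, b)))).1, ?_⟩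
      rw [← map_add, Prod.mk_add_mk, add_zero, zero_add, ← LinearEquiv.symm_apply_eq]
      exact Prod.ext rfl (h2 0 b)
    have h4 : ∀ n : ℕ, (g ^ n) (ψ (0, b)) = (n : K) • ψ (a, 0) + ψ (0, b) := by
      intro n
      induction n with
      | zero => simp
      | succ n ih =>
        rw [pow_succ', LinearEquiv.mul_apply, ih, map_add, map_smul, h1, ha, Nat.cast_succ,
          add_smul, one_smul, add_assoc]
    have h5 := h4 m
    rw [h] at h5
    have h6 : (m : K) • ψ (a, 0) = 0 := by simpa using h5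
    rw [ha, (smul_eq_zero.1 h6).resolve_left hm, zero_add]
  ext v
  obtain ⟨⟨a, b⟩, rfl⟩ := ψ.surjective v
  have h7 : ψ (a, b) = ψ (a, 0) + ψ (0, b) := by
    rw [← map_add, Prod.mk_add_mk, add_zero, zero_add]
  rw [h7, map_add, h1, h3]
  rfl

/- PLAN: `Ysub ψ T` is in bijection with `T × (B →ₗ[K] A)`; or it maps to `T` with kernel a group
of exponent the characteristic of `K` (elements `1 + n`, `n ^ 2 = 0`), and use Cauchy's theorem
(`exists_prime_orderOf_dvd_card'`). -/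
theorem card_Ysub (p : ℕ) [Fact p.Prime] (hp : (p : K) ≠ 0) (ψ : (A × B) ≃ₗ[K] V)
    {T : Subgroup (B ≃ₗ[K] B)} (hT : ¬ p ∣ Nat.card T) : ¬ p ∣ Nat.card (Ysub ψ T) := by
  intro hd
  obtain ⟨⟨g, hg⟩, ho⟩ := exists_prime_orderOf_dvd_card' p hd
  have ho' : orderOf g = p := by rw [← ho]; exact (Subgroup.orderOf_mk g hg).symm
  have hgp : g ^ p = 1 := by rw [← ho']; exact pow_orderOf_eq_one g
  obtain ⟨h1, x, hx, h2⟩ := hg
  have hxp : x ^ p = 1 := by
    ext b
    rw [← v3_pow ψ h2 p 0 b, hgp]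
    simp
  have hx1 : x = 1 := by
    by_contra hne
    have h3 : orderOf x = p := orderOf_eq_prime hxp hne
    exact hT (h3 ▸ Subgroup.orderOf_dvd_natCard T hx)
  subst hx1
  have h4 : g = 1 := v3_unip ψ ((v3_mem ψ g).2 ⟨h1, h2⟩) hp hgp
  rw [h4, orderOf_one] at ho'
  exact (Fact.out : p.Prime).one_lt.ne ho'

omit [Finite K] [Finite A] [Finite B] [Finite V] in
theorem v3_conj (ψ : (A × B) ≃ₗ[K] V) (z : (A ≃ₗ[K] A) × (B ≃ₗ[K] B)) {g : V ≃ₗ[K] V}
    (hg : g ∈ Ysub ψ ⊥) : emb ψ z * g * (emb ψ z)⁻¹ ∈ Ysub ψ ⊥ := by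
  obtain ⟨h1, h2⟩ := (v3_mem ψ g).1 hg
  obtain ⟨h, x⟩ := z
  rw [← map_inv, Prod.inv_mk, v3_mem]
  constructor
  · intro a
    rw [LinearEquiv.mul_apply, LinearEquiv.mul_apply, emb_apply, map_zero, h1, emb_apply, map_zero]
    exact congrArg (fun t => ψ (t, 0)) (h.apply_symm_apply a)
  · intro a b
    rw [LinearEquiv.mul_apply, LinearEquiv.mul_apply, emb_apply]
    have h3 := emb_apply ψ h x (ψ.symm (g (ψ (h⁻¹ a, x⁻¹ b)))).1 (ψ.symm (g (ψ (h⁻¹ a, x⁻¹ b)))).2
    simp only [Prod.mk.eta, LinearEquiv.apply_symm_apply] at h3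
    rw [h3, LinearEquiv.symm_apply_apply, h2]
    exact x.apply_symm_apply b

omit [Finite K] [Finite A] [Finite B] [Finite V] in
theorem emb_norm (ψ : (A × B) ≃ₗ[K] V) (z : (A ≃ₗ[K] A) × (B ≃ₗ[K] B)) :
    emb ψ z ∈ Subgroup.normalizer (Ysub ψ ⊥ : Set (V ≃ₗ[K] V)) := by
  rw [Subgroup.mem_normalizer_iff]
  intro g
  refine ⟨v3_conj ψ z, fun h => ?_⟩
  have h1 := v3_conj ψ z⁻¹ h
  simpa [mul_assoc] using h1

omit [Finite K] [Finite A] [Finite B] [Finite V] in
theorem v3_emb_mem (ψ : (A × B) ≃ₗ[K] V) {h : A ≃ₗ[K] A} {x : B ≃ₗ[K] B}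
    (hm : emb ψ (h, x) ∈ Ysub ψ ⊥) : emb ψ (h, x) = 1 := by
  obtain ⟨h1, h2⟩ := (v3_mem ψ _).1 hm
  have h3 : h = 1 := by
    ext a
    have := h1 a
    rw [emb_apply] at this
    exact congrArg Prod.fst (ψ.injective this)
  have h4 : x = 1 := by
    ext b
    have := h2 0 b
    rw [emb_apply, LinearEquiv.symm_apply_apply] at this
    exact this
  rw [h3, h4]
  exact map_one (emb ψ)

/- PLAN: the only `emb ψ (h, x)` in `Ysub ψ ⊥` is `1`..: careful, `bet` sums over `x`, so the sum is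
`(card Y)⁻¹` at `h = 1`; `card Y ≡ 1` modulo `p` because `embR ψ u` acts on `Y = Hom(B, A)` with the
only fixed point `1` (`Br_avg` for `zpowers`, `bet_Br`, `commute_embR`). -/
omit [Finite K] in
theorem bet_avg (p : ℕ) [Fact p.Prime] {k : Type} [Field k] [CharP k p] (ψ : (A × B) ≃ₗ[K] V)
    {u : B ≃ₗ[K] B} (hu : Fpf p u) : bet ψ (avg k (Ysub ψ ⊥)) = 1 := by
  obtain ⟨⟨r, hr⟩, hu⟩ := hu
  have hS : IsPGroup p (Subgroup.zpowers u) := by
    rintro ⟨g, n, rfl⟩
    refine ⟨r, Subtype.ext ?_⟩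
    show (u ^ n) ^ p ^ r = 1
    rw [← zpow_natCast, ← zpow_mul, mul_comm, zpow_mul, zpow_natCast, hr, one_zpow]
  have hN : (Subgroup.zpowers u).map (embR ψ) ≤
      Subgroup.normalizer (Ysub ψ ⊥ : Set (V ≃ₗ[K] V)) := by
    rintro _ ⟨x, -, rfl⟩
    exact emb_norm ψ (1, x)
  have hbot : Ysub ψ ⊥ ⊓ Subgroup.centralizer
      (((Subgroup.zpowers u).map (embR ψ) : Subgroup (V ≃ₗ[K] V)) : Set (V ≃ₗ[K] V)) = ⊥ := by
    rw [eq_bot_iff]
    rintro g ⟨h1, h2⟩
    have h3 : Commute g (embR ψ u) :=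
      (Subgroup.mem_centralizer_iff.1 h2 _
        (Subgroup.mem_map_of_mem _ (Subgroup.mem_zpowers u))).symm
    obtain ⟨h, x, -, rfl⟩ := (commute_embR ψ hu g).1 h3
    exact Subgroup.mem_bot.2 (v3_emb_mem ψ h1)
  rw [← bet_Br p ψ hS ((fix_avg _).mono hN), Br_avg p (hS.map _) hN, hbot, v3_avg_bot, bet_one]

/-- The element `(a₀ ⊗ a₁) * e_U`. -/
noncomputable def hcJ (ψ : (A × B) ≃ₗ[K] V) (a₀ : (A ≃ₗ[K] A) → ℂ) (a₁ : (B ≃ₗ[K] B) → ℂ) :
    (V ≃ₗ[K] V) → ℂ :=
  cv (fun g => ∑ z, if emb ψ z = g then a₀ z.1 * a₁ z.2 else 0)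
    fun g => if g ∈ Ysub ψ ⊥ then (Nat.card (Ysub ψ ⊥) : ℂ)⁻¹ else 0

omit [Finite K] [Finite A] [Finite B] [Finite V] in
theorem v3_LR (ψ : (A × B) ≃ₗ[K] V) (h : A ≃ₗ[K] A) (x : B ≃ₗ[K] B) :
    embL ψ h * embR ψ x = emb ψ (h, x) := by
  show emb ψ (h, 1) * emb ψ (1, x) = _
  rw [← map_mul, Prod.mk_mul_mk, mul_one, one_mul]

omit [Finite K] [Finite A] [Finite B] [Finite V] in
theorem v3_RL (ψ : (A × B) ≃ₗ[K] V) (h : A ≃ₗ[K] A) (x : B ≃ₗ[K] B) :
    embR ψ x * embL ψ h = emb ψ (h, x) := by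
  show emb ψ (1, x) * emb ψ (h, 1) = _
  rw [← map_mul, Prod.mk_mul_mk, mul_one, one_mul]

omit [Finite K] [Finite A] [Finite B] [Finite V] in
theorem v3_push_comm {k : Type} [Field k] (ψ : (A × B) ≃ₗ[K] V)
    (x : MonoidAlgebra k (A ≃ₗ[K] A)) (y : MonoidAlgebra k (B ≃ₗ[K] B)) :
    Commute (mapDomainAlgHom k k (embL ψ) x) (mapDomainAlgHom k k (embR ψ) y) := by
  refine v3_comm _ (fun a => (v3_comm _ (fun b => ?_) y).symm) x
  show _ * _ = _ * _
  rw [← map_mul, ← map_mul, v3_LR, v3_RL]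

theorem v3_sum {k G : Type} [Field k] [Group G] [Fintype G] (x : MonoidAlgebra k G) :
    x = ∑ g, x.coeff g • of k G g := by
  conv_lhs => rw [← sum_coeff_single x]
  rw [Finsupp.sum_fintype _ _ (fun g => by simp)]
  exact Finset.sum_congr rfl fun g _ => by simp

omit [Finite K] [Finite V] in
theorem v3_coeff_push {k : Type} [Field k] (ψ : (A × B) ≃ₗ[K] V)
    (x : MonoidAlgebra k (A ≃ₗ[K] A)) (y : MonoidAlgebra k (B ≃ₗ[K] B)) (g : V ≃ₗ[K] V) :
    (mapDomainAlgHom k k (embL ψ) x * mapDomainAlgHom k k (embR ψ) y).coeff g =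
      ∑ z, if emb ψ z = g then x.coeff z.1 * y.coeff z.2 else 0 := by
  conv_lhs => rw [v3_sum x, v3_sum y]
  rw [map_sum, map_sum, Finset.sum_mul_sum, Fintype.sum_prod_type, coeff_sum,
    Finsupp.finsetSum_apply]
  refine Finset.sum_congr rfl fun h _ => ?_
  rw [coeff_sum, Finsupp.finsetSum_apply]
  refine Finset.sum_congr rfl fun t _ => ?_
  rw [map_smul, map_smul, v3_map_of, v3_map_of, smul_mul_smul_comm, ← map_mul, v3_LR,
    coeff_smul_apply, of_apply, coeff_single, Finsupp.single_apply]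
  split_ifs <;> simp

theorem v3_inv (p : ℕ) [Fact p.Prime] {O : ValuationSubring ℂ} (hO : (p : ℂ) ∈ O.nonunits)
    {n : ℕ} (hn : ¬ p ∣ n) : (n : ℂ)⁻¹ ∈ O ∧ piO O (n : ℂ)⁻¹ = (n : kO O)⁻¹ := by
  have := kO_charP p hO
  have h1 : (n : kO O) ≠ 0 := fun h => hn ((CharP.cast_eq_zero_iff (kO O) p n).1 h)
  have h0 : (n : ℂ) ≠ 0 := by
    intro h
    have h2 : n = 0 := by exact_mod_cast h
    exact hn (h2 ▸ dvd_zero p)
  have h2 : IsUnit (n : O) := by
    rw [← IsLocalRing.residue_ne_zero_iff_isUnit, map_natCast]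
    exact h1
  obtain ⟨w, hw⟩ := h2.exists_right_inv
  have h3 : (n : ℂ) * (w : ℂ) = 1 := by exact_mod_cast congrArg (fun t : O => (t : ℂ)) hw
  have h4 : (n : ℂ)⁻¹ = w := inv_eq_of_mul_eq_one_right h3
  have h5 : (n : ℂ)⁻¹ ∈ O := h4 ▸ w.2
  refine ⟨h5, ?_⟩
  have h6 := piO_mul (natCast_mem O n) h5
  rw [mul_inv_cancel₀ h0, piO_one, piO_natCast] at h6
  exact (inv_eq_of_mul_eq_one_right h6.symm).symm

/- PLAN: `red_cv`; the inverse of a number prime to `p` lies in `O` (it is a unit of `O`). -/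
theorem red_hcJ (p : ℕ) [Fact p.Prime] {O : ValuationSubring ℂ} (hO : (p : ℂ) ∈ O.nonunits)
    (hp : (p : K) ≠ 0) (ψ : (A × B) ≃ₗ[K] V) {a₀ : (A ≃ₗ[K] A) → ℂ} {a₁ : (B ≃ₗ[K] B) → ℂ}
    (h₀ : ∀ g, a₀ g ∈ O) (h₁ : ∀ g, a₁ g ∈ O) :
    (∀ g, hcJ ψ a₀ a₁ g ∈ O) ∧ red O (hcJ ψ a₀ a₁) =
      mapDomainAlgHom (kO O) (kO O) (embL ψ) (red O a₀) *
        mapDomainAlgHom (kO O) (kO O) (embR ψ) (red O a₁) * avg (kO O) (Ysub ψ ⊥) := by
  obtain ⟨h2, h3⟩ := v3_inv p hO (card_Ysub p hp ψ (T := ⊥)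
    (by rw [Subgroup.card_bot]; exact (Fact.out : p.Prime).not_dvd_one))
  have h4 : ∀ (g : V ≃ₗ[K] V) (z : (A ≃ₗ[K] A) × (B ≃ₗ[K] B)),
      (if emb ψ z = g then a₀ z.1 * a₁ z.2 else 0) ∈ O := by
    intro g z
    split_ifs
    · exact mul_mem (h₀ _) (h₁ _)
    · exact zero_mem _
  have h5 : ∀ g : V ≃ₗ[K] V, (∑ z, if emb ψ z = g then a₀ z.1 * a₁ z.2 else 0) ∈ O :=
    fun g => sum_mem fun z _ => h4 g z
  have h6 : ∀ g : V ≃ₗ[K] V,
      (if g ∈ Ysub ψ ⊥ then (Nat.card (Ysub ψ ⊥) : ℂ)⁻¹ else 0) ∈ O := by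
    intro g
    split_ifs
    · exact h2
    · exact zero_mem _
  refine ⟨cv_mem h5 h6, ?_⟩
  rw [hcJ, red_cv h5 h6]
  refine congrArg₂ (· * ·) ?_ ?_
  · ext g
    rw [coeff_red, v3_coeff_push, piO_sum _ fun z _ => h4 g z]
    refine Finset.sum_congr rfl fun z _ => ?_
    split_ifs
    · rw [piO_mul (h₀ _) (h₁ _), coeff_red, coeff_red]
    · exact piO_zero
  · ext g
    rw [coeff_red, coeff_avg]
    split_ifs
    · exact h3
    · exact piO_zero

theorem v3_cv {G : Type} [Group G] [Fintype G] (X Y : MonoidAlgebra ℂ G) :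
    cv X.coeff Y.coeff = (X * Y).coeff := by
  funext g
  rw [b1a_coeff_mul]
  rfl

/- PLAN: the two factors are commuting idempotents (`cv_assoc`, `emb_norm`, `emb_inj`). -/
omit [Finite K] in
theorem hcJ_idem (ψ : (A × B) ≃ₗ[K] V) {a₀ : (A ≃ₗ[K] A) → ℂ} {a₁ : (B ≃ₗ[K] B) → ℂ}
    (h₀ : cv a₀ a₀ = a₀) (h₁ : cv a₁ a₁ = a₁) : cv (hcJ ψ a₀ a₁) (hcJ ψ a₀ a₁) = hcJ ψ a₀ a₁ := by
  obtain ⟨X, rfl, hX⟩ := c1_idem h₀
  obtain ⟨Z, rfl, hZ⟩ := c1_idem h₁
  have h1 : hcJ ψ X.coeff Z.coeff = (mapDomainAlgHom ℂ ℂ (embL ψ) X *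
      mapDomainAlgHom ℂ ℂ (embR ψ) Z * avg ℂ (Ysub ψ ⊥)).coeff := by
    rw [← v3_cv, hcJ]
    refine congrArg₂ cv ?_ ?_
    · funext g
      rw [v3_coeff_push]
    · funext g
      rw [coeff_avg]
  have hL : IsIdempotentElem (mapDomainAlgHom ℂ ℂ (embL ψ) X) :=
    (show IsIdempotentElem X from hX).map _
  have hR : IsIdempotentElem (mapDomainAlgHom ℂ ℂ (embR ψ) Z) :=
    (show IsIdempotentElem Z from hZ).map _
  have hE : IsIdempotentElem (avg ℂ (Ysub ψ ⊥)) :=
    avg_idem (Nat.cast_ne_zero.2 Nat.card_pos.ne')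
  have hLE : Commute (mapDomainAlgHom ℂ ℂ (embL ψ) X) (avg ℂ (Ysub ψ ⊥)) :=
    v3_comm (embL ψ) (fun a => fix_avg (Ysub ψ ⊥) (embL ψ a) (emb_norm ψ (a, 1) :)) X
  have hRE : Commute (mapDomainAlgHom ℂ ℂ (embR ψ) Z) (avg ℂ (Ysub ψ ⊥)) :=
    v3_comm (embR ψ) (fun a => fix_avg (Ysub ψ ⊥) (embR ψ a) (emb_norm ψ (1, a) :)) Z
  have h2 := IsIdempotentElem.mul_of_commute (hLE.mul_left hRE)
    (IsIdempotentElem.mul_of_commute (v3_push_comm ψ X Z) hL hR) hE
  rw [h1, v3_cv, h2.eq]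

omit [Finite K] in
theorem bet_pushR {k : Type} [Field k] (ψ : (A × B) ≃ₗ[K] V) (y : MonoidAlgebra k (B ≃ₗ[K] B)) :
    bet ψ (mapDomainAlgHom k k (embR ψ) y) = aug y • 1 := by
  induction y using MonoidAlgebra.induction_on with
  | of m =>
    rw [v3_map_of, aug_of, one_smul]
    ext h
    rw [coeff_bet, MonoidAlgebra.one_def, coeff_single, Finsupp.single_apply, of_apply,
      coeff_single]
    have h1 : ∀ x, embR ψ m = emb ψ (h, x) ↔ 1 = h ∧ m = x := fun x =>
      (emb_inj ψ).eq_iff.trans Prod.mk_inj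
    simp only [Finsupp.single_apply, h1]
    by_cases h2 : 1 = h
    · simp [h2]
    · simp [h2]
  | add a b ha hb => rw [map_add, map_add, ha, hb, aug_eq, aug_eq, aug_eq, map_add, add_smul]
  | smul r a ha =>
    rw [map_smul, map_smul, ha, aug_eq, aug_eq, map_smul, smul_smul, smul_eq_mul]

omit [Finite K] [Finite A] [Finite B] [Finite V] in
theorem fix_pushR {k : Type} [Field k] (ψ : (A × B) ≃ₗ[K] V) {S : Subgroup (B ≃ₗ[K] B)}
    {y : MonoidAlgebra k (B ≃ₗ[K] B)} (h : Fix S y) :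
    Fix (S.map (embR ψ)) (mapDomainAlgHom k k (embR ψ) y) := by
  rintro _ ⟨s, hs, rfl⟩
  rw [← v3_map_of, ← map_mul, ← map_mul, h s hs]

omit [Finite K] [Finite A] [Finite B] [Finite V] in
theorem push_comm {k : Type} [Field k] (ψ : (A × B) ≃ₗ[K] V) (x : MonoidAlgebra k (A ≃ₗ[K] A))
    (y : MonoidAlgebra k (B ≃ₗ[K] B)) :
    Commute (mapDomainAlgHom k k (embL ψ) x) (mapDomainAlgHom k k (embR ψ) y) := by
  exact v3_push_comm ψ x y

end Pool.Agent.Puig
end

-- merged part: Pool.Agent.Work.MP_cea1f0_al.B0a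
section
/-! The abstract recursion step, first part: the norm kills a simple factor. -/

namespace Pool.Agent.Puig

open Module

variable {k A X Γ T : Type} [Field k] [Ring A] [Algebra k A] [AddCommGroup X] [Module k X]
  [Module A X] [IsScalarTower k A X] [FiniteDimensional k X] [Group Γ]

/-- `N` is stable under the group. -/
def Stb (g : Representation k Γ X) (N : Submodule A X) : Prop := ∀ γ, ∀ v ∈ N, g γ v ∈ N

/- PLAN: choose `N₂` among the stable submodules `≤ N` with `dm k ε N₂ ≠ 0` of minimal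
`finrank k`, then `N₁` among the stable submodules `< N₂` of maximal `finrank k` (`⊥` is one,
`N₂ ≠ ⊥`).  `dm ε N₁ = 0` by minimality; `dm ε N₂ = dm ε N = 1` (`dm_mono`) so by `dm_add'`
and `dm_eq_zero` the element `ε` kills `N ⧸ N₂`. -/
theorem exists_factor (g : Representation k Γ X) {ε : A} (hε : IsIdempotentElem ε)
    {N : Submodule A X} (hN : Stb g N) (h1 : dm k ε N = 1) :
    ∃ N₁ N₂ : Submodule A X, N₁ ≤ N₂ ∧ N₂ ≤ N ∧ Stb g N₁ ∧ Stb g N₂ ∧ (∀ v ∈ N₁, ε • v = 0) ∧
      (∀ v ∈ N, ε • v ∈ N₂) ∧ ∀ N' : Submodule A X, Stb g N' → N₁ ≤ N' → N' ≤ N₂ →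
        N' = N₁ ∨ N' = N₂ := by
  have : IsArtinian A X := isArtinian_of_tower k inferInstance
  have : IsNoetherian A X := isNoetherian_of_tower k inferInstance
  have fd : ∀ M : Submodule A X, FiniteDimensional k M := fun M =>
    FiniteDimensional.of_injective (M.subtype.restrictScalars k) Subtype.val_injective
  have fq : ∀ M : Submodule A N, FiniteDimensional k (N ⧸ M) := fun M =>
    Module.Finite.of_surjective (M.mkQ.restrictScalars k) M.mkQ_surjective
  obtain ⟨N₂, ⟨s2, l2, d2⟩, m2⟩ := exists_minimal_of_wellFoundedLT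
    (fun M : Submodule A X => Stb g M ∧ M ≤ N ∧ dm k ε M ≠ 0) ⟨N, hN, le_rfl, by omega⟩
  have hb : ⊥ < N₂ := bot_lt_iff_ne_bot.2 fun e =>
    d2 (dm_eq_zero.2 fun v => by subst e; exact Subsingleton.elim _ _)
  obtain ⟨N₁, ⟨s1, l1⟩, m1⟩ := exists_maximal_of_wellFoundedGT
    (fun M : Submodule A X => Stb g M ∧ M < N₂)
    ⟨⊥, fun γ v hv => by rw [(Submodule.mem_bot A).1 hv, map_zero]; exact zero_mem _, hb⟩
  refine ⟨N₁, N₂, l1.le, l2, s1, s2, fun v hv => ?_, fun v hv => ?_, fun N' s a b => ?_⟩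
  · have h0 : dm k ε N₁ = 0 := by
      by_contra h0
      exact l1.not_ge (m2 ⟨s1, l1.le.trans l2, h0⟩ l1.le)
    exact congrArg Subtype.val (dm_eq_zero.1 h0 ⟨v, hv⟩)
  · have h0 : dm k ε (N ⧸ N₂.submoduleOf N) = 0 := by
      have := dm_add' (k := k) hε l2
      omega
    have := dm_eq_zero.1 h0 (Submodule.Quotient.mk ⟨v, hv⟩)
    rw [← Submodule.Quotient.mk_smul, Submodule.Quotient.mk_eq_zero] at this
    exact this
  · exact b.lt_or_eq.imp (fun c => le_antisymm (m1 ⟨s, c⟩ a) a) id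

omit [FiniteDimensional k X] [Algebra k A] [IsScalarTower k A X] in
theorem b0a_j [Fintype T] (g : Representation k Γ X) (σ : Γ → A →+* A) (t : T → Γ) {j : A}
    (hσ : ∀ γ (a : A) v, g γ (a • v) = σ γ a • g γ v) (hj : IsIdempotentElem j)
    (hjσ : ∀ γ, σ γ j = j) (v : X) :
    j • ∑ b, g (t b) (j • v) = ∑ b, g (t b) (j • v) := by
  rw [Finset.smul_sum]
  refine Finset.sum_congr rfl fun b _ => ?_
  rw [hσ, hjσ, smul_smul, hj.eq]

/- PLAN: let `w = ν (j • v)`, `ν = ∑ b, g (t b)`; `w ∈ N₂` is fixed by the group and `j • w = w`.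
`N' = N₁ ⊔ span A {w}` is stable.  If `N' = N₁` we are done.  Otherwise `j • v = a • w + n`, so
`j • v = (j * a * j) • w + j • n` and `w = z • w + ν (j • n)` with `z = ∑ b, σ (t b) (j * a * j)`
nilpotent; hence `w - z ^ r • w ∈ N₁` for all `r`. -/
theorem norm_kills [Fintype T] (g : Representation k Γ X) (σ : Γ → A →+* A) (t : T → Γ) {j : A}
    (hσ : ∀ γ (a : A) v, g γ (a • v) = σ γ a • g γ v) (hj : IsIdempotentElem j)
    (hjσ : ∀ γ, σ γ j = j) (hnil : ∀ x : A, IsNilpotent (∑ b, σ (t b) (j * x * j)))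
    {N₁ N₂ : Submodule A X} (h12 : N₁ ≤ N₂) (h1 : Stb g N₁) (h2 : Stb g N₂)
    (hν : ∀ γ, ∀ v ∈ N₂, g γ (∑ b, g (t b) v) = ∑ b, g (t b) v)
    (hmax : ∀ N' : Submodule A X, Stb g N' → N₁ ≤ N' → N' ≤ N₂ → N' = N₁ ∨ N' = N₂) :
    ∀ v ∈ N₂, ∑ b, g (t b) (j • v) ∈ N₁ := by
  intro v hv
  have hjv : j • v ∈ N₂ := N₂.smul_mem j hv
  have hw := fun γ => hν γ _ hjv
  have jw := b0a_j g σ t hσ hj hjσ v
  have w2 : ∑ b, g (t b) (j • v) ∈ N₂ := sum_mem fun b _ => h2 _ _ hjv
  obtain ⟨w, e⟩ : ∃ w, ∑ b, g (t b) (j • v) = w := ⟨_, rfl⟩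
  rw [e] at hw jw w2 ⊢
  have hs : Stb g (N₁ ⊔ Submodule.span A {w}) := fun γ u hu => by
    obtain ⟨n, hn, y, hy, e1⟩ := Submodule.mem_sup.1 hu
    obtain ⟨a, e2⟩ := Submodule.mem_span_singleton.1 hy
    rw [← e1, ← e2, map_add, hσ γ a w, hw γ]
    exact Submodule.add_mem_sup (h1 _ _ hn)
      (Submodule.smul_mem _ _ (Submodule.mem_span_singleton_self w))
  rcases hmax _ hs le_sup_left
    (sup_le h12 ((Submodule.span_singleton_le_iff_mem _ _).2 w2)) with h | h
  · exact h.le (Submodule.mem_sup_right (Submodule.mem_span_singleton_self w))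
  · obtain ⟨n, hn, _, hu, e1⟩ := Submodule.mem_sup.1 (h.ge hjv)
    obtain ⟨a, rfl⟩ := Submodule.mem_span_singleton.1 hu
    have e2 : j • v = j • n + (j * a * j) • w := by
      rw [mul_smul, jw, mul_smul, ← smul_add, e1, smul_smul, hj.eq]
    have e3 : (1 - ∑ b, σ (t b) (j * a * j)) • w = ∑ b, g (t b) (j • n) := by
      rw [sub_smul, one_smul, Finset.sum_smul, sub_eq_iff_eq_add, ← Finset.sum_add_distrib]
      refine e.symm.trans (Finset.sum_congr rfl fun b _ => ?_)
      rw [e2, map_add, hσ _ (j * a * j), hw]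
    obtain ⟨u, hu⟩ := (hnil a).isUnit_one_sub
    have e4 : (u : A) • w ∈ N₁ := by
      rw [hu, e3]
      exact sum_mem fun b _ => h1 _ _ (N₁.smul_mem j hn)
    have := N₁.smul_mem (↑u⁻¹ : A) e4
    rwa [smul_smul, Units.inv_mul, one_smul] at this

/- PLAN: `ν` commutes with `j`, so it maps `jp k j N₂` into `jp k j N₁`; pick a complement of
`jp k j N₂` in `jp k j N`, of dimension `dm j N - dm j N₂ = dm j (N ⧸ N₂)` (`dm_add'`,
`dm_sub_eq`); or use rank-nullity for `jp k j N → X ⧸ jp k j N₁`. -/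
theorem norm_rank [Fintype T] (g : Representation k Γ X) (σ : Γ → A →+* A) (t : T → Γ) {j : A}
    (hσ : ∀ γ (a : A) v, g γ (a • v) = σ γ a • g γ v) (hj : IsIdempotentElem j)
    (hjσ : ∀ γ, σ γ j = j) {N₁ N₂ N : Submodule A X} (h2 : N₂ ≤ N)
    (h : ∀ v ∈ N₂, ∑ b, g (t b) (j • v) ∈ N₁) :
    finrank k ((jp k j N).map (∑ b, g (t b) : X →ₗ[k] X)) ≤
      dm k j N₁ + dm k j (N ⧸ N₂.submoduleOf N) := by
  have l : jp k j N₂ ≤ jp k j N := fun v hv =>
    let ⟨u, hu, e⟩ := mem_jp.1 hv; mem_jp.2 ⟨u, h2 hu, e⟩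
  obtain ⟨W, d, e⟩ := IsModularLattice.exists_disjoint_and_sup_eq l
  have a1 : (jp k j N₂).map (∑ b, g (t b) : X →ₗ[k] X) ≤ jp k j N₁ := by
    rintro _ ⟨v, hv, rfl⟩
    obtain ⟨u, hu, rfl⟩ := mem_jp.1 hv
    rw [LinearMap.sum_apply]
    exact mem_jp.2 ⟨_, h u hu, b0a_j g σ t hσ hj hjσ u⟩
  have a2 := Submodule.finrank_sup_add_finrank_inf_eq (jp k j N₂) W
  rw [e, d.eq_bot, finrank_bot] at a2
  have a3 := dm_add' (k := k) hj h2
  rw [dm_sub_eq, dm_sub_eq] at a3
  have a4 := Submodule.finrank_add_le_finrank_add_finrank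
    ((jp k j N₂).map (∑ b, g (t b) : X →ₗ[k] X)) (W.map (∑ b, g (t b) : X →ₗ[k] X))
  have a5 := Submodule.finrank_mono a1
  have a6 := Submodule.finrank_map_le (∑ b, g (t b) : X →ₗ[k] X) W
  rw [← Submodule.map_sup, e] at a4
  rw [dm_sub_eq]
  omega

/- PLAN: `g γ` restricts to a bijection `jp k x N → jp k (σ γ x) N'` (`dm_sub_eq`, `mem_jp`). -/
theorem dm_conj (g : Representation k Γ X) (σ : Γ → A →+* A)
    (hσ : ∀ γ (a : A) v, g γ (a • v) = σ γ a • g γ v) (γ : Γ) {N N' : Submodule A X}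
    (h : ∀ v, v ∈ N ↔ g γ v ∈ N') (x : A) : dm k (σ γ x) N' = dm k x N := by
  have e : jp k (σ γ x) N' = (jp k x N).map (g γ) := by
    ext u
    constructor
    · intro hu
      obtain ⟨v, hv, rfl⟩ := mem_jp.1 hu
      exact ⟨_, mem_jp.2 ⟨g γ⁻¹ v, (h _).2 (by rwa [g.self_inv_apply]), rfl⟩,
        by rw [hσ, g.self_inv_apply]⟩
    · rintro ⟨_, hv, rfl⟩
      obtain ⟨v, hu, rfl⟩ := mem_jp.1 hv
      exact mem_jp.2 ⟨_, (h v).1 hu, (hσ _ _ _).symm⟩
  rw [dm_sub_eq, dm_sub_eq, e]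
  exact (Submodule.equivMapOfInjective _
    (Function.LeftInverse.injective (g.inv_self_apply γ)) _).finrank_eq.symm

end Pool.Agent.Puig
end

-- merged part: Pool.Agent.Work.MP_cea1f0_al.B0b
section
/-! The abstract recursion step, second part: the lower factors. -/

namespace Pool.Agent.Puig

open Module

variable {k A X Γ ι : Type} [Field k] [Ring A] [Algebra k A] [AddCommGroup X] [Module k X]
  [Module A X] [IsScalarTower k A X] [FiniteDimensional k X] [Group Γ] [Fintype ι]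
  {X0 : Submodule A X} {eb : A} {ε : ι → A} {M : ι → Submodule A X} {s : ι → ℕ} {w a : ℕ}

set_option linter.unusedSectionVars false

theorem b0b_fin (k : Type) [Field k] [Algebra k A] [Module k X] [IsScalarTower k A X]
    [FiniteDimensional k X] (N : Submodule A X) : FiniteDimensional k N :=
  FiniteDimensional.of_injective (N.subtype.restrictScalars k) Subtype.val_injective

theorem b0b_finq (k : Type) [Field k] [Algebra k A] [Module k X] [IsScalarTower k A X]
    [FiniteDimensional k X] (N' N'' : Submodule A X) :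
    FiniteDimensional k (N'' ⧸ N'.submoduleOf N'') := by
  have := b0b_fin k N''
  exact Module.Finite.quotient k (N'.submoduleOf N'')

theorem Pk.inj (hP : Pk k X0 eb ε M s w a) {μ κ : ι} (h : M μ = M κ) : μ = κ := by
  have h1 := hP.tri μ κ (by rw [← h, hP.diag]; exact one_ne_zero)
  have h2 := hP.tri κ μ (by rw [h, hP.diag]; exact one_ne_zero)
  rcases h1 with h1 | h1
  · exact h1
  · rcases h2 with h2 | h2
    · exact h2.symm
    · omega

/- PLAN: `dm_iSup_le`, `tri`, `diag`, `dm_mono`. -/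
theorem Pk.dm_orbit (hP : Pk k X0 eb ε M s w a) {μ : ι} {O : Finset ι} (hμ : μ ∈ O)
    (hO : ∀ κ ∈ O, s κ = s μ) : dm k (ε μ) (⨆ κ ∈ O, M κ : Submodule A X) = 1 := by
  refine le_antisymm ((dm_iSup_le _ M O).trans (le_of_eq ?_)) ?_
  · rw [Finset.sum_eq_single_of_mem μ hμ, hP.diag]
    intro κ hκ hne
    by_contra h
    rcases hP.tri μ κ h with h1 | h1
    · exact hne h1.symm
    · have := hO κ hκ
      omega
  · rw [← hP.diag μ]
    exact dm_mono _ (le_iSup₂_of_le μ hμ le_rfl)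

/- PLAN: if `dm (ε κ) (⨆ ..) ≠ 0` then `dm (ε κ) (M l) ≠ 0` for some `l ∈ O` (`dm_iSup_le`). -/
theorem Pk.dm_orbit_ne (hP : Pk k X0 eb ε M s w a) {μ κ : ι} {O : Finset ι}
    (hO : ∀ l ∈ O, s l = s μ) (h : dm k (ε κ) (⨆ l ∈ O, M l : Submodule A X) ≠ 0) :
    κ ∈ O ∨ s μ < s κ := by
  obtain ⟨l, hl, h1⟩ := Finset.exists_ne_zero_of_sum_ne_zero
    (Nat.pos_iff_ne_zero.1 ((Nat.pos_of_ne_zero h).trans_le (dm_iSup_le (ε κ) M O)))
  rcases hP.tri κ l h1 with h2 | h2
  · exact Or.inl (h2 ▸ hl)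
  · exact Or.inr (hO l hl ▸ h2)

theorem b0b_kill {N' N'' : Submodule A X} {x : A} :
    (∀ y : N'' ⧸ N'.submoduleOf N'', x • y = 0) ↔ ∀ v ∈ N'', x • v ∈ N' := by
  constructor
  · intro h v hv
    have h1 := h (Submodule.Quotient.mk ⟨v, hv⟩)
    rw [← Submodule.Quotient.mk_smul, Submodule.Quotient.mk_eq_zero] at h1
    exact h1
  · intro h y
    obtain ⟨v, rfl⟩ := Submodule.Quotient.mk_surjective _ y
    rw [← Submodule.Quotient.mk_smul, Submodule.Quotient.mk_eq_zero]
    exact h v v.2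

theorem b0b_inv (g : Representation k Γ X) (γ : Γ) (v : X) : g γ (g γ⁻¹ v) = v := by
  rw [← Module.End.mul_apply, ← map_mul, mul_inv_cancel, map_one, Module.End.one_apply]

theorem b0b_pos {f : ι → ℕ} {l : ι} (h : f l ≠ 0) : 0 < ∑ μ, f μ :=
  (Nat.pos_of_ne_zero h).trans_le
    (Finset.single_le_sum (fun _ _ => Nat.zero_le _) (Finset.mem_univ l))

theorem b0b_simple (hP : Pk k X0 eb ε M s w a) {μ : ι} {O : Finset ι}
    (hO : ∀ κ ∈ O, s κ = s μ) {N' N'' : Submodule A X} (h2 : N'' ≤ ⨆ l ∈ O, M l)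
    (Y : Type) [AddCommGroup Y] [Module k Y] [Module A Y] [IsScalarTower k A Y]
    [FiniteDimensional k Y] [IsSimpleModule A Y]
    (hY : ∀ x ∈ {x : A | ∀ v ∈ N'', x • v ∈ N'}, ∀ y : Y, x • y = 0) :
    ∃ l, dm k (ε l) Y ≠ 0 ∧ (¬ ∀ v ∈ N'', ε l • v ∈ N') ∧ (l ∈ O ∨ s μ < s l) ∧
      ∀ x : A, IsIdempotentElem x → dm k x Y ≤ dm k x (M l) := by
  have h3 : N'' ≤ X0 := h2.trans (iSup₂_le fun κ _ => hP.sub κ)
  obtain ⟨l, h4, h5⟩ := hP.smp Y fun y => by
    have := hY (eb - 1) (fun v hv => by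
      rw [sub_smul, one_smul, hP.full v (h3 hv), sub_self]
      exact N'.zero_mem) y
    rwa [sub_smul, one_smul, sub_eq_zero] at this
  have h6 : ¬ ∀ v ∈ N'', ε l • v ∈ N' := fun h => h4 (dm_eq_zero.2 (hY _ h))
  refine ⟨l, h4, h6, hP.dm_orbit_ne hO fun h => h6 fun v hv => ?_, h5⟩
  have := b0b_fin k (⨆ l ∈ O, M l : Submodule A X)
  have h7 : ε l • v = 0 := congrArg Subtype.val (dm_eq_zero.1 h ⟨v, h2 hv⟩)
  rw [h7]
  exact N'.zero_mem

/- PLAN: `N = ⨆ l ∈ O, M l`, `W = N'' ⧸ N'`.  Let `κ ∈ O`, `γ` with `g γ (M μ) = M κ`, and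
`ε' = σ γ⁻¹ (ε κ)`, an idempotent.  Apply `dm_len` with `c = 0`, `j = ε'` and
`I = {a | a kills W}`: a simple `Y` killed by `I` is killed by `eb - 1` and by `ε μ`; `smp` gives
`l` with `dm (ε l) Y ≠ 0`, so `ε l` does not kill `W`, so it does not kill `N`, so `s μ ≤ s l`
(`Pk.dm_orbit_ne`), and `l ≠ μ`.  If `dm ε' Y ≠ 0` then `dm ε' (M l) ≠ 0`; take `l'` with
`g γ (M l) = M l'`, `s l' = s l`; `dm_conj` (for `γ⁻¹`) gives `dm (ε κ) (M l') ≠ 0`, so `κ = l'`
by `tri`, so `M l = M μ`, `l = μ` (`Pk.inj`).  Hence `ε'` kills `W`; for `v ∈ N''`,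
`ε κ • v = g γ (ε' • g γ⁻¹ v) ∈ N'`. -/
theorem Pk.kill_orbit (hP : Pk k X0 eb ε M s w a) (g : Representation k Γ X) (σ : Γ → A →+* A)
    (hσ : ∀ γ (a : A) v, g γ (a • v) = σ γ a • g γ v)
    (hM : ∀ γ μ, ∃ κ, s κ = s μ ∧ ∀ v, v ∈ M μ ↔ g γ v ∈ M κ) {μ : ι} {O : Finset ι}
    (hO : ∀ κ ∈ O, s κ = s μ ∧ ∃ γ, ∀ v, v ∈ M μ ↔ g γ v ∈ M κ) {N' N'' : Submodule A X}
    (h1 : N' ≤ N'') (h2 : N'' ≤ ⨆ l ∈ O, M l) (hs1 : Stb g N') (hs2 : Stb g N'')
    (hk : ∀ v ∈ N'', ε μ • v ∈ N') : ∀ κ ∈ O, ∀ v ∈ N'', ε κ • v ∈ N' := by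
  intro κ hκ v hv
  obtain ⟨hs, γ, hγ⟩ := hO κ hκ
  have hi : IsIdempotentElem (σ γ⁻¹ (ε κ)) := (hP.idem κ).map (σ γ⁻¹)
  have := b0b_finq k N' N''
  have h3 := dm_len (k := k) {x : A | ∀ v ∈ N'', x • v ∈ N'} hi hP.idem 0
    (fun Y _ _ _ _ _ _ hY => by
      obtain ⟨l, -, h4, h5, h6⟩ := b0b_simple hP (μ := μ) (fun l hl => (hO l hl).1) h2 Y hY
      have h7 : s μ ≤ s l := h5.elim (fun h => (hO l h).1.ge) le_of_lt
      rw [zero_mul, Nat.le_zero]
      by_contra h8
      obtain ⟨l', h9, h10⟩ := hM γ l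
      have h11 : dm k (σ γ⁻¹ (ε κ)) (M l) = dm k (ε κ) (M l') :=
        dm_conj g σ hσ γ⁻¹ (fun v => by rw [h10, b0b_inv]) _
      have h12 := h6 _ hi
      rcases hP.tri κ l' (by omega) with e | e
      · have e1 : M l = M μ := by
          ext u
          rw [h10, hγ, e]
        exact h4 (hP.inj e1 ▸ hk)
      · omega)
    (N'' ⧸ N'.submoduleOf N'') fun x hx => b0b_kill.2 hx
  rw [zero_mul, Nat.le_zero, dm_eq_zero, b0b_kill] at h3
  have h4 := hs1 γ _ (h3 _ (hs2 γ⁻¹ v hv))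
  rwa [← hσ, b0b_inv] at h4

/- PLAN: `dm_len` with `I = {a | a kills W}`, `W = N'' ⧸ N'`: for a simple `Y` killed by `I`,
`smp` gives `l` with `dm (ε l) Y ≠ 0`; `l ∉ O`, so `s μ < s l` (`Pk.dm_orbit_ne`) and
`dm j Y ≤ dm j (M l) ≤ c ≤ c * ∑ ..`.  Finally `dm (ε l) W ≤ dm (ε l) N'' ≤ dm (ε l) X0`
(`dm_add'`, `dm_mono`) and `tot`. -/
theorem Pk.low (hP : Pk k X0 eb ε M s w a) {j : A} (hj : IsIdempotentElem j) {μ : ι}
    {O : Finset ι} (hO : ∀ κ ∈ O, s κ = s μ) {N' N'' : Submodule A X} (h1 : N' ≤ N'')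
    (h2 : N'' ≤ ⨆ l ∈ O, M l) (hk : ∀ κ ∈ O, ∀ v ∈ N'', ε κ • v ∈ N') {c : ℕ}
    (hc : ∀ l, s μ < s l → dm k j (M l) ≤ c) : dm k j (N'' ⧸ N'.submoduleOf N'') ≤ c * w := by
  have := b0b_finq k N' N''
  have h3 := dm_len (k := k) {x : A | ∀ v ∈ N'', x • v ∈ N'} hj hP.idem c
    (fun Y _ _ _ _ _ _ hY => by
      obtain ⟨l, h4, h5, h6, h7⟩ := b0b_simple hP hO h2 Y hY
      have h8 := hc l (h6.resolve_left fun h => h5 (hk l h))
      exact ((h7 j hj).trans h8).trans (Nat.le_mul_of_pos_right _ (b0b_pos h4)))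
    (N'' ⧸ N'.submoduleOf N'') fun x hx => b0b_kill.2 hx
  refine h3.trans (Nat.mul_le_mul_left c (le_trans (Finset.sum_le_sum fun l _ => ?_) hP.tot))
  have h4 := dm_add' (k := k) (hP.idem l) h1
  have h5 := dm_mono (k := k) (ε l) (h2.trans (iSup₂_le fun κ _ => hP.sub κ))
  omega

/- PLAN: `dm_len` with `I = {eb - 1}`; `smp` shows `1 ≤ ∑ μ, dm (ε μ) Y`. -/
theorem Pk.dm_le (hP : Pk k X0 eb ε M s w a) {j : A} (hj : IsIdempotentElem j) {c : ℕ}
    (hc : ∀ (Y : Type) [AddCommGroup Y] [Module k Y] [Module A Y] [IsScalarTower k A Y]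
      [FiniteDimensional k Y] [IsSimpleModule A Y], (∀ y : Y, eb • y = y) → dm k j Y ≤ c)
    (Z : Type) [AddCommGroup Z] [Module k Z] [Module A Z] [IsScalarTower k A Z]
    [FiniteDimensional k Z] (hZ : ∀ z : Z, eb • z = z) : dm k j Z ≤ c * ∑ μ, dm k (ε μ) Z := by
  refine dm_len (k := k) {eb - 1} hj hP.idem c (fun Y _ _ _ _ _ _ hY => ?_) Z ?_
  · have h1 : ∀ y : Y, eb • y = y := fun y => by
      have := hY _ rfl y
      rwa [sub_smul, one_smul, sub_eq_zero] at this
    obtain ⟨l, h2, -⟩ := hP.smp Y h1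
    exact (hc Y h1).trans (Nat.le_mul_of_pos_right _ (b0b_pos h2))
  · rintro _ rfl v
    rw [sub_smul, one_smul, hZ, sub_self]

end Pool.Agent.Puig
end

-- merged part: Pool.Agent.Work.MP_cea1f0_al.B0
section
/-! The abstract recursion step. -/

namespace Pool.Agent.Puig

open Module

/- PLAN: define `c 0 = 0`, `c (r + 1) = m * (2 * (c r * w) + h)`; prove by induction on `r` that
`a < s μ + r → dm k j (M μ) ≤ c r` (`r = 0`: `bd`).  Step: `O` = the finset of the `κ` with
`s κ = s μ` and `g γ (M μ) = M κ` for some `γ`; `μ ∈ O`; `N = ⨆ κ ∈ O, M κ` is stable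
(`Submodule.iSup_induction`; use `hM` twice and `map_mul`) and `≤ X0`.  `Pk.dm_orbit`,
`exists_factor`, `norm_kills`, `norm_rank`; `Pk.kill_orbit` and `Pk.low` for the pairs
`(⊥, N₁)` (`dm_add'` with `⊥`) and `(N₂, N)`; `fix_bound` for `U = jp k j N` (stable as
`σ γ j = j`); `dm_mono`, `dm_sub_eq`.  Conclude with `smp` and `r = a + 1`. -/
theorem stepB (p m h w a : ℕ) [Fact p.Prime] : ∃ c : ℕ, ∀ (k A X Γ ι T : Type) [Field k] [CharP k p]
    [Ring A] [Algebra k A] [AddCommGroup X] [Module k X] [Module A X] [IsScalarTower k A X]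
    [FiniteDimensional k X] [Group Γ] [Finite Γ] [Fintype ι] [Fintype T]
    (g : Representation k Γ X) (σ : Γ → A →+* A) (t : T → Γ) (j eb : A) (ε : ι → A)
    (X0 : Submodule A X) (M : ι → Submodule A X) (s : ι → ℕ),
    IsPGroup p Γ → Nat.card Γ ≤ m → (∀ γ (a : A) v, g γ (a • v) = σ γ a • g γ v) →
    IsIdempotentElem j → (∀ γ, σ γ j = j) →
    (∀ γ, ∀ v ∈ X0, g γ (∑ b, g (t b) v) = ∑ b, g (t b) v) →
    (∀ x : A, IsNilpotent (∑ b, σ (t b) (j * x * j))) → Pk k X0 eb ε M s w a →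
    (∀ γ μ, ∃ κ, s κ = s μ ∧ ∀ v, v ∈ M μ ↔ g γ v ∈ M κ) →
    (∀ O : Finset ι, Stb g (⨆ κ ∈ O, M κ) →
      finrank k (jp k j (⨆ κ ∈ O, M κ) ⊓ g.invariants : Submodule k X) ≤
        finrank k ((jp k j (⨆ κ ∈ O, M κ)).map (∑ b, g (t b) : X →ₗ[k] X)) + h) →
    ∀ (Y : Type) [AddCommGroup Y] [Module k Y] [Module A Y] [IsScalarTower k A Y]
      [FiniteDimensional k Y] [IsSimpleModule A Y], (∀ y : Y, eb • y = y) → dm k j Y ≤ c := by
  classical
  let c : ℕ → ℕ := fun r => Nat.rec 0 (fun _ c => m * (2 * (c * w) + h)) r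
  refine ⟨c (a + 1), ?_⟩
  intro k A X Γ ι T _ _ _ _ _ _ _ _ _ _ _ _ _ g σ t j eb ε X0 M s hΓ hm hσ hj hjσ hν hnil hP hM hO
    Y _ _ _ _ _ _ hY
  have key : ∀ r μ, a < s μ + r → dm k j (M μ) ≤ c r := by
    intro r
    induction r with
    | zero => exact fun μ hμ => (hμ.not_ge (hP.bd μ)).elim
    | succ r ih =>
      intro μ hμ
      have hc : ∀ l, s μ < s l → dm k j (M l) ≤ c r := fun l hl => ih l (by omega)
      obtain ⟨O, hO'⟩ : ∃ O : Finset ι, ∀ κ, κ ∈ O ↔
          s κ = s μ ∧ ∃ γ, ∀ v, v ∈ M μ ↔ g γ v ∈ M κ :=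
        ⟨Finset.univ.filter fun κ => s κ = s μ ∧ ∃ γ, ∀ v, v ∈ M μ ↔ g γ v ∈ M κ,
          fun κ => by rw [Finset.mem_filter_univ]⟩
      have hμO : μ ∈ O := (hO' μ).2 ⟨rfl, 1, fun v => by simp⟩
      have hle : ∀ κ ∈ O, M κ ≤ ⨆ κ ∈ O, M κ := fun κ hκ => le_iSup₂_of_le κ hκ le_rfl
      have hN : Stb g (⨆ κ ∈ O, M κ) := by
        intro γ v hv
        refine Submodule.iSup_induction _ (motive := fun v => g γ v ∈ ⨆ κ ∈ O, M κ) hv
          (fun κ x hx => ?_) (by simp) fun x y hx hy => by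
            rw [map_add]
            exact add_mem hx hy
        by_cases hκ : κ ∈ O
        · rw [iSup_pos hκ] at hx
          obtain ⟨κ', h1, h2⟩ := hM γ κ
          obtain ⟨h3, γ', h4⟩ := (hO' κ).1 hκ
          refine hle κ' ((hO' κ').2 ⟨h1.trans h3, γ * γ', fun v => ?_⟩) ((h2 x).1 hx)
          rw [h4, h2, map_mul, Module.End.mul_apply]
        · rw [iSup_neg hκ, Submodule.mem_bot] at hx
          simp [hx]
      have hN0 : (⨆ κ ∈ O, M κ) ≤ X0 := iSup₂_le fun κ _ => hP.sub κ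
      have hs : ∀ κ ∈ O, s κ = s μ := fun κ hκ => ((hO' κ).1 hκ).1
      obtain ⟨N₁, N₂, h12, h2, s1, s2, k1, k2, hmax⟩ :=
        exists_factor g (hP.idem μ) hN (hP.dm_orbit hμO hs)
      have e1 := norm_rank g σ t hσ hj hjσ h2 (norm_kills g σ t hσ hj hjσ hnil h12 s1 s2
        (fun γ v hv => hν γ v (hN0 (h2 hv))) hmax)
      have e2 := hP.low hj hs h2 le_rfl
        (hP.kill_orbit g σ hσ hM (fun κ hκ => (hO' κ).1 hκ) h2 le_rfl s2 hN k2) hc
      have e3 := hP.low hj hs bot_le (h12.trans h2)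
        (hP.kill_orbit g σ hσ hM (fun κ hκ => (hO' κ).1 hκ) bot_le (h12.trans h2)
          (fun γ v hv => by simp [(Submodule.mem_bot A).1 hv]) s1
          fun v hv => (Submodule.mem_bot A).2 (k1 v hv)) hc
      have e4 := dm_add' (k := k) hj (bot_le : ⊥ ≤ N₁)
      have e0 : dm k j (⊥ : Submodule A X) = 0 := by
        rw [dm_sub_eq, jp, Submodule.restrictScalars_bot, Submodule.map_bot, finrank_bot]
      have e5 := fix_bound p hΓ g (jp k j (⨆ κ ∈ O, M κ)) fun γ v hv => by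
        obtain ⟨u, hu, rfl⟩ := mem_jp.1 hv
        exact mem_jp.2 ⟨_, hN γ u hu, by rw [hσ, hjσ]⟩
      have e6 := hO O hN
      refine (dm_mono j (hle μ hμO)).trans ?_
      rw [dm_sub_eq]
      change _ ≤ m * (2 * (c r * w) + h)
      exact e5.trans (Nat.mul_le_mul hm (by omega))
  obtain ⟨μ, -, hμ⟩ := hP.smp Y hY
  exact (hμ j hj).trans (key (a + 1) μ (by omega))

theorem b0_nil {A : Type} [Ring A] {j y e : A} (hj : j * y = y) (he : e * y = j)
    (hy : IsNilpotent y) : j = 0 := by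
  obtain ⟨r, hr⟩ := hy
  have : ∀ n, y ^ (n + 1) = 0 → j = 0 := fun n => by
    induction n with
    | zero => exact fun h => by rw [← he, ← pow_one y, h, mul_zero]
    | succ n ih =>
      refine fun h => ih ?_
      calc y ^ (n + 1) = e * y * y * y ^ n := by rw [he, hj, pow_succ']
        _ = e * y ^ (n + 1 + 1) := by rw [pow_succ', pow_succ', mul_assoc, mul_assoc]
        _ = 0 := by rw [h, mul_zero]
  exact this r (by rw [pow_succ, hr, zero_mul])

/- PLAN: let `w ≠ 0` in `j • Y`; every element of `j • Y` is `(j * a * j) • w` (simplicity).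
If `x = j * x * j` is nilpotent it kills `j • Y`: otherwise `x • w ≠ 0`, `w = b • x • w` with
`b = j * b * j`; `b * x` is not nilpotent so `z * b * x = j`, and then `x ^ r = 0` gives
`j = (z * b) ^ r * x ^ r = 0` (`x * j = x = j * x`).  For a general `x` in the corner take an eigenvalue
`c` of `x` on `jp k j ⊤` (`Module.End.exists_eigenvalue`); `x - c • j` has no left inverse, so it
is nilpotent, so `x` acts as `c`.  Hence `j • Y = k w`. -/
theorem dm_le_one {k A : Type} [Field k] [IsAlgClosed k] [Ring A] [Algebra k A] {j : A}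
    (hj : IsIdempotentElem j) (h : ∀ x, j * x * j = x → IsNilpotent x ∨ ∃ z, z * x = j)
    (Y : Type) [AddCommGroup Y] [Module k Y] [Module A Y] [IsScalarTower k A Y]
    [FiniteDimensional k Y] [IsSimpleModule A Y] : dm k j Y ≤ 1 := by
  have hjj : j * j = j := hj
  have gen : ∀ u : Y, u ≠ 0 → j • u = u → ∀ v : Y, j • v = v →
      ∃ b : A, j * b * j = b ∧ b • u = v := by
    intro u hu hju v hv
    obtain ⟨b, hb⟩ := IsSimpleModule.toSpanSingleton_surjective A hu v
    refine ⟨j * b * j, by simp only [← mul_assoc, hjj]; rw [mul_assoc _ j j, hjj], ?_⟩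
    rw [mul_smul, mul_smul, hju, show b • u = v from hb, hv]
  have lft : ∀ y, j * y * j = y → j * y = y := fun y hy => by
    rw [← hy, ← mul_assoc, ← mul_assoc, hjj]
  have rgt : ∀ y, j * y * j = y → y * j = y := fun y hy => by
    rw [← hy, mul_assoc _ j j, hjj]
  have kill : ∀ y, j * y * j = y → IsNilpotent y → ∀ u : Y, j • u = u → y • u = 0 := by
    intro y hy hn u hu
    by_contra hne
    obtain ⟨b, hb, hb'⟩ := gen _ hne (by rw [← mul_smul, lft y hy]) u hu
    have hu0 : u ≠ 0 := fun e => hne (by rw [e, smul_zero])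
    rcases h (b * y) (by rw [← mul_assoc, lft b hb, mul_assoc, rgt y hy]) with ⟨r, hr⟩ | ⟨z, hz⟩
    · have : ∀ n, (b * y) ^ n • u = u := fun n => by
        induction n with
        | zero => simp
        | succ n ih => rw [pow_succ', mul_smul, ih, mul_smul, hb']
      exact hu0 (by rw [← this r, hr, zero_smul])
    · exact hu0 (by rw [← hu, b0_nil (lft y hy) ((mul_assoc _ _ _).trans hz) hn, zero_smul])
  set U := LinearMap.range (Algebra.lsmul k k Y j : Y →ₗ[k] Y) with hU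
  have mem : ∀ u : Y, u ∈ U ↔ j • u = u := fun u =>
    ⟨fun ⟨v, hv⟩ => by rw [← hv, Algebra.lsmul_coe, ← mul_smul, hjj], fun e => ⟨u, e⟩⟩
  rcases subsingleton_or_nontrivial U with h0 | h0
  · exact (finrank_zero_of_subsingleton (R := k) (M := U)).le.trans zero_le_one
  obtain ⟨u, hu⟩ := exists_ne (0 : U)
  refine finrank_le_one u fun v => ?_
  obtain ⟨x, hx, hx'⟩ := gen u (fun e => hu (Subtype.ext e)) ((mem _).1 u.2) v ((mem _).1 v.2)
  obtain ⟨c, hc⟩ := Module.End.exists_eigenvalue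
    ((Algebra.lsmul k k Y x : Y →ₗ[k] Y).restrict (p := U) (q := U) fun v _ =>
      (mem _).2 (by rw [Algebra.lsmul_coe, ← mul_smul, lft x hx]))
  obtain ⟨u', hu'⟩ := hc.exists_hasEigenvector
  have e1 : x • (u' : Y) = c • (u' : Y) := congrArg Subtype.val hu'.apply_eq_smul
  have e2 : ∀ v : U, (x - c • j) • (v : Y) = x • (v : Y) - c • (v : Y) := fun v => by
    rw [sub_smul, smul_assoc, (mem _).1 v.2]
  have e3 : j * (x - c • j) * j = x - c • j := by
    rw [mul_sub, sub_mul, hx, mul_smul_comm, hjj, smul_mul_assoc, hjj]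
  rcases h _ e3 with hn | ⟨z, hz⟩
  · have := kill _ e3 hn u ((mem _).1 u.2)
    rw [e2, hx', sub_eq_zero] at this
    exact ⟨c, Subtype.ext this.symm⟩
  · refine (hu'.2 (Subtype.ext ?_)).elim
    rw [← (mem _).1 u'.2, ← hz, mul_smul, e2, e1, sub_self, smul_zero]
    rfl

end Pool.Agent.Puig
end

-- merged part: Pool.Agent.Work.MP_cea1f0_al.B3a
section
/-! Models of centralisers. -/

namespace Pool.Agent.Puig

open Module MonoidAlgebra

/-- A model `C` of the centraliser of `R` with the data on the `R`-fixed points. -/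
structure IsMdl (k : Type) {G Ω C ι : Type} [Field k] [Group G] [Finite Ω] [Group C] [Fintype C]
    [Fintype ι] (θ : G →* Equiv.Perm Ω) (R : Subgroup G) (φ : C →* G) (eb : MonoidAlgebra k C)
    (ε : ι → MonoidAlgebra k C) (S : ι → Set Ω) (s : ι → ℕ) (w a : ℕ) : Prop where
  inj : Function.Injective φ
  rng : φ.range = Subgroup.centralizer (R : Set G)
  pk : Pk k (sm k (θ.comp φ) (fixS θ R)) eb ε (fun μ => sm k (θ.comp φ) (S μ)) s w a
  S_inv : ∀ μ c, ∀ ω ∈ S μ, θ (φ c) ω ∈ S μ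
  S_sub : ∀ μ, S μ ⊆ fixS θ R
  nrm : ∀ γ ∈ Subgroup.normalizer (R : Set G), ∀ μ, ∃ κ, s κ = s μ ∧ ∀ ω, ω ∈ S μ ↔ θ γ ω ∈ S κ

def HasMdl (k : Type) {G Ω : Type} [Field k] [Group G] [Finite Ω] (θ : G →* Equiv.Perm Ω)
    (R : Subgroup G) (w a : ℕ) : Prop :=
  ∃ (C ι : Type) (_ : Group C) (_ : Fintype C) (_ : Fintype ι) (φ : C →* G)
    (eb : MonoidAlgebra k C) (ε : ι → MonoidAlgebra k C) (S : ι → Set Ω) (s : ι → ℕ),
    IsMdl k θ R φ eb ε S s w a

/-- The bound for the simple modules of every model. -/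
def SB {k G Ω : Type} [Field k] [Group G] [Finite Ω] (θ : G →* Equiv.Perm Ω) (R : Subgroup G)
    (i : MonoidAlgebra k G) (w a c : ℕ) : Prop :=
  ∀ (C ι : Type) [Group C] [Fintype C] [Fintype ι] (φ : C →* G) (eb : MonoidAlgebra k C)
    (ε : ι → MonoidAlgebra k C) (S : ι → Set Ω) (s : ι → ℕ), IsMdl k θ R φ eb ε S s w a →
    ∀ (Y : Type) [AddCommGroup Y] [Module k Y] [Module (MonoidAlgebra k C) Y]
      [IsScalarTower k (MonoidAlgebra k C) Y] [FiniteDimensional k Y]
      [IsSimpleModule (MonoidAlgebra k C) Y], (∀ y : Y, eb • y = y) → dm k (brq φ i) Y ≤ c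

section
variable {k G Ω C : Type} [Field k] [Group G] [Finite G] [Finite Ω] [Group C] [Fintype C]

omit [Finite G] in
theorem b3a_inj {φ : C →* G} (hφ : Function.Injective φ) :
    Function.Injective (mapDomainAlgHom k k φ) :=
  Function.LeftInverse.injective (g := brq φ) (brq_map hφ)

/- PLAN: `mapDomainAlgHom k k φ` is injective (`brq_map`), `map_brq`, `Br_mul`. -/
theorem brq_idem (p : ℕ) [Fact p.Prime] [CharP k p] {R : Subgroup G} (hR : IsPGroup p R)
    {φ : C →* G} (hφ : Function.Injective φ) (hr : φ.range = Subgroup.centralizer (R : Set G))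
    {i : MonoidAlgebra k G} (hi : IsIdempotentElem i) (hf : Fix R i) :
    IsIdempotentElem (brq φ i) := by
  refine b3a_inj hφ ?_
  rw [map_mul, map_brq hφ hr, ← Br_mul p hR hf hf, hi]

set_option linter.unusedSectionVars false in
/- PLAN: `σ γ` = `domCongr` of the automorphism of `C` induced by conjugation
(`MonoidHom.ofInjective`), or directly `y ↦ brq φ (of γ * mapDomainAlgHom k k φ y * of γ⁻¹)`. -/
theorem exists_sigma {R : Subgroup G} {φ : C →* G} (hφ : Function.Injective φ)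
    (hr : φ.range = Subgroup.centralizer (R : Set G)) :
    ∃ σ : Subgroup.normalizer (R : Set G) → MonoidAlgebra k C →+* MonoidAlgebra k C,
      ∀ γ y, mapDomainAlgHom k k φ (σ γ y) =
        of k G (γ : G) * mapDomainAlgHom k k φ y * of k G (γ : G)⁻¹ := by
  have ex (γ : Subgroup.normalizer (R : Set G)) (c : C) : ∃ c', φ c' = γ * φ c * (γ : G)⁻¹ := by
    have hc : φ c ∈ Subgroup.centralizer (R : Set G) := hr ▸ ⟨c, rfl⟩
    have : (γ : G) * φ c * (γ : G)⁻¹ ∈ φ.range := by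
      rw [hr, Subgroup.mem_centralizer_iff]
      intro r hr
      have := Subgroup.mem_centralizer_iff.1 hc _ ((Subgroup.mem_normalizer_iff''.1 γ.2 r).1 hr)
      calc r * ((γ : G) * φ c * (γ : G)⁻¹) = γ * ((γ : G)⁻¹ * r * γ * φ c) * (γ : G)⁻¹ := by group
        _ = _ := by rw [this]; group
    exact this
  choose f hf using ex
  refine ⟨fun γ => (mapDomainAlgHom k k (MonoidHom.mk' (f γ) fun a b => hφ ?_)).toRingHom,
    fun γ y => ?_⟩
  · rw [map_mul, hf, hf, hf, map_mul]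
    group
  · induction y using MonoidAlgebra.induction_linear with
    | zero => simp
    | add a b ha hb => rw [map_add, map_add, ha, hb, map_add, mul_add, add_mul]
    | single c a => simp [hf, single_mul_single]

/- PLAN: unpack the model; `FR = dm (brq φ i) X0` by `dm_sm`, `act_mapDomain`, `map_brq`
(`fixS_norm` and `Subgroup.centralizer_le_normalizer` for the invariance); `Pk.dm_le`, `full`, `tot`. -/
theorem FR_le (p : ℕ) [Fact p.Prime] [CharP k p] {θ : G →* Equiv.Perm Ω} {R : Subgroup G}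
    (hR : IsPGroup p R) {i : MonoidAlgebra k G} (hi : IsIdempotentElem i) (hf : Fix R i)
    {w a c : ℕ} (hM : HasMdl k θ R w a) (h : SB θ R i w a c) : FR θ R i ≤ c * w := by
  obtain ⟨C, ι, _, _, _, φ, eb, ε, S, s, M⟩ := hM
  have hS : ∀ g, ∀ ω ∈ fixS θ R, (θ.comp φ) g ω ∈ fixS θ R := fun g ω hω =>
    fixS_norm θ (Subgroup.centralizer_le_normalizer _ (M.rng ▸ ⟨g, rfl⟩ : φ g ∈ _)) hω
  have : FiniteDimensional k (sm k (θ.comp φ) (fixS θ R)) :=
    Module.Finite.of_injective ((Submodule.subtype _).restrictScalars k) Subtype.val_injective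
  rw [FR, ← map_brq M.inj M.rng, act_mapDomain, ← dm_sm hS]
  exact (M.pk.dm_le (brq_idem p hR M.inj M.rng hi hf) (h C ι φ eb ε S s M) _
    fun z => Subtype.ext (M.pk.full z.1 z.2)).trans (Nat.mul_le_mul_left c M.pk.tot)

/- PLAN: `dm_le_one`; transport `Br_fit` along the injective `mapDomainAlgHom k k φ`, whose range
is `{y | Br D y = y}` (`map_brq`, `brq_map`). -/
theorem SB_top (p : ℕ) [Fact p.Prime] [CharP k p] [IsAlgClosed k] (θ : G →* Equiv.Perm Ω)
    {D : Subgroup G} (hD : IsPGroup p D) {i : MonoidAlgebra k G} (hi : Prim D i) (w a : ℕ) :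
    SB θ D i w a 1 := by
  intro C ι _ _ _ φ eb ε S s M Y _ _ _ _ _ _ _
  refine dm_le_one (brq_idem p hD M.inj M.rng hi.1 hi.2.2.1) (fun x hx => ?_) Y
  have h1 : Br D (mapDomainAlgHom k k φ x) = mapDomainAlgHom k k φ x := by
    rw [← map_brq M.inj M.rng, brq_map M.inj]
  rcases Br_fit p hD hi h1 (by rw [← map_brq M.inj M.rng, ← map_mul, ← map_mul, hx]) with
    ⟨n, hn⟩ | ⟨z, h2, h3⟩
  · exact Or.inl ⟨n, b3a_inj M.inj (by rw [map_pow, hn, map_zero])⟩
  · exact Or.inr ⟨brq φ z, b3a_inj M.inj (by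
      rw [map_mul, map_brq M.inj M.rng, map_brq M.inj M.rng, h2, h3])⟩

end

end Pool.Agent.Puig
end

-- merged part: Pool.Agent.Work.MP_cea1f0_al.B3
section
/-! The recursion over the subgroups of `D`. -/

namespace Pool.Agent.Puig

open Module MonoidAlgebra

theorem b3_equiv {k G C Ω : Type} [Field k] [Group G] [Group C] (θ : G →* Equiv.Perm Ω)
    (φ : C →* G) {γ : G} {y y' : MonoidAlgebra k C}
    (h : mapDomainAlgHom k k φ y' = of k G γ * mapDomainAlgHom k k φ y * of k G γ⁻¹)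
    (v : Ω → k) : pr k θ γ (act k (θ.comp φ) y v) = act k (θ.comp φ) y' (pr k θ γ v) := by
  rw [← act_mapDomain, ← act_mapDomain, h, ← act_of, ← Module.End.mul_apply,
    ← Module.End.mul_apply, ← map_mul, ← map_mul, mul_assoc, ← map_mul, inv_mul_cancel, map_one,
    mul_one]

theorem b3_spt {k G Ω : Type} [Field k] [Group G] (θ : G →* Equiv.Perm Ω) (γ : G) {S S' : Set Ω}
    (h : ∀ ω, ω ∈ S ↔ θ γ ω ∈ S') (v : Ω → k) : v ∈ spt k S ↔ pr k θ γ v ∈ spt k S' := by
  constructor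
  · intro hv ω hω
    rw [pr_apply]
    refine hv _ fun h1 => hω ?_
    simpa using (h _).1 h1
  · intro hv ω hω
    have h1 := hv (θ γ ω) fun h1 => hω ((h ω).2 h1)
    rw [pr_apply] at h1
    simpa using h1

/- PLAN: take `c` from `stepB p m (2 ^ m * c') w a`.  Apply it with `A = k[C]`,
`X = PM k (θ.comp φ)`, `Γ = ↥(D ⊓ normalizer R)`, `g = (pr k θ).comp Γ.subtype` (seen on the
synonym `PM`), `σ` from `exists_sigma`, `t` from `exists_isTr`, `j = brq φ i`.
Equivariance: `md_smul`, `act_mapDomain`, `act_of`; `σ γ j = j`: `fix_Br_norm`; norm: `pr_norm`,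
`mem_sm`; nilpotency: `trc_nil` through the injective `mapDomainAlgHom`; permutation of the `M μ`:
`nrm`, `mem_sm`; last hypothesis: `sm_iSup`, `mem_jp_sm`, `hh_bound` with `S = ⋃ κ ∈ O, S κ`. -/
theorem SB_step (p m w a c' : ℕ) [Fact p.Prime] : ∃ c : ℕ, ∀ (k G Ω : Type) [Field k] [CharP k p]
    [Group G] [Finite G] [Finite Ω] (θ : G →* Equiv.Perm Ω) (D R : Subgroup G)
    (i : MonoidAlgebra k G), IsPGroup p D → Nat.card D ≤ m → Prim D i → Br D i ≠ 0 → R < D →
    (∀ R' : Subgroup G, R < R' → R' ≤ D → FR θ R' i ≤ c') → SB θ R i w a c := by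
  obtain ⟨c, hc⟩ := stepB p m (2 ^ m * c') w a
  refine ⟨c, ?_⟩
  intro k G Ω _ _ _ _ _ θ D R i hD hm hi hB hRD hFR C ι _ _ _ φ eb ε S s hM Y _ _ _ _ _ _ hY
  classical
  have hRN : R ≤ D ⊓ Subgroup.normalizer (R : Set G) := le_inf hRD.le Subgroup.le_normalizer
  obtain ⟨T, _, t, ht⟩ := exists_isTr hRN
  obtain ⟨σ, hσ⟩ := exists_sigma (k := k) hM.inj hM.rng
  have hinj : Function.Injective (mapDomainAlgHom k k φ) :=
    Function.LeftInverse.injective (brq_map hM.inj)
  have hj : mapDomainAlgHom k k φ (brq φ i) = Br R i := map_brq hM.inj hM.rng i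
  have hact : act k (θ.comp φ) (brq φ i) = act k θ (Br R i) := by rw [← act_mapDomain, hj]
  have hfx : ∀ g, ∀ ω ∈ fixS θ R, (θ.comp φ) g ω ∈ fixS θ R := fun g ω hω =>
    fixS_norm θ (Subgroup.centralizer_le_normalizer _ (hM.rng ▸ ⟨g, rfl⟩)) hω
  have hS : ∀ μ g, ∀ ω ∈ S μ, (θ.comp φ) g ω ∈ S μ := hM.S_inv
  let g : Representation k ↥(D ⊓ Subgroup.normalizer (R : Set G)) (PM k (θ.comp φ)) :=
    (pr k θ).comp (Subgroup.subtype _)
  refine hc k (MonoidAlgebra k C) (PM k (θ.comp φ)) ↥(D ⊓ Subgroup.normalizer (R : Set G)) ι T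
    g (fun γ => σ ⟨γ, γ.2.2⟩) (fun b => ⟨t b, ht.1 b⟩)
    (brq φ i) eb ε _ _ s (hD.to_le inf_le_left)
    ((Subgroup.card_le_of_le inf_le_left).trans hm) ?_
    (brq_idem p (hD.to_le hRD.le) hM.inj hM.rng hi.1 (hi.2.2.1.mono hRD.le)) ?_ ?_ ?_ hM.pk ?_ ?_
    Y hY
  · exact fun γ y v => b3_equiv θ φ (hσ ⟨γ, γ.2.2⟩ y) v
  · intro γ
    apply hinj
    rw [hσ, hj, fix_Br_norm hi.2.2.1 γ γ.2, mul_assoc, ← map_mul, mul_inv_cancel, map_one, mul_one]
  · exact fun γ v hv => pr_norm θ hRN ht ((mem_sm hfx).1 hv) γ.2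
  · intro x
    have h1 : Br R (mapDomainAlgHom k k φ x) = mapDomainAlgHom k k φ x := by
      rw [← map_brq hM.inj hM.rng, brq_map hM.inj]
    have h2 := trc_nil p hD hRD hi hB ht h1
    rw [← IsNilpotent.map_iff hinj, map_sum]
    simp only [hσ]
    simpa only [map_mul, hj, trc] using h2
  · intro γ μ
    obtain ⟨κ, h1, h2⟩ := hM.nrm γ γ.2.2 μ
    exact ⟨κ, h1, fun v => (mem_sm (hS μ)).trans ((b3_spt θ γ h2 v).trans (mem_sm (hS κ)).symm)⟩
  · intro O _
    have hU : ∀ g, ∀ ω ∈ ⋃ κ ∈ O, S κ, (θ.comp φ) g ω ∈ ⋃ κ ∈ O, S κ := by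
      intro g ω hω
      simp only [Set.mem_iUnion] at hω ⊢
      obtain ⟨κ, h1, h2⟩ := hω
      exact ⟨κ, h1, hS κ g ω h2⟩
    have he : jp k (brq φ i) (⨆ κ ∈ O, sm k (θ.comp φ) (S κ)) =
        (spt k (⋃ κ ∈ O, S κ)).map (act k θ (Br R i)) := by
      rw [sm_iSup hS, ← hact]
      exact Submodule.ext fun v => mem_jp_sm hU _
    rw [he]
    refine (hh_bound p θ hD hRD.le hi.1 hi.2.2.1 ht
      (Set.iUnion₂_subset fun κ _ => hM.S_sub κ) hFR (_ ⊓ g.invariants) inf_le_left
      (fun v hv γ hγ => hv.2 ⟨γ, hγ⟩) fun v hv => ?_).trans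
      (add_le_add le_rfl (Nat.mul_le_mul_right _ (Nat.pow_le_pow_right two_pos hm)))
    rw [← hact]
    exact (mem_sm hU).1 (Submodule.smul_mem _ (brq φ i) ((mem_sm hU).2 hv))

/- PLAN: by induction on `r` there is `c r` that works for all `R ≤ D` with
`Nat.card D ≤ Nat.card R + r` (`r = 0`: `R = D`, `SB_top`; step: `max` of `1` and the constant of
`SB_step` for `c' = c r * w`, `FR_le`; `SB` is monotone in `c`).  Take `r = m`. -/
theorem recB (p m w a : ℕ) [Fact p.Prime] : ∃ c : ℕ, ∀ (k G Ω : Type) [Field k] [CharP k p]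
    [IsAlgClosed k] [Group G] [Finite G] [Finite Ω] (θ : G →* Equiv.Perm Ω) (D : Subgroup G)
    (i : MonoidAlgebra k G), IsPGroup p D → Nat.card D ≤ m → Prim D i → Br D i ≠ 0 →
    (∀ R : Subgroup G, R ≤ D → HasMdl k θ R w a) → ∀ R : Subgroup G, R ≤ D → SB θ R i w a c := by
  have key : ∀ r : ℕ, ∃ c : ℕ, ∀ (k G Ω : Type) [Field k] [CharP k p]
      [IsAlgClosed k] [Group G] [Finite G] [Finite Ω] (θ : G →* Equiv.Perm Ω) (D : Subgroup G)
      (i : MonoidAlgebra k G), IsPGroup p D → Nat.card D ≤ m → Prim D i → Br D i ≠ 0 →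
      (∀ R : Subgroup G, R ≤ D → HasMdl k θ R w a) → ∀ R : Subgroup G, R ≤ D →
      Nat.card D ≤ Nat.card R + r → SB θ R i w a c := by
    intro r
    induction r with
    | zero =>
      refine ⟨1, fun k G Ω _ _ _ _ _ _ θ D i hD _ hi _ _ R hR hc => ?_⟩
      obtain rfl : R = D := Subgroup.eq_of_le_of_card_ge hR hc
      exact SB_top p θ hD hi w a
    | succ r ih =>
      obtain ⟨c, hc⟩ := ih
      obtain ⟨c1, hc1⟩ := SB_step p m w a (c * w)
      refine ⟨max 1 c1, fun k G Ω _ _ _ _ _ _ θ D i hD hm hi hB hM R hR hr => ?_⟩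
      intro C ι _ _ _ φ eb ε S s hI Y _ _ _ _ _ _ hY
      rcases hR.eq_or_lt with rfl | hR'
      · exact (SB_top p θ hD hi w a C ι φ eb ε S s hI Y hY).trans (le_max_left _ _)
      · refine (hc1 k G Ω θ D R i hD hm hi hB hR' (fun R' h1 h2 => ?_) C ι φ eb ε S s hI Y
          hY).trans (le_max_right _ _)
        refine FR_le p (hD.to_le h2) hi.1 (hi.2.2.1.mono h2) (hM R' h2)
          (hc k G Ω θ D i hD hm hi hB hM R' h2 ?_)
        have h3 : Nat.card R < Nat.card R' := by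
          by_contra h4
          exact h1.ne (Subgroup.eq_of_le_of_card_ge h1.le (not_lt.1 h4))
        omega
  obtain ⟨c, hc⟩ := key m
  exact ⟨c, fun k G Ω _ _ _ _ _ _ θ D i hD hm hi hB hM R hR =>
    hc k G Ω θ D i hD hm hi hB hM R hR (hm.trans (Nat.le_add_left _ _))⟩

end Pool.Agent.Puig
end

-- merged part: Pool.Agent.Work.MP_cea1f0_al.C3
section
/-! From the characteristic zero data to the modular data. -/

namespace Pool.Agent.Puig

open Module

variable {O : ValuationSubring ℂ} {C Ω ι : Type} [Group C] [Fintype C] [Fintype ι]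

theorem c3_sum {k : Type} [Field k] (f : MonoidAlgebra k C →ₗ[k] k) (x : MonoidAlgebra k C) :
    f x = ∑ g, x.coeff g * f (MonoidAlgebra.of k C g) := by
  conv_lhs => rw [← x.sum_coeff_single, Finsupp.sum_fintype _ _ (by simp), map_sum]
  exact Finset.sum_congr rfl fun g _ => by rw [← smul_eq_mul, ← map_smul, MonoidAlgebra.smul_of]

theorem c3_comm {k A : Type} [Field k] [Ring A] [Algebra k A] (Y : Type) [AddCommGroup Y]
    [Module k Y] [Module A Y] [IsScalarTower k A Y] [FiniteDimensional k Y] (x y : A) :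
    trY k Y (x * y) = trY k Y (y * x) := by
  simp only [trY, LinearMap.comp_apply, AlgHom.toLinearMap_apply, map_mul]
  exact LinearMap.trace_mul_comm k _ _

theorem c3_id {k A : Type} [Field k] [Ring A] [Algebra k A] (Y : Type) [AddCommGroup Y]
    [Module k Y] [Module A Y] [IsScalarTower k A Y] {x : A} (h : ∀ v : Y, x • v = v) (y : A) :
    trY k Y (x * y) = trY k Y y :=
  congrArg (LinearMap.trace k Y) (LinearMap.ext fun w => (mul_smul x y w).trans (h _))

/- PLAN: `k = kO O` (`kO_algClosed`, `kO_charP`), `t a g = trY k (Y a) (of g)` is a class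
function; `f a = l ∘ t a` with `l` from `exists_lift`; `trn p e (f a)` has values in `O` and its
reduction is `t a` on the `p`-regular elements (`∑ h, piO (e h) * t a (h * x) = trY (red e * of x)`
and `red e` acts as the identity), zero elsewhere.  These reductions are independent: a relation
holds on `p`-regular elements, so everywhere (`exists_pparts`, `trY_unip`), so for the linear
forms (`MonoidAlgebra.lhom_ext'` or induction), `trY_linInd`.  `linInd_of_red`; an independent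
family in `span (range y)` has at most `card ι` members (`finrank_range_le_card`,
`LinearIndependent.fintype_card_le_finrank`). -/
theorem count_le (p : ℕ) [Fact p.Prime] (hO : (p : ℂ) ∈ O.nonunits) {e : C → ℂ}
    (he : ∀ g, e g ∈ O) {y : ι → C → ℂ}
    (hy : ∀ f, ClassFn f → trn p e f ∈ Submodule.span ℂ (Set.range y)) {J : Type} [Fintype J]
    (Y : J → Type) [∀ a, AddCommGroup (Y a)] [∀ a, Module (kO O) (Y a)]
    [∀ a, Module (MonoidAlgebra (kO O) C) (Y a)]
    [∀ a, IsScalarTower (kO O) (MonoidAlgebra (kO O) C) (Y a)]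
    [∀ a, FiniteDimensional (kO O) (Y a)] [∀ a, IsSimpleModule (MonoidAlgebra (kO O) C) (Y a)]
    (h : ∀ a b, Nonempty (Y a ≃ₗ[MonoidAlgebra (kO O) C] Y b) → a = b)
    (hY : ∀ a (v : Y a), red O e • v = v) : Fintype.card J ≤ Fintype.card ι := by
  classical
  have := kO_algClosed O
  have := kO_charP p hO
  obtain ⟨l, hl⟩ := exists_lift O
  let t : J → C → kO O := fun a g => trY (kO O) (Y a) (MonoidAlgebra.of (kO O) C g)
  let v : J → C → ℂ := fun a => trn p e fun g => l (t a g)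
  have m : ∀ a g x, e g * l (t a x) ∈ O := fun a g x => mul_mem (he g) (hl _).1
  have hv : ∀ a g, v a g ∈ O := fun a g => by
    simp only [v, trn]
    split_ifs
    exacts [sum_mem fun _ _ => m _ _ _, zero_mem _]
  have r : ∀ a g, (orderOf g).Coprime p → piO O (v a g) = t a g := fun a g hg => by
    have k := c3_sum (trY (kO O) (Y a) ∘ₗ LinearMap.mulRight _ (MonoidAlgebra.of (kO O) C g))
      (red O e)
    simp only [LinearMap.comp_apply, LinearMap.mulRight_apply, ← map_mul, coeff_red] at k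
    simp only [v, trn, if_pos hg]
    rw [piO_sum _ fun _ _ => m _ _ _, Finset.sum_congr rfl fun x _ => by
      rw [piO_mul (he x) (hl _).1, (hl _).2], ← k]
    exact c3_id (Y a) (hY a) _
  refine (linearIndependent_le_span_aux' v (linInd_of_red hv ?_) (Set.range y) ?_).trans
    (Fintype.card_range_le y)
  · have li := Fintype.linearIndependent_iff.1 (trY_linInd (k := kO O) Y h)
    refine Fintype.linearIndependent_iff.2 fun c hc => li c (LinearMap.ext fun x => ?_)
    rw [c3_sum]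
    refine Finset.sum_eq_zero fun g _ => mul_eq_zero_of_right _ ?_
    obtain ⟨s, u, n, rfl, h1, h2, h3, -⟩ := exists_pparts p g
    have k := congrFun hc s
    simp only [Finset.sum_apply, Pi.smul_apply, r _ s h2] at k
    rw [LinearMap.sum_apply]
    refine (Finset.sum_congr rfl fun a _ => congrArg (c a • ·) ?_).trans k
    rw [map_mul]
    exact trY_unip p (Y a) (h1.map _) (r := n) (by rw [← map_pow, h3, map_one])
  · refine Set.range_subset_iff.2 fun a => hy _ fun g x => congrArg l ?_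
    simp only [t]
    rw [map_mul, c3_comm, ← map_mul, inv_mul_cancel_left]

/- PLAN: `idem`: `red_cv`; `sub`: `mem_sm`; `diag`, `tri`, `tot`: `dm_red`; `full`: by `dm_red`,
`dm_sm`, `finrank_spt` the idempotent `act (red e)` maps `spt Z` onto itself.  `smp`: for every `μ`
`exists_simple` for `red (ε μ)` on `sm (S μ)` gives a maximal left ideal `I μ`; `red e - 1` kills
`A ⧸ I μ`; these modules are pairwise non isomorphic (`dm_congr`, `tri` twice).  A simple `Y` is
`A ⧸ I` (`isSimpleModule_iff_quot_maximal`); if it is isomorphic to no `A ⧸ I μ`, apply `count_le`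
to the family of ideals indexed by `Option ι`. -/
theorem JD.pk (p : ℕ) [Fact p.Prime] (hO : (p : ℂ) ∈ O.nonunits) [Finite Ω]
    {θ : C →* Equiv.Perm Ω} {Z : Set Ω} {e : C → ℂ} {ε : ι → C → ℂ} {S : ι → Set Ω} {s : ι → ℕ}
    {w a : ℕ} (h : JD p O θ Z e ε S s w a) :
    Pk (kO O) (sm (kO O) θ Z) (red O e) (fun μ => red O (ε μ)) (fun μ => sm (kO O) θ (S μ)) s w a := by
  have idem : ∀ μ, IsIdempotentElem (red O (ε μ)) := fun μ =>
    (red_cv (h.ε_mem μ) (h.ε_mem μ)).symm.trans (congrArg _ (h.ε_idem μ))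
  have ee : red O e * red O e = red O e :=
    (red_cv h.e_mem h.e_mem).symm.trans (congrArg _ h.e_idem)
  have sub : ∀ μ, sm (kO O) θ (S μ) ≤ sm (kO O) θ Z := fun μ v hv => (mem_sm h.Z_inv).2
    fun ω k => (mem_sm (h.S_inv μ)).1 hv ω fun l => k (h.S_sub μ l)
  have full : ∀ v ∈ sm (kO O) θ Z, red O e • v = v := fun v hv => by
    have k := (dm_red θ h.Z_inv h.e_mem h.e_idem).trans h.full
    rw [Nat.cast_inj, dm_sm h.Z_inv, ← finrank_spt (k := kO O)] at k
    have k2 := Submodule.eq_of_le_of_finrank_eq (by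
      rintro _ ⟨u, hu, rfl⟩
      exact (mem_sm h.Z_inv).1 ((sm (kO O) θ Z).smul_mem (red O e) ((mem_sm h.Z_inv).2 hu))) k
    obtain ⟨u, -, rfl⟩ := k2.ge ((mem_sm h.Z_inv).1 hv)
    exact (mul_smul (red O e) (red O e) (show PM (kO O) θ from u)).symm.trans (by rw [ee]; rfl)
  have d := fun κ μ => dm_red θ (h.S_inv μ) (h.ε_mem κ) (h.ε_idem κ)
  have diag : ∀ μ, dm (kO O) (red O (ε μ)) (sm (kO O) θ (S μ)) = 1 := fun μ =>
    Nat.cast_eq_one.1 ((d μ μ).trans (h.diag μ))
  have tri : ∀ κ μ, dm (kO O) (red O (ε κ)) (sm (kO O) θ (S μ)) ≠ 0 → κ = μ ∨ s μ < s κ :=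
    fun κ μ k => h.tri κ μ (d κ μ ▸ Nat.cast_ne_zero.2 k)
  refine ⟨idem, sub, full, diag, tri, ?_, h.bd, fun Y _ _ _ _ _ _ hY => ?_⟩
  · have k := h.tot
    simp only [← fun κ => dm_red θ h.Z_inv (h.ε_mem κ) (h.ε_idem κ), Complex.norm_natCast] at k
    exact_mod_cast k
  have : ∀ μ, FiniteDimensional (kO O) (sm (kO O) θ (S μ)) := fun μ =>
    .of_injective ((sm (kO O) θ (S μ)).subtype.restrictScalars (kO O)) Subtype.val_injective
  choose I h0 h1 h2 h3 using fun μ => exists_simple (idem μ) (sm (kO O) θ (S μ))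
    ((diag μ).trans_ne one_ne_zero)
  obtain ⟨I₀, m, ⟨φ⟩⟩ := isSimpleModule_iff_quot_maximal.1 ‹_›
  suffices k : ∃ μ, Nonempty ((_ ⧸ I₀) ≃ₗ[MonoidAlgebra (kO O) C] _ ⧸ I μ) by
    obtain ⟨μ, ⟨ψ⟩⟩ := k
    simp only [fun x => dm_congr (k := kO O) x (φ.trans ψ)]
    exact ⟨μ, h1 μ, h2 μ⟩
  by_contra! k
  have t : ∀ κ μ, ((_ ⧸ I κ) ≃ₗ[MonoidAlgebra (kO O) C] _ ⧸ I μ) → κ = μ ∨ s μ < s κ :=
    fun κ μ ψ => tri κ μ fun l => h1 κ (by
      rw [dm_congr _ ψ]
      exact Nat.le_zero.1 (l ▸ h2 μ _ (idem κ)))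
  let I' : Option ι → Ideal (MonoidAlgebra (kO O) C) := fun o => o.elim I₀ I
  have : ∀ o, IsSimpleModule (MonoidAlgebra (kO O) C) (_ ⧸ I' o) := fun o =>
    isSimpleModule_iff_quot_maximal.2 ⟨I' o, by cases o; exacts [m, h0 _], ⟨.refl _ _⟩⟩
  obtain ⟨y, hy⟩ := h.img
  have c := count_le p hO h.e_mem hy (fun o => _ ⧸ I' o) ?_ ?_
  · simp at c
  · rintro (_ | κ) (_ | μ) ⟨ψ⟩
    · rfl
    · exact (k μ).elim ψ
    · exact (k κ).elim ψ.symm
    · rcases t κ μ ψ with l | l
      · rw [l]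
      · rcases t μ κ ψ.symm with l' | l'
        exacts [by rw [l'], absurd l l'.not_gt]
  · rintro (_ | μ) v
    · exact φ.symm.injective ((φ.symm.map_smul _ v).trans (hY _))
    · have := h3 μ (red O e - 1) (fun u => Subtype.ext ?_) v
      · rwa [sub_smul, one_smul, sub_eq_zero] at this
      · rw [Submodule.coe_smul, sub_smul, one_smul, full _ (sub μ u.2), sub_self]
        rfl

end Pool.Agent.Puig
end

-- merged part: Pool.Agent.Work.MP_cea1f0_al.C4
section
/-! Products and transport of the characteristic zero data. -/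

namespace Pool.Agent.Puig

open Classical

section
variable {J : Type} {C Ω : J → Type} [∀ j, Group (C j)]

/-- The product action. -/
def piAct (θ : ∀ j, C j →* Equiv.Perm (Ω j)) : (∀ j, C j) →* Equiv.Perm (∀ j, Ω j) :=
  MonoidHom.toHomPerm
    { toFun := fun g ω j => θ j (g j) (ω j)
      map_one' := by funext ω j; simp; rfl
      map_mul' := fun g h => by funext ω j; simp; rfl }

theorem piAct_apply (θ : ∀ j, C j →* Equiv.Perm (Ω j)) (g : ∀ j, C j) (ω : ∀ j, Ω j) (j : J) :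
    piAct θ g ω j = θ j (g j) (ω j) := rfl

variable [Fintype J]

/-- The outer tensor product of functions. -/
noncomputable def tens (x : ∀ j, C j → ℂ) : (∀ j, C j) → ℂ := fun g => ∏ j, x j (g j)

variable [∀ j, Fintype (C j)]

/- PLAN: `Finset.prod_univ_sum` / `Fintype.piFinset_univ`. -/
theorem cv_tens (x y : ∀ j, C j → ℂ) : cv (tens x) (tens y) = tens fun j => cv (x j) (y j) := by
  funext g
  simp only [cv, tens]
  rw [Fintype.prod_sum]
  refine Finset.sum_congr rfl fun h _ => ?_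
  rw [Finset.prod_mul_distrib]
  rfl

omit [∀ j, Fintype (C j)] in
theorem c4_pch_pi (θ : ∀ j, C j →* Equiv.Perm (Ω j)) (S : ∀ j, Set (Ω j)) (g : ∀ j, C j) :
    pch (piAct θ) (Set.pi Set.univ S) g = ∏ j, pch (θ j) (S j) (g j) := by
  simp only [pch]
  rw [← Nat.card_pi]
  refine Nat.card_congr ((Equiv.subtypeEquivRight fun ω => ?_).trans
    (Equiv.subtypePiEquivPi (p := fun j (a : Ω j) => a ∈ S j ∧ θ j (g j) a = a)))
  constructor
  · rintro ⟨h1, h2⟩ j
    exact ⟨h1 j (Set.mem_univ j), congrFun h2 j⟩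
  · intro h
    exact ⟨fun j _ => (h j).1, funext fun j => (h j).2⟩

/- PLAN: the fixed points in `Set.pi` are the product of the fixed points (`Nat.card_pi`,
`Equiv.subtypePiEquivPi`). -/
theorem pev_tens (θ : ∀ j, C j →* Equiv.Perm (Ω j)) (S : ∀ j, Set (Ω j)) (x : ∀ j, C j → ℂ) :
    pev (piAct θ) (Set.pi Set.univ S) (tens x) = ∏ j, pev (θ j) (S j) (x j) := by
  simp only [pev, tens]
  rw [Fintype.prod_sum]
  refine Finset.sum_congr rfl fun g _ => ?_
  rw [Finset.prod_mul_distrib, c4_pch_pi, Nat.cast_prod]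

omit [∀ j, Fintype (C j)] in
theorem c4_coprime_iff (p : ℕ) (g : ∀ j, C j) :
    (orderOf g).Coprime p ↔ ∀ j, (orderOf (g j)).Coprime p := by
  constructor
  · intro h j
    exact Nat.Coprime.coprime_dvd_left (orderOf_apply_dvd_orderOf j) h
  · intro h
    have h1 : orderOf g ∣ ∏ j, orderOf (g j) := by
      rw [orderOf_dvd_iff_pow_eq_one]
      funext j
      rw [Pi.pow_apply, Pi.one_apply, ← orderOf_dvd_iff_pow_eq_one]
      exact Finset.dvd_prod_of_mem (fun j => orderOf (g j)) (Finset.mem_univ j)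
    exact Nat.Coprime.coprime_dvd_left h1 (Nat.Coprime.prod_left fun j _ => h j)

/- PLAN: `(orderOf g).Coprime p` iff it holds for all components (`Pi.orderOf`/`orderOf_dvd_iff_pow_eq_one`). -/
theorem trn_tens (p : ℕ) (e f : ∀ j, C j → ℂ) :
    trn p (tens e) (tens f) = tens fun j => trn p (e j) (f j) := by
  funext g
  simp only [trn, tens]
  by_cases h : (orderOf g).Coprime p
  · rw [if_pos h]
    have h' := (c4_coprime_iff p g).1 h
    rw [Finset.prod_congr rfl fun j _ => if_pos (h' j), Fintype.prod_sum]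
    refine Finset.sum_congr rfl fun k _ => ?_
    rw [Finset.prod_mul_distrib]
    rfl
  · rw [if_neg h]
    rw [c4_coprime_iff, not_forall] at h
    obtain ⟨j, hj⟩ := h
    exact (Finset.prod_eq_zero (Finset.mem_univ j) (if_neg hj)).symm

/-- Number of elements conjugating `y` to `g`. -/
noncomputable def c4_cnt {G : Type} [Group G] [Fintype G] (g : G) : G → ℂ :=
  fun y => ∑ h, if h * y * h⁻¹ = g then 1 else 0

theorem c4_cnt_class {G : Type} [Group G] [Fintype G] (g : G) : ClassFn (c4_cnt g) := by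
  intro y k
  simp only [c4_cnt]
  refine Fintype.sum_equiv (Equiv.mulRight k) _ _ fun h => ?_
  have : h * (k * y * k⁻¹) * h⁻¹ = h * k * y * (h * k)⁻¹ := by group
  rw [this]
  rfl

theorem c4_cnt_tens (g : ∀ j, C j) : (tens fun j => c4_cnt (g j)) = c4_cnt g := by
  funext y
  simp only [tens, c4_cnt]
  rw [Fintype.prod_sum]
  refine Finset.sum_congr rfl fun h _ => ?_
  by_cases hh : h * y * h⁻¹ = g
  · rw [if_pos hh]
    exact Finset.prod_eq_one fun j _ => if_pos (congrFun hh j)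
  · rw [if_neg hh]
    obtain ⟨j, hj⟩ := Function.ne_iff.1 hh
    exact Finset.prod_eq_zero (Finset.mem_univ j) (if_neg hj)

theorem c4_class_eq {G : Type} [Group G] [Fintype G] {f : G → ℂ} (hf : ClassFn f) :
    f = ∑ g, (f g / (Fintype.card G : ℂ)) • c4_cnt g := by
  funext y
  have hc : (Fintype.card G : ℂ) ≠ 0 := Nat.cast_ne_zero.2 Fintype.card_ne_zero
  simp only [Finset.sum_apply, Pi.smul_apply, smul_eq_mul, c4_cnt, Finset.mul_sum]
  rw [Finset.sum_comm]
  have : ∀ h : G, ∑ g, f g / (Fintype.card G : ℂ) * (if h * y * h⁻¹ = g then 1 else 0)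
      = f y / (Fintype.card G : ℂ) := by
    intro h
    rw [Finset.sum_eq_single (h * y * h⁻¹)]
    · rw [if_pos rfl, mul_one, hf y h]
    · intro b _ hb
      rw [if_neg (Ne.symm hb), mul_zero]
    · intro hh
      exact absurd (Finset.mem_univ _) hh
  rw [Finset.sum_congr rfl fun h _ => this h, Finset.sum_const, Finset.card_univ, nsmul_eq_mul]
  field_simp

/- PLAN: `f = ∑ g, (f g / card of the class of g) • indicator of the class of g`, or sum over
`∀ j, ConjClasses (C j)`; the indicator of a class is a `tens` of indicators. -/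
theorem class_span {f : (∀ j, C j) → ℂ} (hf : ClassFn f) :
    f ∈ Submodule.span ℂ {x | ∃ u : ∀ j, C j → ℂ, (∀ j, ClassFn (u j)) ∧ x = tens u} := by
  rw [c4_class_eq hf]
  refine Submodule.sum_mem _ fun g _ => Submodule.smul_mem _ _ (Submodule.subset_span ?_)
  exact ⟨fun j => c4_cnt (g j), fun j => c4_cnt_class (g j), (c4_cnt_tens g).symm⟩

theorem tens_span {ι : J → Type} [∀ j, Fintype (ι j)] (y : ∀ j, ι j → C j → ℂ) {u : ∀ j, C j → ℂ}
    (hu : ∀ j, u j ∈ Submodule.span ℂ (Set.range (y j))) :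
    tens u ∈ Submodule.span ℂ (Set.range fun μ : ∀ j, ι j => tens fun j => y j (μ j)) := by
  choose c hc using fun j => (Submodule.mem_span_range_iff_exists_fun ℂ).1 (hu j)
  refine (Submodule.mem_span_range_iff_exists_fun ℂ).2 ⟨fun μ => ∏ j, c j (μ j), ?_⟩
  funext g
  simp only [Finset.sum_apply, Pi.smul_apply, smul_eq_mul, tens]
  have : ∀ j, u j (g j) = ∑ i, c j i * y j i (g j) := by
    intro j
    rw [← hc j]
    simp only [Finset.sum_apply, Pi.smul_apply, smul_eq_mul]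
  rw [Finset.prod_congr rfl fun j _ => this j, Fintype.prod_sum]
  refine Finset.sum_congr rfl fun μ _ => ?_
  rw [Finset.prod_mul_distrib]

theorem c4_trn_add {G : Type} [Group G] [Fintype G] (p : ℕ) (e f f' : G → ℂ) :
    trn p e (f + f') = trn p e f + trn p e f' := by
  funext x
  simp only [trn, Pi.add_apply]
  split_ifs
  · simp only [mul_add, Finset.sum_add_distrib]
  · simp

theorem c4_trn_smul {G : Type} [Group G] [Fintype G] (p : ℕ) (e f : G → ℂ) (c : ℂ) :
    trn p e (c • f) = c • trn p e f := by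
  funext x
  simp only [trn, Pi.smul_apply, smul_eq_mul]
  split_ifs
  · rw [Finset.mul_sum]
    exact Finset.sum_congr rfl fun h _ => by ring
  · simp

theorem c4_trn_zero {G : Type} [Group G] [Fintype G] (p : ℕ) (e : G → ℂ) :
    trn p e 0 = 0 := by
  funext x
  simp [trn]

/- PLAN: the lemmas above; `trn p e` is linear; `Set.pi_univ`; `Finset.sum_lt_sum` for `tri`. -/
theorem JD.pi {p : ℕ} {O : ValuationSubring ℂ} {ι : J → Type} [∀ j, Fintype (ι j)]
    [∀ j, Finite (Ω j)] {θ : ∀ j, C j →* Equiv.Perm (Ω j)} {e : ∀ j, C j → ℂ}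
    {ε : ∀ j, ι j → C j → ℂ} {S : ∀ j, ι j → Set (Ω j)} {s : ∀ j, ι j → ℕ} {w a : ℕ}
    (h : ∀ j, JD p O (θ j) Set.univ (e j) (ε j) (S j) (s j) w a) :
    JD p O (piAct θ) Set.univ (tens e) (fun μ : ∀ j, ι j => tens fun j => ε j (μ j))
      (fun μ => Set.pi Set.univ fun j => S j (μ j)) (fun μ => ∑ j, s j (μ j))
      (w ^ Fintype.card J) (Fintype.card J * a) := by
  refine ⟨fun g => ?_, fun g k => ?_, ?_, fun μ g => ?_, fun μ => ?_, fun _ _ _ => Set.mem_univ _,
    fun μ g ω hω j hj => ?_, fun _ => Set.subset_univ _, ?_, fun μ => ?_, fun κ μ hκ => ?_, ?_,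
    fun μ => ?_, ?_⟩
  · exact prod_mem fun j _ => (h j).e_mem (g j)
  · exact Finset.prod_congr rfl fun j _ => (h j).e_class (g j) (k j)
  · rw [cv_tens]
    exact congrArg tens (funext fun j => (h j).e_idem)
  · exact prod_mem fun j _ => (h j).ε_mem (μ j) (g j)
  · rw [cv_tens]
    exact congrArg tens (funext fun j => (h j).ε_idem (μ j))
  · exact (h j).S_inv (μ j) (g j) (ω j) (hω j hj)
  · have h1 := pev_tens θ (fun _ => Set.univ) e
    rw [Set.pi_univ] at h1
    rw [h1, Finset.prod_congr rfl fun j _ => (h j).full]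
    simp only [Nat.card_univ]
    rw [Nat.card_pi, Nat.cast_prod]
  · rw [pev_tens]
    exact Finset.prod_eq_one fun j _ => (h j).diag (μ j)
  · rw [pev_tens, Finset.prod_ne_zero_iff] at hκ
    have h1 := fun j => (h j).tri (κ j) (μ j) (hκ j (Finset.mem_univ j))
    by_cases hκμ : κ = μ
    · exact Or.inl hκμ
    · right
      obtain ⟨j, hj⟩ := Function.ne_iff.1 hκμ
      refine Finset.sum_lt_sum (fun i _ => ?_) ⟨j, Finset.mem_univ j, (h1 j).resolve_left hj⟩
      rcases h1 i with h2 | h2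
      · rw [h2]
      · exact h2.le
  · have h1 : ∀ κ : ∀ j, ι j, ‖pev (piAct θ) Set.univ (tens fun j => ε j (κ j))‖
        = ∏ j, ‖pev (θ j) Set.univ (ε j (κ j))‖ := by
      intro κ
      have h1 := pev_tens θ (fun _ => Set.univ) (fun j => ε j (κ j))
      rw [Set.pi_univ] at h1
      rw [h1, norm_prod]
    rw [Finset.sum_congr rfl fun κ _ => h1 κ,
      ← Fintype.prod_sum (fun j (i : ι j) => ‖pev (θ j) Set.univ (ε j i)‖)]
    calc ∏ j, ∑ i : ι j, ‖pev (θ j) Set.univ (ε j i)‖ ≤ ∏ _j : J, (w : ℝ) :=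
          Finset.prod_le_prod (fun j _ => Finset.sum_nonneg fun _ _ => norm_nonneg _)
            fun j _ => (h j).tot
      _ = ((w ^ Fintype.card J : ℕ) : ℝ) := by
          rw [Finset.prod_const, Finset.card_univ, Nat.cast_pow]
  · have := Finset.sum_le_card_nsmul Finset.univ (fun j => s j (μ j)) a fun j _ => (h j).bd (μ j)
    simpa using this
  · choose y hy using fun j => (h j).img
    refine ⟨fun μ => tens fun j => y j (μ j), fun f hf => ?_⟩
    refine Submodule.span_induction (p := fun f _ => trn p (tens e) f ∈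
      Submodule.span ℂ (Set.range fun μ : ∀ j, ι j => tens fun j => y j (μ j))) ?_ ?_ ?_ ?_
      (class_span hf)
    · rintro x ⟨u, hu, rfl⟩
      rw [trn_tens]
      exact tens_span y fun j => hy j (u j) (hu j)
    · rw [c4_trn_zero]
      exact Submodule.zero_mem _
    · intro x z _ _ hx hz
      rw [c4_trn_add]
      exact Submodule.add_mem _ hx hz
    · intro c x _ hx
      rw [c4_trn_smul]
      exact Submodule.smul_mem _ _ hx

end

section
variable {C Ω Ω' ι : Type} [Group C] [Fintype C] [Fintype ι] {p : ℕ} {O : ValuationSubring ℂ}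
  {e : C → ℂ} {ε : ι → C → ℂ} {s : ι → ℕ} {w a : ℕ}

omit [Fintype C] in
theorem c4_pch_map {θ : C →* Equiv.Perm Ω} {θ' : C →* Equiv.Perm Ω'} {β : Ω → Ω'}
    (hβ : Function.Injective β) (hθ : ∀ c ω, β (θ c ω) = θ' c (β ω)) (S : Set Ω) (g : C) :
    pch θ' (β '' S) g = pch θ S g := by
  have h1 : {ω' | ω' ∈ β '' S ∧ θ' g ω' = ω'} = β '' {ω | ω ∈ S ∧ θ g ω = ω} := by
    ext ω'
    constructor
    · rintro ⟨⟨ω, hω, rfl⟩, h2⟩
      exact ⟨ω, ⟨hω, hβ (by rw [hθ, h2])⟩, rfl⟩
    · rintro ⟨ω, ⟨hω, h2⟩, rfl⟩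
      exact ⟨⟨ω, hω, rfl⟩, by rw [← hθ, h2]⟩
  have h2 := Nat.card_image_of_injective hβ {ω | ω ∈ S ∧ θ g ω = ω}
  rw [← h1] at h2
  exact h2

theorem c4_pev_map {θ : C →* Equiv.Perm Ω} {θ' : C →* Equiv.Perm Ω'} {β : Ω → Ω'}
    (hβ : Function.Injective β) (hθ : ∀ c ω, β (θ c ω) = θ' c (β ω)) (S : Set Ω) (x : C → ℂ) :
    pev θ' (β '' S) x = pev θ S x := by
  simp only [pev, c4_pch_map hβ hθ]

theorem JD.map {θ : C →* Equiv.Perm Ω} {θ' : C →* Equiv.Perm Ω'} {Z : Set Ω} {S : ι → Set Ω}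
    (h : JD p O θ Z e ε S s w a) {β : Ω → Ω'} (hβ : Function.Injective β)
    (hθ : ∀ c ω, β (θ c ω) = θ' c (β ω)) : JD p O θ' (β '' Z) e ε (fun μ => β '' S μ) s w a := by
  refine ⟨h.e_mem, h.e_class, h.e_idem, h.ε_mem, h.ε_idem, ?_, ?_,
    fun μ => Set.image_mono (h.S_sub μ), ?_, fun μ => ?_, fun κ μ hκ => ?_, ?_, h.bd, h.img⟩
  · rintro g _ ⟨ω, hω, rfl⟩
    exact ⟨θ g ω, h.Z_inv g ω hω, hθ g ω⟩
  · rintro μ g _ ⟨ω, hω, rfl⟩
    exact ⟨θ g ω, h.S_inv μ g ω hω, hθ g ω⟩
  · rw [c4_pev_map hβ hθ, Nat.card_image_of_injective hβ, h.full]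
  · rw [c4_pev_map hβ hθ, h.diag]
  · rw [c4_pev_map hβ hθ] at hκ
    exact h.tri κ μ hκ
  · simp only [c4_pev_map hβ hθ]
    exact h.tot

theorem JD.mono {θ : C →* Equiv.Perm Ω} {Z : Set Ω} {S : ι → Set Ω} (h : JD p O θ Z e ε S s w a)
    {w' a' : ℕ} (hw : w ≤ w') (ha : a ≤ a') : JD p O θ Z e ε S s w' a' := by
  exact ⟨h.e_mem, h.e_class, h.e_idem, h.ε_mem, h.ε_idem, h.Z_inv, h.S_inv, h.S_sub, h.full,
    h.diag, h.tri, h.tot.trans (Nat.cast_le.2 hw), fun μ => (h.bd μ).trans ha, h.img⟩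

end

end Pool.Agent.Puig
end

-- merged part: Pool.Agent.Work.MP_cea1f0_al.E1a
section
/-! Submodules and automorphisms of an isotypic module. -/

namespace Pool.Agent.Puig

open Module

/-- `X` over `A` looks like the vector space `M` over `E`. -/
def LooksLike (A X E M : Type) [Ring A] [AddCommGroup X] [Module A X] [Field E] [AddCommGroup M]
    [Module E M] : Prop :=
  ∃ (φ : (M ≃ₗ[E] M) ≃* (X ≃ₗ[A] X)) (β : Submodule E M ≃o Submodule A X),
    ∀ (c : M ≃ₗ[E] M) U, β (U.map (c : M →ₗ[E] M)) = (β U).map (φ c : X →ₗ[A] X)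

theorem e1a_aut {A X B M : Type} [Ring A] [AddCommGroup X] [Module A X] [Ring B] [AddCommGroup M]
    [Module B M] (ψ : Module.End B M ≃+* Module.End A X) :
    ∃ φ : (M ≃ₗ[B] M) ≃* (X ≃ₗ[A] X), ∀ c, (φ c : X →ₗ[A] X) = ψ (c : M →ₗ[B] M) :=
  ⟨(LinearMap.GeneralLinearGroup.generalLinearEquiv B M).symm.trans ((Units.mapEquiv
    ψ.toMulEquiv).trans (LinearMap.GeneralLinearGroup.generalLinearEquiv A X)), fun _ => rfl⟩

theorem LooksLike.congr {A X X' E M : Type} [Ring A] [AddCommGroup X] [Module A X]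
    [AddCommGroup X'] [Module A X'] [Field E] [AddCommGroup M] [Module E M]
    (h : LooksLike A X E M) (e : X ≃ₗ[A] X') : LooksLike A X' E M := by
  obtain ⟨φ, β, h⟩ := h
  obtain ⟨χ, hχ⟩ := e1a_aut e.conjRingEquiv
  refine ⟨φ.trans χ, β.trans (Submodule.orderIsoMapComap e), fun c U => ?_⟩
  rw [MulEquiv.trans_apply, hχ, OrderIso.trans_apply, OrderIso.trans_apply, h]
  change ((β U).map _).map (e : X →ₗ[A] X') = ((β U).map (e : X →ₗ[A] X')).map _
  rw [← Submodule.map_comp, ← Submodule.map_comp]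
  congr 1
  ext x
  simp [LinearEquiv.conjRingEquiv]

theorem e1a_surj {A X : Type} [Ring A] [AddCommGroup X] [Module A X] [IsSemisimpleModule A X]
    (U : Submodule A X) : ∃ f : Module.End A X, LinearMap.range f = U :=
  let ⟨_, h⟩ := exists_isCompl U
  ⟨_, Submodule.range_projection h⟩

theorem e1a_le {A X : Type} [Ring A] [AddCommGroup X] [Module A X] [IsSemisimpleModule A X]
    (f g : Module.End A X) : LinearMap.range f ≤ LinearMap.range g ↔ g ∣ f := by
  refine ⟨fun h => ?_, ?_⟩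
  · obtain ⟨u, hu⟩ := IsSemisimpleModule.lifting_property g.rangeRestrict
      g.surjective_rangeRestrict (f.codRestrict _ fun x => h ⟨x, rfl⟩)
    exact ⟨u, LinearMap.ext fun x => (congrArg Subtype.val (LinearMap.congr_fun hu x)).symm⟩
  · rintro ⟨u, rfl⟩
    exact LinearMap.range_comp_le_range u g

/- PLAN: `Module.End A (Fin n → W) ≃+* Matrix (Fin n) (Fin n) (End A W)`
(`endVecRingEquivMatrixEnd`) `≃+* Matrix (Fin n) (Fin n) E ≃+* Module.End E (Fin n → E)`; units
give `φ` (`LinearMap.GeneralLinearGroup.generalLinearEquiv`, `Units.mapEquiv`).  With the ring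
isomorphism `ψ : End E M ≃+* End A X` between endomorphism rings of semisimple modules, `β` can be
built from idempotents: every submodule is the range of an idempotent, and
`range f ≤ range g ↔ ∃ h, f = g * h` for an idempotent `g`; so `β U = ⨆ f with range f ≤ U, range (ψ f)`
has `β (range f) = range (ψ f)` and an inverse of the same form. -/
theorem looksLike_of_ringEquiv {A X E M : Type} [Ring A] [AddCommGroup X] [Module A X]
    [IsSemisimpleModule A X] [Field E] [AddCommGroup M] [Module E M]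
    (ψ : Module.End E M ≃+* Module.End A X) : LooksLike A X E M := by
  obtain ⟨φ, hφ⟩ := e1a_aut ψ
  choose π hπ using e1a_surj (A := E) (X := M)
  have k : ∀ f g : Module.End E M,
      LinearMap.range (ψ f) ≤ LinearMap.range (ψ g) ↔ LinearMap.range f ≤ LinearMap.range g :=
    fun f g => by rw [e1a_le, e1a_le]; exact map_dvd_iff ψ
  have e : ∀ f : Module.End E M, LinearMap.range (ψ (π (LinearMap.range f))) =
      LinearMap.range (ψ f) := fun f =>
    le_antisymm ((k _ _).2 (hπ _).le) ((k _ _).2 (hπ _).ge)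
  refine ⟨φ, OrderIso.ofSurjective (OrderEmbedding.ofMapLEIff (fun U => LinearMap.range (ψ (π U)))
    fun U V => by rw [k, hπ, hπ]) fun V => ?_, fun c U => ?_⟩
  · obtain ⟨g, rfl⟩ := e1a_surj V
    exact ⟨LinearMap.range (ψ.symm g), (e _).trans (by rw [ψ.apply_symm_apply])⟩
  · change LinearMap.range (ψ (π _)) = (LinearMap.range (ψ (π U))).map _
    rw [hφ, ← LinearMap.range_comp, ← Module.End.mul_eq_comp, ← map_mul, ← e ((c : End E M) * π U),
      Module.End.mul_eq_comp, LinearMap.range_comp, hπ]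

theorem looksLike_pi {A W E : Type} [Ring A] [AddCommGroup W] [Module A W] [IsSimpleModule A W]
    [Field E] (e : E ≃+* Module.End A W) (n : ℕ) : LooksLike A (Fin n → W) E (Fin n → E) := by
  exact looksLike_of_ringEquiv ((Matrix.toLinAlgEquiv' (R := E)).symm.toRingEquiv.trans
    (e.mapMatrix.trans (endVecRingEquivMatrixEnd (Fin n) A W).symm))

theorem e1a_field {D : Type} [Ring D] (h : IsField D) :
    ∃ (E : Type) (_ : Field E), Nonempty (E ≃+* D) :=
  ⟨D, h.toField, ⟨RingEquiv.refl D⟩⟩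

/- PLAN: `IsIsotypic.linearEquiv_fun` gives `X ≃ Fin n → W`, `W` simple, `n ≠ 0`;
`E = Module.End A W` is a finite division ring (`Module.End.divisionRing`), a field by
`littleWedderburn`; `(p : E) = 0` would make `p` kill `W`; `n ≤ finrank K X` since
`Nat.card X = Nat.card W ^ n`, `Nat.card K ≤ Nat.card W` (or `finrank` of the submodule `W`). -/
theorem isotypic_model (p : ℕ) {K A X : Type} [Field K] [Finite K] [Ring A] [Algebra K A]
    [AddCommGroup X] [Module K X] [Module A X] [IsScalarTower K A X] [Finite X] [Nontrivial X]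
    [IsSemisimpleModule A X] (hp : (p : K) ≠ 0) (h : IsIsotypic A X) :
    ∃ (E : Type) (_ : Field E) (_ : Finite E) (n : ℕ), (p : E) ≠ 0 ∧ 0 < n ∧ n ≤ finrank K X ∧
      LooksLike A X E (Fin n → E) := by
  classical
  have : Module.Finite A X := Module.Finite.of_finite
  obtain ⟨n, hn, S, hS, ⟨f⟩⟩ := h.linearEquiv_fun
  have : Finite (Module.End A S) := Finite.of_injective _ DFunLike.coe_injective
  obtain ⟨E, _, ⟨e⟩⟩ := e1a_field (Finite.isDomain_to_isField (Module.End A S))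
  have := IsSimpleModule.nontrivial A S
  obtain ⟨w, hw⟩ := exists_ne (0 : S)
  refine ⟨E, inferInstance, Finite.of_injective _ e.injective, n, fun k => hw ?_, hn.pos, ?_,
    (looksLike_pi e n).congr f.symm⟩
  · have := LinearMap.congr_fun ((map_natCast e p).symm.trans (k ▸ map_zero e)) w
    rwa [Module.End.natCast_apply, LinearMap.zero_apply, ← Nat.cast_smul_eq_nsmul K,
      smul_eq_zero_iff_right hp] at this
  · have : Module.Finite K X := Module.Finite.of_finite
    rw [← Nat.pow_le_pow_iff_right (Finite.one_lt_card (α := K)),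
      ← Module.natCard_eq_pow_finrank, Nat.card_congr f.toEquiv, Nat.card_fun, Nat.card_fin]
    exact Nat.pow_le_pow_left (Nat.card_le_card_of_injective _ (smul_left_injective K hw)) n

end Pool.Agent.Puig
end

-- merged part: Pool.Agent.Work.MP_cea1f0_al.E1b
section
/-! The centraliser of a `p`-subgroup of `GL(V)` in characteristic different from `p`. -/

namespace Pool.Agent.Puig

open Module

/- PLAN: `J = isotypicComponents A X` (finite: `X` is finite), `N j = j`;
`sSupIndep_isotypicComponents`, `sSup_isotypicComponents`, `IsIsotypic.isotypicComponents`,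
`isFullyInvariant` / `Submodule.IsFullyInvariant.isotypicComponent`; see
`Mathlib/RingTheory/SimpleModule/Isotypic.lean`.  Every submodule is the sum of its simple
submodules, each contained in a component. -/
theorem isotypic_dec {A X : Type} [Ring A] [AddCommGroup X] [Module A X] [Finite X]
    [IsSemisimpleModule A X] : ∃ (J : Type) (_ : Fintype J) (N : J → Submodule A X),
      iSupIndep N ∧ ⨆ j, N j = ⊤ ∧ (∀ j, N j ≠ ⊥) ∧ (∀ j, IsIsotypic A (N j)) ∧
      (∀ j (f : X →ₗ[A] X), (N j).map f ≤ N j) ∧ ∀ U : Submodule A X, U = ⨆ j, U ⊓ N j := by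
  have : Finite (Submodule A X) := Finite.of_injective _ SetLike.coe_injective
  refine ⟨isotypicComponents A X, Fintype.ofFinite _, (↑),
    (sSupIndep_iff _).1 (sSupIndep_isotypicComponents A X),
    (sSup_eq_iSup' _).symm.trans (sSup_isotypicComponents A X),
    fun j => (bot_lt_isotypicComponents j.2).ne', fun j => .isotypicComponents j.2,
    fun j f => Submodule.map_le_iff_le_comap.2
      (Submodule.IsFullyInvariant.of_mem_isotypicComponents j.2 f),
    fun U => le_antisymm ?_ (iSup_le fun _ => inf_le_left)⟩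
  refine (IsSemisimpleModule.sSup_simples_le U).ge.trans (sSup_le fun m h => ?_)
  exact le_iSup_of_le ⟨_, m, h.1, rfl⟩ (le_inf h.2 m.le_isotypicComponent)

/- PLAN: `X ≃ ∀ j, N j` (`DirectSum.IsInternal`, `DirectSum.linearEquivFunOnFintype`);
`φ c` acts as `c j` on `N j`; `β U = ⨆ j, (U j).map (N j).subtype` with inverse
`U ↦ fun j => U.comap (N j).subtype`. -/
theorem dec_model {A X J : Type} [Ring A] [AddCommGroup X] [Module A X] [Fintype J]
    {N : J → Submodule A X} (h1 : iSupIndep N) (h2 : ⨆ j, N j = ⊤)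
    (h3 : ∀ j (f : X →ₗ[A] X), (N j).map f ≤ N j) (h4 : ∀ U : Submodule A X, U = ⨆ j, U ⊓ N j) :
    ∃ (φ : (∀ j, N j ≃ₗ[A] N j) ≃* (X ≃ₗ[A] X)) (β : (∀ j, Submodule A (N j)) ≃o Submodule A X),
      ∀ (c : ∀ j, N j ≃ₗ[A] N j) (U : ∀ j, Submodule A (N j)),
        β (fun j => (U j).map (c j : N j →ₗ[A] N j)) = (β U).map (φ c : X →ₗ[A] X) := by
  classical
  let ψ := h1.ringEquiv h2 fun j f => Submodule.map_le_iff_le_comap.1 (h3 j f)
  let φ : (∀ j, N j ≃ₗ[A] N j) ≃* (X ≃ₗ[A] X) :=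
    (MulEquiv.piCongrRight fun j =>
      (LinearMap.GeneralLinearGroup.generalLinearEquiv A (N j)).symm).trans
      (MulEquiv.piUnits.symm.trans ((Units.mapEquiv ψ.symm.toMulEquiv).trans
        (LinearMap.GeneralLinearGroup.generalLinearEquiv A X)))
  have hφ : ∀ c j, (N j).subtype ∘ₗ (c j : N j →ₗ[A] N j) = (φ c : X →ₗ[A] X) ∘ₗ (N j).subtype :=
    fun c j => LinearMap.ext fun x => congrArg Subtype.val (LinearMap.congr_fun
      (congrFun (ψ.apply_symm_apply fun j => (c j : N j →ₗ[A] N j)) j) x).symm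
  have key : ∀ (U : ∀ j, Submodule A (N j)) j,
      (⨆ i, (U i).map (N i).subtype).comap (N j).subtype = U j := fun U j => by
    refine Submodule.map_injective_of_injective (N j).injective_subtype (le_antisymm ?_
      (Submodule.map_mono (Submodule.map_le_iff_le_comap.1
        (le_iSup (fun i => (U i).map (N i).subtype) j))))
    rw [Submodule.map_comap_subtype, inf_comm, iSup_split_single _ j]
    refine (inf_le_inf_right _ (sup_le_sup_left
      (iSup₂_mono fun i _ => (N i).map_subtype_le (U i)) _)).trans ?_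
    rw [sup_inf_assoc_of_le _ ((N j).map_subtype_le _), (h1 j).symm.eq_bot, sup_bot_eq]
  refine ⟨φ, ⟨⟨fun U => ⨆ j, (U j).map (N j).subtype, fun W j => W.comap (N j).subtype,
    fun U => funext (key U), fun W => ?_⟩, fun {U W} => ⟨fun h j => ?_,
      fun h => iSup_mono fun j => Submodule.map_mono (h j)⟩⟩, fun c U => ?_⟩
  · simp only [Submodule.map_comap_subtype, inf_comm (N _)]
    exact (h4 W).symm
  · rw [← key U j, ← key W j]
    exact Submodule.comap_mono h
  · change ⨆ j, ((U j).map _).map _ = (⨆ j, (U j).map (N j).subtype).map _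
    simp only [Submodule.map_iSup, ← Submodule.map_comp, hφ]

theorem e1b_core (p : ℕ) (K A V : Type) [Field K] [Finite K] [Ring A] [Algebra K A]
    [AddCommGroup V] [Module K V] [Module A V] [IsScalarTower K A V] [Finite V]
    [IsSemisimpleModule A V] (hp : (p : K) ≠ 0) :
    ∃ (J : Type) (_ : Fintype J) (E : J → Type) (_ : ∀ j, Field (E j)) (_ : ∀ j, Finite (E j))
      (n : J → ℕ) (φ : (∀ j, (Fin (n j) → E j) ≃ₗ[E j] (Fin (n j) → E j)) ≃* (V ≃ₗ[A] V))
      (β : (∀ j, Submodule (E j) (Fin (n j) → E j)) ≃o Submodule A V),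
      (∀ j, (p : E j) ≠ 0) ∧ (∀ j, 0 < n j) ∧ ∑ j, n j ≤ finrank K V ∧
      ∀ (c : ∀ j, (Fin (n j) → E j) ≃ₗ[E j] (Fin (n j) → E j))
        (U : ∀ j, Submodule (E j) (Fin (n j) → E j)),
        β (fun j => (U j).map (c j : (Fin (n j) → E j) →ₗ[E j] (Fin (n j) → E j))) =
          (β U).map (φ c : V →ₗ[A] V) := by
  classical
  obtain ⟨J, _, N, h1, h2, h0, hi, h3, h4⟩ := isotypic_dec (A := A) (X := V)
  obtain ⟨φ, β, h⟩ := dec_model h1 h2 h3 h4
  have := fun j => Submodule.nontrivial_iff_ne_bot.2 (h0 j)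
  choose E _ _ n k1 k2 k3 φ' β' k4 using fun j => isotypic_model (K := K) p hp (hi j)
  refine ⟨J, inferInstance, E, inferInstance, inferInstance, n,
    (MulEquiv.piCongrRight φ').trans φ, OrderIso.trans ⟨Equiv.piCongrRight fun j => (β' j).toEquiv,
      forall_congr' fun j => (β' j).map_rel_iff⟩ β, k1, k2,
    (Finset.sum_le_sum fun j _ => k3 j).trans_eq ?_, fun c U =>
      (congrArg β (funext fun j => k4 j (c j) (U j))).trans (h _ _)⟩
  rw [← ((h1.linearEquiv h2).restrictScalars K).finrank_eq]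
  exact (finrank_directSum K fun j => N j).symm

/- PLAN: `A = MonoidAlgebra K R`, `X = ρ.asModule` for the representation `ρ` of `R` on `V`
(or the synonym `Md` of `Mod.lean`); Maschke (`MonoidAlgebra.Submodule.isSemisimpleModule`-type
instance, needs `NeZero (Nat.card R : K)`, `IsPGroup.iff_card`); `X ≃ₗ[A] X` is the centraliser,
`Submodule A X` the invariant subspaces; `isotypic_dec`, `dec_model`, `isotypic_model` (choose),
`M j = Fin (n j) → E j`; the sum of the `finrank K (N j)` is `finrank K V`. -/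
theorem cent_model (p : ℕ) [Fact p.Prime] (K V : Type) [Field K] [Finite K] [AddCommGroup V]
    [Module K V] [Finite V] (hp : (p : K) ≠ 0) (R : Subgroup (V ≃ₗ[K] V)) (hR : IsPGroup p R) :
    ∃ (J : Type) (_ : Fintype J) (E : J → Type) (_ : ∀ j, Field (E j)) (_ : ∀ j, Finite (E j))
      (n : J → ℕ) (φ : (∀ j, (Fin (n j) → E j) ≃ₗ[E j] (Fin (n j) → E j)) →* (V ≃ₗ[K] V))
      (β : (∀ j, Submodule (E j) (Fin (n j) → E j)) ↪o Submodule K V),
      (∀ j, (p : E j) ≠ 0) ∧ (∀ j, 0 < n j) ∧ ∑ j, n j ≤ finrank K V ∧ Function.Injective φ ∧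
      φ.range = Subgroup.centralizer (R : Set (V ≃ₗ[K] V)) ∧
      (∀ U, U ∈ Set.range β ↔ ∀ r ∈ R, U.map (r : V →ₗ[K] V) = U) ∧
      ∀ (c : ∀ j, (Fin (n j) → E j) ≃ₗ[E j] (Fin (n j) → E j))
        (U : ∀ j, Submodule (E j) (Fin (n j) → E j)),
        β (fun j => (U j).map (c j : (Fin (n j) → E j) →ₗ[E j] (Fin (n j) → E j))) =
          (β U).map (φ c : V →ₗ[K] V) := by
  let ρ : Representation K R V := LinearEquiv.automorphismGroup.toLinearMapMonoidHom.comp R.subtype
  let _ : Module (MonoidAlgebra K R) V := Module.compHom V ρ.asAlgebraHom.toRingHom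
  have sm : ∀ (a : MonoidAlgebra K R) (v : V), a • v = ρ.asAlgebraHom a v := fun _ _ => rfl
  have : IsScalarTower K (MonoidAlgebra K R) V :=
    ⟨fun c a v => by rw [sm, sm, map_smul, LinearMap.smul_apply]⟩
  have so : ∀ (r : R) (v : V), MonoidAlgebra.of K R r • v = r.1 v := fun r v => by
    rw [sm, ρ.asAlgebraHom_of]
    rfl
  have : Finite (V ≃ₗ[K] V) := Finite.of_injective _ DFunLike.coe_injective
  have : NeZero (Nat.card R : K) := ⟨by
    obtain ⟨k, e⟩ := IsPGroup.iff_card.1 hR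
    rw [e, Nat.cast_pow]
    exact pow_ne_zero _ hp⟩
  obtain ⟨J, _, E, _, _, n, φ, β, k1, k2, k3, k4⟩ := e1b_core p K (MonoidAlgebra K R) V hp
  let res : (V ≃ₗ[MonoidAlgebra K R] V) →* (V ≃ₗ[K] V) :=
    ⟨⟨fun c => c.restrictScalars K, rfl⟩, fun _ _ => rfl⟩
  refine ⟨J, inferInstance, E, inferInstance, inferInstance, n, res.comp φ.toMonoidHom,
    β.toOrderEmbedding.trans (Submodule.restrictScalarsEmbedding K _ V), k1, k2, k3,
    (LinearEquiv.restrictScalars_injective K).comp φ.injective, ?_, fun U => ⟨?_, fun h => ?_⟩,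
    fun c U => (congrArg (Submodule.restrictScalars K) (k4 c U)).trans rfl⟩
  · ext g
    refine ⟨?_, fun h => ⟨φ.symm { g with map_smul' := fun a v => ?_ }, ?_⟩⟩
    · rintro ⟨c, rfl⟩ r hr
      refine LinearEquiv.ext fun v => ?_
      change r (φ c v) = φ c (r v)
      rw [← so ⟨r, hr⟩, ← so ⟨r, hr⟩, map_smul]
    · change g (a • v) = a • g v
      induction a using MonoidAlgebra.induction_on with
      | of r => rw [so, so]; exact (LinearEquiv.congr_fun (h r r.2) v).symm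
      | add a b h1 h2 => rw [add_smul, add_smul, map_add, h1, h2]
      | smul c a h1 => rw [smul_assoc, smul_assoc, map_smul, h1]
    · exact (congrArg res (φ.apply_symm_apply _)).trans rfl
  · rintro ⟨W, rfl⟩ r hr
    have k : ∀ r ∈ R, ∀ v ∈ β W, r v ∈ β W := fun r hr v hv =>
      so ⟨r, hr⟩ v ▸ (β W).smul_mem _ hv
    refine le_antisymm ?_ fun v hv => ⟨_, k _ (inv_mem hr) v hv, r.apply_symm_apply v⟩
    rintro _ ⟨v, hv, rfl⟩
    exact k r hr v hv
  · refine ⟨β.symm { U with smul_mem' := fun a v hv => ?_ },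
      (congrArg (Submodule.restrictScalars K) (β.apply_symm_apply _)).trans rfl⟩
    change a • v ∈ U
    induction a using MonoidAlgebra.induction_on with
    | of r => rw [so]; exact (h r r.2).le ⟨v, hv, rfl⟩
    | add a b h1 h2 => rw [add_smul]; exact add_mem h1 h2
    | smul c a h1 => rw [smul_assoc]; exact U.smul_mem c h1

end Pool.Agent.Puig
end

-- merged part: Pool.Agent.Work.MP_cea1f0_al.E2
section
/-! Order automorphisms of a product of subspace lattices. -/

namespace Pool.Agent.Puig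

open Module

/- PLAN: if `U ≠ ⊥, ⊤` take a complement `W`, `u ∈ U` non-zero, a linear form `l` not vanishing on
`W` but vanishing on `U`; the image of `W` under the transvection `x ↦ x + l x • u` is another
complement. -/
theorem uniq_compl {E M : Type} [Field E] [AddCommGroup M] [Module E M] (U : Submodule E M) :
    (∀ W W', IsCompl U W → IsCompl U W' → W = W') ↔ U = ⊥ ∨ U = ⊤ := by
  refine ⟨fun h => ?_, ?_⟩
  · by_contra hn
    rw [not_or] at hn
    obtain ⟨W, hW⟩ := exists_isCompl U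
    obtain ⟨u, hu, u0⟩ := (Submodule.ne_bot_iff _).1 hn.1
    obtain ⟨w, hw, w0⟩ := (Submodule.ne_bot_iff W).1 fun e => hn.2 (eq_top_of_isCompl_bot (e ▸ hW))
    have d := Submodule.disjoint_def.1 hW.disjoint
    obtain ⟨l, l1, -⟩ := Submodule.exists_le_ker_of_notMem fun e => w0 (d w e hw)
    have e := h W (W.map (LinearMap.id + l.smulRight u)) hW ⟨Submodule.disjoint_def.2 ?_, ?_⟩
    · have k : w + l w • u ∈ W := e ▸ ⟨w, hw, rfl⟩
      exact smul_ne_zero l1 u0 (d _ (U.smul_mem _ hu) ((add_mem_cancel_left hw).1 k))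
    · rintro _ hx ⟨y, hy, rfl⟩
      rw [d y ((add_mem_cancel_right (U.smul_mem (l y) hu)).1 hx) hy, map_zero]
    · refine Submodule.codisjoint_iff_exists_add_eq.2 fun x => ?_
      obtain ⟨a, y, ha, hy, rfl⟩ := Submodule.codisjoint_iff_exists_add_eq.1 hW.codisjoint x
      exact ⟨a - l y • u, y + l y • u, sub_mem ha (U.smul_mem _ hu), ⟨y, hy, rfl⟩, by abel⟩
  · rintro (rfl | rfl) W W' h h'
    · rw [eq_top_of_bot_isCompl h, eq_top_of_bot_isCompl h']
    · rw [eq_bot_of_top_isCompl h, eq_bot_of_top_isCompl h']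

/- PLAN: `Order.height` is `Module.length` of the submodule (`Module.length_submodule`-type
lemmas, `Module.length_eq_finrank`); the elements below `Pi.single j U` are the `Pi.single j W`,
`W ≤ U`: an order isomorphism of the sets `Set.Iic`, `Order.height_orderIso`, `Order.height_coe_Iic`-type lemma
(or `height_eq_krullDim_Iic`). -/
open Classical in
theorem height_single {J : Type} {E M : J → Type} [∀ j, Field (E j)] [∀ j, AddCommGroup (M j)]
    [∀ j, Module (E j) (M j)] [∀ j, FiniteDimensional (E j) (M j)] (j : J)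
    (U : Submodule (E j) (M j)) :
    Order.height (Function.update (⊥ : ∀ j, Submodule (E j) (M j)) j U) = finrank (E j) U := by
  let e : Set.Iic (Function.update (⊥ : ∀ j, Submodule (E j) (M j)) j U) ≃o Set.Iic U :=
    { toFun := fun x => ⟨x.1 j, (x.2 j).trans_eq (Function.update_self _ _ _)⟩
      invFun := fun W => ⟨Function.update ⊥ j W.1, update_le_update_iff'.2 W.2⟩
      left_inv := fun x => Subtype.ext (funext fun i => by
        obtain rfl | h := eq_or_ne i j
        · exact Function.update_self i (x.1 i) (⊥ : ∀ j, Submodule (E j) (M j))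
        · exact (Function.update_of_ne h _ _).trans
            (le_bot_iff.1 ((x.2 i).trans_eq (Function.update_of_ne h _ _))).symm)
      right_inv := fun W => Subtype.ext
        (Function.update_self j W.1 (⊥ : ∀ j, Submodule (E j) (M j)))
      map_rel_iff' := fun {x y} => ⟨fun h i => by
        obtain rfl | k := eq_or_ne i j
        · exact h
        · exact ((x.2 i).trans_eq (Function.update_of_ne k _ _)).trans bot_le, fun h => h j⟩ }
  rw [← Module.length_eq_finrank, Module.length_submodule, ← WithBot.coe_inj,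
    Order.height_eq_krullDim_Iic, Order.height_eq_krullDim_Iic, Order.krullDim_eq_of_orderIso e]

/- PLAN: call `U` central if it has at most one complement; this is preserved by `a`, and holds iff
all `U j` are `⊥` or `⊤` (`uniq_compl`, complements in a product are computed componentwise).  The
minimal non-zero central elements are the `z j = update ⊥ j ⊤`, pairwise different, so
`a (z j) = z (ρ j)` for an injective `ρ`.  `U ⊓ z j = update ⊥ j (U j)`; `height_single`,
`Order.height_orderIso`. -/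
theorem ord_perm {J : Type} [Finite J] {E M : J → Type} [∀ j, Field (E j)]
    [∀ j, AddCommGroup (M j)] [∀ j, Module (E j) (M j)] [∀ j, FiniteDimensional (E j) (M j)]
    [∀ j, Nontrivial (M j)] (a : (∀ j, Submodule (E j) (M j)) ≃o (∀ j, Submodule (E j) (M j))) :
    ∃ ρ : Equiv.Perm J, ∀ U j, finrank (E (ρ j)) (a U (ρ j)) = finrank (E j) (U j) := by
  classical
  have cen (U : ∀ j, Submodule (E j) (M j)) :
      (∀ W W', IsCompl U W → IsCompl U W' → W = W') ↔ ∀ j, U j = ⊥ ∨ U j = ⊤ := by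
    refine ⟨fun h j => (uniq_compl _).1 fun W W' h1 h2 => ?_, fun h W W' h1 h2 => funext fun j =>
      (uniq_compl _).2 (h j) _ _ (Pi.isCompl_iff.1 h1 j) (Pi.isCompl_iff.1 h2 j)⟩
    choose C hC using fun j => exists_isCompl (U j)
    have k (X) (hX : IsCompl (U j) X) : IsCompl U (Function.update C j X) :=
      Pi.isCompl_iff.2 fun i => by
        obtain rfl | e := eq_or_ne i j
        · rwa [Function.update_self]
        · rw [Function.update_of_ne e]
          exact hC i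
    simpa using congrFun (h _ _ (k W h1) (k W' h2)) j
  have map (b : (∀ j, Submodule (E j) (M j)) ≃o (∀ j, Submodule (E j) (M j))) (j : J) :
      (∀ i, b (Function.update ⊥ j ⊤) i = ⊥ ∨ b (Function.update ⊥ j ⊤) i = ⊤) ∧
        ∃ i, b (Function.update ⊥ j ⊤) i = ⊤ := by
    have h1 : ∀ i, b (Function.update ⊥ j ⊤) i = ⊥ ∨ b (Function.update ⊥ j ⊤) i = ⊤ := by
      refine (cen _).1 fun W W' h1 h2 => b.symm.injective ((cen (Function.update ⊥ j ⊤)).2
        (fun i => ?_) _ _ (by simpa using b.symm.isCompl h1) (by simpa using b.symm.isCompl h2))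
      obtain rfl | e := eq_or_ne i j
      · exact .inr (Function.update_self _ _ _)
      · exact .inl (Function.update_of_ne e _ _)
    refine ⟨h1, by_contra fun h => ?_⟩
    have : b (Function.update ⊥ j ⊤) = b ⊥ := by
      rw [b.map_bot]
      exact funext fun i => (h1 i).resolve_right fun e => h ⟨i, e⟩
    simpa using congrFun (b.injective this) j
  have key (j : J) : ∃ k, a (Function.update ⊥ j ⊤) = Function.update ⊥ k ⊤ := by
    obtain ⟨k, hk⟩ := (map a j).2
    have h1 : a.symm (Function.update ⊥ k ⊤) ≤ Function.update ⊥ j ⊤ :=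
      a.symm_apply_le.2 (update_le_iff.2 ⟨hk.ge, fun _ _ => bot_le⟩)
    obtain ⟨i, hi⟩ := (map a.symm k).2
    obtain rfl : i = j := by_contra fun e => by simpa [hi, e] using h1 i
    refine ⟨k, a.symm_apply_eq.1 (h1.antisymm
      (update_le_iff.2 ⟨hi.ge, fun _ _ => bot_le⟩)) |>.symm⟩
  choose ρ hρ using key
  have inj : Function.Injective ρ := fun i j e => by_contra fun h => by
    have := congrFun (a.injective ((hρ i).trans ((e ▸ rfl : _ = _).trans (hρ j).symm))) i
    simp [h] at this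
  have cut (U : ∀ j, Submodule (E j) (M j)) (j : J) :
      Function.update ⊥ j (U j) = U ⊓ Function.update ⊥ j ⊤ := funext fun i => by
    obtain rfl | e := eq_or_ne i j
    · simp
    · simp [e]
  refine ⟨Equiv.ofBijective ρ (Finite.injective_iff_bijective.1 inj), fun U j => ?_⟩
  have h1 := height_single (ρ j) (a U (ρ j))
  have h2 := height_single j (U j)
  rw [cut, ← hρ, ← a.map_inf, Order.height_orderIso, ← cut] at h1
  exact_mod_cast h1.symm.trans h2

end Pool.Agent.Puig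
end

-- merged part: Pool.Agent.Work.MP_cea1f0_al.E3
section
/-! Models for the centralisers of the `p`-subgroups of `GL(V)`. -/

namespace Pool.Agent.Puig

open Module

section
variable {n : ℕ} {K V J : Type} [Field K] [AddCommGroup V] [Module K V] {E M : J → Type}
  [∀ j, Field (E j)] [∀ j, AddCommGroup (M j)] [∀ j, Module (E j) (M j)]

/- PLAN: `b F = ⟨fun t => β fun j => (F j).1 t, _⟩`; `β ⊥ = ⊥` and `β ⊤ = ⊤` since `⊥` and `⊤` are in
the range of the order embedding; for the range choose preimages `U t` of the members of an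
`R`-fixed flag. -/
theorem exists_flag_map (R : Subgroup (V ≃ₗ[K] V)) (β : (∀ j, Submodule (E j) (M j)) ↪o Submodule K V)
    (hβ : ∀ U, U ∈ Set.range β ↔ ∀ r ∈ R, U.map (r : V →ₗ[K] V) = U) :
    ∃ b : (∀ j, Fl n (E j) (M j)) → Fl n K V, Function.Injective b ∧
      Set.range b = fixS (flAct n K V) R ∧ ∀ F t, (b F).1 t = β fun j => (F j).1 t := by
  have top : β ⊤ = ⊤ := by
    obtain ⟨U, hU⟩ := (hβ ⊤).2 fun r _ => by simp [LinearEquiv.range]
    exact top_unique (hU ▸ β.monotone le_top)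
  have bot : β ⊥ = ⊥ := by
    obtain ⟨U, hU⟩ := (hβ ⊥).2 fun r _ => by simp
    exact bot_unique (hU ▸ β.monotone bot_le)
  refine ⟨fun F => ⟨fun t => β fun j => (F j).1 t, fun s t h => β.monotone fun j => (F j).2.1 h,
    ?_, ?_⟩, fun F F' h => ?_, Set.ext fun ω => ⟨?_, fun h => ?_⟩, fun F t => rfl⟩
  · rw [← bot]
    exact congrArg β (funext fun j => (F j).2.2.1)
  · rw [← top]
    exact congrArg β (funext fun j => (F j).2.2.2)
  · funext j
    refine Subtype.ext (funext fun t => ?_)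
    exact congrFun (β.injective (congrFun (congrArg Subtype.val h) t)) j
  · rintro ⟨F, rfl⟩ r hr
    exact Subtype.ext (funext fun t => (hβ _).1 ⟨_, rfl⟩ r hr)
  · have : ∀ t, ∃ U, β U = ω.1 t := fun t =>
      (hβ _).2 fun r hr => congrFun (congrArg Subtype.val (h r hr)) t
    choose U hU using this
    refine ⟨fun j => ⟨fun t => U t j, fun s t k => ?_, ?_, ?_⟩, Subtype.ext (funext hU)⟩
    · exact β.le_iff_le.1 (by rw [hU, hU]; exact ω.2.1 k) j
    · exact congrFun (β.injective (a₂ := ⊥) (by rw [hU, bot]; exact ω.2.2.1)) j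
    · exact congrFun (β.injective (a₂ := ⊤) (by rw [hU, top]; exact ω.2.2.2)) j

/- PLAN: `U ↦ U.map γ` permutes the `R`-invariant subspaces, with inverse given by `γ⁻¹`;
`OrderEmbedding` onto its range (`OrderEmbedding.orderIso`/`RelEmbedding`), or choose. -/
theorem exists_ord (R : Subgroup (V ≃ₗ[K] V)) (β : (∀ j, Submodule (E j) (M j)) ↪o Submodule K V)
    (hβ : ∀ U, U ∈ Set.range β ↔ ∀ r ∈ R, U.map (r : V →ₗ[K] V) = U) {γ : V ≃ₗ[K] V}
    (hγ : γ ∈ Subgroup.normalizer (R : Set (V ≃ₗ[K] V))) :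
    ∃ a : (∀ j, Submodule (E j) (M j)) ≃o (∀ j, Submodule (E j) (M j)),
      ∀ U, β (a U) = (β U).map (γ : V →ₗ[K] V) := by
  have mm : ∀ (g h : V ≃ₗ[K] V) (U : Submodule K V),
      (U.map (h : V →ₗ[K] V)).map (g : V →ₗ[K] V) = U.map ((g * h : V ≃ₗ[K] V) : V →ₗ[K] V) :=
    fun g h U => (Submodule.map_comp _ _ _).symm
  have m1 : ∀ U : Submodule K V, U.map ((1 : V ≃ₗ[K] V) : V →ₗ[K] V) = U := Submodule.map_id
  have key : ∀ g ∈ Subgroup.normalizer (R : Set (V ≃ₗ[K] V)), ∀ U,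
      ∃ U', β U' = (β U).map (g : V →ₗ[K] V) := fun g hg U =>
    (hβ _).2 fun r hr => by
      have h1 : g⁻¹ * r * g ∈ R := (Subgroup.mem_normalizer_iff''.1 hg r).1 hr
      rw [mm, show r * g = g * (g⁻¹ * r * g) by group, ← mm, (hβ _).1 ⟨U, rfl⟩ _ h1]
  choose f hf using key γ hγ
  choose f' hf' using key γ⁻¹ (inv_mem hγ)
  refine ⟨OrderIso.ofHomInv ⟨f, fun U W h => β.le_iff_le.1 ?_⟩ ⟨f', fun U W h => β.le_iff_le.1 ?_⟩
    (OrderHom.ext _ _ (funext fun U => β.injective ?_))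
    (OrderHom.ext _ _ (funext fun U => β.injective ?_)), hf⟩
  · rw [hf, hf]
    exact Submodule.map_mono (β.monotone h)
  · rw [hf', hf']
    exact Submodule.map_mono (β.monotone h)
  · change β (f (f' U)) = β U
    rw [hf, hf', mm, mul_inv_cancel, m1]
  · change β (f' (f U)) = β U
    rw [hf', hf, mm, inv_mul_cancel, m1]

/- PLAN: `exists_ord`, `ord_perm` give `a`, `ρ`; `finrank (M (ρ j)) = finrank (M j)` (`U = ⊤`);
`κ j = ⟨(μ (ρ.symm j)).1, _⟩`; `Equiv.sum_comp`.  If `ω = b F` then `flAct γ ω = b F'` with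
`(F' j).1 t = a (fun j => (F j).1 t) j`; conversely a point of `b '' _` is fixed by `R`, so is its
image by `γ⁻¹` (`fixS_norm`), so `ω` is in the range of `b`. -/
theorem nrm_types [Fintype J] [∀ j, FiniteDimensional (E j) (M j)] [∀ j, Nontrivial (M j)]
    (R : Subgroup (V ≃ₗ[K] V)) (β : (∀ j, Submodule (E j) (M j)) ↪o Submodule K V)
    (hβ : ∀ U, U ∈ Set.range β ↔ ∀ r ∈ R, U.map (r : V →ₗ[K] V) = U)
    {b : (∀ j, Fl n (E j) (M j)) → Fl n K V} (hb : Function.Injective b)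
    (hr : Set.range b = fixS (flAct n K V) R) (hbβ : ∀ F t, (b F).1 t = β fun j => (F j).1 t)
    {γ : V ≃ₗ[K] V} (hγ : γ ∈ Subgroup.normalizer (R : Set (V ≃ₗ[K] V)))
    (μ : ∀ j, Ty n (finrank (E j) (M j))) :
    ∃ κ : ∀ j, Ty n (finrank (E j) (M j)), ∑ j, tySq n (κ j) = ∑ j, tySq n (μ j) ∧
      ∀ ω, ω ∈ b '' (Set.pi Set.univ fun j => flS n (E j) (M j) (μ j)) ↔
        flAct n K V γ ω ∈ b '' (Set.pi Set.univ fun j => flS n (E j) (M j) (κ j)) := by
  obtain ⟨a, ha⟩ := exists_ord R β hβ hγ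
  obtain ⟨ρ, hρ⟩ := ord_perm a
  have hd : ∀ j, finrank (E (ρ j)) (M (ρ j)) = finrank (E j) (M j) := fun j => by
    have := hρ ⊤ j
    rwa [a.map_top, Pi.top_apply, Pi.top_apply, finrank_top, finrank_top] at this
  let κ : ∀ j, Ty n (finrank (E j) (M j)) := fun j =>
    ⟨(μ (ρ.symm j)).1, (μ _).2.1, (μ _).2.2.trans (by rw [← hd, ρ.apply_symm_apply])⟩
  have main : ∀ F F', b F' = flAct n K V γ (b F) →
      ((F ∈ Set.pi Set.univ fun j => flS n (E j) (M j) (μ j)) ↔
        F' ∈ Set.pi Set.univ fun j => flS n (E j) (M j) (κ j)) := fun F F' h => by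
    have e : ∀ t j, finrank (E (ρ j)) ((F' (ρ j)).1 t) = finrank (E j) ((F j).1 t) := fun t j => by
      have : (fun j => (F' j).1 t) = a fun j => (F j).1 t :=
        β.injective (by rw [ha, ← hbβ, ← hbβ, h, flAct_apply])
      rw [← hρ (fun j => (F j).1 t) j, ← this]
    simp only [Set.mem_univ_pi]
    rw [← ρ.forall_congr_right (q := fun j => F' j ∈ flS n (E j) (M j) (κ j))]
    refine forall_congr' fun j => forall_congr' fun t => ?_
    rw [e, e, show (κ (ρ j)).1 = (μ j).1 from congrArg (fun j => (μ j).1) (ρ.symm_apply_apply j)]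
  refine ⟨κ, Equiv.sum_comp ρ.symm fun j => tySq n (μ j), fun ω => ⟨?_, ?_⟩⟩
  · rintro ⟨F, hF, rfl⟩
    obtain ⟨F', h⟩ : flAct n K V γ (b F) ∈ Set.range b :=
      hr ▸ fixS_norm _ hγ (hr ▸ Set.mem_range_self F)
    exact ⟨F', (main F F' h).1 hF, h⟩
  · rintro ⟨F', hF, h⟩
    obtain ⟨F, rfl⟩ : ω ∈ Set.range b := by
      have := fixS_norm (flAct n K V) (inv_mem hγ) (hr ▸ Set.mem_range_self F')
      rwa [h, map_inv, Equiv.Perm.inv_def, Equiv.symm_apply_apply, ← hr] at this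
    exact ⟨F, (main F F' h).2 hF, rfl⟩

end

/- PLAN: `w` from `GLData`, bound `(w + 1) ^ n`.  `cent_model`; `n j ≤ finrank K V ≤ n` and
`card J ≤ n`; choose the data for the factors (`Fintype.ofFinite` for the groups), `JD.pi`,
`exists_flag_map`, `JD.map` with `θ' = (flAct n K V).comp φ`, `JD.mono`, `JD.pk`, `nrm_types`. -/
theorem hasMdl_GL (p n : ℕ) [Fact p.Prime] (h : GLData p n) : ∃ w a : ℕ,
    ∀ (O : ValuationSubring ℂ), (p : ℂ) ∈ O.nonunits → ∀ (K V : Type) [Field K] [Finite K]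
      [AddCommGroup V] [Module K V] [Finite V], (p : K) ≠ 0 → finrank K V ≤ n →
      ∀ R : Subgroup (V ≃ₗ[K] V), IsPGroup p R → HasMdl (kO O) (flAct n K V) R w a := by
  classical
  obtain ⟨w, w', h⟩ := h
  refine ⟨(w + 1) ^ n, n * n ^ 3, fun O hO K V _ _ _ _ _ hp hn R hR => ?_⟩
  obtain ⟨J, _, E, _, _, m, φ, β, hE, hm, hs, hφ, hr, hβ, hc⟩ := cent_model p K V hp R hR
  have hm' : ∀ j, finrank (E j) (Fin (m j) → E j) ≤ n := fun j => by
    rw [finrank_fin_fun]
    exact (Finset.single_le_sum (f := m) (fun _ _ => Nat.zero_le _) (Finset.mem_univ j)).trans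
      (hs.trans hn)
  have hJ : Fintype.card J ≤ n := by
    have := Finset.card_nsmul_le_sum Finset.univ m 1 fun j _ => hm j
    rw [Finset.card_univ, smul_eq_mul, mul_one] at this
    exact this.trans (hs.trans hn)
  have fin : ∀ j, Finite ((Fin (m j) → E j) ≃ₗ[E j] (Fin (m j) → E j)) := fun j =>
    Finite.of_injective _ DFunLike.coe_injective
  let : ∀ j, Fintype ((Fin (m j) → E j) ≃ₗ[E j] (Fin (m j) → E j)) := fun j => Fintype.ofFinite _
  have : ∀ j, Nontrivial (Fin (m j) → E j) := fun j =>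
    have : Nonempty (Fin (m j)) := ⟨⟨0, hm j⟩⟩
    inferInstance
  choose e ε he _ using fun j => h O hO (E j) (Fin (m j) → E j) (hE j) (hm' j)
  obtain ⟨b, hb, hrb, hbβ⟩ := exists_flag_map (n := n) R β hβ
  have k := ((JD.pi he).map (θ' := (flAct n K V).comp φ) hb fun c F =>
    Subtype.ext (funext fun t => by
      rw [hbβ, MonoidHom.comp_apply, flAct_apply, hbβ, ← hc]
      rfl)).mono
    ((Nat.pow_le_pow_left (Nat.le_succ w) _).trans (Nat.pow_le_pow_right (Nat.succ_pos w) hJ))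
    (Nat.mul_le_mul_right _ hJ)
  rw [Set.image_univ, hrb] at k
  exact ⟨_, _, inferInstance, _, _, φ, _, _, _, _, hφ, hr, k.pk p hO, k.S_inv, k.S_sub,
    fun γ hγ μ => nrm_types R β hβ hb hrb hbβ hγ μ⟩

end Pool.Agent.Puig
end

-- merged part: Pool.Agent.Work.MP_cea1f0_al.T
section
/-! The bound for the dimension of the principal source algebra of `GL(V)`. -/

namespace Pool.Agent.Puig

open Module

/- PLAN: `e * i` is an idempotent, fixed, in the corner, of augmentation `1`. -/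
theorem Prim.central_mul {F G : Type} [Field F] [Group G] {D : Subgroup G}
    {i e : MonoidAlgebra F G} (hi : Prim D i) (h1 : aug i = 1) (he : IsIdempotentElem e)
    (hc : ∀ y, y * e = e * y) (h2 : aug e = 1) : e * i = i := by
  obtain ⟨i1, -, i3, i4⟩ := hi
  have k1 : i * (e * i) = e * i := by rw [← mul_assoc, hc i, mul_assoc, i1.eq]
  have k2 : e * i * i = e * i := by rw [mul_assoc, i1.eq]
  have k3 : IsIdempotentElem (e * i) := by
    rw [IsIdempotentElem, mul_assoc, k1, ← mul_assoc, he.eq]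
  have k4 : Fix D (e * i) := fun u hu => by
    rw [← mul_assoc, hc, mul_assoc, i3 u hu, mul_assoc]
  refine (i4 _ k3 k4 k1 k2).resolve_left fun h0 => ?_
  have := aug_mul e i
  rw [h0, h1, h2, aug_eq, map_zero, mul_one] at this
  exact zero_ne_one this

theorem HasMdl.mono {k G Ω : Type} [Field k] [Group G] [Finite Ω] {θ : G →* Equiv.Perm Ω}
    {R : Subgroup G} {w a w' a' : ℕ} (h : HasMdl k θ R w a) (hw : w ≤ w') (ha : a ≤ a') :
    HasMdl k θ R w' a' := by
  obtain ⟨C, ι, i1, i2, i3, φ, eb, ε, S, s, h⟩ := h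
  exact ⟨C, ι, i1, i2, i3, φ, eb, ε, S, s, h.inj, h.rng,
    ⟨h.pk.idem, h.pk.sub, h.pk.full, h.pk.diag, h.pk.tri, h.pk.tot.trans hw,
      fun μ => (h.pk.bd μ).trans ha, h.pk.smp⟩, h.S_inv, h.S_sub, h.nrm⟩

theorem fl_nonempty (n : ℕ) (K V : Type) [Field K] [AddCommGroup V] [Module K V] [Finite V]
    (h : finrank K V ≤ n) : Nonempty (Fl n K V) := by
  refine ⟨⟨fun t => if t = 0 then ⊥ else ⊤, fun s t hst => ?_, if_pos rfl, ?_⟩⟩
  · by_cases hs : s = 0
    · simp [hs]
    · have ht : t ≠ 0 := fun ht => hs (le_antisymm (ht ▸ hst) (Fin.zero_le _))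
      simp [ht]
  · show (if Fin.last n = 0 then ⊥ else ⊤) = ⊤
    split_ifs with h0
    · have hn : n = 0 := by simpa using congrArg Fin.val h0
      have : Subsingleton V := Module.finrank_zero_iff.1 (by omega : finrank K V = 0)
      exact Subsingleton.elim _ _
    · rfl

theorem card_ty_le (n d : ℕ) : Fintype.card (Ty n d) ≤ (n + 1) ^ n := by
  have := Fintype.card_le_of_injective (fun l : Ty n d => (l.1 : Fin n → Fin (n + 1)))
    Subtype.val_injective
  simpa using this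

/- PLAN: apply `full` to the constant function `1` (`act_apply`, `aug_eq_sum`). -/
theorem Pk.aug_eq_one {k C Ω ι : Type} [Field k] [Group C] [Fintype C] [Finite Ω] [Nonempty Ω]
    [Fintype ι] {θ : C →* Equiv.Perm Ω} {eb : MonoidAlgebra k C} {ε : ι → MonoidAlgebra k C}
    {M : ι → Submodule (MonoidAlgebra k C) (PM k θ)} {s : ι → ℕ} {w a : ℕ}
    (h : Pk k (sm k θ Set.univ) eb ε M s w a) : aug eb = 1 := by
  obtain ⟨ω⟩ := ‹Nonempty Ω›
  have h1 : act k θ eb (fun _ => 1) = fun _ => 1 :=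
    h.full (fun _ => 1 : Ω → k) fun _ ⟨_, hg⟩ => absurd (Set.mem_univ _) hg
  have h2 := congrFun h1 ω
  rw [act_apply] at h2
  simpa [aug_eq_sum] using h2

theorem t_span {A : Type} [Ring A] {eb b : A} (hc : ∀ y, y * eb = eb * y) (h : eb * b = b)
    (z : Submodule.span A {b}) : eb • z = z := by
  obtain ⟨z, hz⟩ := z
  obtain ⟨a, rfl⟩ := Submodule.mem_span_singleton.1 hz
  apply Subtype.ext
  show eb * (a * b) = a * b
  rw [← mul_assoc, ← hc, mul_assoc, h]

/- PLAN: `bim_eq_dm`; `eb` is the identity on the left ideals generated by `i = eb * i` and by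
`eb * ε μ`; `bim (ε μ) i = bim i (ε μ) = bim i (eb * ε μ)` (`bim_comm`; the two linear maps agree
as `eb * i = i` and `eb` is central). -/
theorem bim_two {k G ι : Type} [Field k] [Group G] [Finite G] [Fintype ι]
    {i eb : MonoidAlgebra k G} {ε : ι → MonoidAlgebra k G} {c w : ℕ} (he : IsIdempotentElem eb)
    (hc : ∀ y, y * eb = eb * y) (h1 : eb * i = i)
    (h : ∀ N : Submodule (MonoidAlgebra k G) (MonoidAlgebra k G),
      (∀ z : N, eb • z = z) → dm k i N ≤ c * ∑ μ, dm k (ε μ) N)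
    (hw : ∀ μ ν, bim (ε ν) (eb * ε μ) ≤ w) :
    bim i i ≤ c * (Fintype.card ι * (c * (Fintype.card ι * w))) := by
  have k1 : ∀ μ, bim i (ε μ) = bim i (eb * ε μ) := fun μ => by
    have : LinearMap.mulLeftRight k (i, ε μ) = LinearMap.mulLeftRight k (i, eb * ε μ) := by
      refine LinearMap.ext fun x => ?_
      rw [LinearMap.mulLeftRight_apply, LinearMap.mulLeftRight_apply, ← mul_assoc, hc (i * x),
        ← mul_assoc, h1]
    rw [bim, bim, this]
  have k2 : ∀ μ, dm k (ε μ) (Submodule.span (MonoidAlgebra k G) {i}) ≤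
      c * (Fintype.card ι * w) := fun μ => by
    rw [← bim_eq_dm, bim_comm, k1, bim_eq_dm]
    refine (h _ (t_span hc (by rw [← mul_assoc, he.eq]))).trans (Nat.mul_le_mul_left c ?_)
    have := Finset.sum_le_card_nsmul Finset.univ
      (fun ν => dm k (ε ν) (Submodule.span (MonoidAlgebra k G) {eb * ε μ})) w
      fun ν _ => by rw [← bim_eq_dm]; exact hw μ ν
    simpa using this
  rw [bim_eq_dm]
  refine (h _ (t_span hc h1)).trans (Nat.mul_le_mul_left c ?_)
  have := Finset.sum_le_card_nsmul Finset.univ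
    (fun μ => dm k (ε μ) (Submodule.span (MonoidAlgebra k G) {i})) _ fun μ _ => k2 μ
  simpa using this

theorem t_cv {C : Type} [Group C] [Fintype C] {e x : C → ℂ} (h1 : ClassFn e) (h2 : cv e e = e)
    (h3 : cv x x = x) : cv (cv e x) (cv e x) = cv e x := by
  rw [cv_assoc, ← cv_assoc x e x, ← cv_comm h1 x, cv_assoc e x x, h3, ← cv_assoc, h2]

theorem t_mdl (p : ℕ) [Fact p.Prime] {O : ValuationSubring ℂ} (hO : (p : ℂ) ∈ O.nonunits)
    {G Ω ι : Type} [Group G] [Fintype G] [Finite Ω] [Fintype ι] {θ : G →* Equiv.Perm Ω}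
    {e : G → ℂ} {ε : ι → G → ℂ} {S : ι → Set Ω} {s : ι → ℕ} {w a : ℕ}
    (h : JD p O θ Set.univ e ε S s w a) :
    IsMdl (kO O) θ ⊥ (MonoidHom.id G) (red O e) (fun μ => red O (ε μ)) S s w a := by
  have hf : fixS θ ⊥ = Set.univ := Set.eq_univ_of_forall fun ω r hr => by
    rw [Subgroup.mem_bot.1 hr, map_one]; rfl
  refine ⟨Function.injective_id, ?_, ?_, h.S_inv, fun μ => by rw [hf]; exact Set.subset_univ _,
    fun γ _ μ => ⟨μ, rfl, fun ω => ⟨h.S_inv μ γ ω, fun hω => ?_⟩⟩⟩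
  · refine le_antisymm (fun g _ => Subgroup.mem_centralizer_iff.2 fun r hr => ?_)
      fun g _ => ⟨g, rfl⟩
    rw [Subgroup.mem_bot.1 hr, one_mul, mul_one]
  · rw [hf]
    exact h.pk p hO
  · simpa using h.S_inv μ γ⁻¹ _ hω

/- PLAN: `hasMdl_GL` and `GLData` itself; enlarge the constants (`HasMdl.mono`, `JD.mono`) so that
they agree; `c` from `recB`.  `Nat.card D = p ^ r ≤ m`; `Br D i ≠ 0` by `aug_Br`.  The data of
`GLData` are a model for `R = ⊥` with `φ = MonoidHom.id` (`fixS θ ⊥ = univ`, `JD.pk`; `nrm` with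
`κ = μ`; `brq_id`).  `Pk.dm_le`, `Pk.aug_eq_one`, `Prim.central_mul`, `bim_two`;
`red e * red (ε μ) = red (cv e (ε μ))` (`red_cv`), `bim_red`, `cv_assoc`, `cv_comm`. -/
theorem topBound (p n m : ℕ) [Fact p.Prime] (h : GLData p n) : ∃ c : ℕ,
    ∀ (O : ValuationSubring ℂ), (p : ℂ) ∈ O.nonunits → ∀ (K V : Type) [Field K] [Finite K]
      [AddCommGroup V] [Module K V] [Finite V], (p : K) ≠ 0 → finrank K V ≤ n →
      (∀ a : ℕ, p ^ a ∣ Nat.card (V ≃ₗ[K] V) → p ^ a ≤ m) →
      ∀ (D : Subgroup (V ≃ₗ[K] V)) (i : MonoidAlgebra (kO O) (V ≃ₗ[K] V)), IsPGroup p D →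
        Prim D i → aug i = 1 → bim i i ≤ c := by
  obtain ⟨w₁, a₁, H₁⟩ := hasMdl_GL p n h
  obtain ⟨w, w', H⟩ := h
  obtain ⟨c, hc⟩ := recB p m (max w w₁) (max (n ^ 3) a₁)
  refine ⟨c * ((n + 1) ^ n * (c * ((n + 1) ^ n * w' m))),
    fun O hO K V _ _ _ _ _ hp hn hm D i hD hi h1 => ?_⟩
  have : Finite (V ≃ₗ[K] V) := DFunLike.finite _
  let : Fintype (V ≃ₗ[K] V) := Fintype.ofFinite _
  have := kO_charP p hO
  have := kO_algClosed O
  have := fl_nonempty n K V hn
  obtain ⟨e, ε, hJ, hb⟩ := H O hO K V hp hn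
  have hDm : Nat.card D ≤ m := by
    obtain ⟨r, hr⟩ := IsPGroup.iff_card.1 hD
    rw [hr]
    exact hm r (hr ▸ Subgroup.card_subgroup_dvd_card D)
  have hB : Br D i ≠ 0 := fun h0 => by
    have := aug_Br p hD hi.2.2.1
    rw [h0, h1, aug_eq, map_zero] at this
    exact zero_ne_one this
  have hJ' := hJ.mono (le_max_left w w₁) (le_max_left (n ^ 3) a₁)
  have hS := hc (kO O) _ _ (flAct n K V) D i hD hDm hi hB
    (fun R hR => (H₁ O hO K V hp hn R (hD.to_le hR)).mono (le_max_right _ _) (le_max_right _ _))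
    ⊥ bot_le _ _ _ _ _ _ _ (t_mdl p hO hJ')
  rw [brq_id] at hS
  have hP := hJ.pk p hO
  have he : IsIdempotentElem (red O e) := by
    rw [IsIdempotentElem, ← red_cv hJ.e_mem hJ.e_mem, hJ.e_idem]
  have hce := red_central (O := O) hJ.e_class
  have key := bim_two (i := i) (eb := red O e) (ε := fun μ => red O (ε μ)) (c := c) (w := w' m) he
    hce (hi.central_mul h1 he hce hP.aug_eq_one)
    (fun N hN => by
      have : FiniteDimensional (kO O) N :=
        FiniteDimensional.of_injective (N.subtype.restrictScalars (kO O)) N.subtype_injective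
      exact hP.dm_le hi.1 hS N hN)
    fun μ ν => by
      have k1 := hb m hm μ ν
      rw [← bim_red (O := O) (hJ.ε_mem ν) (cv_mem hJ.e_mem (hJ.ε_mem μ)) (hJ.ε_idem ν)
        (t_cv hJ.e_class hJ.e_idem (hJ.ε_idem μ)), red_cv hJ.e_mem (hJ.ε_mem μ),
        Complex.norm_natCast] at k1
      exact_mod_cast k1
  refine key.trans ?_
  have := card_ty_le n (finrank K V)
  gcongr

end Pool.Agent.Puig
end

-- merged part: Pool.Agent.Work.MP_cea1f0_al.A4
section
/-! The bound for the general linear groups. -/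

namespace Pool.Agent.Puig

open MonoidAlgebra Module

theorem PBd.mono {p : ℕ} [Fact p.Prime] {G : Type} [Group G] {D : Subgroup G} {c c' : ℕ}
    (h : PBd p D c) (hc : c ≤ c') : PBd p D c' := fun i h1 h2 => (h i h1 h2).trans hc

section
variable {F G G' : Type} [Field F] [Group G] [Group G']

theorem a4_fix (ψ : G ≃* G') {D : Subgroup G} {x : MonoidAlgebra F G} :
    Fix (D.map (ψ : G →* G')) (domCongr F F ψ x) ↔ Fix D x := by
  have k : ∀ u, of F G' (ψ u) = domCongr F F ψ (of F G u) := fun u => (domCongr_single ψ u 1).symm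
  refine ⟨fun h u hu => (domCongr F F ψ).injective ?_, ?_⟩
  · rw [map_mul, map_mul, ← k]
    exact h _ ⟨u, hu, rfl⟩
  · rintro h _ ⟨u, hu, rfl⟩
    rw [MonoidHom.coe_coe, k, ← map_mul, ← map_mul, h u hu]

theorem a4_prim (ψ : G ≃* G') {D : Subgroup G} {i : MonoidAlgebra F G} (h : Prim D i) :
    Prim (D.map (ψ : G →* G')) (domCongr F F ψ i) := by
  refine ⟨h.1.map _, (map_ne_zero_iff _ (domCongr F F ψ).injective).2 h.2.1, (a4_fix ψ).2 h.2.2.1,
    fun e' h1 h2 h3 h4 => ?_⟩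
  obtain ⟨e, rfl⟩ := (domCongr F F ψ).surjective e'
  have inj := (domCongr F F ψ).injective
  exact (h.2.2.2 e (inj ((map_mul _ _ _).trans h1)) ((a4_fix ψ).1 h2)
    (inj ((map_mul _ _ _).trans h3)) (inj ((map_mul _ _ _).trans h4))).imp
    (fun k => by rw [k, map_zero]) (congrArg _)

theorem a4_aug (ψ : G ≃* G') (x : MonoidAlgebra F G) : aug (domCongr F F ψ x) = aug x := by
  rw [aug_eq, aug_eq]
  induction x using MonoidAlgebra.induction_on with
  | of g => simp [augH]
  | add x y hx hy => rw [map_add, map_add, map_add, hx, hy]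
  | smul c x hx => rw [map_smul, map_smul, map_smul, hx]

theorem a4_bim (ψ : G ≃* G') (a b : MonoidAlgebra F G) :
    bim (domCongr F F ψ a) (domCongr F F ψ b) = bim a b := by
  rw [bim, bim, ← (domCongr F F ψ).toLinearEquiv.finrank_map_eq]
  refine congrArg (fun S : Submodule F (MonoidAlgebra F G') => finrank F S) (le_antisymm ?_ ?_)
  · rintro _ ⟨y, rfl⟩
    obtain ⟨x, rfl⟩ := (domCongr F F ψ).surjective y
    exact ⟨_, ⟨x, rfl⟩, by simp⟩
  · rintro _ ⟨_, ⟨x, rfl⟩, rfl⟩
    exact ⟨domCongr F F ψ x, by simp⟩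

theorem a4_avg [Fintype G] [Invertible (Fintype.card G : F)] (x : MonoidAlgebra F G) :
    x * GroupAlgebra.average F G = aug x • GroupAlgebra.average F G ∧
      GroupAlgebra.average F G * x = aug x • GroupAlgebra.average F G := by
  rw [aug_eq]
  induction x using MonoidAlgebra.induction_on with
  | of g => simp [augH]
  | add x y hx hy => rw [add_mul, mul_add, map_add, add_smul, hx.1, hx.2, hy.1, hy.2]; simp
  | smul c x hx =>
    rw [smul_mul_assoc, mul_smul_comm, map_smul, smul_assoc, hx.1, hx.2]; simp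

end

theorem a4_fact {p : ℕ} (hp : 0 < p) (m : ℕ) : p ^ m ∣ (p * m).factorial := by
  induction m with
  | zero => simp
  | succ m ih =>
    rw [pow_succ, mul_add_one]
    exact (mul_dvd_mul ih (Nat.dvd_factorial hp le_rfl)).trans
      (Nat.factorial_mul_factorial_dvd_factorial_add _ _)

/- PLAN: transport along `MonoidAlgebra.domCongr` (`fix_iff`, `aug_eq_sum`, `coeff_domCongr`). -/
theorem PBd.congr {p : ℕ} [Fact p.Prime] {G G' : Type} [Group G] [Group G'] [Finite G]
    (ψ : G ≃* G') {D : Subgroup G} {c : ℕ} (h : PBd p (D.map (ψ : G →* G')) c) : PBd p D c := by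
  intro i h1 h2
  rw [← a4_bim ψ]
  exact h _ (a4_prim ψ h1) ((a4_aug ψ i).trans h2)

theorem pbd_card (p : ℕ) [Fact p.Prime] {G : Type} [Group G] [Finite G] (D : Subgroup G) :
    PBd p D (Nat.card G) := fun i _ _ => bim_le i i

/- PLAN: the average `e` over `G` is a central idempotent of augmentation `1`, `e * i = i`
(`Prim.central_mul`), and `e * x = aug x • e`; so the range of `x ↦ i * x * i` lies in the line
spanned by `e`. -/
theorem pbd_coprime (p : ℕ) [Fact p.Prime] {G : Type} [Group G] [Finite G] (h : ¬ p ∣ Nat.card G)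
    (D : Subgroup G) : PBd p D 1 := by
  intro i h1 h2
  have := Fintype.ofFinite G
  have : Invertible (Fintype.card G : ZMod p) := invertibleOfNonzero fun k =>
    h (Nat.card_eq_fintype_card (α := G) ▸ (ZMod.natCast_eq_zero_iff _ _).1 k)
  have h3 : aug (GroupAlgebra.average (ZMod p) G) = 1 := by
    simp [aug_eq, augH, GroupAlgebra.average]
  have h4 := h1.central_mul h2 (e := GroupAlgebra.average (ZMod p) G)
    ((a4_avg _).1.trans (by rw [h3, one_smul])) (fun y => (a4_avg y).1.trans (a4_avg y).2.symm) h3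
  rw [(a4_avg i).2, h2, one_smul] at h4
  refine (Submodule.finrank_mono (t := Submodule.span _ {i}) ?_).trans
    (finrank_span_singleton h1.2.1).le
  rintro _ ⟨x, rfl⟩
  rw [LinearMap.mulLeftRight_apply, ← h4, (a4_avg _).1]
  exact Submodule.smul_mem _ _ (Submodule.mem_span_singleton_self _)

/- PLAN: `Matrix.permMatrixHom` gives an injective homomorphism from `Equiv.Perm (Fin n)`
(`MonoidHom.toHomUnits`), so `n ! ∣ card`; `p ^ m ∣ (p * m)!` (induction, or
`Nat.Prime.emultiplicity_factorial_mul`), `Nat.lt_pow_self`. -/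
theorem rank_lt (p : ℕ) [Fact p.Prime] {n m : ℕ} {K : Type} [Field K] [Finite K]
    (h : ∀ a : ℕ, p ^ a ∣ Nat.card (GL (Fin n) K) → p ^ a ≤ m) : n < p * m := by
  have hp : p.Prime := Fact.out
  by_contra hn
  have h1 : Function.Injective (Matrix.permMatrixHom (n := Fin n) (R := K)).toHomUnits :=
    fun σ τ k => inv_injective (Equiv.ext fun i => Option.some.inj
      (congrArg (fun f : Fin n ≃. Fin n => f i) (PEquiv.toMatrix_injective (congrArg Units.val k))))
  have h2 := Subgroup.card_dvd_of_injective _ h1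
  rw [Nat.card_perm, Nat.card_fin] at h2
  exact (h m (((a4_fact hp.pos m).trans (Nat.factorial_dvd_factorial (not_lt.1 hn))).trans
    h2)).not_gt (Nat.lt_pow_self hp.one_lt)

/- PLAN: `Nat.card K = p ^ r` (`FiniteField.card`); `Matrix.card_GL_field`.  For `n ≤ 1` the order is
`1` or `q - 1`; for `2 ≤ n` the factor `q ^ n - q` is divisible by `q`, so `q ≤ m`, and the group
embeds in the matrices. -/
theorem def_char (p : ℕ) [Fact p.Prime] {n m : ℕ} {K : Type} [Field K] [Finite K] (hp : (p : K) = 0)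
    (h : ∀ a : ℕ, p ^ a ∣ Nat.card (GL (Fin n) K) → p ^ a ≤ m) :
    ¬ p ∣ Nat.card (GL (Fin n) K) ∨ Nat.card (GL (Fin n) K) ≤ m ^ (p * m * (p * m)) := by
  have hp' : p.Prime := Fact.out
  have := Fintype.ofFinite K
  have := (CharP.charP_iff_prime_eq_zero hp').2 hp
  obtain ⟨r, -, hr⟩ := FiniteField.card K p
  have hq : p ∣ Fintype.card K := hr ▸ dvd_pow_self p r.ne_zero
  rcases n with _ | _ | n
  · left
    rw [Matrix.card_GL_field, Fin.prod_univ_zero]
    exact hp'.not_dvd_one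
  · left
    rw [Matrix.card_GL_field, Fin.prod_univ_one]
    intro k
    have k1 := Nat.dvd_sub hq k
    have k2 : 1 ≤ Fintype.card K := Fintype.card_pos
    simp only [zero_add, pow_one, Fin.val_zero, pow_zero] at k1
    rw [Nat.sub_sub_self k2] at k1
    exact hp'.not_dvd_one k1
  · right
    have h1 : Fintype.card K ≤ m := by
      rw [hr]
      refine h r ?_
      rw [← hr, Matrix.card_GL_field]
      refine Dvd.dvd.trans ?_ (Finset.dvd_prod_of_mem _ (Finset.mem_univ (1 : Fin (n + 1 + 1))))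
      exact Nat.dvd_sub (dvd_pow_self _ (by omega)) (dvd_pow_self _ (by simp))
    have h2 := (rank_lt p h).le
    refine (Nat.card_le_card_of_injective _ Units.val_injective).trans ?_
    refine (Nat.card_fun.trans ?_).trans_le ((Nat.pow_le_pow_left h1 _).trans
      (Nat.pow_le_pow_right (Fintype.card_pos.trans_le h1) (Nat.mul_le_mul h2 h2)))
    rw [Nat.card_fun, Nat.card_fin, Nat.card_eq_fintype_card, pow_mul]

/- PLAN: `exists_val`, `kO_charP`, `topBound p (p * m) m`; `Prim.map`, `aug_map`, `bim_le_map` for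
`ZMod.castHom`; `PBd.congr` with `Matrix.GeneralLinearGroup.toLin.trans
(LinearMap.GeneralLinearGroup.generalLinearEquiv ..)`; `def_char`, `pbd_card`, `pbd_coprime`. -/
theorem glBound (p m : ℕ) [Fact p.Prime] (h : ∀ n, GLData p n) : ∃ c : ℕ,
    ∀ (n : ℕ) (K : Type) [Field K] [Finite K] (D : Subgroup (GL (Fin n) K)), IsPGroup p D →
      (∀ a : ℕ, p ^ a ∣ Nat.card (GL (Fin n) K) → p ^ a ≤ m) → PBd p D c := by
  obtain ⟨c, hc⟩ := topBound p (p * m) m (h _)
  refine ⟨c + 1 + m ^ (p * m * (p * m)), fun n K _ _ D hD hm => ?_⟩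
  by_cases hp : (p : K) = 0
  · rcases def_char p hp hm with k | k
    · exact (pbd_coprime p k D).mono (by omega)
    · exact (pbd_card p D).mono (by omega)
  obtain ⟨O, hO⟩ := exists_val p
  have := kO_charP p hO
  let ψ : GL (Fin n) K ≃* ((Fin n → K) ≃ₗ[K] (Fin n → K)) := Matrix.GeneralLinearGroup.toLin.trans
    (LinearMap.GeneralLinearGroup.generalLinearEquiv K (Fin n → K))
  have : Finite ((Fin n → K) ≃ₗ[K] (Fin n → K)) := Finite.of_equiv _ ψ.toEquiv
  refine (PBd.congr ψ (c := c) fun i h1 h2 => ?_).mono (by omega)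
  refine (bim_le_map (ZMod.castHom (dvd_refl p) (kO O)) i i).trans
    (hc O hO K (Fin n → K) hp ((finrank_fin_fun K).trans_le (rank_lt p hm).le)
      (fun a ha => hm a (Nat.card_congr ψ.toEquiv ▸ ha)) _ _ (hD.map _) (h1.map h2 _) ?_)
  rw [aug_map, h2, map_one]

/- PLAN: `glBound p (Nat.card P)`, `fin_of_bound`, `IsDefect.sylow`, `sylow_card`. -/
theorem main_GL (p : ℕ) [Fact p.Prime] (h : ∀ n, GLData p n) (F : Type) [Field F] [CharP F p]
    (P : Type) [Group P] [Finite P] :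
    ∃ (N : ℕ) (A : Fin N → Type) (_ : ∀ j, Ring (A j)) (_ : ∀ j, Algebra F (A j))
      (α : ∀ j, P →* (A j)ˣ), (∀ j, FiniteDimensional F (A j)) ∧
      ∀ (n : ℕ) (K : Type) [Field K] [Finite K] (b : MonoidAlgebra F (GL (Fin n) K))
        (D : Subgroup (GL (Fin n) K)) (i : MonoidAlgebra F (GL (Fin n) K)),
        IsBlock b → aug b = 1 → IsDefect p b D → Nonempty (D ≃* P) → IsSource b D i →
        ∃ j, IsoSrc (α j) D i := by
  obtain ⟨c, hc⟩ := glBound p (Nat.card P) h
  obtain ⟨N, A, i1, i2, α, h1, h2⟩ := fin_of_bound p F P c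
  refine ⟨N, A, i1, i2, α, h1, fun n K _ _ b D i hb ha hD hP hi =>
    h2 _ b D i hb ha hD hP hi (hc n K D hD.1 fun a k => ?_)⟩
  obtain ⟨S, rfl⟩ := hD.sylow p hb ha
  exact (sylow_card p S k).trans_eq (Nat.card_congr hP.some.toEquiv)

end Pool.Agent.Puig
end

-- merged part: Pool.Agent.Work.MP_cea1f0_al.X3
section
/-! Quotients by central subgroups. -/

namespace Pool.Agent.Puig

open MonoidAlgebra Module

variable {k H G : Type} [Field k] [Group H] [Group G] [Finite H] [Finite G]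

/- PLAN: `z ^ p ^ r = 1` and `z ^ Nat.card π.ker = 1` with coprime exponents. -/
omit [Finite G] in
theorem ker_triv (p : ℕ) [Fact p.Prime] {π : H →* G} (hp : ¬ p ∣ Nat.card π.ker) {z : H}
    (hz : π z = 1) {r : ℕ} (h : z ^ p ^ r = 1) : z = 1 := by
  exact orderOf_eq_one_iff.1 (Nat.eq_one_of_dvd_coprimes
    (Nat.Coprime.pow_left r ((Fact.out : p.Prime).coprime_iff_not_dvd.2 hp))
    (orderOf_dvd_of_pow_eq_one h) (π.ker.orderOf_dvd_natCard (MonoidHom.mem_ker.2 hz)))

omit [Finite G] in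
theorem x3_eq (p : ℕ) [Fact p.Prime] {π : H →* G} (hz : π.ker ≤ Subgroup.center H)
    (hp : ¬ p ∣ Nat.card π.ker) {u u' : H} (h : π u = π u') {a b : ℕ} (h1 : u ^ p ^ a = 1)
    (h2 : u' ^ p ^ b = 1) : u = u' := by
  have k1 : π (u'⁻¹ * u) = 1 := by rw [map_mul, map_inv, h, inv_mul_cancel]
  have k2 : Commute u' (u'⁻¹ * u) := Subgroup.mem_center_iff.1 (hz (MonoidHom.mem_ker.2 k1)) u'
  have k3 := k2.mul_pow (p ^ (a + b))
  rw [mul_inv_cancel_left, pow_add, pow_mul, h1, one_pow, mul_comm (p ^ a), pow_mul u', h2,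
    one_pow, one_mul, ← pow_add] at k3
  exact (inv_mul_eq_one.1 (ker_triv p hp k1 k3.symm)).symm

omit [Finite H] [Finite G] in
theorem x3_pow {p : ℕ} {D : Subgroup H} (hD : IsPGroup p D) {u : H} (hu : u ∈ D) :
    ∃ a : ℕ, u ^ p ^ a = 1 := by
  obtain ⟨a, ha⟩ := hD ⟨u, hu⟩
  exact ⟨a, congrArg Subtype.val ha⟩

omit [Finite G] in
theorem x3_cen (p : ℕ) [Fact p.Prime] {π : H →* G} (hz : π.ker ≤ Subgroup.center H)
    (hp : ¬ p ∣ Nat.card π.ker) {D : Subgroup H} (hD : IsPGroup p D) (h : H) :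
    π h ∈ Subgroup.centralizer (D.map π : Set G) ↔ h ∈ Subgroup.centralizer (D : Set H) := by
  constructor
  · intro k u hu
    obtain ⟨a, ha⟩ := x3_pow hD hu
    have k1 : π u * π h = π h * π u := k _ ⟨u, hu, rfl⟩
    have k2 := x3_eq p hz hp (u := h * u * h⁻¹) (u' := u) (a := a)
      (by rw [map_mul, map_mul, map_inv, ← k1, mul_inv_cancel_right])
      (by rw [conj_pow, ha, mul_one, mul_inv_cancel]) ha
    exact (mul_inv_eq_iff_eq_mul.1 k2).symm
  · rintro k _ ⟨u, hu, rfl⟩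
    rw [← map_mul, ← map_mul, k u hu]

open Classical in
omit [Finite G] in
theorem x3_single (D : Subgroup G) (u : G) :
    Br D (of k G u) = if u ∈ Subgroup.centralizer (D : Set G) then of k G u else 0 := by
  ext w
  rw [coeff_Br]
  by_cases h : u = w
  · subst h
    split_ifs <;> rfl
  · have e : (of k G u).coeff w = 0 := by rw [of_apply, coeff_single, Finsupp.single_eq_of_ne' h]
    split_ifs
    · rfl
    · exact e
    · exact e.symm
    · rfl

open Classical in
omit [Finite H] [Finite G] in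
theorem x3_coeff [Fintype H] (π : H →* G) (x : MonoidAlgebra k H) (g : G) :
    (mapDomainAlgHom k k π x).coeff g = ∑ h, if π h = g then x.coeff h else 0 := by
  show Finsupp.mapDomain π x.coeff g = _
  rw [Finsupp.mapDomain, Finsupp.sum_fintype _ _ fun _ => Finsupp.single_zero _,
    Finsupp.finsetSum_apply]
  exact Finset.sum_congr rfl fun h _ => Finsupp.single_apply

omit [Finite H] [Finite G] in
theorem x3_sec {π : H →* G} {σ : G → H} (hσ : ∀ g, π (σ g) = g) (y : MonoidAlgebra k G) :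
    mapDomainAlgHom k k π (mapDomainLinearMap k k σ y) = y := by
  induction y using MonoidAlgebra.induction_on with
  | of g => rw [of_apply, mapDomainLinearMap_single, ← of_apply, v3_map_of, hσ, of_apply]
  | add a b ha hb => rw [map_add, map_add, ha, hb]
  | smul r a ha => rw [map_smul, map_smul, ha]

omit [Finite H] [Finite G] in
theorem x3_surj {π : H →* G} (hπ : Function.Surjective π) :
    Function.Surjective (mapDomainAlgHom k k π) := fun y =>
  ⟨_, x3_sec (Function.surjInv_eq hπ) y⟩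

theorem x3_avg_mul {Y : Subgroup G} {z : G} (hz : z ∈ Y) : avg k Y * of k G z = avg k Y := by
  classical
  ext g
  have h1 : (avg k Y * of k G z).coeff g = (avg k Y).coeff (g * z⁻¹) := by simp
  rw [h1, coeff_avg, coeff_avg]
  exact if_congr (Y.mul_mem_cancel_right (Y.inv_mem hz)) rfl rfl

omit [Finite G] in
theorem x3_map_avg {π : H →* G} (h : (Nat.card π.ker : k) ≠ 0) :
    mapDomainAlgHom k k π (avg k π.ker) = 1 := by
  classical
  have : Fintype H := Fintype.ofFinite H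
  ext g
  rw [x3_coeff, MonoidAlgebra.one_def, coeff_single, Finsupp.single_apply]
  by_cases hg : 1 = g
  · subst hg
    rw [if_pos rfl, ← mul_inv_cancel₀ h, ← v3_sum_ind]
    refine Finset.sum_congr rfl fun z _ => ?_
    rw [coeff_avg]
    by_cases hz : z ∈ π.ker
    · rw [if_pos (MonoidHom.mem_ker.1 hz)]
    · rw [if_neg hz, ite_self]
  · rw [if_neg hg]
    refine Finset.sum_eq_zero fun z _ => ?_
    rw [coeff_avg]
    by_cases hz : z ∈ π.ker
    · exact if_neg fun e : π z = g => hg ((MonoidHom.mem_ker.1 hz).symm.trans e)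
    · rw [if_neg hz, ite_self]

omit [Finite G] in
theorem x3_back {π : H →* G} {σ : G → H} (hσ : ∀ g, π (σ g) = g) (x : MonoidAlgebra k H) :
    avg k π.ker * mapDomainLinearMap k k σ (mapDomainAlgHom k k π x) = avg k π.ker * x := by
  induction x using MonoidAlgebra.induction_on with
  | of h =>
    have h1 : σ (π h) * h⁻¹ ∈ π.ker := by
      rw [MonoidHom.mem_ker, map_mul, hσ, map_inv, mul_inv_cancel]
    rw [v3_map_of, of_apply, mapDomainLinearMap_single, ← of_apply,
      ← inv_mul_cancel_right (σ (π h)) h, map_mul, ← mul_assoc, x3_avg_mul h1]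
  | add a b ha hb => rw [map_add, map_add, mul_add, mul_add, ha, hb]
  | smul r a ha => rw [map_smul, map_smul, mul_smul_comm, mul_smul_comm, ha]

/- PLAN: `π h` centralises `D.map π` iff `h` centralises `D`: `h * u * h⁻¹ = u * z` with `z` in the
kernel, central; raise to the order of `u` and use `ker_triv`.  Then induction on `x`
(`w3_single` in `W3.lean` shows how to compute `Br D (single u c)`). -/
omit [Finite G] in
theorem Br_quot (p : ℕ) [Fact p.Prime] {π : H →* G} (hz : π.ker ≤ Subgroup.center H)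
    (hp : ¬ p ∣ Nat.card π.ker) {D : Subgroup H} (hD : IsPGroup p D) (x : MonoidAlgebra k H) :
    Br (D.map π) (mapDomainAlgHom k k π x) = mapDomainAlgHom k k π (Br D x) := by
  classical
  induction x using MonoidAlgebra.induction_on with
  | of h =>
    rw [v3_map_of, x3_single, x3_single]
    by_cases hh : h ∈ Subgroup.centralizer (D : Set H)
    · rw [if_pos hh, if_pos ((x3_cen p hz hp hD h).2 hh), v3_map_of]
    · rw [if_neg hh, if_neg fun e => hh ((x3_cen p hz hp hD h).1 e), map_zero]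
  | add a b ha hb =>
    rw [map_add, ← BrL_apply, ← BrL_apply, map_add, map_add, map_add, BrL_apply, BrL_apply,
      BrL_apply, BrL_apply, ha, hb]
  | smul r a ha =>
    rw [map_smul, ← BrL_apply, ← BrL_apply, map_smul, map_smul, map_smul, BrL_apply, BrL_apply, ha]

/- PLAN: `e = avg k π.ker` is a central idempotent (`avg_idem`, `fix_avg`), `π e = 1`, and
`e * x = x`, `π x = 0` imply `x = 0` (the linear map `s` with `s (of g) = e * of (σ g)`, `σ` a section
of `π`, satisfies `s (π x) = e * x`).  `c = e * x₀` with `π x₀ = b`.  `br`: `π x * b = π x`,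
`Br_quot`, `Br_mul`, `Br D e = e`.  `sub`: `exists_pgroup_map`.  `mono`: `ker_triv`. -/
theorem lnk_quot (p : ℕ) [Fact p.Prime] [CharP k p] {π : H →* G} (hπ : Function.Surjective π)
    (hz : π.ker ≤ Subgroup.center H) (hp : ¬ p ∣ Nat.card π.ker) {b : MonoidAlgebra k G}
    (hb : IsIdempotentElem b) (hc : ∀ x, x * b = b * x) : ∃ c, Lnk p π c b := by
  classical
  have hν : (Nat.card π.ker : k) ≠ 0 := fun e => hp ((CharP.cast_eq_zero_iff k p _).1 e)
  have e1 : avg k π.ker * avg k π.ker = avg k π.ker := avg_idem hν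
  have e2 : Fix ⊤ (avg k π.ker) := by
    have := fix_avg (k := k) π.ker
    rwa [Subgroup.normalizer_eq_top] at this
  have e3 := fix_top_iff.1 e2
  have inj : ∀ x y, avg k π.ker * x = x → avg k π.ker * y = y →
      mapDomainAlgHom k k π x = mapDomainAlgHom k k π y → x = y := fun x y hx hy h => by
    rw [← hx, ← hy, ← x3_back (Function.surjInv_eq hπ) x, h, x3_back (Function.surjInv_eq hπ) y]
  have eB : ∀ D : Subgroup H, Br D (avg k π.ker) = avg k π.ker := fun D => by
    ext g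
    rw [coeff_Br]
    split_ifs with hg
    · rfl
    · rw [coeff_avg, if_neg fun h => hg (Subgroup.center_le_centralizer _ (hz h))]
  have e4 := x3_map_avg (k := k) hν
  generalize avg k π.ker = e at e1 e2 e3 inj eB e4
  obtain ⟨x₀, hx₀⟩ := x3_surj (k := k) hπ b
  obtain ⟨c, c1, c2⟩ : ∃ c, e * c = c ∧ mapDomainAlgHom k k π c = b :=
    ⟨e * x₀, by rw [← mul_assoc, e1], by rw [map_mul, e4, one_mul, hx₀]⟩
  have ci : c * c = c := inj _ _ (by rw [← mul_assoc, c1]) c1 (by rw [map_mul, c2, hb.eq])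
  have k1 : ∀ x, c * x = x → mapDomainAlgHom k k π x * b = mapDomainAlgHom k k π x :=
    fun x hx => by rw [hc, ← c2, ← map_mul, hx]
  have k2 : ∀ x, c * x = x → e * x = x := fun x hx => by rw [← hx, ← mul_assoc, c1]
  refine ⟨c, ci, fun x => inj _ _ ?_ ?_ ?_, hb, hc, by rw [c2, hb.eq], fun x hx h => ?_,
    fun y hy => ?_, fun D hD x hf hx => ?_, fun E hE => exists_pgroup_map p hπ hE,
    fun D D' hD hD' h u hu => ?_⟩
  · rw [← mul_assoc, ← e3, mul_assoc, c1]
  · rw [← mul_assoc, c1]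
  · rw [map_mul, map_mul, c2, hc]
  · exact inj _ _ (k2 x hx) (mul_zero _) (by rw [← k1 x hx, h, map_zero])
  · obtain ⟨y₀, rfl⟩ := x3_surj (k := k) hπ y
    refine ⟨c * y₀, by rw [← mul_assoc, ci], ?_⟩
    rw [map_mul, c2, hy, hc, hy]
  · rw [k1 x hx, Br_quot p hz hp hD]
    refine ⟨fun h => by rw [h, map_zero], fun h => inj _ _ ?_ (mul_zero _) (by rw [h, map_zero])⟩
    rw [← eB D, ← Br_mul p hD (e2.mono le_top) hf, k2 x hx]
  · obtain ⟨u', hu', e'⟩ := h (Subgroup.mem_map_of_mem π hu)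
    obtain ⟨a, ha⟩ := x3_pow hD hu
    obtain ⟨a', ha'⟩ := x3_pow hD' hu'
    rwa [x3_eq p hz hp e'.symm ha ha']

/- PLAN: `lift_idem`, `idem_sing`, `fix_iff`, `fix_top_iff`, `coeff_red`, `piO_zero`. -/
theorem coeff_sing (p : ℕ) [Fact p.Prime] {O : ValuationSubring ℂ} (hO : (p : ℂ) ∈ O.nonunits)
    {b : MonoidAlgebra (kO O) G} (hb : IsIdempotentElem b) (hc : ∀ x, x * b = b * x) {g : G}
    (hg : ¬ (orderOf g).Coprime p) : b.coeff g = 0 := by
  have : Fintype G := Fintype.ofFinite G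
  obtain ⟨y, h1, h2, h3, h4⟩ := lift_idem hb
  have h5 : ClassFn y := fun g h =>
    h4 h (fix_iff.1 (fix_top_iff.2 hc) h (Subgroup.mem_top h)) g
  rw [← h3, coeff_red, idem_sing p hO h1 h2 h5 hg, piO_zero]

omit [Finite H] in
theorem x3_cop {p : ℕ} {a b : H} (h : Commute a b) (ha : (orderOf a).Coprime p)
    (hb : (orderOf b).Coprime p) : (orderOf (a * b)).Coprime p :=
  (Nat.Coprime.mul_left ha hb).coprime_dvd_left h.orderOf_mul_dvd_mul_orderOf

omit [Finite G] in
theorem x3_reg (p : ℕ) [Fact p.Prime] (π : H →* G) {h : H} (hg : (orderOf (π h)).Coprime p) :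
    ∃ s, π s = π h ∧ (orderOf s).Coprime p := by
  obtain ⟨s, u, r, h1, -, h2, h3, -, h4⟩ := exists_pparts p h
  have k1 : π u ∈ Subgroup.zpowers (π h) := by
    obtain ⟨n, rfl⟩ := h4
    exact ⟨n, (map_zpow π h n).symm⟩
  have k2 : π u = 1 := orderOf_eq_one_iff.1 (Nat.eq_one_of_dvd_coprimes (hg.pow_right r)
    (orderOf_dvd_of_mem_zpowers k1) (orderOf_dvd_of_pow_eq_one (by rw [← map_pow, h3, map_one])))
  exact ⟨s, by rw [h1, map_mul, k2, mul_one], h2⟩

/- PLAN: `c.coeff h = if (orderOf h).Coprime p then b.coeff (π h) else 0`, a class function.  Let `Z`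
be the subgroup of the `z` in the kernel of order prime to `p` (the kernel is central);
`ν = card Z` is prime to `p` (`exists_prime_orderOf_dvd_card'`).  If `g` has order prime to `p`, it
has a preimage `s` of order prime to `p` (`exists_pparts`: `π u` is a `p`-element and a power of
`g`, so `1`), and the preimages of order prime to `p` are the `s * z`, `z ∈ Z`.  Otherwise no
preimage has order prime to `p` (`orderOf_map_dvd`). -/
theorem central_lift (p : ℕ) [Fact p.Prime] [CharP k p] {π : H →* G} (hπ : Function.Surjective π)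
    (hz : π.ker ≤ Subgroup.center H) {b : MonoidAlgebra k G} (hc : ∀ x, x * b = b * x)
    (hs : ∀ g, ¬ (orderOf g).Coprime p → b.coeff g = 0) :
    ∃ (c : MonoidAlgebra k H) (ν : k), (∀ x, x * c = c * x) ∧ ν ≠ 0 ∧
      mapDomainAlgHom k k π c = ν • b := by
  classical
  have : Fintype H := Fintype.ofFinite H
  have com : ∀ z ∈ π.ker, ∀ a, Commute a z := fun z hz' a => Subgroup.mem_center_iff.1 (hz hz') a
  let Z : Subgroup H :=
    { carrier := {z | z ∈ π.ker ∧ (orderOf z).Coprime p}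
      mul_mem' := fun {a b} ha hb => ⟨π.ker.mul_mem ha.1 hb.1, x3_cop (com b hb.1 a) ha.2 hb.2⟩
      one_mem' := ⟨π.ker.one_mem, by rw [orderOf_one]; exact Nat.coprime_one_left p⟩
      inv_mem' := fun {a} ha => ⟨π.ker.inv_mem ha.1, by rw [orderOf_inv]; exact ha.2⟩ }
  have hZ : ∀ z, z ∈ Z ↔ z ∈ π.ker ∧ (orderOf z).Coprime p := fun z => Iff.rfl
  obtain ⟨c, hc'⟩ : ∃ c : MonoidAlgebra k H,
      ∀ h, c.coeff h = if (orderOf h).Coprime p then b.coeff (π h) else 0 :=
    ⟨.ofCoeff (Finsupp.equivFunOnFinite.symm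
      fun h => if (orderOf h).Coprime p then b.coeff (π h) else 0), fun h => rfl⟩
  refine ⟨c, Nat.card Z, fix_top_iff.1 (fix_iff.2 fun u _ g => ?_), fun e => ?_, ?_⟩
  · have h1 : orderOf (u * g * u⁻¹) = orderOf g := (MulAut.conj u).orderOf_eq g
    rw [hc', hc', h1, map_mul π, map_mul π, map_inv π,
      fix_iff.1 (fix_top_iff.2 hc) (π u) (Subgroup.mem_top _)]
  · obtain ⟨z, h1⟩ := exists_prime_orderOf_dvd_card' p ((CharP.cast_eq_zero_iff k p _).1 e)
    have h2 := ((hZ z).1 z.2).2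
    rw [Subgroup.orderOf_coe, h1, Nat.coprime_self] at h2
    exact (Fact.out : p.Prime).ne_one h2
  · ext g
    rw [x3_coeff, coeff_smul_apply, smul_eq_mul]
    by_cases hg : (orderOf g).Coprime p
    · obtain ⟨h, rfl⟩ := hπ g
      obtain ⟨s, s1, s2⟩ := x3_reg p π hg
      rw [← v3_sum_ind, ← Equiv.sum_comp (Equiv.mulLeft s)]
      refine Finset.sum_congr rfl fun z _ => ?_
      simp only [Equiv.coe_mulLeft]
      rw [hc', map_mul π, s1]
      by_cases h1 : z ∈ π.ker
      · rw [MonoidHom.mem_ker.1 h1, mul_one, if_pos rfl]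
        refine if_congr ⟨fun h2 => ⟨h1, ?_⟩, fun h2 => x3_cop (com z h1 s) s2 h2.2⟩ rfl rfl
        have h3 := x3_cop (((Commute.refl s).mul_right (com z h1 s)).inv_left)
          (by rw [orderOf_inv]; exact s2) h2
        rwa [inv_mul_cancel_left] at h3
      · rw [if_neg fun e => h1 (MonoidHom.mem_ker.2 (mul_eq_left.1 e)),
          if_neg fun e => h1 ((hZ z).1 e).1]
    · rw [hs g hg, mul_zero]
      refine Finset.sum_eq_zero fun h _ => ?_
      split_ifs with h1
      · rw [hc', h1, hs g hg, ite_self]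
      · rfl

/- PLAN: `π c₀` is a central idempotent, so `π c₀ * b = b`.  Suppose `aug b = 0` (`a2_idem`); with
`c` from `central_lift`, `aug (c * c₀) = 0` (`aug_push`), so `c * c₀` is nilpotent (`Prim.fit` for
`hc₀.prim`), and so is its image `ν • b`. -/
theorem aug_of_quot (p : ℕ) [Fact p.Prime] {O : ValuationSubring ℂ} (hO : (p : ℂ) ∈ O.nonunits)
    {π : H →* G} (hπ : Function.Surjective π) (hz : π.ker ≤ Subgroup.center H)
    {c₀ : MonoidAlgebra (kO O) H} (hc₀ : IsBlock c₀) {b : MonoidAlgebra (kO O) G} (hb : IsBlock b)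
    (h1 : aug c₀ = 1) (h : mapDomainAlgHom (kO O) (kO O) π c₀ * b ≠ 0) : aug b = 1 := by
  have := kO_charP p hO
  have k1 : mapDomainAlgHom (kO O) (kO O) π c₀ * b = b := by
    refine (hb.2.2.2 _ (hc₀.1.map _) fun x => ?_).resolve_left h
    obtain ⟨x', rfl⟩ := x3_surj hπ x
    rw [← map_mul, ← map_mul, hc₀.2.2.1]
  refine (a2_idem hb.1).resolve_left fun h0 => ?_
  obtain ⟨c, ν, c1, c2, c3⟩ := central_lift p hπ hz hb.2.2.1
    fun g hg => coeff_sing p hO hb.1 hb.2.2.1 hg
  have k2 : aug c = 0 := by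
    rw [← aug_push π, c3, aug_eq, map_smul, ← aug_eq, h0, smul_zero]
  have k3 : Fix ⊤ (c * c₀) := fix_top_iff.2 fun y => by
    rw [← mul_assoc, c1, mul_assoc, hc₀.2.2.1, mul_assoc]
  rcases hc₀.prim.fit k3 (by
    rw [← mul_assoc, c1, mul_assoc c, hc₀.1.eq, mul_assoc, hc₀.1.eq]) with hn | ⟨y, -, -, hy, -⟩
  · have k4 := hn.map (mapDomainAlgHom (kO O) (kO O) π)
    rw [map_mul, c3, smul_mul_assoc, ← hb.2.2.1, k1] at k4
    have k5 := k4.smul ν⁻¹
    rw [smul_smul, inv_mul_cancel₀ c2, one_smul] at k5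
    exact hb.2.1 (hb.1.eq_zero_of_isNilpotent k5)
  · have k4 := congrArg aug hy
    rw [aug_mul, aug_mul, k2, zero_mul, zero_mul, h1] at k4
    exact zero_ne_one k4

/- PLAN: for `g : G` let `ψ : H ≃* H` be `MulAut.conjNormal g` transported along
`MonoidHom.ofInjective hι`.  The image of `c` under `domCongr k k ψ` is `Prim ⊤` (`a4_prim`) of
augmentation `1` (`a4_aug`), so equal to `c` (`Prim.central_mul` twice); compare coefficients
(`fix_top_iff`, `fix_iff`, `brq_map`; outside the range they vanish). -/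
theorem princ_central {ι : H →* G} (hι : Function.Injective ι) (hn : ι.range.Normal)
    {c : MonoidAlgebra k H} (hc : IsBlock c) (h1 : aug c = 1) (x : MonoidAlgebra k G) :
    x * mapDomainAlgHom k k ι c = mapDomainAlgHom k k ι c * x := by
  refine fix_top_iff.1 (fix_iff.2 fun u _ g => ?_) x
  obtain ⟨ψ, hψ⟩ : ∃ ψ : H ≃* H, ∀ h, ι (ψ h) = u * ι h * u⁻¹ :=
    ⟨(MonoidHom.ofInjective hι).trans
      ((MulAut.conjNormal u).trans (MonoidHom.ofInjective hι).symm), fun h => by
        rw [MulEquiv.trans_apply, MulEquiv.trans_apply, MonoidHom.apply_ofInjective_symm]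
        rfl⟩
  have p1 := a4_prim ψ hc.prim
  rw [Subgroup.map_top_of_surjective _ ψ.surjective] at p1
  have a1 : aug (domCongr k k ψ c) = 1 := by rw [a4_aug, h1]
  have e1 := hc.prim.central_mul h1 p1.1 (fix_top_iff.1 p1.2.2.1) a1
  have e2 := p1.central_mul a1 hc.1 hc.2.2.1 h1
  have e3 : domCongr k k ψ c = c := by rw [← e2, ← hc.2.2.1, e1]
  show Finsupp.mapDomain ι c.coeff _ = Finsupp.mapDomain ι c.coeff _
  by_cases hg : g ∈ ι.range
  · obtain ⟨h, rfl⟩ := hg
    rw [← hψ, Finsupp.mapDomain_apply hι, Finsupp.mapDomain_apply hι]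
    have := coeff_domCongr (R := k) ψ c (ψ h)
    rwa [e3, MulEquiv.symm_apply_apply] at this
  · rw [Finsupp.mapDomain_of_notMem_range _ g hg, Finsupp.mapDomain_of_notMem_range]
    intro h
    have := hn.conj_mem' _ h u
    rw [show u⁻¹ * (u * g * u⁻¹) * u = g by group] at this
    exact hg this

end Pool.Agent.Puig
end
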