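import Pool.Agent.Work.MP_cea1f0_al.Defs

/-! Unipotent blocks of the groups between `SL` and `GL` and of their central quotients. -/

namespace Pool.Agent.Puig

variable {n : ℕ} {K : Type} [Field K] {H : Subgroup (GL (Fin n) K)} {Q : Type} [Group Q]

/-- `g` is upper triangular. -/
def IsUpper (g : GL (Fin n) K) : Prop := ∀ i j, j < i → g.val i j = 0

/-- `H` contains `SL`, `π` is onto and its kernel consists of scalar matrices. -/
def TypeA (π : H →* Q) : Prop :=
  (∀ g : GL (Fin n) K, Matrix.GeneralLinearGroup.det g = 1 → g ∈ H) ∧ Function.Surjective π ∧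
    ∀ z, π z = 1 → ∃ a : K, (z : GL (Fin n) K).val = a • 1

open Classical in
/-- The sum of the elements of `Q` that are images of upper triangular matrices. -/
noncomputable def borelQ (F : Type) [Field F] [Finite Q] (π : H →* Q) : MonoidAlgebra F Q :=
  .ofCoeff (Finsupp.equivFunOnFinite.symm fun g =>
    if ∃ h : H, π h = g ∧ IsUpper (h : GL (Fin n) K) then 1 else 0)

end Pool.Agent.Puig
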