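import Pool.Agent.Work.MP_cea1f0_al.A4
import Pool.Agent.Work.MP_cea1f0_al.G1b

/-! Bounded rank, numerical lemmas, defining characteristic. -/

namespace Pool.Agent.Puig

open MonoidAlgebra Module

/-- The automorphisms that are trivial on `U` and modulo `U`. -/
def v5_A {K V : Type} [Field K] [AddCommGroup V] [Module K V] (U : Submodule K V) :
    Subgroup (V ≃ₗ[K] V) where
  carrier := {g | (∀ v, g v - v ∈ U) ∧ ∀ v ∈ U, g v = v}
  one_mem' := ⟨fun v => by simp, fun _ _ => rfl⟩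
  mul_mem' := fun {g h} hg hh => ⟨fun v => by
    simpa using U.add_mem (hg.1 (h v)) (hh.1 v), fun v hv => by
    rw [LinearEquiv.mul_apply, hh.2 v hv, hg.2 v hv]⟩
  inv_mem' := fun {g} hg => ⟨fun v => by simpa using U.neg_mem (hg.1 (g.symm v)), fun v hv =>
    g.symm_apply_eq.2 (hg.2 v hv).symm⟩

theorem v5_pgrp {K V : Type} [Field K] [AddCommGroup V] [Module K V] {p : ℕ} (hp : (p : K) = 0)
    (U : Submodule K V) : IsPGroup p (v5_A U) := by
  rintro ⟨g, hg⟩
  have h : ∀ (n : ℕ) (v : V), (g ^ n) v = v + (n : K) • (g v - v) := by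
    intro n v
    induction n with
    | zero => simp
    | succ n ih =>
      rw [pow_succ', LinearEquiv.mul_apply, ih, map_add, hg.2 _ (U.smul_mem _ (hg.1 v))]
      push_cast
      module
  exact ⟨1, Subtype.ext (LinearEquiv.ext fun v => by simpa [hp] using h p v)⟩



theorem card_GL_eq (K V : Type) [Field K] [Finite K] [AddCommGroup V] [Module K V] [Finite V] :
    Nat.card (V ≃ₗ[K] V) = Nat.card (GL (Fin (finrank K V)) K) := by
  have : Module.Finite K V := Module.Finite.of_finite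
  exact (Nat.card_congr ((Units.mapEquiv (Matrix.toLinAlgEquiv (finBasis K V)).toMulEquiv).trans
    (LinearMap.GeneralLinearGroup.generalLinearEquiv K V)).toEquiv).symm

/- PLAN: let `V₁` be the span of the `d v - v`, `d ∈ D`, and `Z = V₁ ⊓` fixed points.  `V₁ ≠ ⊥`, so
`Z ≠ ⊥` (`fix_bound`).  `A` = the group of the `g` with `g v - v ∈ Z` and `g = 1` on `V₁`; it is in
bijection with `(V ⧸ V₁) →ₗ Z`, has exponent `p`, centralises `D`, is normalised by the centraliser
of `D`; so `A ≤ D` (`IsDefect.le_of_normal`) and `q ^ r ≤ m`, `r = finrank (V ⧸ V₁)`.  The span `U` of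
the `d v j`, `v j` lifts of a basis of `V ⧸ V₁`, is `V` (otherwise the annihilator of `U` in the
dual, or a minimal quotient, has a non-zero fixed vector, a linear form vanishing on `U ⊔ V₁ = ⊤`),
so `finrank V ≤ m * r`, `1 ≤ r ≤ m`, `q ≤ m`. -/
theorem def_bound (p m : ℕ) [Fact p.Prime] : ∃ c : ℕ, ∀ (F K V : Type) [Field F] [CharP F p]
    [Field K] [Finite K] [AddCommGroup V] [Module K V] [Finite V], (p : K) = 0 →
    ∀ (b : MonoidAlgebra F (V ≃ₗ[K] V)) (D : Subgroup (V ≃ₗ[K] V)), IsBlock b → IsDefect p b D →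
      D ≠ ⊥ → Nat.card D ≤ m → Nat.card (V ≃ₗ[K] V) ≤ c := by
  refine ⟨(m ^ m) ^ m ^ m, fun F K V _ _ _ _ _ _ _ hp b D hb hD h0 hm => ?_⟩
  have := (CharP.charP_iff_prime_eq_zero (Fact.out : p.Prime)).2 hp
  have : Module.Finite K V := Module.Finite.of_finite
  have : Finite (V ≃ₗ[K] V) := Finite.of_injective _ DFunLike.coe_injective
  let ρ : Representation K D V := LinearEquiv.automorphismGroup.toLinearMapMonoidHom.comp D.subtype
  let U : Submodule K V := Submodule.span K {x | ∃ d ∈ D, ∃ v, d v - v = x}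
  have hU : ∀ d ∈ D, ∀ v, d v - v ∈ U := fun d hd v => Submodule.subset_span ⟨d, hd, v, rfl⟩
  obtain ⟨z, z1, z2, z3⟩ : ∃ z ∈ U, z ≠ 0 ∧ ∀ d : D, ρ d z = z := by
    obtain ⟨d, hd⟩ := Subgroup.ne_bot_iff_exists_ne_one.1 h0
    obtain ⟨v, hv⟩ : ∃ v, d.1 v ≠ v := by
      by_contra c
      push Not at c
      exact hd (Subtype.ext (LinearEquiv.ext c))
    exact perm_fix p hD.1 ρ U (fun γ v hv => show γ.1 v ∈ U by
      simpa using U.add_mem (hU γ γ.2 v) hv) (hU d d.2 v) (sub_ne_zero.2 hv)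
  have hA : Subgroup.centralizer (D : Set (V ≃ₗ[K] V)) ⊓ v5_A U ≤ D := by
    refine IsDefect.le_of_normal p hb hD ((v5_pgrp hp U).to_inf_right) inf_le_left fun c hc => ?_
    have k : ∀ c ∈ Subgroup.centralizer (D : Set (V ≃ₗ[K] V)), ∀ v ∈ U, c v ∈ U := by
      intro c hc v hv
      refine (Submodule.span_le (p := U.comap (c : V →ₗ[K] V))).2 ?_ hv
      rintro _ ⟨d, hd, v, rfl⟩
      have e : d (c v) = c (d v) := LinearEquiv.congr_fun (hc d hd) v
      simpa [← e] using hU d hd (c v)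
    have k' : ∀ c ∈ Subgroup.centralizer (D : Set (V ≃ₗ[K] V)),
        ∀ g ∈ Subgroup.centralizer (D : Set (V ≃ₗ[K] V)) ⊓ v5_A U,
        c * g * c⁻¹ ∈ Subgroup.centralizer (D : Set (V ≃ₗ[K] V)) ⊓ v5_A U := fun c hc g hg =>
      ⟨Subgroup.mul_mem _ (Subgroup.mul_mem _ hc hg.1) (Subgroup.inv_mem _ hc),
        fun v => by simpa using k c hc _ (hg.2.1 (c.symm v)), fun v hv => by
          rw [LinearEquiv.mul_apply, LinearEquiv.mul_apply, hg.2.2 _ (k _ (inv_mem hc) v hv)]
          exact c.apply_symm_apply v⟩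
    refine Subgroup.mem_normalizer_iff.2 fun g => ⟨k' c hc g, fun hg => ?_⟩
    simpa [mul_assoc] using k' _ (inv_mem hc) _ hg
  have w1 : ∀ φ : ρ.dual.invariants, ∀ d ∈ D, ∀ v, φ.1 (d v) = φ.1 v := fun φ d hd v =>
    LinearMap.congr_fun (φ.2 ⟨d, hd⟩⁻¹) v
  have w2 : ∀ φ : ρ.dual.invariants, ∀ v ∈ U, φ.1 v = 0 := by
    intro φ v hv
    refine (Submodule.span_le (p := LinearMap.ker φ.1)).2 ?_ hv
    rintro _ ⟨d, hd, v, rfl⟩
    simp [w1 φ d hd v]
  have w3 : ∀ φ : ρ.dual.invariants, LinearEquiv.transvection (w2 φ z z1) ∈ D := fun φ =>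
    hA ⟨fun d hd => LinearEquiv.ext fun v => by
      have e : d z = z := z3 ⟨d, hd⟩
      simp [LinearMap.transvection, w1 φ d hd v, e],
      fun v => by simpa [LinearMap.transvection] using U.smul_mem _ z1,
      fun v hv => by simp [LinearMap.transvection, w2 φ v hv]⟩
  have c1 : Nat.card ρ.dual.invariants ≤ m :=
    (Nat.card_le_card_of_injective (fun φ => (⟨_, w3 φ⟩ : D)) fun φ ψ e =>
      Subtype.ext (LinearMap.ext fun v => smul_left_injective K z2
        (add_left_cancel (LinearEquiv.congr_fun (congrArg Subtype.val e) v)))).trans hm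
  have c2 := fix_bound p hD.1 ρ.dual ⊤ fun _ _ _ => trivial
  rw [top_inf_eq, finrank_top, Subspace.dual_finrank_eq] at c2
  have c3 : Nat.card V ≤ m ^ m := by
    rw [natCard_eq_pow_finrank (K := K)] at c1 ⊢
    refine (Nat.pow_le_pow_right Nat.card_pos (c2.trans (Nat.mul_le_mul_right _ hm))).trans ?_
    rw [mul_comm, pow_mul]
    exact Nat.pow_le_pow_left c1 m
  refine (Nat.card_le_card_of_injective _ DFunLike.coe_injective).trans ?_
  rw [Nat.card_fun]
  exact (Nat.pow_le_pow_left c3 _).trans (Nat.pow_le_pow_right (Nat.card_pos.trans_le c3) c3)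

end Pool.Agent.Puig
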