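import Pool.Agent.Work.MP_cea1f0_al.G1b
import Pool.Agent.Work.MP_cea1f0_al.D.Osi
import Pool.Agent.Work.MP_cea1f0_al.D.Prim
import Pool.Agent.Work.MP_cea1f0_al.A4
import Pool.Agent.Work.MP_cea1f0_al.V5
import Pool.Agent.Work.MP_cea1f0_al.Defs
import Pool.Agent.Work.MP_cea1f0_al.Defs3

-- merged part: Pool.Agent.Work.MP_cea1f0_al.X1
section
/-! Normal subgroups of index prime to `p`: twisting by linear characters. -/

namespace Pool.Agent.Puig

open MonoidAlgebra Module

variable {k H G : Type} [Field k] [Group H] [Group G]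

/-- Twisting by a linear character. -/
noncomputable def tw (l : G →* k) : MonoidAlgebra k G →ₐ[k] MonoidAlgebra k G :=
  MonoidAlgebra.lift k (MonoidAlgebra k G) G
    { toFun := fun g => single g (l g)
      map_one' := by rw [map_one]; rfl
      map_mul' := fun g h => by rw [single_mul_single, map_mul] }

theorem x1_single (l : G →* k) (a : G) (c : k) : tw l (single a c) = single a (l a * c) := by
  rw [tw, lift_single]
  show c • single a (l a) = _
  rw [smul_single, smul_eq_mul, mul_comm]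

theorem coeff_tw (l : G →* k) (x : MonoidAlgebra k G) (g : G) :
    (tw l x).coeff g = l g * x.coeff g := by
  classical
  induction x using MonoidAlgebra.induction_linear with
  | zero => simp
  | add x y hx hy => rw [map_add, coeff_add, coeff_add, Finsupp.add_apply, Finsupp.add_apply, hx, hy,
      mul_add]
  | single a c =>
    rw [x1_single, coeff_single, coeff_single, Finsupp.single_apply, Finsupp.single_apply]
    split_ifs with h
    · rw [h]
    · rw [mul_zero]

theorem tw_tw (l l' : G →* k) (x : MonoidAlgebra k G) : tw l (tw l' x) = tw (l * l') x := by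
  ext g
  rw [coeff_tw, coeff_tw, coeff_tw, MonoidHom.mul_apply, mul_assoc]

theorem tw_one (x : MonoidAlgebra k G) : tw (1 : G →* k) x = x := by
  ext g
  rw [coeff_tw, MonoidHom.one_apply, one_mul]

theorem tw_push {ι : H →* G} {l : G →* k} (h : ∀ u, l (ι u) = 1) (x : MonoidAlgebra k H) :
    tw l (mapDomainAlgHom k k ι x) = mapDomainAlgHom k k ι x := by
  ext g
  rw [coeff_tw]
  by_cases hg : g ∈ Set.range ι
  · obtain ⟨u, rfl⟩ := hg
    rw [h, one_mul]
  · have e : (mapDomainAlgHom k k ι x).coeff g = 0 := Finsupp.mapDomain_of_notMem_range _ _ hg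
    rw [e, mul_zero]

theorem Br_tw (l : G →* k) (D : Subgroup G) (x : MonoidAlgebra k G) :
    Br D (tw l x) = tw l (Br D x) := by
  ext g
  rw [coeff_tw, coeff_Br, coeff_Br, coeff_tw]
  split_ifs
  · rfl
  · rw [mul_zero]

/- PLAN: `fix_top_iff`, `fix_iff`, `coeff_tw`; `l` is a class function. -/
theorem tw_central (l : G →* k) {b : MonoidAlgebra k G} (h : ∀ x, x * b = b * x) (x : MonoidAlgebra k G) :
    x * tw l b = tw l b * x := by
  refine fix_top_iff.1 (fix_iff.2 fun u hu g => ?_) x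
  rw [coeff_tw, coeff_tw, fix_iff.1 (fix_top_iff.2 h) u hu g, map_mul, map_mul,
    mul_right_comm (l u), ← map_mul, mul_inv_cancel, map_one, one_mul]

/- PLAN: `σ y = ∑ a, tw (l a) y` vanishes outside the range of `ι` (`h4`), so `σ y = ι (brq ι (σ y))`;
`c = brq ι (σ b)`.  For `a ≠ a'`, `tw (l a) b * tw (l a') b = tw (l a) (b * tw (l (a⁻¹ * a')) b) = 0`.
So `σ b` is a central idempotent with `σ b * b = b`.  `inj`: apply `σ` to `ι x * b = 0`
(`σ (ι x * y) = ι x * σ y`, `tw_push`).  `surj`: for `b * y = y` take `brq ι (σ y)`.  `br`: `Br_mul`,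
`Br_push`; conversely apply `σ` to `ι (Br D x) * Br _ b = 0` and use `Br_tw`.  `sub`: for a
`p`-element `g` one has `(l a g) ^ p ^ r = 1`, so `l a g = 1` in characteristic `p`, and `h4`, `h3`
give `g ∈ ι.range`; take `E.comap ι`. -/
theorem lnk_tw (p : ℕ) [Fact p.Prime] [CharP k p] [Finite H] [Finite G] {ι : H →* G}
    (hι : Function.Injective ι) {Λ : Type} [CommGroup Λ] [Fintype Λ] (l : Λ →* (G →* k))
    (h2 : ∀ a u, l a (ι u) = 1) (h3 : (Fintype.card Λ : k) ≠ 0)
    (h4 : ∀ g, g ∉ ι.range → ∑ a, l a g = 0) {b : MonoidAlgebra k G} (hb : IsIdempotentElem b)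
    (hc : ∀ x, x * b = b * x) (h5 : ∀ a, a ≠ 1 → b * tw (l a) b = 0) :
    ∃ c, Lnk p ι c b ∧ mapDomainAlgHom k k ι c = ∑ a, tw (l a) b := by
  classical
  let σ : MonoidAlgebra k G →ₗ[k] MonoidAlgebra k G := ∑ a, (tw (l a)).toLinearMap
  have hσ : ∀ y, σ y = ∑ a, tw (l a) y := fun y => by
    simp only [σ, LinearMap.sum_apply, AlgHom.toLinearMap_apply]
  have inj : Function.Injective (mapDomainAlgHom k k ι) := fun x y h => by
    rw [← brq_map hι x, h, brq_map hι]
  have k1 : ∀ y, mapDomainAlgHom k k ι (brq ι (σ y)) = σ y := fun y => by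
    ext g
    show Finsupp.mapDomain ι (brq ι (σ y)).coeff g = _
    by_cases hg : g ∈ Set.range ι
    · obtain ⟨u, rfl⟩ := hg
      rw [Finsupp.mapDomain_apply hι, coeff_brq]
    · rw [Finsupp.mapDomain_of_notMem_range _ _ hg, hσ, coeff_sum, Finsupp.finsetSum_apply]
      simp only [coeff_tw]
      rw [← Finset.sum_mul, h4 g hg, zero_mul]
  have k2 : ∀ x y, σ (mapDomainAlgHom k k ι x * y) = mapDomainAlgHom k k ι x * σ y := fun x y => by
    rw [hσ, hσ, Finset.mul_sum]
    exact Finset.sum_congr rfl fun a _ => by rw [map_mul, tw_push (h2 a)]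
  have k3 : ∀ y, b * y = y → σ y * b = y := fun y hy => by
    rw [hc, hσ, Finset.mul_sum, Fintype.sum_eq_single (1 : Λ) fun a ha => by
      rw [← hy, map_mul, ← mul_assoc, h5 a ha, zero_mul], map_one, tw_one, hy]
  have k4 : ∀ x, x * σ b = σ b * x := fun x => by
    rw [hσ, Finset.mul_sum, Finset.sum_mul]
    exact Finset.sum_congr rfl fun a _ => tw_central _ hc x
  have k5 : ∀ (E : Subgroup G) y, Br E (σ y) = σ (Br E y) := fun E y => by
    rw [hσ, hσ, ← BrL_apply, map_sum]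
    exact Finset.sum_congr rfl fun a _ => Br_tw _ _ _
  obtain ⟨c, hcc⟩ : ∃ c, mapDomainAlgHom k k ι c = σ b := ⟨_, k1 b⟩
  have k6 : ∀ y, b * y = y → σ b * σ y = σ y := fun y hy => by
    rw [← hcc, ← k2, hcc, ← hy, ← mul_assoc, k3 b hb.eq]
  have cen : ∀ x, x * c = c * x := fun x => inj (by rw [map_mul, map_mul, hcc, k4])
  refine ⟨c, ⟨inj ?_, cen, hb, hc, ?_, fun x hx h => inj ?_, fun y hy => ⟨brq ι (σ y), inj ?_, ?_⟩,
    fun D hD x hf hx => ?_, fun E hE => ⟨E.comap ι, hE.comap_of_injective ι hι, ?_⟩,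
    fun D D' _ _ h => (Subgroup.map_le_map_iff_of_injective hι).1 h⟩, hcc.trans (hσ b)⟩
  · rw [map_mul, hcc, k6 b hb.eq]
  · rw [hcc, k3 b hb.eq]
  · rw [← hx, ← cen, map_mul, hcc, ← k2, h, map_zero, map_zero]
  · rw [map_mul, hcc, k1, k6 y hy]
  · rw [k1, k3 y hy]
  · have fb : Fix (D.map ι) b := (fix_top_iff.2 hc).mono le_top
    have fc : Fix D c := (fix_top_iff.2 cen).mono le_top
    rw [Br_mul p (hD.map ι) (fix_map ι hf) fb, Br_push hι]
    refine ⟨fun h => by rw [h, map_zero, zero_mul], fun h => inj ?_⟩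
    rw [← hx, ← cen, Br_mul p hD hf fc, map_mul, ← Br_push hι D c, hcc, k5, ← k2, h, map_zero,
      map_zero]
  · refine Subgroup.map_comap_eq_self fun g hg => ?_
    by_contra hn
    obtain ⟨r, hr⟩ := hE ⟨g, hg⟩
    have hr' : g ^ p ^ r = 1 := congrArg Subtype.val hr
    have e : ∀ a, l a g = 1 := fun a => by
      have e1 : (l a g - 1) ^ p ^ r = 0 := by
        rw [sub_pow_char_pow, ← map_pow, hr', map_one, one_pow, sub_self]
      exact sub_eq_zero.1 (pow_eq_zero_iff (pow_pos (Fact.out : p.Prime).pos r).ne' |>.1 e1)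
    have e2 := h4 g hn
    simp only [e, Finset.sum_const, Finset.card_univ, nsmul_eq_mul, mul_one] at e2
    exact h3 e2

end Pool.Agent.Puig
end

-- merged part: Pool.Agent.Work.MP_cea1f0_al.W3
section
/-! The map `bet` does not kill a unipotent block seen by the Brauer map of a primary element. -/

namespace Pool.Agent.Puig

open MonoidAlgebra Module

/- PLAN: induction on `s`; modulo the ideal generated by `r a` in the subring of the elements
commuting with `r a` the sum is nilpotent: `(l a * r a + z) ^ M = r a * w + z ^ M` with `w` commuting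
with `r a` (induction on `M`). -/
theorem nil_sum_mul {R ι : Type} [Ring R] (s : Finset ι) {l r : ι → R}
    (h1 : ∀ a b, Commute (l a) (r b)) (h2 : ∀ a b, Commute (r a) (r b))
    (h3 : ∀ a, IsNilpotent (r a)) : IsNilpotent (∑ a ∈ s, l a * r a) := by
  classical
  induction s using Finset.induction_on with
  | empty => simp
  | insert a s ha ih =>
    rw [Finset.sum_insert ha]
    obtain ⟨M, hM⟩ := ih
    have hz : Commute (r a) (∑ b ∈ s, l b * r b) :=
      Commute.sum_right _ _ _ fun b _ => (h1 b a).symm.mul_right (h2 a b)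
    generalize (∑ b ∈ s, l b * r b) = z at hM hz
    have hc : Commute (r a) (l a * r a + z) :=
      ((h1 a a).symm.mul_right (Commute.refl _)).add_right hz
    have key : ∀ N : ℕ, ∃ w, Commute (r a) w ∧ (l a * r a + z) ^ N = r a * w + z ^ N := fun N => by
      induction N with
      | zero => exact ⟨0, Commute.zero_right _, by simp⟩
      | succ N ih =>
        obtain ⟨w, k1, k2⟩ := ih
        have k3 : Commute (r a) (z ^ N * l a) := (hz.pow_right N).mul_right (h1 a a).symm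
        refine ⟨w * (l a * r a + z) + z ^ N * l a, (k1.mul_right hc).add_right k3, ?_⟩
        rw [pow_succ, k2, add_mul, mul_add (z ^ N), ← pow_succ, ← mul_assoc (z ^ N), ← k3.eq,
          mul_add (r a), mul_assoc, add_assoc]
    obtain ⟨w, k1, k2⟩ := key M
    rw [hM, add_zero] at k2
    exact IsNilpotent.of_pow (k2 ▸ k1.isNilpotent_mul_right (h3 a))

theorem lev_eq {K A B V : Type} [Field K] [AddCommGroup A] [Module K A] [AddCommGroup B]
    [Module K B] [AddCommGroup V] [Module K V] [Finite A] [Finite B] [Finite V]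
    (ψ : (A × B) ≃ₗ[K] V) (a : (A ≃ₗ[K] A) → ℂ) (a' : (B ≃ₗ[K] B) → ℂ) :
    lev ψ a a' = hcJ ψ a a' := rfl

variable {p : ℕ} [Fact p.Prime] {O : ValuationSubring ℂ} {K : Type} [Field K] [Finite K] {g : ℕ → ℕ}
  {e : ∀ (V : Type) [AddCommGroup V] [Module K V] [Finite V], (V ≃ₗ[K] V) → ℂ}
  {A B V : Type} [AddCommGroup A] [Module K A] [AddCommGroup B] [Module K B] [AddCommGroup V]
  [Module K V] [Finite A] [Finite B] [Finite V]

theorem w3_idem (U : UD3 p O K g e) : IsIdempotentElem (red O (e V)) :=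
  (red_cv (U.mem V) (U.mem V)).symm.trans (congrArg _ (U.idem V))

theorem w3_top (U : UD3 p O K g e) : Fix ⊤ (red O (e V)) :=
  fix_top_iff.2 (red_central (U.cls V))

/- PLAN: as `full` in `JD.pk` (`C3.lean`): `dm_red`, `dm_sm`, `finrank_spt` show that
`act (red (e V))` is onto, so the identity; then `red (e V) * b ≠ 0`. -/
theorem UD3.mul_block (U : UD3 p O K g e) {b : MonoidAlgebra (kO O) (V ≃ₗ[K] V)} (hb : IsBlock b)
    {n : ℕ} (h : act (kO O) (flAct n K V) b ≠ 0) : red O (e V) * b = b := by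
  have ee : red O (e V) * red O (e V) = red O (e V) := w3_idem U
  have hS : ∀ g, ∀ ω ∈ (Set.univ : Set (Fl n K V)), flAct n K V g ω ∈ Set.univ :=
    fun _ _ _ => Set.mem_univ _
  have k := (dm_red (flAct n K V) hS (U.mem V) (U.idem V)).trans (U.full V n)
  rw [Nat.cast_inj, dm_sm hS, ← Nat.card_univ, ← finrank_spt (k := kO O)] at k
  have k2 := Submodule.eq_of_le_of_finrank_eq (fun v _ ω hω => (hω (Set.mem_univ ω)).elim) k
  have full : act (kO O) (flAct n K V) (red O (e V)) = 1 := LinearMap.ext fun v => by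
    obtain ⟨u, -, rfl⟩ := k2.ge (show v ∈ spt (kO O) Set.univ from
      fun ω hω => (hω (Set.mem_univ ω)).elim)
    rw [← Module.End.mul_apply, ← map_mul, ee, Module.End.one_apply]
  refine (hb.2.2.2 _ ee (red_central (U.cls V))).resolve_left fun k3 => h ?_
  have k4 := congrArg (act (kO O) (flAct n K V)) k3
  rwa [map_mul, full, one_mul, map_zero] at k4

theorem w3_cent {G : Type} [Group G] (x : G) :
    Subgroup.centralizer (Subgroup.zpowers x : Set G) = Subgroup.centralizer {x} := by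
  rw [Subgroup.zpowers_eq_closure, Subgroup.centralizer_closure]

theorem w3_pgroup (p : ℕ) {G : Type} [Group G] {u : G} {r : ℕ} (hr : u ^ p ^ r = 1) :
    IsPGroup p (Subgroup.zpowers u) := by
  rintro ⟨g, n, rfl⟩
  refine ⟨r, Subtype.ext ?_⟩
  show (u ^ n) ^ p ^ r = 1
  rw [← zpow_natCast, ← zpow_mul, mul_comm, zpow_mul, zpow_natCast, hr, one_zpow]

theorem w3_fixed (p : ℕ) {G Ω : Type} [Group G] (θ : G →* Equiv.Perm Ω) {x c : G} (h1 : x ^ p = 1)
    (hc : Commute x c) (h : (orderOf c).Coprime p) (ω : Ω) :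
    θ (x * c) ω = ω ↔ θ x ω = ω ∧ θ c ω = ω := by
  refine ⟨fun k => ?_, fun k => by rw [map_mul, Equiv.Perm.mul_apply, k.2, k.1]⟩
  obtain ⟨n, n1, n2⟩ := Nat.chineseRemainder h 0 1
  have k1 : (x * c) ^ n = x := by
    rw [hc.mul_pow, pow_eq_pow_of_modEq n2 h1, pow_eq_pow_of_modEq n1 (pow_orderOf_eq_one c),
      pow_one, pow_zero, mul_one]
  have k2 : θ x ω = ω := by
    rw [← k1, map_pow]
    exact Equiv.Perm.pow_apply_eq_self_of_apply_eq_self k n
  refine ⟨k2, (θ x).injective ?_⟩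
  rw [← Equiv.Perm.mul_apply, ← map_mul, k, k2]

omit [Finite K] [Finite V] in
theorem w3_flS {n d : ℕ} (μ : Ty n d) (u : V ≃ₗ[K] V) {F : Fl n K V} (h : F ∈ flS n K V μ) :
    flAct n K V u F ∈ flS n K V μ := fun t => by
  rw [flAct_apply, flAct_apply, u.finrank_map_eq, u.finrank_map_eq]
  exact h t

omit [Finite K] in
theorem w3_act (hp : (p : K) ≠ 0) {k : Type} [Field k] [CharP k p] {x : B ≃ₗ[K] B}
    (h1 : x ^ p = 1) (h2 : ∀ b, x b = b → b = 0) {y : MonoidAlgebra k (B ≃ₗ[K] B)}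
    (hB : Br (Subgroup.zpowers x) y = y) (hf : Fix (Subgroup.centralizer {x}) y) (h0 : aug y = 0)
    {n : ℕ} {v : Fl n K B → k} (hv : ∀ F, v F ≠ 0 → flAct n K B x F = F) :
    act k (flAct n K B) y v = 0 := by
  classical
  have := Fintype.ofFinite (Fl n K B)
  funext F
  have e1 : ∀ u : B ≃ₗ[K] B, y.coeff u * v (flAct n K B u⁻¹ F) =
      ∑ F', (if flAct n K B u F' = F then y.coeff u else 0) * v F' := fun u => by
    rw [Finset.sum_eq_single (flAct n K B u⁻¹ F) (fun F' _ k => ?_) (by simp), if_pos]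
    · rw [← Equiv.Perm.mul_apply, ← map_mul, mul_inv_cancel, map_one, Equiv.Perm.one_apply]
    · rw [if_neg, zero_mul]
      rintro rfl
      refine k ?_
      rw [← Equiv.Perm.mul_apply, ← map_mul, inv_mul_cancel, map_one, Equiv.Perm.one_apply]
  rw [act_apply, Finset.sum_congr rfl fun u _ => e1 u, Finset.sum_comm]
  refine Finset.sum_eq_zero fun F' _ => ?_
  rw [← Finset.sum_mul]
  by_cases k : v F' = 0
  · rw [k, mul_zero]
  refine mul_eq_zero_of_left ?_ _
  by_cases hF : flAct n K B x F = F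
  · have k1 := flag_scalar p hp h1 h2 (z := fun u => y.coeff u)
      (fun u g hu => fix_iff.1 hf u (Subgroup.mem_centralizer_singleton_iff.2 hu) g) hF (hv F' k)
    rw [← aug_eq_sum, h0, ite_self] at k1
    exact (Finset.sum_congr rfl fun u _ => if_congr Iff.rfl rfl rfl).trans k1
  · refine Finset.sum_eq_zero fun u _ => ?_
    split_ifs with k1
    · rw [← hB, coeff_Br, if_neg]
      rw [w3_cent, Subgroup.mem_centralizer_singleton_iff]
      refine fun k2 => hF ?_
      rw [← k1, ← Equiv.Perm.mul_apply, ← map_mul, ← k2, map_mul, Equiv.Perm.mul_apply, hv F' k]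
    · rfl

/- PLAN: `C = centralizer {x}`; lift `brq C.subtype y` to a class idempotent `y₁` of `C`.  `phiG_ap`
with `H = C`, `T = PUnit` for `e B` gives `e''`; `cv y₁ e'' = y₁` (`red_eq_zero` for the difference).
With the indicator `f` of the class of `x` (`phiG_ind`), `e'' c⁻¹ = ap (e B) f (x * c)` for regular
`c`, and `bm` (`n = finrank K B`).  `y₁ 1 = ∑ c, y₁ c * e'' c⁻¹ = ∑ μ, a μ * pev θ' (S μ ∩ fix x) y₁`
(`idem_sing`; `x * c` fixes a flag iff `x` and `c` do, both being powers of `x * c`), and these are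
`dm` (`dm_red`), zero by `flag_scalar` (`act_apply`).  `idem_eq_zero`. -/
theorem UD3.eq_zero (U : UD3 p O K g e) (hO : (p : ℂ) ∈ O.nonunits) (hp : (p : K) ≠ 0)
    {x : B ≃ₗ[K] B} {m : Polynomial K} (h1 : x ^ p = 1) (h2 : ∀ b, x b = b → b = 0)
    (hm : Irreducible m) (h3 : Polynomial.aeval (x : B →ₗ[K] B) m = 0)
    {y : MonoidAlgebra (kO O) (B ≃ₗ[K] B)} (hy : IsIdempotentElem y)
    (hB : Br (Subgroup.zpowers x) y = y) (hf : Fix (Subgroup.centralizer {x}) y)
    (hle : Br (Subgroup.zpowers x) (red O (e B)) * y = y) (h0 : aug y = 0) : y = 0 := by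
  classical
  have := kO_charP p hO
  let C : Subgroup (B ≃ₗ[K] B) := Subgroup.centralizer {x}
  have := Fintype.ofFinite C
  have hφ : Function.Injective C.subtype := C.subtype_injective
  have hr : C.subtype.range = Subgroup.centralizer (Subgroup.zpowers x : Set (B ≃ₗ[K] B)) := by
    rw [w3_cent, Subgroup.range_subtype]
  have inj : Function.Injective (mapDomainAlgHom (kO O) (kO O) C.subtype) :=
    Function.LeftInverse.injective (brq_map hφ)
  have m0 : mapDomainAlgHom (kO O) (kO O) C.subtype (brq C.subtype y) = y :=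
    (map_brq hφ hr y).trans hB
  have i0 : IsIdempotentElem (brq C.subtype y) := inj (by rw [map_mul, m0, hy.eq])
  obtain ⟨y₁, a1, a2, a3, a4⟩ := lift_idem i0
  have a5 : ClassFn y₁ := fun c u => a4 u (fun c => fix_iff.1 hf u u.2 c) c
  have hx : ∀ c : C, Commute x c := fun c =>
    (Subgroup.mem_centralizer_singleton_iff.1 c.2).symm
  have h1' : x ^ p ^ 1 = 1 := by rw [pow_one, h1]
  let φ : C × Unit →* (B ≃ₗ[K] B) := C.subtype.comp (MonoidHom.fst _ _)
  have hφ' : Function.Injective φ := fun a b k => Prod.ext (hφ k) rfl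
  obtain ⟨e', b1, b2, b3, b4, b5⟩ := phiG_ap p hO hφ' h1' (fun u =>
    ⟨fun k => ⟨(⟨u, Subgroup.mem_centralizer_singleton_iff.2 k⟩, 1), rfl⟩,
      fun ⟨c, k⟩ => k ▸ (hx c.1).symm⟩) (U.mem B) (U.idem B) (U.cls B)
  have r1 : red O e' = brq C.subtype (red O (e B)) := by
    ext c
    rw [coeff_red, coeff_brq, coeff_red, b4, Fintype.sum_unique]
    rfl
  have r2 : red O e' * red O y₁ = red O y₁ := inj (by
    rw [map_mul, r1, a3, m0, map_brq hφ hr, hle])
  have c1 : cv y₁ (cv e' y₁) = cv e' y₁ := by rw [← cv_assoc, ← cv_comm b3, cv_assoc, a2]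
  have r3 : cv e' y₁ = y₁ := (sub_eq_zero.1 (red_eq_zero (O := O)
    (fun c => sub_mem (a1 c) (cv_mem b1 a1 c))
    (n2_idem a2 (by rw [cv_assoc, c1, ← cv_assoc, b2]) c1 (by rw [cv_assoc, a2]))
    (by rw [red_sub a1 (cv_mem b1 a1), red_cv b1 a1, r2, sub_self]))).symm
  have hf' : ClassFn fun u : B ≃ₗ[K] B => if IsConj x u then (1 : ℂ) else 0 := fun u w =>
    if_congr ⟨fun k => k.trans (isConj_iff.2 ⟨w, rfl⟩).symm,
      fun k => k.trans (isConj_iff.2 ⟨w, rfl⟩)⟩ rfl rfl
  obtain ⟨a, ha⟩ := U.bm B (finrank K B) le_rfl m x 1 hm h3 h1' _ hf'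
  let θ := (flAct (finrank K B) K B).comp C.subtype
  let S : Ty (finrank K B) (finrank K B) → Set (Fl (finrank K B) K B) := fun μ =>
    {F | F ∈ flS (finrank K B) K B μ ∧ flAct (finrank K B) K B x F = F}
  have hS : ∀ μ c, ∀ F ∈ S μ, θ c F ∈ S μ := fun μ c F k => ⟨w3_flS μ _ k.1, by
    show flAct _ K B x (flAct _ K B c F) = flAct _ K B c F
    rw [← Equiv.Perm.mul_apply, ← map_mul, (hx c).eq, map_mul, Equiv.Perm.mul_apply, k.2]⟩
  have e1 : ∀ c : C, (orderOf c).Coprime p → e' c⁻¹ = ∑ μ, a μ * pch θ (S μ) c := fun c hc => by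
    have hc' : (orderOf (c : B ≃ₗ[K] B)).Coprime p := by rwa [Subgroup.orderOf_coe]
    have k := b5 _ hf' c hc
    have k1 : phiG p φ x (ap (e B) fun u => if IsConj x u then (1 : ℂ) else 0) c =
        ap (e B) (fun u => if IsConj x u then (1 : ℂ) else 0) (x * c) := by
      unfold phiG
      rw [if_pos hc, Fintype.sum_unique, if_pos (by
        rw [Subsingleton.elim (default : Unit) 1, orderOf_one]
        exact Nat.coprime_one_left p)]
      rfl
    have k2 : ap e' (phiG p φ x fun u => if IsConj x u then (1 : ℂ) else 0) c = e' c⁻¹ := by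
      unfold ap
      rw [Finset.sum_eq_single c⁻¹ (fun d _ hd => ?_) (by simp)]
      · rw [phiG_ind p hφ' h1' fun d => (hx d.1).symm, if_pos (inv_mul_cancel c), mul_one]
      · rw [phiG_ind p hφ' h1' fun d => (hx d.1).symm, if_neg, mul_zero]
        exact fun k3 => hd (eq_inv_of_mul_eq_one_left k3)
    rw [← k2, ← k, k1, ha _ (hx c) hc']
    refine Finset.sum_congr rfl fun μ _ => congrArg (fun t : ℕ => a μ * t) ?_
    exact Nat.card_congr (Equiv.subtypeEquivRight fun F => by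
      rw [w3_fixed p _ h1 (hx c) hc', ← and_assoc]
      exact Iff.rfl)
  have e2 : ∀ μ, pev θ (S μ) y₁ = 0 := fun μ => by
    rw [← dm_red θ (hS μ) a1 a2, dm_sm (hS μ), Nat.cast_eq_zero, Submodule.finrank_eq_zero,
      eq_bot_iff, a3, ← act_mapDomain, m0]
    rintro _ ⟨v, hv, rfl⟩
    exact w3_act hp h1 h2 hB hf h0 fun F k => (not_not.1 fun l => k (hv F l) : F ∈ S μ).2
  have e3 : y₁ 1 = 0 := by
    rw [← r3, cv_comm b3]
    unfold cv
    have k : ∀ c : C, y₁ c * e' (c⁻¹ * 1) = ∑ μ, a μ * (y₁ c * pch θ (S μ) c) := fun c => by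
      by_cases hc : (orderOf c).Coprime p
      · rw [mul_one, e1 c hc, Finset.mul_sum]
        exact Finset.sum_congr rfl fun μ _ => mul_left_comm _ _ _
      · simp [idem_sing p hO a1 a2 a5 hc]
    rw [Finset.sum_congr rfl fun c _ => k c, Finset.sum_comm]
    refine Finset.sum_eq_zero fun μ _ => ?_
    rw [← Finset.mul_sum]
    exact mul_eq_zero_of_right _ (e2 μ)
  rw [← m0, ← a3, idem_eq_zero a2 e3]
  have k : red O (0 : C → ℂ) = 0 := by
    ext c
    rw [coeff_red]
    exact piO_zero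
  rw [k, map_zero]

open Classical in
theorem w3_single {k G : Type} [Field k] [Group G] (D : Subgroup G) (u : G) (c : k) :
    Br D (single u c) = if u ∈ Subgroup.centralizer (D : Set G) then single u c else 0 := by
  ext w
  rw [coeff_Br]
  by_cases h : u = w
  · subst h
    split_ifs <;> rfl
  · have k : (single u c).coeff w = 0 := by rw [coeff_single, Finsupp.single_eq_of_ne' h]
    split_ifs
    · rfl
    · exact k
    · exact k.symm
    · rfl

theorem w3_one {k G : Type} [Field k] [Group G] (D : Subgroup G) (c : k) :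
    Br D (algebraMap k (MonoidAlgebra k G) c) = algebraMap k (MonoidAlgebra k G) c :=
  (w3_single D 1 c).trans (if_pos (one_mem _))

omit [Finite K] [Finite A] [Finite B] [Finite V] in
theorem w3_pushR {k : Type} [Field k] (ψ : (A × B) ≃ₗ[K] V) (S : Subgroup (B ≃ₗ[K] B))
    (w : MonoidAlgebra k (B ≃ₗ[K] B)) :
    Br (S.map (embR ψ)) (mapDomainAlgHom k k (embR ψ) w) =
      mapDomainAlgHom k k (embR ψ) (Br S w) := by
  induction w using MonoidAlgebra.induction_linear with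
  | zero => rw [map_zero, ← BrL_apply, ← BrL_apply, map_zero, map_zero, map_zero]
  | add a b ha hb =>
    rw [map_add, ← BrL_apply, ← BrL_apply, map_add, map_add, map_add, BrL_apply, BrL_apply,
      BrL_apply, BrL_apply, ha, hb]
  | single a c =>
    have k : embR ψ a ∈ Subgroup.centralizer (S.map (embR ψ) : Set (V ≃ₗ[K] V)) ↔ _ :=
      v1_cent ψ S 1 a
    rw [mapDomainAlgHom_apply, mapDomain_single, w3_single, w3_single]
    by_cases h : a ∈ Subgroup.centralizer (S : Set (B ≃ₗ[K] B))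
    · rw [if_pos h, if_pos (k.2 h), mapDomainAlgHom_apply, mapDomain_single]
    · rw [if_neg h, if_neg fun l => h (k.1 l), map_zero]

open Classical in
theorem w3_unit (O : ValuationSubring ℂ) (G : Type) [Group G] [Fintype G] : ∃ a : G → ℂ,
    (∀ u, a u ∈ O) ∧ (∀ y, cv y a = y) ∧ (∀ y, cv a y = y) ∧ red O a = 1 := by
  refine ⟨fun u => if u = 1 then 1 else 0, fun u => ?_, fun y => funext fun u => ?_,
    fun y => funext fun u => ?_, ?_⟩
  · beta_reduce
    split_ifs
    exacts [one_mem _, zero_mem _]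
  · simp [cv, inv_mul_eq_one]
  · simp [cv]
  · ext u
    rw [coeff_red, one_def, coeff_single, Finsupp.single_apply]
    by_cases h : u = 1
    · rw [if_pos h, if_pos h.symm, piO_one]
    · rw [if_neg h, if_neg (Ne.symm h), piO_zero]

/- PLAN: `levi` with `a` the unit (`Pi.single 1 1`) and `a' = unit - e B`: `J = hcJ ψ a a'`,
`bim (red J) (red (e V) * red J) = 0` (`bim_red`, `hcJ_idem`, `red_hcJ`), so `red (e V) * red J = 0`.
Apply `Br R`, `R = zpowers (embR ψ x)`: `Br R (avg (Ysub ψ ⊥)) = 1` (`Br_avg`, `commute_embR`) and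
`Br R (pushR w) = pushR (Br (zpowers x) w)`. -/
theorem UD3.Br_levi (U : UD3 p O K g e) (hO : (p : ℂ) ∈ O.nonunits) (hp : (p : K) ≠ 0)
    (ψ : (A × B) ≃ₗ[K] V) {x : B ≃ₗ[K] B} (hx : Fpf p x) :
    Br (Subgroup.zpowers (embR ψ x)) (red O (e V)) *
      mapDomainAlgHom (kO O) (kO O) (embR ψ) (Br (Subgroup.zpowers x) (red O (e B))) =
      Br (Subgroup.zpowers (embR ψ x)) (red O (e V)) := by
  have := kO_charP p hO
  obtain ⟨⟨r, hr⟩, hu⟩ := hx
  obtain ⟨a, a1, a2, -, a3⟩ := w3_unit O (A ≃ₗ[K] A)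
  obtain ⟨b, b1, b2, b3, b4⟩ := w3_unit O (B ≃ₗ[K] B)
  have c1 : ∀ u, (b - e B) u ∈ O := fun u => sub_mem (b1 u) (U.mem B u)
  have c2 := n2_idem (b2 b) (U.idem B) (b3 _) (b2 _)
  have k := U.levi A B V ψ a (b - e B) (by rw [n2_sub_right, b2, U.idem, sub_self])
  obtain ⟨j1, j2⟩ := red_hcJ p hO hp ψ a1 c1
  have j3 := hcJ_idem ψ (a2 a) c2
  rw [lev_eq, ← bim_red j1 (cv_mem (U.mem V) j1) j3 (by
    rw [cv_assoc, ← cv_assoc (hcJ ψ a (b - e B)), ← cv_comm (U.cls V), cv_assoc, j3, ← cv_assoc,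
      U.idem]), Nat.cast_eq_zero, red_cv (U.mem V) j1] at k
  have j4 : red O (hcJ ψ a (b - e B)) * red O (hcJ ψ a (b - e B)) = red O (hcJ ψ a (b - e B)) :=
    (red_cv j1 j1).symm.trans (congrArg _ j3)
  have k1 := (Submodule.eq_bot_iff _).1 (Submodule.finrank_eq_zero.1 k) _ ⟨1, rfl⟩
  rw [LinearMap.mulLeftRight_apply, mul_one, ← mul_assoc, red_central (U.cls V), mul_assoc, j4, j2,
    a3, map_one, one_mul, red_sub b1 (U.mem B), b4] at k1
  have hS := w3_pgroup p hr
  have hN : (Subgroup.zpowers x).map (embR ψ) ≤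
      Subgroup.normalizer (Ysub ψ ⊥ : Set (V ≃ₗ[K] V)) := by
    rintro _ ⟨x, -, rfl⟩
    exact emb_norm ψ (1, x)
  have hbot : Ysub ψ ⊥ ⊓ Subgroup.centralizer
      (((Subgroup.zpowers x).map (embR ψ) : Subgroup (V ≃ₗ[K] V)) : Set (V ≃ₗ[K] V)) = ⊥ := by
    rw [eq_bot_iff]
    rintro g ⟨h1, h2⟩
    have h3 : Commute g (embR ψ x) :=
      (Subgroup.mem_centralizer_iff.1 h2 _
        (Subgroup.mem_map_of_mem _ (Subgroup.mem_zpowers x))).symm
    obtain ⟨h, x, -, rfl⟩ := (commute_embR ψ hu g).1 h3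
    exact Subgroup.mem_bot.2 (v3_emb_mem ψ h1)
  have f1 : Fix (Subgroup.zpowers x) (1 - red O (e B)) :=
    (fixAlg (kO O) (Subgroup.zpowers x)).sub_mem (one_mem _) ((w3_top U).mono le_top)
  have f2 := fix_pushR ψ f1
  have f3 := (fix_avg (k := kO O) (Ysub ψ ⊥)).mono hN
  have k2 := congrArg (Br ((Subgroup.zpowers x).map (embR ψ))) k1
  have k3 := w3_one (Subgroup.zpowers x) (1 : kO O)
  rw [map_one] at k3
  rw [Br_mul p (hS.map _) ((w3_top U).mono le_top) (b1b_mul f2 f3), Br_mul p (hS.map _) f2 f3,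
    Br_avg p (hS.map _) hN, hbot, v3_avg_bot, mul_one, w3_pushR, ← BrL_apply _ (1 - _), map_sub,
    BrL_apply, BrL_apply, k3, map_sub, map_one, mul_sub, mul_one, ← BrL_apply _ 0, map_zero,
    sub_eq_zero, MonoidHom.map_zpowers] at k2
  exact k2.symm

theorem w3_fix {k G : Type} [Field k] [Group G] (x : G) {w : MonoidAlgebra k G} (h : Fix ⊤ w) :
    Fix (Subgroup.centralizer {x}) (Br (Subgroup.zpowers x) w) :=
  (fix_Br_norm h).mono (le_inf le_top
    ((w3_cent x).ge.trans (Subgroup.centralizer_le_normalizer _)))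

theorem w3_comm {k G : Type} [Field k] [Group G] [Finite G] {x : G} {w w' : MonoidAlgebra k G}
    (h : Br (Subgroup.zpowers x) w = w) (h' : Fix (Subgroup.centralizer {x}) w') :
    Commute w w' := by
  rw [← h, ← map_brq (Subgroup.centralizer {x}).subtype_injective
    (by rw [w3_cent, Subgroup.range_subtype])]
  exact v3_comm (Subgroup.centralizer {x}).subtype (e := w') (fun a => h' a.1 a.2) _

/-- The centre of the group algebra of the centraliser. -/
def w3_Z (p : ℕ) [Fact p.Prime] (k : Type) [Field k] [CharP k p] {G : Type} [Group G] [Finite G]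
    {x : G} (h : IsPGroup p (Subgroup.zpowers x)) : Subalgebra k (MonoidAlgebra k G) where
  carrier := {w | Br (Subgroup.zpowers x) w = w ∧ Fix (Subgroup.centralizer {x}) w}
  mul_mem' := fun {a b} ha hb => ⟨by
    rw [Br_mul p h (ha.1 ▸ fix_Br _ a) (hb.1 ▸ fix_Br _ b), ha.1, hb.1], b1b_mul ha.2 hb.2⟩
  add_mem' := fun {a b} ha hb => ⟨by
    rw [← BrL_apply, map_add, BrL_apply, BrL_apply, ha.1, hb.1],
    (fixAlg k _).add_mem ha.2 hb.2⟩
  algebraMap_mem' := fun c => ⟨w3_one _ c, (fixAlg k _).algebraMap_mem c⟩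

omit [Finite K] [Finite A] [Finite V] in
theorem w3_slice {k : Type} [Field k] (ψ : (A × B) ≃ₗ[K] V) (h : A ≃ₗ[K] A)
    (z : MonoidAlgebra k (V ≃ₗ[K] V)) (y : MonoidAlgebra k (B ≃ₗ[K] B)) :
    brq (fun s => emb ψ (h, s)) (z * mapDomainAlgHom k k (embR ψ) y) =
      brq (fun s => emb ψ (h, s)) z * y := by
  ext s
  induction y using MonoidAlgebra.induction_linear with
  | zero => simp [coeff_brq]
  | add a b ha hb =>
    rw [coeff_brq] at ha hb
    rw [map_add, mul_add, mul_add, coeff_brq, coeff_add, coeff_add, Finsupp.add_apply,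
      Finsupp.add_apply, ha, hb]
  | single a c =>
    rw [mapDomainAlgHom_apply, mapDomain_single, coeff_brq, coeff_mul_single_apply,
      coeff_mul_single_apply, coeff_brq, v1_embR, ← map_inv, ← map_mul, Prod.inv_mk, Prod.mk_mul_mk,
      inv_one, mul_one]

omit [Finite K] [Finite V] in
theorem w3_dec {k : Type} [Field k] (ψ : (A × B) ≃ₗ[K] V) {z : MonoidAlgebra k (V ≃ₗ[K] V)}
    (hz : ∀ u, u ∉ Set.range (emb ψ) → z.coeff u = 0) :
    z = ∑ h, mapDomainAlgHom k k (embL ψ) (of k _ h) *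
      mapDomainAlgHom k k (embR ψ) (brq (fun s => emb ψ (h, s)) z) := by
  classical
  ext u
  rw [coeff_sum, Finsupp.finsetSum_apply, Finset.sum_congr rfl fun h _ => v3_coeff_push ψ _ _ u,
    Finset.sum_comm]
  have k : ∀ t : (A ≃ₗ[K] A) × (B ≃ₗ[K] B), (∑ h, if emb ψ t = u then
      (of k _ h).coeff t.1 * (brq (fun s => emb ψ (h, s)) z).coeff t.2 else 0) =
      if emb ψ t = u then z.coeff u else 0 := fun t => by
    split_ifs with k
    · rw [Finset.sum_eq_single t.1 (fun h _ hh => ?_) (by simp), coeff_brq, k, of_apply,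
        coeff_single, Finsupp.single_eq_same, one_mul]
      rw [of_apply, coeff_single, Finsupp.single_eq_of_ne' hh, zero_mul]
    · exact Finset.sum_const_zero
  refine Eq.trans ?_ (Finset.sum_congr rfl fun t _ =>
    (k t).symm.trans (Finset.sum_congr rfl fun h _ => if_congr Iff.rfl rfl rfl))
  by_cases hu : u ∈ Set.range (emb ψ)
  · obtain ⟨t, rfl⟩ := hu
    simp [(emb_inj ψ).eq_iff]
  · simp [hz u hu]

/- PLAN: `z = Br R b = ∑ h, pushL (of h) * pushR (z h)`, `(z h).coeff s = z.coeff (emb ψ (h, s))`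
(`commute_embR`).  Let `y = Br (zpowers x) (red (e B))` and `Z` the commutative subalgebra of the `w`
with `Br (zpowers x) w = w`, `Fix (centralizer {x}) w`.  `z * pushR y = z` (`UD3.Br_levi`, `Br_mul`)
gives `z h * y = z h`; so `y ≠ 0`, `aug y = 1` and `PrimIn Z y` (`UD3.eq_zero`).  If `bet b = 0` then
`aug (z h) = 0` (`bet_Br` with `zpowers x`, `MonoidHom.map_zpowers`), `z h` is nilpotent
(`PrimIn.fit`), `nil_sum_mul`, but `z` is a non-zero idempotent. -/
theorem UD3.bet_ne (U : UD3 p O K g e) (hO : (p : ℂ) ∈ O.nonunits) (hp : (p : K) ≠ 0)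
    (ψ : (A × B) ≃ₗ[K] V) {x : B ≃ₗ[K] B} {m : Polynomial K} (h1 : x ^ p = 1)
    (h2 : ∀ b, x b = b → b = 0) (hm : Irreducible m)
    (h3 : Polynomial.aeval (x : B →ₗ[K] B) m = 0) {b : MonoidAlgebra (kO O) (V ≃ₗ[K] V)}
    (hb : IsBlock b) (h : red O (e V) * b = b) (hB : Br (Subgroup.zpowers (embR ψ x)) b ≠ 0) :
    bet ψ b ≠ 0 := by
  classical
  intro h0
  have := kO_charP p hO
  have h1' : x ^ p ^ 1 = 1 := by rw [pow_one, h1]
  have hS := w3_pgroup p h1'
  have L := U.Br_levi hO hp ψ ⟨⟨1, h1'⟩, h2⟩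
  rw [← MonoidHom.map_zpowers] at hB L
  have hR := hS.map (embR ψ)
  have fb : Fix ⊤ b := fix_top_iff.2 hb.2.2.1
  have iz : IsIdempotentElem (Br ((Subgroup.zpowers x).map (embR ψ)) b) :=
    (Br_mul p hR (fb.mono le_top) (fb.mono le_top)).symm.trans (congrArg _ hb.1.eq)
  have z1 : Br ((Subgroup.zpowers x).map (embR ψ)) b *
      Br ((Subgroup.zpowers x).map (embR ψ)) (red O (e V)) =
      Br ((Subgroup.zpowers x).map (embR ψ)) b := by
    rw [← Br_mul p hR (fb.mono le_top) ((w3_top U).mono le_top), red_central (U.cls V), h]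
  have z2 := bet_Br p ψ hS (fb.mono le_top)
  have z3 := w3_dec ψ (z := Br ((Subgroup.zpowers x).map (embR ψ)) b) fun u hu => by
    rw [coeff_Br, if_neg]
    intro hc
    have k := Subgroup.mem_centralizer_iff.1 hc (embR ψ x) ⟨x, Subgroup.mem_zpowers x, rfl⟩
    obtain ⟨h, y, -, l⟩ := (commute_embR ψ h2 u).1 k.symm
    exact hu ⟨_, l.symm⟩
  have z4 : ∀ h, brq (fun s => emb ψ (h, s)) (Br ((Subgroup.zpowers x).map (embR ψ)) b) ∈
      w3_Z p (kO O) hS := fun h => by
    have k : brq (fun s => emb ψ (h, s)) (Br ((Subgroup.zpowers x).map (embR ψ)) b) =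
        Br (Subgroup.zpowers x) (brq (fun s => emb ψ (h, s)) b) := by
      ext s
      rw [coeff_brq, coeff_Br, coeff_Br, coeff_brq]
      exact if_congr (v1_cent ψ _ h s) rfl rfl
    rw [k]
    refine ⟨Br_Br le_rfl _, w3_fix x (fix_iff.2 fun u _ s => ?_)⟩
    rw [coeff_brq, coeff_brq, ← fix_iff.1 fb (emb ψ (1, u)) trivial (emb ψ (h, s)), ← map_inv,
      ← map_mul, ← map_mul, Prod.inv_mk, Prod.mk_mul_mk, Prod.mk_mul_mk, inv_one, one_mul, mul_one]
  rw [h0] at z2
  generalize Br ((Subgroup.zpowers x).map (embR ψ)) b = z at hB iz z1 z2 z3 z4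
  have y1 : Br (Subgroup.zpowers x) (red O (e B)) ∈ w3_Z p (kO O) hS :=
    ⟨Br_Br le_rfl _, w3_fix x (w3_top U)⟩
  have y2 : IsIdempotentElem (Br (Subgroup.zpowers x) (red O (e B))) :=
    (Br_mul p hS ((w3_top U).mono le_top) ((w3_top U).mono le_top)).symm.trans
      (congrArg _ (w3_idem U).eq)
  have y3 := fun w => U.eq_zero hO hp h1 h2 hm h3 (y := w)
  generalize Br (Subgroup.zpowers x) (red O (e B)) = y at L y1 y2 y3
  have z5 : ∀ h, brq (fun s => emb ψ (h, s)) z * y = brq (fun s => emb ψ (h, s)) z := fun h => by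
    rw [← w3_slice, ← z1, mul_assoc, L]
  have y4 : y ≠ 0 := fun k => hB (z3.trans (Finset.sum_eq_zero fun h _ => by
    rw [← z5, k, mul_zero, map_zero, mul_zero]))
  have y5 : aug y = 1 := (a2_idem y2).resolve_left fun k => y4 (y3 y y2 y1.1 y1.2 y2.eq k)
  have y6 : PrimIn (w3_Z p (kO O) hS) y := ⟨y2, y4, y1, fun w w1 w2 w3 w4 => by
    refine (a2_idem w1).imp (y3 w w1 w2.1 w2.2 w3) fun k => ?_
    obtain ⟨d1, d2, -⟩ := a2_diff y2 w1 w3 w4
    have d3 := sub_mem y1 w2
    exact (sub_eq_zero.1 (y3 _ d1 d3.1 d3.2 d2 (by rw [a2_sub, y5, k, sub_self]))).symm⟩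
  have z6 : ∀ h, IsNilpotent (brq (fun s => emb ψ (h, s)) z) := fun h => by
    refine (y6.fit (z4 h) (by rw [(w3_comm y1.1 (z4 h).2).eq, z5, z5])).resolve_right ?_
    rintro ⟨w, -, -, k, -⟩
    have k1 : aug (brq (fun s => emb ψ (h, s)) z) = 0 :=
      (aug_eq_sum _).trans ((coeff_bet ψ z h).symm.trans (by rw [z2]; rfl))
    have k2 := congrArg aug k
    rw [aug_mul, k1, zero_mul, y5] at k2
    exact zero_ne_one k2
  refine hB (iz.eq_zero_of_isNilpotent ?_)
  rw [z3]
  exact nil_sum_mul _ (fun a b => push_comm ψ _ _)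
    (fun a b => (w3_comm (z4 a).1 (z4 b).2).map _) fun a => (z6 a).map _

end Pool.Agent.Puig
end

-- merged part: Pool.Agent.Work.MP_cea1f0_al.X4
section
/-! Subgroups of `GL(V)` that contain `SL(V)`. -/

namespace Pool.Agent.Puig

open MonoidAlgebra Module

/- PLAN: `Fl 1 K V` has exactly one element `![⊥, ⊤]`; `act_apply`, `aug_eq_sum`. -/
theorem act_fl_one {k C K V : Type} [Field k] [Group C] [Finite C] [Field K] [AddCommGroup V]
    [Module K V] (θ : C →* Equiv.Perm (Fl 1 K V)) (x : MonoidAlgebra k C) :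
    act k θ x ≠ 0 ↔ aug x ≠ 0 := by
  have := Fintype.ofFinite C
  have h1 : ∀ F G : Fl 1 K V, F = G := fun F G => Subtype.ext (funext fun t => by
    fin_cases t
    · exact F.2.2.1.trans G.2.2.1.symm
    · exact F.2.2.2.trans G.2.2.2.symm)
  have h2 : ∀ v F, act k θ x v F = aug x * v F := fun v F => by
    rw [act_apply, aug_eq_sum, Finset.sum_mul]
    exact Finset.sum_congr rfl fun g _ => by rw [h1 (θ g⁻¹ F) F]
  refine not_congr ⟨fun h => ?_, fun h => LinearMap.ext fun v => funext fun F => ?_⟩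
  · obtain ⟨F⟩ : Nonempty (Fl 1 K V) := ⟨⟨![⊥, ⊤], Fin.monotone_iff_le_succ.2 fun i => by
      fin_cases i
      exact bot_le, rfl, rfl⟩⟩
    have h3 := h2 1 F
    rw [h, Pi.one_apply, mul_one] at h3
    exact h3.symm
  · rw [h2, h, zero_mul]
    rfl

/- PLAN: `S` a Sylow subgroup of `A₀ ⧸ M`, `M₁ = S.comap (mk' M)`, `N₁ = M₁.comap d`, `A = S`;
`Sylow.not_dvd_index`, `Subgroup.index_comap_of_surjective`, `MonoidHom.codRestrict`. -/
theorem exists_mid (p : ℕ) [Fact p.Prime] {H G A₀ : Type} [Group H] [Group G] [CommGroup A₀]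
    [Finite A₀] (d : G →* A₀) {ι : H →* G} (hι : Function.Injective ι)
    (h : ∀ g, d g = 1 → g ∈ ι.range) :
    ∃ (M₁ : Subgroup A₀) (N₁ : Subgroup G) (ι₁ : H →* N₁) (A : Type) (_ : CommGroup A) (_ : Finite A)
      (δ : N₁ →* A), IsPGroup p A ∧ Function.Injective ι₁ ∧ ι₁.range = δ.ker ∧ ¬ p ∣ M₁.index ∧
        ∀ g, g ∈ N₁.subtype.range ↔ d g ∈ M₁ := by
  obtain ⟨M, hM⟩ : ∃ M : Subgroup A₀, ∀ g, d g ∈ M ↔ g ∈ ι.range := ⟨ι.range.map d, fun g =>
    ⟨fun ⟨u, hu, e⟩ => by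
      have := mul_mem (h (g * u⁻¹) (by rw [map_mul, map_inv, e, mul_inv_cancel])) hu
      rwa [inv_mul_cancel_right] at this, fun hg => ⟨g, hg, rfl⟩⟩⟩
  obtain ⟨S⟩ : Nonempty (Sylow p (A₀ ⧸ M)) := inferInstance
  have h1 : ∀ g, QuotientGroup.mk' M (d g) = 1 ↔ g ∈ ι.range := fun g =>
    (QuotientGroup.eq_one_iff _).trans (hM g)
  refine ⟨S.1.comap (QuotientGroup.mk' M), (S.1.comap (QuotientGroup.mk' M)).comap d,
    ι.codRestrict _ fun u => ?_, S.1, inferInstance, inferInstance,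
    (((QuotientGroup.mk' M).comp d).comp (Subgroup.subtype _)).codRestrict _ fun g => g.2,
    S.2, fun u v e => hι (congrArg Subtype.val e), Subgroup.ext fun g => ?_, ?_, fun g => ?_⟩
  · rw [Subgroup.mem_comap, Subgroup.mem_comap, (h1 _).2 ⟨u, rfl⟩]
    exact one_mem _
  · rw [MonoidHom.mem_ker, Subtype.ext_iff]
    exact Iff.trans ⟨fun ⟨u, e⟩ => ⟨u, congrArg Subtype.val e⟩, fun ⟨u, e⟩ => ⟨u, Subtype.ext e⟩⟩
      (h1 g).symm
  · rw [Subgroup.index_comap_of_surjective _ (QuotientGroup.mk'_surjective M)]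
    exact S.not_dvd_index
  · rw [Subgroup.range_subtype, Subgroup.mem_comap]

variable {K V H : Type} [Field K] [Finite K] [AddCommGroup V] [Module K V] [Finite V] [Group H]

/- PLAN: `flag_scalar` for the scalar matrix `x` of an element of order `p` of `Kˣ`
(`exists_prime_orderOf_dvd_card'`); it fixes every flag and is central; evaluate on
`Pi.single F' 1` (`act_apply`; see `w3_act`). -/
theorem act_central (p : ℕ) [Fact p.Prime] {k : Type} [Field k] [CharP k p] (hp : (p : K) ≠ 0)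
    (hq : p ∣ Nat.card Kˣ) {z : MonoidAlgebra k (V ≃ₗ[K] V)} (hz : ∀ x, x * z = z * x) (n : ℕ) :
    act k (flAct n K V) z = aug z • 1 := by
  classical
  have := Fintype.ofFinite (Fl n K V)
  obtain ⟨a, ha⟩ := exists_prime_orderOf_dvd_card' p hq
  have h1 : DistribMulAction.toModuleAut K V a ^ p = 1 := by
    rw [← map_pow, ← ha, pow_orderOf_eq_one, map_one]
  have h2 : ∀ b, DistribMulAction.toModuleAut K V a b = b → b = 0 := fun b hb => by
    have e : ((a : K) - 1) • b = 0 := by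
      rw [sub_smul, one_smul, sub_eq_zero]
      exact hb
    refine (smul_eq_zero.1 e).resolve_left fun k => (Fact.out : p.Prime).ne_one ?_
    rw [← ha, Units.val_eq_one.1 (sub_eq_zero.1 k), orderOf_one]
  have h3 : ∀ F, flAct n K V (DistribMulAction.toModuleAut K V a) F = F := fun F =>
    Subtype.ext (funext fun t => le_antisymm
      (Submodule.map_le_iff_le_comap.2 fun v hv => Submodule.smul_mem _ (a : K) hv)
      fun v hv => ⟨a⁻¹ • v, Submodule.smul_mem _ ((a⁻¹ : Kˣ) : K) hv, smul_inv_smul a v⟩)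
  refine LinearMap.ext fun v => funext fun F => ?_
  have e1 : ∀ u : V ≃ₗ[K] V, z.coeff u * v (flAct n K V u⁻¹ F) =
      ∑ F', (if flAct n K V u F' = F then z.coeff u else 0) * v F' := fun u => by
    rw [Finset.sum_eq_single (flAct n K V u⁻¹ F) (fun F' _ k => ?_) (by simp), if_pos]
    · rw [← Equiv.Perm.mul_apply, ← map_mul, mul_inv_cancel, map_one, Equiv.Perm.one_apply]
    · rw [if_neg, zero_mul]
      rintro rfl
      refine k ?_
      rw [← Equiv.Perm.mul_apply, ← map_mul, inv_mul_cancel, map_one, Equiv.Perm.one_apply]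
  have e2 : ∀ F', ∑ u, (if flAct n K V u F' = F then z.coeff u else 0) * v F' =
      if F = F' then aug z * v F' else 0 := fun F' => by
    have k1 := flag_scalar p hp h1 h2 (z := fun u => z.coeff u)
      (fun u g _ => fix_iff.1 (fix_top_iff.2 hz) u trivial g) (h3 F) (h3 F')
    rw [← aug_eq_sum] at k1
    rw [← Finset.sum_mul, (Finset.sum_congr rfl fun u _ => if_congr Iff.rfl rfl rfl).trans k1]
    split_ifs
    · rfl
    · exact zero_mul _
  rw [act_apply, Finset.sum_congr rfl fun u _ => e1 u, Finset.sum_comm,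
    Finset.sum_congr rfl fun F' _ => e2 F', Finset.sum_ite_eq, if_pos (Finset.mem_univ F)]
  rfl

/- PLAN: the image of the kernel lies in the range of the homomorphism `Kˣ →* (V ≃ₗ[K] V)` of the
scalars (`DistribMulAction.toModuleAut`); if `V` is trivial the group is trivial. -/
omit [Finite K] [Finite V] in
theorem ker_scalar {Q : Type} [Group Q] {ι : H →* (V ≃ₗ[K] V)} (hι : Function.Injective ι)
    {π : H →* Q} (h : ∀ z, π z = 1 → ∃ a : K, ∀ v, ι z v = a • v) :
    π.ker ≤ Subgroup.center H ∧ Nat.card π.ker ∣ Nat.card Kˣ := by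
  refine ⟨fun z hz => Subgroup.mem_center_iff.2 fun g => hι (LinearEquiv.ext fun v => ?_), ?_⟩
  · obtain ⟨a, ha⟩ := h z hz
    rw [map_mul, map_mul, LinearEquiv.mul_apply, LinearEquiv.mul_apply, ha, ha, map_smul]
  · rw [← Subgroup.card_map_of_injective hι]
    refine (Subgroup.card_dvd_of_le ?_).trans
      (Subgroup.card_range_dvd (DistribMulAction.toModuleAut K V : Kˣ →* _))
    rintro _ ⟨z, hz, rfl⟩
    obtain ⟨a, ha⟩ := h z hz
    by_cases h0 : a = 0
    · refine ⟨1, LinearEquiv.ext fun v => ?_⟩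
      rw [(ι z).map_eq_zero_iff.1 ((ha v).trans (by rw [h0, zero_smul])), map_zero, map_zero]
    · exact ⟨Units.mk0 a h0, LinearEquiv.ext fun v => (ha v).symm⟩

/- PLAN: `Subgroup.index_dvd_of_le`, `Subgroup.index_ker`; `Subgroup.card_mul_index`. -/
omit [Finite K] [Finite V] in
theorem card_GL_dvd {Q : Type} [Group Q] {ι : H →* (V ≃ₗ[K] V)} (hι : Function.Injective ι)
    (hs : ∀ g : V ≃ₗ[K] V, LinearEquiv.det g = 1 → g ∈ ι.range) {π : H →* Q}
    (hπ : Function.Surjective π) (h : Nat.card π.ker ∣ Nat.card Kˣ) :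
    Nat.card (V ≃ₗ[K] V) ∣ Nat.card Kˣ * Nat.card Kˣ * Nat.card Q := by
  have h1 : ι.range.index ∣ Nat.card Kˣ := by
    refine (Subgroup.index_dvd_of_le (H := (LinearEquiv.det : (V ≃ₗ[K] V) →* Kˣ).ker) hs).trans ?_
    rw [Subgroup.index_ker]
    exact Subgroup.card_subgroup_dvd_card _
  rw [← ι.range.index_mul_card, ← Nat.card_congr (MonoidHom.ofInjective hι).toEquiv,
    ← π.ker.card_mul_index, Subgroup.index_ker, MonoidHom.range_eq_top.2 hπ, Subgroup.card_top,
    mul_assoc]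
  exact mul_dvd_mul h1 (mul_dvd_mul_right h _)

/- PLAN: `Nat.factorization`/`padicValNat`: `a ≤ v 4 + 3 * v N`. -/
theorem ppart_cube (p : ℕ) [Fact p.Prime] {N q g m : ℕ} (hN : N ≠ 0) (h1 : q ∣ 2 * N)
    (h2 : g ∣ q * q * N) (h3 : ∀ a, p ^ a ∣ N → p ^ a ≤ m) (a : ℕ) (h : p ^ a ∣ g) :
    p ^ a ≤ 4 * m ^ 3 := by
  have hp : p.Prime := Fact.out
  obtain ⟨s, t, ht, rfl⟩ := Nat.exists_eq_pow_mul_and_not_dvd hN p hp.ne_one
  have h4 : p ^ a ∣ 4 * (p ^ s) ^ 3 * t ^ 3 :=
    (h.trans h2).trans ((mul_dvd_mul_right (mul_dvd_mul h1 h1) _).trans (Dvd.intro 1 (by ring)))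
  exact (Nat.le_of_dvd (mul_pos four_pos (pow_pos (pow_pos hp.pos s) 3))
    ((Nat.Coprime.pow a 3 (hp.coprime_iff_not_dvd.2 ht)).dvd_of_dvd_mul_right h4)).trans
    (Nat.mul_le_mul_left 4 (Nat.pow_le_pow_left (h3 s (Dvd.intro t rfl)) 3))

/- PLAN: copy the proof of `def_bound` (`V5.lean`) with `D.map ι` in place of `D`; apply
`IsDefect.le_of_normal` in `H` to `centralizer D ⊓ (v5_A U).comap ι`; the transvections lie in the
range of `ι` (`LinearEquiv.transvection.det_eq_one`). -/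
theorem def_bound' (p m : ℕ) [Fact p.Prime] : ∃ c : ℕ, ∀ (F K V H : Type) [Field F] [CharP F p]
    [Field K] [Finite K] [AddCommGroup V] [Module K V] [Finite V] [Group H] [Finite H]
    (ι : H →* (V ≃ₗ[K] V)), Function.Injective ι →
    (∀ g : V ≃ₗ[K] V, LinearEquiv.det g = 1 → g ∈ ι.range) → (p : K) = 0 →
    ∀ (b : MonoidAlgebra F H) (D : Subgroup H), IsBlock b → IsDefect p b D →
      D ≠ ⊥ → Nat.card D ≤ m → Nat.card (V ≃ₗ[K] V) ≤ c := by
  refine ⟨(m ^ m) ^ m ^ m, fun F K V H _ _ _ _ _ _ _ _ _ ι hι hs hp b D hb hD h0 hm => ?_⟩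
  have := (CharP.charP_iff_prime_eq_zero (Fact.out : p.Prime)).2 hp
  have : Module.Finite K V := Module.Finite.of_finite
  let ρ : Representation K D V :=
    (LinearEquiv.automorphismGroup.toLinearMapMonoidHom.comp ι).comp D.subtype
  let U : Submodule K V := Submodule.span K {x | ∃ d ∈ D, ∃ v, ι d v - v = x}
  have hU : ∀ d ∈ D, ∀ v, ι d v - v ∈ U := fun d hd v => Submodule.subset_span ⟨d, hd, v, rfl⟩
  obtain ⟨z, z1, z2, z3⟩ : ∃ z ∈ U, z ≠ 0 ∧ ∀ d : D, ρ d z = z := by
    obtain ⟨d, hd⟩ := Subgroup.ne_bot_iff_exists_ne_one.1 h0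
    obtain ⟨v, hv⟩ : ∃ v, ι d.1 v ≠ v := by
      by_contra c
      push Not at c
      exact hd (Subtype.ext (hι ((LinearEquiv.ext c).trans (map_one ι).symm)))
    exact perm_fix p hD.1 ρ U (fun γ v hv => show ι γ.1 v ∈ U by
      simpa using U.add_mem (hU γ γ.2 v) hv) (hU d d.2 v) (sub_ne_zero.2 hv)
  have hA : Subgroup.centralizer (D : Set H) ⊓ (v5_A U).comap ι ≤ D := by
    refine IsDefect.le_of_normal p hb hD
      (((v5_pgrp hp U).comap_of_injective ι hι).to_inf_right) inf_le_left fun c hc => ?_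
    have k : ∀ c ∈ Subgroup.centralizer (D : Set H), ∀ v ∈ U, ι c v ∈ U := by
      intro c hc v hv
      refine (Submodule.span_le (p := U.comap (ι c : V →ₗ[K] V))).2 ?_ hv
      rintro _ ⟨d, hd, v, rfl⟩
      have e0 := congrArg ι (hc d hd)
      rw [map_mul, map_mul] at e0
      have e : ι d (ι c v) = ι c (ι d v) := LinearEquiv.congr_fun e0 v
      simpa [← e] using hU d hd (ι c v)
    have k' : ∀ c ∈ Subgroup.centralizer (D : Set H),
        ∀ g ∈ Subgroup.centralizer (D : Set H) ⊓ (v5_A U).comap ι,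
        c * g * c⁻¹ ∈ Subgroup.centralizer (D : Set H) ⊓ (v5_A U).comap ι := fun c hc g hg =>
      ⟨Subgroup.mul_mem _ (Subgroup.mul_mem _ hc hg.1) (Subgroup.inv_mem _ hc),
        fun v => by simpa using k c hc _ (hg.2.1 ((ι c).symm v)), fun v hv => by
          rw [map_mul, map_mul, LinearEquiv.mul_apply, LinearEquiv.mul_apply,
            hg.2.2 _ (k _ (inv_mem hc) v hv), map_inv]
          exact (ι c).apply_symm_apply v⟩
    refine Subgroup.mem_normalizer_iff.2 fun g => ⟨k' c hc g, fun hg => ?_⟩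
    simpa only [inv_inv, mul_assoc, inv_mul_cancel, mul_one, inv_mul_cancel_left] using
      k' _ (inv_mem hc) _ hg
  have w1 : ∀ φ : ρ.dual.invariants, ∀ d ∈ D, ∀ v, φ.1 (ι d v) = φ.1 v := fun φ d hd v => by
    have k : φ.1 (ι d⁻¹⁻¹ v) = φ.1 v := LinearMap.congr_fun (φ.2 ⟨d, hd⟩⁻¹) v
    rwa [inv_inv] at k
  have w2 : ∀ φ : ρ.dual.invariants, ∀ v ∈ U, φ.1 v = 0 := by
    intro φ v hv
    refine (Submodule.span_le (p := LinearMap.ker φ.1)).2 ?_ hv
    rintro _ ⟨d, hd, v, rfl⟩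
    simp [w1 φ d hd v]
  choose u hu using fun φ : ρ.dual.invariants =>
    hs _ (LinearEquiv.transvection.det_eq_one (w2 φ z z1))
  have w3 : ∀ φ : ρ.dual.invariants, u φ ∈ D := fun φ =>
    hA ⟨fun d hd => hι (LinearEquiv.ext fun v => by
      have e : ι d z = z := z3 ⟨d, hd⟩
      simp [hu, LinearMap.transvection, w1 φ d hd v, e]),
      fun v => by simpa [hu, LinearMap.transvection] using U.smul_mem _ z1,
      fun v hv => by simp [hu, LinearMap.transvection, w2 φ v hv]⟩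
  have c1 : Nat.card ρ.dual.invariants ≤ m :=
    (Nat.card_le_card_of_injective (fun φ => (⟨_, w3 φ⟩ : D)) fun φ ψ e =>
      Subtype.ext (LinearMap.ext fun v => smul_left_injective K z2
        (add_left_cancel (LinearEquiv.congr_fun ((hu φ).symm.trans
          ((congrArg ι (congrArg Subtype.val e)).trans (hu ψ))) v)))).trans hm
  have c2 := fix_bound p hD.1 ρ.dual ⊤ fun _ _ _ => trivial
  rw [top_inf_eq, finrank_top, Subspace.dual_finrank_eq] at c2
  have c3 : Nat.card V ≤ m ^ m := by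
    rw [natCard_eq_pow_finrank (K := K)] at c1 ⊢
    refine (Nat.pow_le_pow_right Nat.card_pos (c2.trans (Nat.mul_le_mul_right _ hm))).trans ?_
    rw [mul_comm, pow_mul]
    exact Nat.pow_le_pow_left c1 m
  refine (Nat.card_le_card_of_injective _ DFunLike.coe_injective).trans ?_
  rw [Nat.card_fun]
  exact (Nat.pow_le_pow_left c3 _).trans (Nat.pow_le_pow_right (Nat.card_pos.trans_le c3) c3)

theorem x4_mem (O : ValuationSubring ℂ) {A : Type} [Group A] [Finite A] (a : A →* ℂˣ) (t : A) :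
    (a t : ℂ) ∈ O := by
  refine (O.mem_or_inv_mem _).elim id fun h => ?_
  have h1 : a t = (a t)⁻¹ ^ (Nat.card A - 1) := by
    rw [inv_pow, ← mul_eq_one_iff_eq_inv, ← pow_succ', Nat.sub_add_cancel Nat.card_pos, ← map_pow,
      pow_card_eq_one', map_one]
  rw [h1, Units.val_pow_eq_pow_val, Units.val_inv_eq_inv_val]
  exact pow_mem h _

/-- Reduction of linear characters. -/
noncomputable def x4_l (O : ValuationSubring ℂ) {G A : Type} [Group G] [Group A] [Finite A]
    (d : G →* A) : (A →* ℂˣ) →* (G →* kO O) where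
  toFun a :=
    { toFun := fun g => piO O (a (d g))
      map_one' := by rw [map_one, map_one, Units.val_one, piO_one]
      map_mul' := fun g h => by
        rw [map_mul, map_mul, Units.val_mul, piO_mul (x4_mem O a _) (x4_mem O a _)] }
  map_one' := MonoidHom.ext fun _ => piO_one
  map_mul' a b := MonoidHom.ext fun _ => piO_mul (x4_mem O a _) (x4_mem O b _)

theorem x4_l_apply (O : ValuationSubring ℂ) {G A : Type} [Group G] [Group A] [Finite A]
    (d : G →* A) (a : A →* ℂˣ) (g : G) : x4_l O d a g = piO O (a (d g)) := rfl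

/- PLAN: `exists_block_ne` for `y ↦ act (ι c * y)` (`act_mapDomain`) gives a block `b` with
`act b ≠ 0` and `ι c * b ≠ 0`.  `Λ = (Kˣ ⧸ M →* ℂˣ)`, of order `M.index`
(`CommGroup.card_monoidHom_of_hasEnoughRootsOfUnity`), `l a g = piO O (a (det g))` (roots of unity
are integral, so lie in `O`; `piO_mul`, `piO_sum`); `sum_hom_units_eq_zero` for the evaluation at
`t ≠ 1` (`CommGroup.exists_apply_ne_one_of_hasEnoughRootsOfUnity`).  `U.twist` and `red_cv` give
`red e * tw (l a) (red e) = 0`, and `red e * b = b` (`UD3.mul_block`).  With `c'` from `lnk_tw`: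
`c'` is a block (`Lnk.block`), `c * c' ≠ 0` since `ι c * ι c' * b = ι c * b`, so `c = c'`. -/
theorem exists_lnk {p : ℕ} [Fact p.Prime] {O : ValuationSubring ℂ} {g : ℕ → ℕ}
    {e : ∀ (V : Type) [AddCommGroup V] [Module K V] [Finite V], (V ≃ₗ[K] V) → ℂ}
    (U : UD3 p O K g e) (hO : (p : ℂ) ∈ O.nonunits) (hV : Nontrivial V) [Finite H]
    {ι : H →* (V ≃ₗ[K] V)} (hι : Function.Injective ι) {M : Subgroup Kˣ} (hM : ¬ p ∣ M.index)
    (hs : ∀ g : V ≃ₗ[K] V, g ∈ ι.range ↔ LinearEquiv.det g ∈ M) {c : MonoidAlgebra (kO O) H}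
    (hc : IsBlock c) {n : ℕ} (h : act (kO O) ((flAct n K V).comp ι) c ≠ 0) :
    ∃ b, IsBlock b ∧ act (kO O) (flAct n K V) b ≠ 0 ∧ Lnk p ι c b := by
  have := kO_charP p hO
  obtain ⟨b, hb, h1⟩ := exists_block_ne
    ((act (kO O) (flAct n K V)).toLinearMap.toAddMonoidHom.comp
      (AddMonoidHom.mulLeft (mapDomainAlgHom (kO O) (kO O) ι c))) (by
    rw [← act_mapDomain, ← mul_one (mapDomainAlgHom (kO O) (kO O) ι c)] at h
    exact h)
  change act (kO O) (flAct n K V) (mapDomainAlgHom (kO O) (kO O) ι c * b) ≠ 0 at h1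
  have h2 : mapDomainAlgHom (kO O) (kO O) ι c * b ≠ 0 := fun k => h1 (by rw [k, map_zero])
  rw [map_mul] at h1
  have h3 := right_ne_zero_of_mul h1
  have hc1 : Nat.card (Kˣ ⧸ M →* ℂˣ) = M.index :=
    CommGroup.card_monoidHom_of_hasEnoughRootsOfUnity (Kˣ ⧸ M) ℂ
  have : Finite (Kˣ ⧸ M →* ℂˣ) := Nat.finite_of_card_ne_zero (hc1 ▸ M.index_ne_zero_of_finite)
  have := Fintype.ofFinite (Kˣ ⧸ M →* ℂˣ)
  have h4 : ∀ g : V ≃ₗ[K] V, QuotientGroup.mk' M (LinearEquiv.det g) = 1 ↔ g ∈ ι.range := fun g =>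
    (QuotientGroup.eq_one_iff _).trans (hs g).symm
  have h5 := U.mul_block hb h3
  obtain ⟨c', L, -⟩ := lnk_tw p hι (x4_l O ((QuotientGroup.mk' M).comp LinearEquiv.det))
    (fun a u => by
      rw [x4_l_apply, MonoidHom.comp_apply, (h4 _).2 ⟨u, rfl⟩, map_one, Units.val_one, piO_one])
    (by rwa [← Nat.card_eq_fintype_card, hc1, Ne, CharP.cast_eq_zero_iff (kO O) p])
    (fun g hg => by
      obtain ⟨a, ha⟩ := CommGroup.exists_apply_ne_one_of_hasEnoughRootsOfUnity (Kˣ ⧸ M) ℂ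
        (mt (h4 g).1 hg)
      have k := sum_hom_units_eq_zero ((Units.coeHom ℂ).comp
        (MonoidHom.eval (QuotientGroup.mk' M (LinearEquiv.det g))))
        fun k => ha (Units.val_eq_one.1 (DFunLike.congr_fun k a))
      simp only [x4_l_apply]
      rw [← piO_sum _ fun a _ => x4_mem O a _]
      exact (congrArg (piO O) k).trans piO_zero) hb.1 hb.2.2.1
    (fun a ha => by
      have k1 := U.twist V hV (a.comp (QuotientGroup.mk' M))
        (fun k => ha (MonoidHom.ext fun t => by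
          obtain ⟨t, rfl⟩ := QuotientGroup.mk'_surjective M t
          exact DFunLike.congr_fun k t))
        (Nat.Coprime.coprime_dvd_left (orderOf_dvd_of_pow_eq_one (MonoidHom.ext fun t => by
          rw [MonoidHom.pow_apply, MonoidHom.comp_apply, ← map_pow, Subgroup.index,
            pow_card_eq_one', map_one, MonoidHom.one_apply]))
          (((Fact.out : p.Prime).coprime_iff_not_dvd.2 hM).symm))
      have k2 : tw (x4_l O ((QuotientGroup.mk' M).comp LinearEquiv.det) a) (red O (e V)) =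
          red O fun g => (a.comp (QuotientGroup.mk' M) (LinearEquiv.det g) : ℂ) * e V g := by
        ext g
        rw [coeff_tw, coeff_red]
        exact (piO_mul (x4_mem O _ _) (U.mem V g)).symm
      have k3 : red O (0 : (V ≃ₗ[K] V) → ℂ) = 0 := by
        ext g
        exact piO_zero
      have k4 := red_cv (U.mem V) fun g : V ≃ₗ[K] V =>
        mul_mem (x4_mem O (a.comp (QuotientGroup.mk' M)) (LinearEquiv.det g)) (U.mem V g)
      rw [k1, k3, ← k2] at k4
      have k5 := congrArg (tw (x4_l O ((QuotientGroup.mk' M).comp LinearEquiv.det) a)) h5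
      rw [map_mul] at k5
      rw [← k5, ← mul_assoc, ← (congrArg (· * _) ((hb.2.2.1 _).symm.trans h5)), mul_assoc b, ← k4,
        mul_zero, zero_mul])
  have h6 := L.block hb
  have h7 : c * c' ≠ 0 := fun k => h2 (by
    rw [← L.one, ← mul_assoc, ← map_mul, k, map_zero, zero_mul])
  have h8 := (h6.2.2.2 c hc.1 hc.2.2.1).resolve_left h7
  have h9 := (hc.2.2.2 c' h6.1 h6.2.2.1).resolve_left (hc.2.2.1 c' ▸ h7)
  rw [hc.2.2.1 c', h8] at h9
  exact ⟨b, hb, h3, h9 ▸ L⟩

end Pool.Agent.Puig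
end

-- merged part: Pool.Agent.Work.MP_cea1f0_al.W4
section
/-! The bound for the unipotent blocks. -/

namespace Pool.Agent.Puig

open MonoidAlgebra Module

section
variable {p : ℕ} [Fact p.Prime] {k K A B V : Type} [Field k] [CharP k p] [Field K] [AddCommGroup A]
  [Module K A] [AddCommGroup B] [Module K B] [AddCommGroup V] [Module K V] [Finite A] [Finite B]
  [Finite V] {ψ : (A × B) ≃ₗ[K] V} {S : Subgroup (B ≃ₗ[K] B)} {b : MonoidAlgebra k (V ≃ₗ[K] V)}

omit [Fact p.Prime] [Finite A] [Finite B] [Finite V] in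
theorem w4_inj (ψ : (A × B) ≃ₗ[K] V) : Function.Injective (embR ψ) :=
  fun _ _ h => congrArg Prod.snd (emb_inj ψ h)

omit [Fact p.Prime] [Finite A] [Finite B] [Finite V] in
theorem w4_pgroup (h : IsPGroup p (S.map (embR ψ))) : IsPGroup p S :=
  h.of_equiv (S.equivMapOfInjective _ (w4_inj ψ)).symm

/- PLAN: for a Sylow `S' ≥ S`, `bet (Br S' b) = bet b ≠ 0` (`bet_Br`), so the images of `S`, `S'` agree;
`sylow_card`. -/
theorem ppart_of_bet (hb : IsBlock b) (hD : IsDefect p b (S.map (embR ψ))) (h0 : bet ψ b ≠ 0)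
    {a : ℕ} (h : p ^ a ∣ Nat.card (B ≃ₗ[K] B)) : p ^ a ≤ Nat.card (S.map (embR ψ)) := by
  obtain ⟨S', hS'⟩ := (w4_pgroup hD.1).exists_le_sylow
  have h1 := hD.2.2 ((S' : Subgroup _).map (embR ψ)) (S'.isPGroup'.map _) (Subgroup.map_mono hS')
    fun e => h0 (by rw [← bet_Br p ψ S'.isPGroup' (hb.prim.2.2.1.mono le_top), e, map_zero])
  rw [← h1, Subgroup.card_map_of_injective (w4_inj ψ)]
  exact sylow_card p S' h

/- PLAN: decompose the central idempotent `bet b` (`bet_mul`, `bet_central`, `exists_decIn` for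
`fixAlg k ⊥`) and take a term `f`; its block `c` (`Prim.exists_block`) has `bet b * c = c`; for
`Q ≠ ⊥`, `Br Q c = Br Q (bet b) * Br Q c = 0` (`Br_bet`, `pgroup_sup`, maximality; `embL ψ h` lies in
the image of `S` only for `h = 1`); `bim_bot`. -/
theorem exists_f [IsAlgClosed k] (hb : IsBlock b) (hD : IsDefect p b (S.map (embR ψ)))
    {x : B ≃ₗ[K] B} (hx : x ∈ S) (hf : Fpf p x) (h0 : bet ψ b ≠ 0) :
    ∃ f, IsIdempotentElem f ∧ f ≠ 0 ∧ bet ψ b * f = f ∧ bim f f ≤ 1 := by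
  have hb' := hb.prim.2.2.1
  have h1 : IsIdempotentElem (bet ψ b) := by
    rw [IsIdempotentElem, ← bet_mul p ψ hx hf (hb'.mono le_top) (hb'.mono le_top), hb.1.eq]
  have h2 := bet_central ψ hb'
  obtain ⟨n, f, f1, f2, f3⟩ := exists_decIn (B := fixAlg k (⊥ : Subgroup (A ≃ₗ[K] A))) h1
    (h2.mono le_top)
  obtain ⟨a, -, ha⟩ := Finset.exists_ne_zero_of_sum_ne_zero (f3 ▸ h0)
  have h3 : bet ψ b * f a = f a := f3 ▸ (g0_below (fun a => (f1 a).1) f2 a).2
  obtain ⟨c, c1, c2⟩ := (prim_iff.2 (f1 a)).exists_block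
  have h4 : bet ψ b * c = c := (c1.2.2.2 _ h1 (fix_top_iff.1 h2)).resolve_left fun e =>
    ha (by rw [← h3, ← c2, ← mul_assoc, e, zero_mul])
  refine ⟨f a, (f1 a).1, ha, h3, bim_bot p c1 ⟨IsPGroup.of_bot, by rw [Br_bot]; exact c1.2.1,
    fun Q q1 _ q2 => ?_⟩ ⟨prim_iff.2 (f1 a), c2, by rwa [Br_bot]⟩⟩
  have h5 := hD.2.2 _ (pgroup_sup p ψ q1 (w4_pgroup hD.1)) le_sup_right fun e => q2 (by
    rw [← h4, Br_mul p q1 (h2.mono le_top) (c1.prim.2.2.1.mono le_top),
      Br_bet p ψ (w4_pgroup hD.1) Q hb' e, zero_mul])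
  refine eq_bot_iff.2 fun h hh => ?_
  obtain ⟨s, -, e⟩ : embL ψ h ∈ S.map (embR ψ) :=
    h5 ▸ Subgroup.mem_sup_left (Subgroup.mem_map_of_mem _ hh)
  exact Subgroup.mem_bot.2 (congrArg Prod.fst (emb_inj ψ e)).symm

/- PLAN: `j = pushL f * pushR i₁ * avg` is an idempotent fixed by `D` (`fix_push`, `fix_pushR`,
`fix_avg`, `emb_norm`, `push_comm`, `avg_idem`, `card_Ysub`); `bet (b * j) = f` (`bet_mul`,
`bet_push`, `bet_pushR`, `bet_avg`).  Decompose `b * j` in `fixAlg k D`; a term `i'` with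
`bet i' ≠ 0` is a source idempotent (`bet_Br`); `source_eqv`, `bim_eqv`, `bim_sum_ge` for one term;
`bim (b * j) (b * j) = bim j (b * j)` since the two linear maps agree. -/
theorem bim_le_hc [Finite K] (hp : (p : K) ≠ 0) (hb : IsBlock b)
    (hD : IsDefect p b (S.map (embR ψ))) {x : B ≃ₗ[K] B} (hx : x ∈ S) (hf : Fpf p x)
    {i : MonoidAlgebra k (V ≃ₗ[K] V)} (hi : IsSource b (S.map (embR ψ)) i)
    {f : MonoidAlgebra k (A ≃ₗ[K] A)} (h1 : IsIdempotentElem f) (h2 : f ≠ 0) (h3 : bet ψ b * f = f)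
    {i₁ : MonoidAlgebra k (B ≃ₗ[K] B)} (h4 : Prim S i₁) (h5 : aug i₁ = 1)
    {j : MonoidAlgebra k (V ≃ₗ[K] V)} (hj : j = mapDomainAlgHom k k (embL ψ) f *
      mapDomainAlgHom k k (embR ψ) i₁ * avg k (Ysub ψ ⊥)) : bim i i ≤ bim j (b * j) := by
  have hb' : Fix (S.map (embR ψ)) b := hb.prim.2.2.1.mono le_top
  have hE : IsIdempotentElem (avg k (Ysub ψ ⊥)) := avg_idem fun e =>
    card_Ysub p hp ψ (T := ⊥) (by rw [Subgroup.card_bot]; exact (Fact.out : p.Prime).not_dvd_one)
      ((CharP.cast_eq_zero_iff k p _).1 e)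
  have hLE : Commute (mapDomainAlgHom k k (embL ψ) f) (avg k (Ysub ψ ⊥)) :=
    v3_comm (embL ψ) (fun a => fix_avg (Ysub ψ ⊥) (embL ψ a) (emb_norm ψ (a, 1) :)) f
  have hRE : Commute (mapDomainAlgHom k k (embR ψ) i₁) (avg k (Ysub ψ ⊥)) :=
    v3_comm (embR ψ) (fun a => fix_avg (Ysub ψ ⊥) (embR ψ a) (emb_norm ψ (1, a) :)) i₁
  have j1 : IsIdempotentElem j := hj ▸ IsIdempotentElem.mul_of_commute (hLE.mul_left hRE)
    (IsIdempotentElem.mul_of_commute (push_comm ψ f i₁) (h1.map _) (h4.1.map _)) hE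
  have fL := fix_push ψ S f
  have fR := fix_pushR ψ h4.2.2.1
  have fLR : Fix (S.map (embR ψ)) (_ * _) := (fixAlg k _).mul_mem fL fR
  have fE : Fix (S.map (embR ψ)) (avg k (Ysub ψ ⊥)) := (fix_avg _).mono (by
    rintro _ ⟨s, -, rfl⟩
    exact emb_norm ψ (1, s))
  have j2 : Fix (S.map (embR ψ)) j := hj ▸ (fixAlg k _).mul_mem fLR fE
  have j3 : bet ψ (b * j) = f := by
    rw [bet_mul p ψ hx hf hb' j2, hj, bet_mul p ψ hx hf fLR fE, bet_mul p ψ hx hf fL fR, bet_push,
      bet_pushR, bet_avg p ψ hf, h5, one_smul, mul_one, mul_one, h3]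
  have j4 : IsIdempotentElem (b * j) := hb.1.mul_of_commute (hb.2.2.1 j).symm j1
  obtain ⟨n, i', k1, k2, k3⟩ := exists_decIn (B := fixAlg k (S.map (embR ψ))) j4
    ((fixAlg k _).mul_mem hb' j2)
  obtain ⟨a, -, ha⟩ := Finset.exists_ne_zero_of_sum_ne_zero (s := Finset.univ)
    (f := fun a => bet ψ (i' a)) (by rwa [← map_sum, k3, j3])
  have k4 := g0_below (fun a => (k1 a).1) k2 a
  rw [k3] at k4
  have k5 : IsSource b (S.map (embR ψ)) (i' a) := ⟨prim_iff.2 (k1 a),
    by rw [← k4.2, ← mul_assoc, ← mul_assoc, hb.1.eq],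
    fun e => ha (by rw [← bet_Br p ψ (w4_pgroup hD.1) (k1 a).2.2.1, e, map_zero])⟩
  have k6 := source_eqv p hb hD hD hi k5
  have k7 := bim_sum_ge {a} (x := i') (j := b * j) (fun c _ => (k1 c).1) (fun c _ d _ => k2 c d)
    fun c hc => by
      rw [Finset.mem_singleton.1 hc]
      exact k4.symm
  rw [Finset.sum_singleton, Finset.sum_singleton] at k7
  rw [bim_eqv hi.1.1 (k1 a).1 hi.1.1 (k1 a).1 k6 k6]
  refine k7.trans_eq (congrArg (fun l : Module.End k (MonoidAlgebra k (V ≃ₗ[K] V)) =>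
    finrank k (LinearMap.range l)) (LinearMap.ext fun z => ?_))
  show b * j * z * (b * j) = j * z * (b * j)
  rw [mul_assoc b, ← hb.2.2.1 (j * z), mul_assoc _ b, ← mul_assoc b, hb.1.eq]

end

/- PLAN: `g` from `UData3`, `g'` the maximum of the `g r`, `r ≤ p * m`, `c₁` from
`topBound p (p * m) m`; bound `m ^ 2 * (g' * 1 * c₁) ^ 2`.  `UD3.mul_block`, `exists_split`,
`exists_center`, `center_mem`, `Br_Br`, `UD3.bet_ne`, `ppart_of_bet`, `rank_lt`, `card_GL_eq`,
`exists_f`, `exists_prim`, `bim_le_hc`; lift `f`, `i₁`, `b` (`lift_idem`; the lift of `b` is a class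
function); `red_hcJ`, `hcJ_idem`, `lev_eq`, `red_cv`, `bim_red`, `bound`. -/
theorem uniBound (p m : ℕ) [Fact p.Prime] (hU : UData3 p) (hG : ∀ n, GLData p n) : ∃ c : ℕ,
    ∀ (O : ValuationSubring ℂ), (p : ℂ) ∈ O.nonunits → ∀ (K V : Type) [Field K] [Finite K]
      [AddCommGroup V] [Module K V] [Finite V], (p : K) ≠ 0 →
      ∀ (b i : MonoidAlgebra (kO O) (V ≃ₗ[K] V)) (D : Subgroup (V ≃ₗ[K] V)) (n : ℕ), IsBlock b →
        act (kO O) (flAct n K V) b ≠ 0 → IsDefect p b D → Nat.card D ≤ m →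
        IsSource b D i → bim i i ≤ c := by
  obtain ⟨g, hg⟩ := hU
  obtain ⟨c, hc⟩ := topBound p (p * m) m (hG _)
  refine ⟨m ^ 2 * ((∑ r ∈ Finset.range (p * m), g r) * 1 * c) ^ 2,
    fun O hO K V _ _ _ _ _ hp b i D n hb hact hD hm hi => ?_⟩
  have := kO_charP p hO
  have := kO_algClosed O
  obtain ⟨e, U⟩ := hg O hO K hp
  obtain ⟨A, B, ψ, S, rfl, h0⟩ := exists_split p hp hD.1
  have hS := w4_pgroup hD.1
  obtain ⟨x, q, x1, x2, x3, x4, x5, x6⟩ := exists_center p hp hS h0
  have hx := center_mem p hp ψ h0 hb hD x1 x5 x6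
  have h1 := U.bet_ne hO hp ψ x1 x2 x3 x4 hb (U.mul_block hb hact) fun k => hD.2.1 (by
    rw [← Br_Br (Subgroup.zpowers_le_of_mem (Subgroup.mem_map_of_mem _ hx)), k, ← BrL_apply,
      map_zero])
  have h2 : ∀ a : ℕ, p ^ a ∣ Nat.card (B ≃ₗ[K] B) → p ^ a ≤ m := fun a h =>
    (ppart_of_bet hb hD h1 h).trans hm
  have h3 : finrank K B < p * m := rank_lt p (K := K) fun a h => h2 a (by rwa [card_GL_eq])
  have hf : Fpf p x := ⟨⟨1, by rwa [pow_one]⟩, x2⟩
  obtain ⟨f, f1, f2, f3, f4⟩ := exists_f hb hD hx hf h1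
  obtain ⟨j, j1, j2⟩ := exists_prim (kO O) S
  have k1 := bim_le_hc hp hb hD hx hf hi f1 f2 f3 j1 j2 rfl
  have k2 := hc O hO K B hp h3.le h2 S j hS j1 j2
  obtain ⟨a, a1, a2, rfl, -⟩ := lift_idem f1
  obtain ⟨a', b1, b2, rfl, -⟩ := lift_idem j1.1
  obtain ⟨y, y1, y2, rfl, y4⟩ := lift_idem hb.1
  have y3 : ClassFn y := fun z u => y4 u (fix_iff.1 hb.prim.2.2.1 u trivial) z
  obtain ⟨J1, J2⟩ := red_hcJ p hO hp ψ a1 b1
  have J3 := hcJ_idem ψ a2 b2
  rw [← J2, ← red_cv y1 J1] at k1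
  have k3 := U.bound A B V ψ a a' a2 b2 y _ y1 y3 y2 hb hD
  rw [lev_eq, ← bim_red J1 (cv_mem y1 J1) J3 (t_cv y3 y2 J3), ← bim_red a1 a1 a2 a2,
    ← bim_red b1 b1 b2 b2, Complex.norm_natCast, Complex.norm_natCast, Complex.norm_natCast] at k3
  have k4 : g (finrank K B) ≤ ∑ r ∈ Finset.range (p * m), g r :=
    Finset.single_le_sum (fun r _ => Nat.zero_le (g r)) (Finset.mem_range.2 h3)
  refine (k1.trans (by exact_mod_cast k3)).trans (?_ : Nat.card (S.map (embR ψ)) ^ 2 *
    (g (finrank K B) * bim (red O a) (red O a) * bim (red O a') (red O a')) ^ 2 ≤ _)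
  gcongr

end Pool.Agent.Puig
end

-- merged part: Pool.Agent.Work.MP_cea1f0_al.X5
section
/-! The bound for the groups between `SL(V)` and `GL(V)` and their central quotients. -/

namespace Pool.Agent.Puig

open MonoidAlgebra Module

theorem subBound_aug (p m : ℕ) [Fact p.Prime] (hU : UData3 p) (hG : ∀ n, GLData p n) : ∃ c : ℕ,
    ∀ (O : ValuationSubring ℂ), (p : ℂ) ∈ O.nonunits → ∀ (K V H : Type) [Field K] [Finite K]
      [AddCommGroup V] [Module K V] [Finite V] [Group H] [Finite H] (ι : H →* (V ≃ₗ[K] V)),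
      (p : K) ≠ 0 → Nontrivial V → (∀ a : ℕ, p ^ a ∣ Nat.card (V ≃ₗ[K] V) → p ^ a ≤ m) →
      Function.Injective ι → (∀ g : V ≃ₗ[K] V, LinearEquiv.det g = 1 → g ∈ ι.range) →
      ∀ (D : Subgroup H) (j : MonoidAlgebra (kO O) H), IsPGroup p D → Prim D j → aug j = 1 →
        bim j j ≤ c := by
  obtain ⟨g, hg⟩ := hU
  obtain ⟨c, hc⟩ := topBound p (p * m) m (hG _)
  refine ⟨c, fun O hO K V H _ _ _ _ _ _ _ ι hp hV hm hι hs D j hD hj h1 => ?_⟩
  have := kO_charP p hO
  obtain ⟨e, U⟩ := hg O hO K hp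
  obtain ⟨M, N, ι₁, A, _, _, δ, a1, a2, a3, a4, a5⟩ := exists_mid p LinearEquiv.det hι hs
  have b1 := prim_pindex p a1 a2 δ a3 hj h1
  have b2 := (aug_push ι₁ j).trans h1
  obtain ⟨c₁, c1, c2⟩ := b1.exists_block
  have c3 : aug c₁ ≠ 0 := fun k => by
    rw [← c2, aug_mul, k, zero_mul] at b2
    exact zero_ne_one b2
  obtain ⟨b, -, d2, L⟩ := exists_lnk U hO hV N.subtype_injective a4 a5 c1
    ((act_fl_one _ _).2 c3)
  have h3 : finrank K V < p * m := rank_lt p (K := K) fun a h => hm a (by rwa [card_GL_eq])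
  refine (bim_map_inj a2 j j).trans ((L.bim c2).ge.trans
    (hc O hO K V hp h3.le hm _ _ ((hD.map _).map _) ((L.prim c2).1 b1) ?_))
  rw [aug_mul, aug_push, b2, one_mul]
  exact (a2_idem L.b_idem).resolve_left ((act_fl_one _ _).1 d2)

theorem subBound_uni (p m : ℕ) [Fact p.Prime] (hU : UData3 p) (hG : ∀ n, GLData p n) : ∃ c : ℕ,
    ∀ (O : ValuationSubring ℂ), (p : ℂ) ∈ O.nonunits → ∀ (K V H : Type) [Field K] [Finite K]
      [AddCommGroup V] [Module K V] [Finite V] [Group H] [Finite H] (ι : H →* (V ≃ₗ[K] V)),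
      (p : K) ≠ 0 → ¬ p ∣ Nat.card Kˣ → Nontrivial V →
      Function.Injective ι → (∀ g : V ≃ₗ[K] V, LinearEquiv.det g = 1 → g ∈ ι.range) →
      ∀ (b i : MonoidAlgebra (kO O) H) (D : Subgroup H) (n : ℕ), IsBlock b →
        act (kO O) ((flAct n K V).comp ι) b ≠ 0 → IsDefect p b D → Nat.card D ≤ m →
        IsSource b D i → bim i i ≤ c := by
  obtain ⟨c, hc⟩ := uniBound p m hU hG
  obtain ⟨g, hg⟩ := hU
  refine ⟨c, fun O hO K V H _ _ _ _ _ _ _ ι hp hq hV hι hs b i D n hb h0 hD hm hi => ?_⟩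
  obtain ⟨e, U⟩ := hg O hO K hp
  obtain ⟨b', d1, d2, L⟩ := exists_lnk U hO hV hι (M := ι.range.map LinearEquiv.det)
    (fun k => hq (k.trans (Subgroup.index_dvd_card _)))
    (fun g => by
      refine ⟨fun k => ⟨g, k, rfl⟩, fun ⟨u, k1, k2⟩ => ?_⟩
      simpa using ι.range.mul_mem k1 (hs (u⁻¹ * g) (by rw [map_mul, map_inv, k2, inv_mul_cancel])))
    hb h0
  exact (L.bim hi.2.1).ge.trans (hc O hO K V hp _ _ _ n d1 d2 ((L.defect hD.1).1 hD)
    ((L.card hD.1).trans_le hm) ((L.source hD.1 hi.2.1).1 hi))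

theorem quotBound (p m : ℕ) [Fact p.Prime] (hU : UData3 p) (hG : ∀ n, GLData p n) : ∃ c : ℕ,
    ∀ (O : ValuationSubring ℂ), (p : ℂ) ∈ O.nonunits → ∀ (K V H Q : Type) [Field K] [Finite K]
      [AddCommGroup V] [Module K V] [Finite V] [Group H] [Finite H] [Group Q] [Finite Q]
      (ι : H →* (V ≃ₗ[K] V)) (π : H →* Q) (n : ℕ) (θ : Q →* Equiv.Perm (Fl n K V)),
      Function.Injective ι → (∀ g : V ≃ₗ[K] V, LinearEquiv.det g = 1 → g ∈ ι.range) →
      Function.Surjective π → (∀ z, π z = 1 → ∃ a : K, ∀ v, ι z v = a • v) →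
      θ.comp π = (flAct n K V).comp ι → Nontrivial V → Nat.card Kˣ ∣ 2 * Nat.card Q →
      ∀ (b i : MonoidAlgebra (kO O) Q) (D : Subgroup Q), IsBlock b → act (kO O) θ b ≠ 0 →
        IsDefect p b D → Nat.card D ≤ m → IsSource b D i → bim i i ≤ c := by
  obtain ⟨c₁, h₁⟩ := subBound_aug p (4 * m ^ 3) hU hG
  obtain ⟨c₂, h₂⟩ := subBound_uni p m hU hG
  obtain ⟨c₃, h₃⟩ := def_bound' p m
  refine ⟨c₁ + c₂ + c₃ + 1,
    fun O hO K V H Q _ _ _ _ _ _ _ _ _ ι π n θ hι hs hπ hz hθ hV hn b i D hb h0 hD hm hi => ?_⟩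
  have := kO_charP p hO
  have := kO_algClosed O
  obtain ⟨z1, z2⟩ := ker_scalar hι hz
  by_cases hq : p ∣ Nat.card Kˣ
  · have hp : (p : K) ≠ 0 := fun k => by
      have := (CharP.charP_iff_prime_eq_zero (Fact.out : p.Prime)).2 k
      have := Fintype.ofFinite K
      obtain ⟨r, -, hr⟩ := FiniteField.card K p
      rw [Nat.card_units, Nat.card_eq_fintype_card] at hq
      have k1 := Nat.dvd_sub (show p ∣ Fintype.card K from hr ▸ dvd_pow_self p r.ne_zero) hq
      rw [Nat.sub_sub_self Fintype.card_pos] at k1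
      exact (Fact.out : p.Prime).not_dvd_one k1
    obtain ⟨c₀, k1, k2⟩ := exists_prim (kO O) (⊤ : Subgroup H)
    have k3 : act (kO O) θ (mapDomainAlgHom (kO O) (kO O) π c₀) = 1 := by
      rw [act_mapDomain, hθ, ← act_mapDomain, act_central p hp hq (princ_central hι
        ⟨fun u hu g => by
          simpa [mul_assoc] using ι.range.mul_mem (hs (g * u * g⁻¹ * u⁻¹) (by
            simp only [map_mul, map_inv]
            rw [mul_comm (LinearEquiv.det g), mul_inv_cancel_right, mul_inv_cancel])) hu⟩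
        k1.isBlock k2), aug_push, k2, one_smul]
    have k4 : aug b = 1 := aug_of_quot p hO hπ z1 k1.isBlock hb k2 fun k => h0 (by
      rw [← one_mul (act _ θ b), ← k3, ← map_mul, k, map_zero])
    obtain ⟨S, rfl⟩ := hD.sylow p hb k4
    obtain ⟨E, e1, e2⟩ := exists_pgroup_map p hπ hD.1
    obtain ⟨j, j1, j2⟩ := exists_prim (kO O) E
    have k5 := h₁ O hO K V H ι hp hV (ppart_cube p Nat.card_pos.ne' hn (card_GL_dvd hι hs hπ z2)
      fun a k => (sylow_card p S k).trans hm) hι hs E j e1 j1 j2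
    have k6 := bim_le_of_aug hi.1 (hi.aug_eq_one p hb k4 hD) (j1.1.map (mapDomainAlgHom (kO O) (kO O) π))
      (e2 ▸ fix_map π j1.2.2.1) ((aug_push π j).trans j2)
    have k7 := bim_map_surj hπ j j
    omega
  · obtain ⟨c, L⟩ := lnk_quot p hπ z1 (fun k => hq (k.trans z2)) hb.1 hb.2.2.1
    obtain ⟨E, e1, rfl⟩ := L.sub D hD.1
    obtain ⟨j, j1, rfl⟩ := L.surj i hi.2.1
    have k1 := L.block hb
    have k2 := (L.defect e1).2 hD
    have k3 := (L.card e1).ge.trans hm
    by_cases hp : (p : K) = 0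
    · by_cases h1 : E = ⊥
      · subst h1
        rw [Subgroup.map_bot] at hD hi
        exact (bim_bot p hb hD hi).trans (by omega)
      · have k4 := h₃ _ K V H ι hι hs hp c E k1 k2 h1 k3
        have k5 := Nat.card_le_card_of_injective _ hι
        have k6 := Nat.card_le_card_of_surjective _ hπ
        exact (bim_le _ _).trans (by omega)
    · have k4 := h₂ O hO K V H ι hp hq hV hι hs c j E n k1 (fun k => h0 (by
        rw [← L.one, map_mul, act_mapDomain, hθ, k, zero_mul])) k2 k3 ((L.source e1 j1).2 hi)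
      rw [L.bim j1]
      omega

end Pool.Agent.Puig
end

-- merged part: Pool.Agent.Work.MP_cea1f0_al.G4
section
/-! Base change from an algebraically closed field. -/

namespace Pool.Agent.Puig

open MonoidAlgebra

variable {F F' G : Type} [Field F] [Field F'] [Group G] [Finite G] (f : F →+* F')

omit [Finite G] in
theorem map_inj : Function.Injective (mapRingHom G f) := by
  intro x y h
  ext g
  exact f.injective (by rw [← coeff_mapRingHom, ← coeff_mapRingHom, h])

omit [Finite G] in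
theorem Br_map (D : Subgroup G) (x : MonoidAlgebra F G) :
    Br D (mapRingHom G f x) = mapRingHom G f (Br D x) := by
  ext g
  rw [coeff_mapRingHom, coeff_Br, coeff_Br, coeff_mapRingHom]
  split_ifs
  exacts [rfl, f.map_zero.symm]

omit [Finite G] in
theorem g4_Br (D : Subgroup G) (x : MonoidAlgebra F G) :
    Br D (mapRingHom G f x) ≠ 0 ↔ Br D x ≠ 0 := by
  rw [Br_map, map_ne_zero_iff _ (map_inj f)]

/- PLAN: `bim_le_map`; the images of a basis span. -/
theorem bim_map (a b : MonoidAlgebra F G) :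
    bim (mapRingHom G f a) (mapRingHom G f b) = bim a b := by
  refine le_antisymm ?_ (bim_le_map f a b)
  let W := LinearMap.range (LinearMap.mulLeftRight F (a, b))
  let v := fun j => mapRingHom G f ((Module.finBasis F W j : W) : MonoidAlgebra F G)
  have k : LinearMap.range (LinearMap.mulLeftRight F' (mapRingHom G f a, mapRingHom G f b)) ≤
      Submodule.span F' (Set.range v) := by
    rw [LinearMap.range_le_iff_comap, eq_top_iff]
    intro x _
    refine Submodule.span_le.2 ?_ (fix_span f (D := ⊥) (x := x) fun u hu => by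
      rw [Subgroup.mem_bot.1 hu, map_one, one_mul, mul_one])
    rintro _ ⟨y, -, rfl⟩
    have e := congrArg (fun w : W => mapRingHom G f (w : MonoidAlgebra F G))
      ((Module.finBasis F W).sum_repr ⟨_, y, rfl⟩)
    simp only [Submodule.coe_sum, Submodule.coe_smul, map_sum, a2_smul,
      LinearMap.mulLeftRight_apply, map_mul] at e
    rw [SetLike.mem_coe, Submodule.mem_comap, LinearMap.mulLeftRight_apply, ← e]
    exact Submodule.sum_mem _ fun j _ => Submodule.smul_mem _ _ (Submodule.subset_span ⟨j, rfl⟩)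
  exact (Submodule.finrank_mono k).trans ((finrank_range_le_card v).trans_eq (Fintype.card_fin _))

theorem g4_split [IsAlgClosed F] {D : Subgroup G} {i : MonoidAlgebra F G} (hi : Prim D i)
    {x : MonoidAlgebra F' G} (hx : Fix D x) :
    ∃ c : F', IsNilpotent (mapRingHom G f i * x * mapRingHom G f i - c • mapRingHom G f i) := by
  obtain ⟨r, hr⟩ := (prim_iff.1 hi).nil_prod
  let S := mapRingHom G f '' {y | y ∈ fixAlg F D ∧ i * y * i = y ∧ IsNilpotent y}
  have k1 : ∀ z ∈ Submodule.span F' (mapRingHom G f '' {y | Fix D y}), ∃ c : F',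
      mapRingHom G f i * z * mapRingHom G f i - c • mapRingHom G f i ∈ Submodule.span F' S := by
    intro z hz
    induction hz using Submodule.span_induction with
    | mem z hz =>
      obtain ⟨y, hy, rfl⟩ := hz
      have m : i * y * i ∈ fixAlg F D :=
        (fixAlg F D).mul_mem ((fixAlg F D).mul_mem hi.2.2.1 hy) hi.2.2.1
      have e : i * (i * y * i) * i = i * y * i := by
        rw [← mul_assoc, ← mul_assoc, hi.1.eq, mul_assoc _ i i, hi.1.eq]
      obtain ⟨c, hc⟩ := (prim_iff.1 hi).split m e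
      refine ⟨f c, Submodule.subset_span ⟨i * y * i - c • i, ⟨(fixAlg F D).sub_mem m
        ((fixAlg F D).smul_mem hi.2.2.1 _), ?_, hc⟩, ?_⟩⟩
      · rw [mul_sub, sub_mul, e, mul_smul_comm, smul_mul_assoc, hi.1.eq, hi.1.eq]
      · rw [map_sub, map_mul, map_mul, a2_smul]
    | zero => exact ⟨0, by simp⟩
    | add y z _ _ hy hz =>
      obtain ⟨c, hc⟩ := hy
      obtain ⟨d, hd⟩ := hz
      refine ⟨c + d, ?_⟩
      rw [mul_add, add_mul, add_smul, add_sub_add_comm]
      exact add_mem hc hd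
    | smul c z _ hz =>
      obtain ⟨d, hd⟩ := hz
      refine ⟨c * d, ?_⟩
      rw [mul_smul_comm, smul_mul_assoc, mul_smul, ← smul_sub]
      exact Submodule.smul_mem _ c hd
  obtain ⟨c, k2⟩ := k1 x (fix_span f hx)
  have k3 := Submodule.pow_mem_pow _ k2 r
  rw [Submodule.span_pow] at k3
  refine ⟨c, r, (Submodule.mem_bot F').1 (Submodule.span_le.2 (fun z hz => ?_) k3)⟩
  obtain ⟨v, rfl⟩ := Set.mem_pow.1 hz
  choose w hw hw' using fun k => (v k).2
  have k4 := congrArg (mapRingHom G f) (hr (List.ofFn w) List.length_ofFn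
    (List.forall_mem_ofFn_iff.2 hw))
  rw [map_list_prod, List.map_ofFn, map_zero] at k4
  rw [SetLike.mem_coe, Submodule.mem_bot, ← k4]
  exact congrArg (fun v => (List.ofFn v).prod) (funext fun k => (hw' k).symm)

/- PLAN: as `Prim.map` in `A2.lean` with `PrimIn.split` and `PrimIn.nil_prod`: an element of the
corner is `c • i' + n` with `n` in the span `N` of the images of the nilpotent elements, `N ^ r = 0`
and `i' * n = n = n * i'`, `N * N ≤ N`; for an idempotent `(c ^ 2 - c) • i' ∈ N`. -/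
theorem Prim.map' [IsAlgClosed F] {D : Subgroup G} {i : MonoidAlgebra F G} (hi : Prim D i) :
    Prim D (mapRingHom G f i) := by
  have h3 := hi.1.map (mapRingHom G f)
  refine ⟨h3, (map_ne_zero_iff _ (map_inj f)).2 hi.2.1, hi.2.2.1.map f, fun e k1 k2 k3 k4 => ?_⟩
  obtain ⟨c, hc⟩ := g4_split f hi k2
  rw [k3, k4] at hc
  by_cases h : c = 1
  · rw [h, one_smul] at hc
    exact Or.inr (sub_eq_zero.1 ((a2_diff h3 k1 k3 k4).1.eq_zero_of_isNilpotent
      (neg_sub e _ ▸ hc.neg))).symm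
  · have k := (((Commute.refl e).sub_right
      (Commute.smul_right (k4.trans k3.symm) c)).isNilpotent_mul_left hc).smul (1 - c)⁻¹
    rw [mul_sub, k1.eq, mul_smul_comm, k4, show e - c • e = (1 - c) • e by
      rw [sub_smul, one_smul], inv_smul_smul₀ (sub_ne_zero.2 (Ne.symm h))] at k
    exact Or.inl (k1.eq_zero_of_isNilpotent k)

theorem IsBlock.map [IsAlgClosed F] {b : MonoidAlgebra F G} (hb : IsBlock b) :
    IsBlock (mapRingHom G f b) := (hb.prim.map' f).isBlock

omit [Finite G] in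
theorem isDefect_map {p : ℕ} {b : MonoidAlgebra F G} {D : Subgroup G} :
    IsDefect p (mapRingHom G f b) D ↔ IsDefect p b D := by
  simp only [IsDefect, g4_Br]

theorem IsSource.map [IsAlgClosed F] {b i : MonoidAlgebra F G} {D : Subgroup G}
    (h : IsSource b D i) : IsSource (mapRingHom G f b) D (mapRingHom G f i) :=
  ⟨h.1.map' f, by rw [← map_mul, h.2.1], (g4_Br f D i).2 h.2.2⟩

/- PLAN: decompose `1` over `F` into blocks; their images are blocks with sum `1`. -/
theorem IsBlock.descend [IsAlgClosed F] {b : MonoidAlgebra F' G} (hb : IsBlock b) :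
    ∃ b₀, IsBlock b₀ ∧ mapRingHom G f b₀ = b := by
  obtain ⟨n, j, h1, -, h3⟩ := exists_decIn (B := fixAlg F (⊤ : Subgroup G)) IsIdempotentElem.one
    (one_mem _)
  have e : ∑ a, mapRingHom G f (j a) * b ≠ 0 := by
    rw [← Finset.sum_mul, ← map_sum, h3, map_one, one_mul]
    exact hb.2.1
  obtain ⟨a, -, ha⟩ := Finset.exists_ne_zero_of_sum_ne_zero e
  have k := (prim_iff.2 (h1 a)).isBlock
  have k' := k.map f
  have e1 := (hb.2.2.2 _ k'.1 k'.2.2.1).resolve_left ha
  have e2 := (k'.2.2.2 _ hb.1 hb.2.2.1).resolve_left (k'.2.2.1 b ▸ ha)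
  exact ⟨j a, k, e2.symm.trans ((k'.2.2.1 b).trans e1)⟩

/- PLAN: decompose `b₀ = ∑ j a` in `fixAlg F D`; `i = ∑ i * 1 * map (j a) * 1 * i`;
`PrimIn.nil_sum`, `PrimIn.eqv`; `Br D i = Br D a * Br D (map j) * Br D a'`. -/
theorem IsSource.descend (p : ℕ) [Fact p.Prime] [CharP F' p] [IsAlgClosed F]
    {b₀ : MonoidAlgebra F G} (hb : IsBlock b₀) {D : Subgroup G} (hD : IsPGroup p D)
    {i : MonoidAlgebra F' G} (hi : IsSource (mapRingHom G f b₀) D i) :
    ∃ i₀, IsSource b₀ D i₀ ∧ Eqv i (mapRingHom G f i₀) := by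
  obtain ⟨n, j, h1, h2, h3⟩ := exists_decIn (B := fixAlg F D) hb.1 fun u _ => hb.2.2.1 _
  have pj := fun a => (prim_iff.2 (h1 a)).map' f
  have fi := hi.1.2.2.1
  have ii := hi.1.1.eq
  have e : ∑ a, i * 1 * mapRingHom G f (j a) * 1 * i = i := by
    simp only [mul_one]
    rw [← Finset.sum_mul, ← Finset.mul_sum, ← map_sum, h3, mul_assoc, hi.2.1, ii]
  obtain ⟨a, ha⟩ : ∃ a, ¬ IsNilpotent (i * 1 * mapRingHom G f (j a) * 1 * i) := by
    by_contra! c
    have := (prim_iff.1 hi.1).nil_sum Finset.univ fun a _ => ⟨by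
      rw [mul_one, mul_one]
      exact mul_mem (mul_mem fi (pj a).2.2.1) fi, by
      simp only [mul_one, ← mul_assoc, ii]
      rw [mul_assoc _ i i, ii], c a⟩
    rw [e] at this
    exact hi.1.2.1 (hi.1.1.eq_zero_of_isNilpotent this)
  obtain ⟨x, hx, y, hy, k1, k2, k3, -⟩ :=
    (prim_iff.1 hi.1).eqv (prim_iff.1 (pj a)) (one_mem _) (one_mem _) ha
  refine ⟨j a, ⟨prim_iff.2 (h1 a), ?_, (g4_Br f D _).1 fun c => hi.2.2 ?_⟩, x, y, k1, k2⟩
  · rw [← h3, Finset.sum_mul, Finset.sum_eq_single a (fun b _ hb => h2 b a hb) (by simp),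
      (h1 a).1.eq]
  · rw [← k1, Br_mul p hD hx hy, ← k3, Br_mul p hD hx (pj a).2.2.1, c, mul_zero, zero_mul]

omit [Finite G] in
theorem g4_sum (b : MonoidAlgebra F G) (s : Finset G) :
    mapRingHom G f b * ∑ g ∈ s, of F' G g ≠ 0 ↔ b * ∑ g ∈ s, of F G g ≠ 0 := by
  rw [← map_ne_zero_iff _ (map_inj f), map_mul, map_sum]
  simp

/- PLAN: `F₀ = AlgebraicClosure (ZMod p)` maps to `F` and to `k` (`IsAlgClosed.lift` with
`ZMod.algebra`); descend, then map; `bim_eqv`, `bim_map`, `map_inj`. -/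
theorem transfer_field (p : ℕ) [Fact p.Prime] (F k : Type) [Field F] [IsAlgClosed F] [CharP F p]
    [Field k] [IsAlgClosed k] [CharP k p] {b i : MonoidAlgebra F G} {D : Subgroup G}
    (hb : IsBlock b) (hD : IsDefect p b D) (hi : IsSource b D i) :
    ∃ b' i' : MonoidAlgebra k G, IsBlock b' ∧ IsDefect p b' D ∧ IsSource b' D i' ∧
      bim i' i' = bim i i ∧ ∀ s : Finset G, b * ∑ g ∈ s, of F G g ≠ 0 →
        b' * ∑ g ∈ s, of k G g ≠ 0 := by
  let := ZMod.algebra F p
  let := ZMod.algebra k p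
  let f : AlgebraicClosure (ZMod p) →+* F := (IsAlgClosed.lift (R := ZMod p)).toRingHom
  let g : AlgebraicClosure (ZMod p) →+* k := (IsAlgClosed.lift (R := ZMod p)).toRingHom
  obtain ⟨b₀, h1, rfl⟩ := hb.descend f
  obtain ⟨i₀, h2, h3⟩ := IsSource.descend f p h1 hD.1 hi
  have h4 := h2.1.1.map (mapRingHom G f)
  refine ⟨_, _, h1.map g, (isDefect_map g).2 ((isDefect_map f).1 hD), h2.map g, ?_,
    fun s hs => (g4_sum g b₀ s).2 ((g4_sum f b₀ s).1 hs)⟩
  rw [bim_map, bim_eqv hi.1.1 h4 hi.1.1 h4 h3 h3, bim_map]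

end Pool.Agent.Puig
end

-- merged part: Pool.Agent.Work.MP_cea1f0_al.Defs2
section
/-! Unipotent blocks of general linear groups. -/

namespace Pool.Agent.Puig

open Classical in
/-- The sum of the invertible upper triangular matrices (the Borel subgroup `B`). -/
noncomputable def borel (F : Type) [Field F] (n : ℕ) (K : Type) [Field K] [Finite K] :
    MonoidAlgebra F (GL (Fin n) K) :=
  .ofCoeff (Finsupp.equivFunOnFinite.symm fun g =>
    if ∀ i j, j < i → (g : Matrix (Fin n) (Fin n) K) i j = 0 then 1 else 0)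

end Pool.Agent.Puig
end

-- merged part: Pool.Agent.Work.MP_cea1f0_al.W5
section
/-! The final assembly for the unipotent blocks. -/

namespace Pool.Agent.Puig

open MonoidAlgebra Module

theorem w5_Br {k G G' : Type} [Field k] [Group G] [Group G'] (ψ : G ≃* G') (D : Subgroup G)
    (x : MonoidAlgebra k G) :
    Br (D.map (ψ : G →* G')) (domCongr k k ψ x) ≠ 0 ↔ Br D x ≠ 0 := by
  have e : Br (D.map (ψ : G →* G')) (domCongr k k ψ x) = domCongr k k ψ (Br D x) := by
    classical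
    ext g
    obtain ⟨g, rfl⟩ := ψ.surjective g
    rw [coeff_Br, coeff_domCongr, coeff_domCongr, coeff_Br, ψ.symm_apply_apply]
    refine if_congr ?_ rfl rfl
    simp only [Subgroup.mem_centralizer_iff]
    refine ⟨fun h u hu => ψ.injective ?_, ?_⟩
    · rw [map_mul, map_mul]
      exact h _ ⟨u, hu, rfl⟩
    · rintro h _ ⟨u, hu, rfl⟩
      rw [MonoidHom.coe_coe, ← map_mul, ← map_mul, h u hu]
  rw [e, map_ne_zero_iff _ (domCongr k k ψ).injective]

/- PLAN: transport along `domCongr` (`fix_iff`, `coeff_Br`, `coeff_domCongr`). -/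
theorem transfer_group (p : ℕ) {k G G' : Type} [Field k] [Group G] [Group G'] [Finite G]
    (ψ : G ≃* G') {b i : MonoidAlgebra k G} {D : Subgroup G} (hb : IsBlock b) (hD : IsDefect p b D)
    (hi : IsSource b D i) :
    IsBlock (domCongr k k ψ b) ∧ IsDefect p (domCongr k k ψ b) (D.map (ψ : G →* G')) ∧
      IsSource (domCongr k k ψ b) (D.map (ψ : G →* G')) (domCongr k k ψ i) ∧
      bim (domCongr k k ψ i) (domCongr k k ψ i) = bim i i := by
  have : Finite G' := Finite.of_equiv G ψ.toEquiv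
  have hs : Function.Surjective (ψ : G →* G') := ψ.surjective
  refine ⟨?_, ⟨hD.1.map _, (w5_Br ψ D b).2 hD.2.1, fun E hE h1 h2 => ?_⟩,
    ⟨a4_prim ψ hi.1, by rw [← map_mul, hi.2.1], (w5_Br ψ D i).2 hi.2.2⟩, a4_bim ψ i i⟩
  · have := a4_prim ψ hb.prim
    rw [Subgroup.map_top_of_surjective _ hs] at this
    exact this.isBlock
  · rw [← Subgroup.map_comap_eq_self_of_surjective hs E] at h2 ⊢
    rw [hD.2.2 _ (hE.comap_of_injective _ ψ.injective) (Subgroup.map_le_iff_le_comap.1 h1)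
      ((w5_Br ψ _ b).1 h2)]

/-- The identification of invertible matrices with automorphisms. -/
noncomputable def glEq (n : ℕ) (K : Type) [Field K] : GL (Fin n) K ≃* ((Fin n → K) ≃ₗ[K] (Fin n → K)) :=
  Matrix.GeneralLinearGroup.toLin.trans (LinearMap.GeneralLinearGroup.generalLinearEquiv K _)

/-- The standard flag. -/
def w5_fl (n : ℕ) (K : Type) [Field K] : Fl n K (Fin n → K) :=
  ⟨fun t =>
    { carrier := {v | ∀ j : Fin n, (t : ℕ) ≤ j → v j = 0}
      add_mem' := fun {u v} hu hv j h => by rw [Pi.add_apply, hu j h, hv j h, add_zero]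
      zero_mem' := fun _ _ => rfl
      smul_mem' := fun c v hv j h => by rw [Pi.smul_apply, hv j h, smul_zero] },
    fun _ _ h _ hv j hj => hv j (le_trans h hj),
    (Submodule.eq_bot_iff _).2 fun _ hv => funext fun j => hv j (Nat.zero_le _),
    Submodule.eq_top_iff'.2 fun _ j hj => absurd j.2 (not_lt.2 hj)⟩

theorem w5_stab {n : ℕ} {K : Type} [Field K] (g : GL (Fin n) K) :
    flAct n K (Fin n → K) (glEq n K g) (w5_fl n K) = w5_fl n K ↔
      ∀ i j, j < i → (g : Matrix (Fin n) (Fin n) K) i j = 0 := by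
  have hg : ∀ v, glEq n K g v = (g : Matrix (Fin n) (Fin n) K).mulVec v := fun _ => rfl
  constructor
  · intro h i j hij
    have h1 : glEq n K g (Pi.single j 1) ∈ (w5_fl n K).1 j.succ := by
      rw [← h, flAct_apply]
      refine ⟨Pi.single j 1, fun l hl => Pi.single_eq_of_ne (fun e => ?_) _, rfl⟩
      rw [e, Fin.val_succ] at hl
      omega
    have h2 := h1 i hij
    rwa [hg, Matrix.mulVec_single_one] at h2
  · intro h
    refine Subtype.ext (funext fun t => ?_)
    rw [flAct_apply]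
    refine Submodule.eq_of_le_of_finrank_eq ?_ (LinearEquiv.finrank_map_eq _ _)
    rintro _ ⟨v, hv, rfl⟩ i hi
    show ∑ j, (g : Matrix (Fin n) (Fin n) K) i j * v j = 0
    refine Finset.sum_eq_zero fun j _ => ?_
    by_cases hj : (t : ℕ) ≤ j
    · rw [hv j hj, mul_zero]
    · exact mul_eq_zero_of_left (h i j (Fin.lt_def.2 ((not_le.1 hj).trans_le hi))) _

/- PLAN: the standard flag `ω₀ t = {v | ∀ j, t ≤ j → v j = 0}` has the upper triangular matrices as
stabiliser; `act b (Pi.single ω₀ 1) (θ x ω₀) = ∑ g ∈ x B, b g = (b * borel).coeff x`. -/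
theorem act_ne_of_borel {k K : Type} [Field k] [Field K] [Finite K] {n : ℕ}
    {b : MonoidAlgebra k (GL (Fin n) K)} (h : b * borel k n K ≠ 0) :
    act k (flAct n K (Fin n → K)) (domCongr k k (glEq n K) b) ≠ 0 := by
  classical
  intro h0
  refine h ?_
  have := Fintype.ofFinite (GL (Fin n) K)
  have : Fintype ((Fin n → K) ≃ₗ[K] (Fin n → K)) := Fintype.ofEquiv _ (glEq n K).toEquiv
  ext x
  have h1 := act_apply k (flAct n K (Fin n → K)) (domCongr k k (glEq n K) b)
    (Pi.single (w5_fl n K) 1) (flAct n K (Fin n → K) (glEq n K x) (w5_fl n K))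
  rw [h0] at h1
  rw [b1a_coeff_mul]
  refine Eq.trans ?_ h1.symm
  refine Fintype.sum_equiv (glEq n K).toEquiv _ _ fun g => ?_
  show _ = (domCongr k k (glEq n K) b).coeff (glEq n K g) * (Pi.single (w5_fl n K) (1 : k) :
    Fl n K (Fin n → K) → k) (flAct n K (Fin n → K) (glEq n K g)⁻¹ _)
  rw [coeff_domCongr, MulEquiv.symm_apply_apply, ← Equiv.Perm.mul_apply, ← map_mul, ← map_inv,
    ← map_mul, Pi.single_apply]
  exact congrArg _ (if_congr (w5_stab _).symm rfl rfl)

open Classical in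
theorem borel_eq_sum (n : ℕ) (K : Type) [Field K] [Finite K] : ∃ s : Finset (GL (Fin n) K),
    ∀ (F : Type) [Field F], borel F n K = ∑ g ∈ s, of F (GL (Fin n) K) g := by
  have := Fintype.ofFinite (GL (Fin n) K)
  refine ⟨Finset.univ.filter fun g => ∀ i j, j < i → (g : Matrix (Fin n) (Fin n) K) i j = 0,
    fun F _ => ?_⟩
  ext x
  simp [borel, Finsupp.single_apply]

/- PLAN: `exists_val`, `kO_charP`, `kO_algClosed`, `transfer_field`, `transfer_group`, `uniBound`;
in the defining characteristic `bim_bot`, or `def_bound` and `bim_le`. -/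
theorem uniBound_GL (p m : ℕ) [Fact p.Prime] (hU : UData3 p) (hG : ∀ n, GLData p n) : ∃ c : ℕ,
    ∀ (F : Type) [Field F] [IsAlgClosed F] [CharP F p] (n : ℕ) (K : Type) [Field K] [Finite K]
      (b i : MonoidAlgebra F (GL (Fin n) K)) (D : Subgroup (GL (Fin n) K)), IsBlock b →
      b * borel F n K ≠ 0 → IsDefect p b D → Nat.card D ≤ m → IsSource b D i → bim i i ≤ c := by
  obtain ⟨c₁, h₁⟩ := uniBound p m hU hG
  obtain ⟨c₂, h₂⟩ := def_bound p m
  obtain ⟨O, hO⟩ := exists_val p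
  have := kO_charP p hO
  have := kO_algClosed O
  refine ⟨c₁ + c₂ + 1, fun F _ _ _ n K _ _ b i D hb h0 hD hm hi => ?_⟩
  have hc : Nat.card (D.map (glEq n K :
      GL (Fin n) K →* ((Fin n → K) ≃ₗ[K] (Fin n → K)))) ≤ m := by
    rwa [Subgroup.card_map_of_injective (glEq n K).injective]
  by_cases hp : (p : K) = 0
  · by_cases h1 : D = ⊥
    · subst h1
      exact (bim_bot p hb hD hi).trans (by omega)
    · obtain ⟨a1, a2, -, -⟩ := transfer_group p (glEq n K) hb hD hi
      have := h₂ F K (Fin n → K) hp _ _ a1 a2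
        (fun e => h1 ((Subgroup.map_eq_bot_iff_of_injective _ (glEq n K).injective).1 e)) hc
      rw [← Nat.card_congr (glEq n K).toEquiv] at this
      exact (bim_le i i).trans (by omega)
  · obtain ⟨s, hs⟩ := borel_eq_sum n K
    obtain ⟨b', i', b1, b2, b3, b4, b5⟩ := transfer_field p F (kO O) hb hD hi
    obtain ⟨a1, a2, a3, a4⟩ := transfer_group p (glEq n K) b1 b2 b3
    have := h₁ O hO K (Fin n → K) hp _ _ _ n a1
      (act_ne_of_borel (by rw [hs]; exact b5 s (by rwa [← hs]))) a2 hc a3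
    omega

theorem main_U (p : ℕ) [Fact p.Prime] (hU : UData3 p) (hG : ∀ n, GLData p n) (F : Type) [Field F]
    [IsAlgClosed F] [CharP F p] (P : Type) [Group P] [Finite P] :
    ∃ (N : ℕ) (A : Fin N → Type) (_ : ∀ j, Ring (A j)) (_ : ∀ j, Algebra F (A j))
      (α : ∀ j, P →* (A j)ˣ), (∀ j, FiniteDimensional F (A j)) ∧
      ∀ (n : ℕ) (K : Type) [Field K] [Finite K] (b : MonoidAlgebra F (GL (Fin n) K))
        (D : Subgroup (GL (Fin n) K)) (i : MonoidAlgebra F (GL (Fin n) K)),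
        IsBlock b → b * borel F n K ≠ 0 → IsDefect p b D → Nonempty (D ≃* P) → IsSource b D i →
        ∃ j, IsoSrc (α j) D i := by
  obtain ⟨c, hc⟩ := uniBound_GL p (Nat.card P) hU hG
  obtain ⟨N, A, i1, i2, α, h1, h2⟩ := fin_of_dim p F P c
  refine ⟨N, A, i1, i2, α, h1, fun n K _ _ b D i hb h0 hD hP hi => ?_⟩
  exact h2 _ b D i hb hD hP hi
    (hc F n K b i D hb h0 hD (Nat.card_congr hP.some.toEquiv).le hi)

end Pool.Agent.Puig
end

-- merged part: Pool.Agent.Work.MP_cea1f0_al.X6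
section
/-! The final assembly for the groups `H / Z`, `SL ≤ H ≤ GL`. -/

namespace Pool.Agent.Puig

open MonoidAlgebra Module

theorem x6_comm {n : ℕ} {K : Type} [Field K] (h : n ≤ 1) (a b : GL (Fin n) K) : a * b = b * a := by
  have : Subsingleton (Fin n) := Fin.subsingleton_iff_le_one.2 h
  ext i j
  simp only [Units.val_mul, Matrix.mul_apply]
  refine Finset.sum_congr rfl fun l _ => ?_
  rw [Subsingleton.elim l i, Subsingleton.elim j i, mul_comm]

theorem x6_num {n : ℕ} {K : Type} [Field K] [Finite K] {H : Subgroup (GL (Fin (n + 2)) K)} {Q : Type}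
    [Group Q] {π : H →* Q} (hs : ∀ g : GL (Fin (n + 2)) K, Matrix.GeneralLinearGroup.det g = 1 → g ∈ H)
    (hz : ∀ z, π z = 1 → ∃ a : K, (z : GL (Fin (n + 2)) K).val = a • 1) :
    Nat.card Kˣ ∣ 2 * Nat.card Q := by
  let d : Kˣ →* (Fin (n + 2) → K) :=
    { toFun := fun t => Fin.cons (t : K) (Fin.cons ((t⁻¹ : Kˣ) : K) 1)
      map_one' := by
        funext i
        refine Fin.cases rfl (fun i => Fin.cases (by simp) (fun _ => rfl) i) i
      map_mul' := fun s t => by
        funext i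
        refine Fin.cases rfl (fun i => Fin.cases (by simp [mul_comm]) (fun _ => by simp) i) i }
  let κ : Kˣ →* GL (Fin (n + 2)) K :=
    ((Matrix.diagonalRingHom (Fin (n + 2)) K).toMonoidHom.comp d).toHomUnits
  have hκ : ∀ t, (κ t).val = Matrix.diagonal (d t) := fun _ => rfl
  have h1 : ∀ t, κ t ∈ H := fun t => hs _ (Units.ext (by
    rw [Matrix.GeneralLinearGroup.val_det_apply, hκ, Matrix.det_diagonal, Fin.prod_univ_succ,
      Fin.prod_univ_succ]
    simp [d]))
  let f := π.comp (κ.codRestrict H h1)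
  rw [← f.ker.card_mul_index, Subgroup.index_ker]
  refine mul_dvd_mul ?_ (Subgroup.card_subgroup_dvd_card _)
  have h2 : ∀ t : f.ker, t ^ 2 = 1 := fun t => by
    obtain ⟨a, ha⟩ := hz _ t.2
    have k0 : ((t : Kˣ) : K) = a := by simpa [hκ, d] using congrFun (congrFun ha 0) 0
    have k1 : (((t : Kˣ)⁻¹ : Kˣ) : K) = a := by
      simpa [hκ, d] using congrFun (congrFun ha (Fin.succ 0)) (Fin.succ 0)
    exact Subtype.ext (by
      rw [Subgroup.coe_pow, sq]
      exact mul_eq_one_iff_eq_inv.2 (Units.ext (k0.trans k1.symm)))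
  rw [← IsCyclic.exponent_eq_card]
  exact Monoid.exponent_dvd_of_forall_pow_eq_one h2

theorem x6_theta {H Q Ω : Type} [Group H] [Group Q] {π : H →* Q} (hπ : Function.Surjective π)
    (θ : H →* Equiv.Perm Ω) (h : ∀ z, π z = 1 → θ z = 1) :
    ∃ θ' : Q →* Equiv.Perm Ω, θ'.comp π = θ :=
  ⟨π.liftOfSurjective hπ ⟨θ, h⟩, π.liftOfRightInverse_comp _ _ _⟩

theorem x6_scalar {n : ℕ} {K V : Type} [Field K] [AddCommGroup V] [Module K V] [Finite V]
    {g : V ≃ₗ[K] V} {a : K} (h : ∀ v, g v = a • v) : flAct n K V g = 1 :=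
  Equiv.ext fun F => Subtype.ext (funext fun t =>
    w2_map fun v hv => h v ▸ (F.1 t).smul_mem a hv)

theorem x6_act {k Q Ω : Type} [Field k] [Group Q] [Finite Q] (θ : Q →* Equiv.Perm Ω) (ω : Ω)
    {b s : MonoidAlgebra k Q} {P : Q → Prop} [DecidablePred P] (hP : ∀ g, P g ↔ θ g ω = ω)
    (hs : ∀ g, s.coeff g = if P g then 1 else 0) (h : b * s ≠ 0) : act k θ b ≠ 0 := by
  classical
  intro h0
  refine h ?_
  have := Fintype.ofFinite Q
  ext x
  have h1 := act_apply k θ b (Pi.single ω 1) (θ x ω)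
  rw [h0] at h1
  rw [b1a_coeff_mul]
  refine Eq.trans (Finset.sum_congr rfl fun g _ => ?_) h1.symm
  rw [hs, ← Equiv.Perm.mul_apply, ← map_mul, Pi.single_apply]
  exact congrArg _ (if_congr (hP _) rfl rfl)

open Classical in
theorem borelQ_eq_sum {n : ℕ} {K : Type} [Field K] {H : Subgroup (GL (Fin n) K)} {Q : Type} [Group Q]
    [Finite Q] (π : H →* Q) : ∃ s : Finset Q,
    ∀ (F : Type) [Field F], borelQ F π = ∑ g ∈ s, of F Q g := by
  have := Fintype.ofFinite Q
  refine ⟨Finset.univ.filter fun g => ∃ h : H, π h = g ∧ IsUpper (h : GL (Fin n) K), fun F _ => ?_⟩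
  ext x
  simp [borelQ, Finsupp.single_apply]

theorem quotBound_GL (p m : ℕ) [Fact p.Prime] (hU : UData3 p) (hG : ∀ n, GLData p n) : ∃ c : ℕ,
    ∀ (F : Type) [Field F] [IsAlgClosed F] [CharP F p] (n : ℕ) (K : Type) [Field K] [Finite K]
      (H : Subgroup (GL (Fin n) K)) (Q : Type) [Group Q] [Finite Q] (π : H →* Q),
      (∀ g : GL (Fin n) K, Matrix.GeneralLinearGroup.det g = 1 → g ∈ H) → Function.Surjective π →
      (∀ z, π z = 1 → ∃ a : K, ((z : GL (Fin n) K) : Matrix (Fin n) (Fin n) K) = a • 1) →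
      ∀ (b i : MonoidAlgebra F Q) (D : Subgroup Q), IsBlock b → b * borelQ F π ≠ 0 →
        IsDefect p b D → Nat.card D ≤ m → IsSource b D i → bim i i ≤ c := by
  classical
  obtain ⟨c, hc⟩ := quotBound p m hU hG
  obtain ⟨O, hO⟩ := exists_val p
  have := kO_charP p hO
  have := kO_algClosed O
  refine ⟨c + m, fun F _ _ _ n K _ _ H Q _ _ π hs hπ hz b i D hb h0 hD hm hi => ?_⟩
  by_cases hn : n ≤ 1
  · refine (comm_bound p (fun a a' => ?_) hD hi.1).trans (by omega)
    obtain ⟨a, rfl⟩ := hπ a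
    obtain ⟨a', rfl⟩ := hπ a'
    rw [← map_mul, ← map_mul]
    exact congrArg π (Subtype.ext (x6_comm hn _ _))
  obtain ⟨n, rfl⟩ : ∃ n', n = n' + 2 := ⟨n - 2, by omega⟩
  let ι := (glEq (n + 2) K).toMonoidHom.comp H.subtype
  have hz' : ∀ z, π z = 1 → ∃ a : K, ∀ v, ι z v = a • v := fun z k => by
    obtain ⟨a, ha⟩ := hz z k
    refine ⟨a, fun v => ?_⟩
    show (z : GL (Fin (n + 2)) K).val.mulVec v = _
    rw [ha, Matrix.smul_mulVec, Matrix.one_mulVec]
  obtain ⟨θ, hθ⟩ := x6_theta hπ ((flAct (n + 2) K _).comp ι) fun z k =>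
    (hz' z k).elim fun a ha => x6_scalar ha
  obtain ⟨s, hs'⟩ := borelQ_eq_sum π
  obtain ⟨b', i', b1, b2, b3, b4, b5⟩ := transfer_field p F (kO O) hb hD hi
  have k1 : b' * borelQ (kO O) π ≠ 0 := by
    rw [hs']
    exact b5 s (by rwa [← hs'])
  have := hc O hO K (Fin (n + 2) → K) H Q ι π (n + 2) θ
    ((glEq (n + 2) K).injective.comp H.subtype_injective) (fun g k => by
      obtain ⟨g, rfl⟩ := (glEq (n + 2) K).surjective g
      refine ⟨⟨g, hs g (Units.ext ?_)⟩, rfl⟩
      have k2 := congrArg Units.val k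
      rw [LinearEquiv.coe_det] at k2
      exact (LinearMap.det_toLin' _).symm.trans k2) hπ hz' hθ inferInstance (x6_num hs hz) b' i' D b1
    (x6_act θ (w5_fl (n + 2) K) (fun g => ?_) (fun _ => rfl) k1) b2 hm b3
  · omega
  · have e : ∀ h, θ (π h) = flAct (n + 2) K _ (glEq (n + 2) K h) := DFunLike.congr_fun hθ
    refine ⟨fun ⟨h, k2, k3⟩ => ?_, fun k => ?_⟩
    · rw [← k2, e]
      exact (w5_stab _).2 k3
    · obtain ⟨h, rfl⟩ := hπ g
      exact ⟨h, rfl, (w5_stab _).1 (e h ▸ k)⟩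

theorem main_H (p : ℕ) [Fact p.Prime] (hU : UData3 p) (hG : ∀ n, GLData p n) (F : Type) [Field F]
    [IsAlgClosed F] [CharP F p] (P : Type) [Group P] [Finite P] :
    ∃ (N : ℕ) (A : Fin N → Type) (_ : ∀ j, Ring (A j)) (_ : ∀ j, Algebra F (A j))
      (α : ∀ j, P →* (A j)ˣ), (∀ j, FiniteDimensional F (A j)) ∧
      ∀ (n : ℕ) (K : Type) [Field K] [Finite K] (H : Subgroup (GL (Fin n) K)) (G : Type) [Group G]
        [Finite G] (π : H →* G), TypeA π →
        ∀ (b : MonoidAlgebra F G) (D : Subgroup G) (i : MonoidAlgebra F G),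
          IsBlock b → b * borelQ F π ≠ 0 → IsDefect p b D → Nonempty (D ≃* P) → IsSource b D i →
          ∃ j, IsoSrc (α j) D i := by
  obtain ⟨c, hc⟩ := quotBound_GL p (Nat.card P) hU hG
  obtain ⟨N, A, i1, i2, α, h1, h2⟩ := fin_of_dim p F P c
  refine ⟨N, A, i1, i2, α, h1, fun n K _ _ H G _ _ π ⟨hs, hπ, hz⟩ b D i hb h0 hD hP hi => ?_⟩
  exact h2 _ b D i hb hD hP hi
    (hc F n K H G π hs hπ hz b i D hb h0 hD (Nat.card_congr hP.some.toEquiv).le hi)

end Pool.Agent.Puig
end
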